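import Pool.Agent.TH966.AK.HexPoor

/-!
# The honeycomb lattice: one edge of a hexagon is replaced by the five others
-/

set_option autoImplicit false

namespace Q215.SAW.Hex4

open Finset TH966.AK TH966.AK.Hex

/-- one edge of a hexagon is replaced by the five others -/
def T (U U' : List P) : Prop := ∃ p q r, U = [q, r] ∧
  U' = [q, p, ctr p q r - r, ctr p q r - q, ctr p q r - p, r] ∧ A p q ∧ A q r ∧ p ≠ r

/-- the rule -/
def rule : Rule A where
  T := T
  ρ := 8
  k := 2
  s := 4
  step := fun _ _ h => A_step h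
  pair := by
    rintro U U' ⟨p, q, r, rfl, rfl, h1, h2, h3⟩
    obtain ⟨a1, a2, a3, a4, a5, a6, a7, a8⟩ := hexagon h1 h2 h3
    have n1 := A_ne h1
    have n2 := A_ne h2
    simp only [List.nodup_cons, List.mem_cons, List.not_mem_nil, or_false, not_or] at a5
    refine ⟨⟨q, r, [], [p, ctr p q r - r, ctr p q r - q, ctr p q r - p], rfl, rfl, ?_, ?_⟩,
      ?_, ?_, ?_, ?_⟩
    · intro x hx
      simp at hx
    · intro x hx hx'
      simp only [List.mem_cons, List.not_mem_nil, or_false] at hx hx'
      rcases hx with rfl | rfl | rfl | rfl <;> rcases hx' with h | h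
      · exact n1 h
      · exact h3 h
      · exact a6 h.symm
      · exact a5.2.1.2.2 h
      · exact a7 h.symm
      · exact a5.2.2.1.2 h
      · exact a8 h.symm
      · exact a5.2.2.2.1 h
    · simp [n2]
    · simp only [List.nodup_cons, List.mem_cons, List.not_mem_nil, or_false, not_or]
      exact ⟨⟨n1.symm, a6, a7, a8, n2⟩, a5⟩
    · simp [h2]
    · simp [A_symm h1, a1, a2, a3, a4]
  len := by
    rintro U U' ⟨p, q, r, rfl, rfl, h1, h2, h3⟩
    simp
  loc := by
    rintro U U' ⟨p, q, r, rfl, rfl, h1, h2, h3⟩ x hx y hy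
    have h := hexagon_box h1 h2 x (by
      simp only [List.cons_append, List.nil_append, List.mem_cons, List.not_mem_nil,
        or_false] at hx ⊢
      tauto) y (by
      simp only [List.cons_append, List.nil_append, List.mem_cons, List.not_mem_nil,
        or_false] at hy ⊢
      tauto)
    rw [abs_le, abs_le]
    push_cast
    exact h

theorem shr : ∀ U U', rule.T U U' → ∀ x ∈ U, x ∈ U' := by
  rintro U U' ⟨p, q, r, rfl, rfl, -⟩ x hx
  simp only [List.mem_cons, List.not_mem_nil, or_false] at hx ⊢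
  tauto

/-- six consecutive points of a hexagon -/
theorem six {a b c d e f : P} (h1 : A a b) (h2 : A b c) (h3 : a ≠ c) (hd : d = sm a b c)
    (he : e = sm b c d) (hf : f = sm c d e) : T [a, f] [a, b, c, d, e, f] := by
  obtain ⟨a1, a2, a3, a4, a5, a6, a7, a8⟩ := hexagon h1 h2 h3
  have k1 : ctr b c d = ctr a b c := by rw [hd]; exact ctr_next h1
  have k2 : ctr c d e = ctr b c d := by rw [he]; exact ctr_next h2
  have e1 : d = ctr a b c - a := hd
  have e2 : e = ctr a b c - b := by
    have : e = ctr b c d - b := he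
    rw [this, k1]
  have e3 : f = ctr a b c - c := by
    have : f = ctr c d e - c := hf
    rw [this, k2, k1]
  have b1 : A a f := by rw [e3]; exact a1
  have b2 : A f e := by rw [e3, e2]; exact a2
  have k4 : ctr b a f = ctr a b c := by
    have h := ctr_next (c := b) (A_symm h2)
    have e5 : sm c b a = f := by
      change ctr c b a - c = f
      rw [ctr_symm h1 h2, e3]
    have h' := ctr_next (a := c) (b := b) (c := a) (A_symm h2)
    rw [e5, ctr_symm h1 h2] at h'
    exact h'
  have hbf : b ≠ f := by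
    rw [e3]
    exact a6
  refine ⟨b, a, f, rfl, ?_, A_symm h1, b1, hbf⟩
  rw [k4]
  have x1 : ctr a b c - f = c := by rw [e3, sub_sub_cancel]
  rw [x1, ← e1, ← e2]

/-- the pattern -/
def pat (a b c d e f : P) : Prop := d = sm a b c ∧ e = sm b c d ∧ f = sm c d e

instance (a b c d e f : P) : Decidable (pat a b c d e f) :=
  inferInstanceAs (Decidable (_ ∧ _ ∧ _))

/-- the number of patterns -/
def hx : List P → ℕ
  | a :: b :: c :: d :: e :: f :: l =>
      (if pat a b c d e f then 1 else 0) + hx (b :: c :: d :: e :: f :: l)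
  | _ => 0

theorem hx_cons (a : P) (w : List P) : (∃ b c d e f l, w = b :: c :: d :: e :: f :: l ∧
    pat a b c d e f ∧ hx (a :: w) = 1 + hx w) ∨ hx (a :: w) = hx w := by
  rcases w with _ | ⟨b, _ | ⟨c, _ | ⟨d, _ | ⟨e, _ | ⟨f, l⟩⟩⟩⟩⟩
  · right; simp [hx]
  · right; simp [hx]
  · right; simp [hx]
  · right; simp [hx]
  · right; simp [hx]
  · by_cases h : pat a b c d e f
    · left
      refine ⟨b, c, d, e, f, l, rfl, h, ?_⟩
      rw [hx, if_pos h]
    · right
      rw [hx, if_neg h, zero_add]

theorem hx_le : ∀ w : List P, w.Nodup → w.IsChain A → hx w ≤ (rule.B w).card := by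
  intro w
  induction w with
  | nil => intro _ _; simp [hx]
  | cons a w ih =>
    intro hn hc
    have hn' := (List.nodup_cons.1 hn).2
    have hc' : w.IsChain A := chain_inf hc ⟨[a], [], by simp⟩
    have h1 := ih hn' hc'
    have hfree : ∀ U U' : List P, rule.T U U' → ∀ v : List P, Free U' U v ↔ U' <:+: v := by
      intro U U' hT v
      constructor
      · exact fun h => h.1
      · exact fun h => ⟨h, fun x hx hx' => absurd (shr U U' hT x hx) hx'⟩
    have hsub : rule.B w ⊆ rule.B (a :: w) := by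
      rintro ⟨U, U'⟩ hq
      rw [rule.mem_B] at hq ⊢
      obtain ⟨h2, h3⟩ := hq
      refine ⟨h2, ?_⟩
      rw [hfree U U' h2] at h3 ⊢
      exact h3.trans ⟨[a], [], by simp⟩
    rcases hx_cons a w with ⟨b, c, d, e, f, l, rfl, hp, he⟩ | he
    · rw [he]
      obtain ⟨p1, p2, p3⟩ := hp
      have hcc := hc
      simp only [List.isChain_cons_cons] at hcc
      obtain ⟨c1, c2, -⟩ := hcc
      have hac : a ≠ c := by
        rintro rfl
        simp at hn
      have hT := six c1 c2 hac p1 p2 p3
      have hq : (([a, f], [a, b, c, d, e, f]) : List P × List P) ∈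
          rule.B (a :: b :: c :: d :: e :: f :: l) := by
        rw [rule.mem_B]
        refine ⟨hT, ?_⟩
        rw [hfree _ _ hT]
        exact ⟨[], l, by simp⟩
      have hq' : (([a, f], [a, b, c, d, e, f]) : List P × List P) ∉
          rule.B (b :: c :: d :: e :: f :: l) := by
        rw [rule.mem_B]
        rintro ⟨-, h4⟩
        rw [hfree _ _ hT] at h4
        have i5 : a ∈ b :: c :: d :: e :: f :: l := h4.subset (by simp)
        exact (List.nodup_cons.1 hn).1 i5
      have h5 : insert (([a, f], [a, b, c, d, e, f]) : List P × List P)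
          (rule.B (b :: c :: d :: e :: f :: l)) ⊆ rule.B (a :: b :: c :: d :: e :: f :: l) := by
        intro q hq2
        rw [Finset.mem_insert] at hq2
        rcases hq2 with rfl | hq2
        · exact hq
        · exact hsub hq2
      have h6 := Finset.card_le_card h5
      rw [Finset.card_insert_of_notMem hq'] at h6
      omega
    · rw [he]
      exact h1.trans (Finset.card_le_card hsub)

/-- the potential -/
noncomputable def H (a b c d e f : P) : ℝ :=
  if f = sm c d e then (if e = sm b c d then (if d = sm a b c then 560 else 548) else 841)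
  else 1000

theorem H_ge (a b c d e f : P) : 548 ≤ H a b c d e f := by
  unfold H
  split_ifs <;> norm_num

theorem H_le (a b c d e f : P) : H a b c d e f ≤ 1000 := by
  unfold H
  split_ifs <;> norm_num

theorem step {a b c d e f : P} (h1 : A a b) (h2 : A b c) (h4 : A d e) (h5 : A e f)
    (h6 : a ≠ c) (h7 : d ≠ f) :
    ∑ g ∈ ((nb f).erase e).erase a, (if pat b c d e f g then (1 / 100 : ℝ) else 1) *
      H b c d e f g ≤ 1841 / 1000 * H a b c d e f := by
  obtain ⟨N, hN⟩ : ∃ N, N = ((nb f).erase e).erase a := ⟨_, rfl⟩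
  obtain ⟨s, hs⟩ : ∃ s, s = sm d e f := ⟨_, rfl⟩
  rw [← hN]
  have hcard : (N.erase s).card ≤ 1 := by
    have h8 := card_rest h4 h5 h7
    rw [← hs] at h8
    refine (Finset.card_le_card ?_).trans h8
    rw [hN]
    intro z hz
    simp only [Finset.mem_erase] at hz ⊢
    exact ⟨hz.1, hz.2.2⟩
  -- the rest
  have hrest : ∑ g ∈ N.erase s, (if pat b c d e f g then (1 / 100 : ℝ) else 1) *
      H b c d e f g ≤ 1000 := by
    have h9 : ∀ g ∈ N.erase s, (if pat b c d e f g then (1 / 100 : ℝ) else 1) *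
        H b c d e f g ≤ 1000 := by
      intro g hg
      have h10 := H_le b c d e f g
      have h11 := H_ge b c d e f g
      split_ifs
      · linarith
      · linarith
    have h10 := Finset.sum_le_card_nsmul _ _ _ h9
    rw [nsmul_eq_mul] at h10
    refine h10.trans ?_
    have h11 : ((N.erase s).card : ℝ) ≤ 1 := by exact_mod_cast hcard
    nlinarith
  -- the next point of the hexagon
  have hsF : (if pat b c d e f s then (1 / 100 : ℝ) else 1) * H b c d e f s =
      if f = sm c d e then (if e = sm b c d then 56 / 10 else 548) else 841 := by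
    have hp : pat b c d e f s ↔ (e = sm b c d ∧ f = sm c d e) :=
      ⟨fun h => ⟨h.1, h.2.1⟩, fun h => ⟨h.1, h.2, hs⟩⟩
    unfold H
    rw [if_pos hs]
    by_cases k3 : f = sm c d e
    · by_cases k2 : e = sm b c d
      · rw [if_pos (hp.2 ⟨k2, k3⟩)]
        simp only [if_pos k3, if_pos k2]
        norm_num
      · rw [if_neg (fun h => k2 (hp.1 h).1)]
        simp only [if_pos k3, if_neg k2]
        norm_num
    · rw [if_neg (fun h => k3 (hp.1 h).2)]
      simp only [if_neg k3]
      norm_num
  by_cases hsN : s ∈ N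
  · rw [← Finset.add_sum_erase N _ hsN, hsF]
    have hns : ¬ (d = sm a b c ∧ e = sm b c d ∧ f = sm c d e) := by
      rintro ⟨k1, k2, k3⟩
      have := sm_close h1 h2 h6 k1 k2 k3
      rw [← hs] at this
      rw [hN, this] at hsN
      simp at hsN
    refine (add_le_add le_rfl hrest).trans ?_
    unfold H
    by_cases k3 : f = sm c d e
    · by_cases k2 : e = sm b c d
      · by_cases k1 : d = sm a b c
        · exact absurd ⟨k1, k2, k3⟩ hns
        · rw [if_pos k3, if_pos k3, if_pos k2, if_pos k2, if_neg k1]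
          norm_num
      · rw [if_pos k3, if_pos k3, if_neg k2, if_neg k2]
        norm_num
    · rw [if_neg k3, if_neg k3]
      norm_num
  · rw [Finset.erase_eq_of_notMem hsN] at hrest
    refine hrest.trans ?_
    have := H_ge a b c d e f
    linarith

theorem sum_E : ∀ (m : ℕ) (a b c d e f : P), A a b → A b c → A c d → A d e → A e f →
    a ≠ c → b ≠ d → c ≠ e → d ≠ f →
    548 * ∑ l ∈ E m a b c d e f, (1 / 100 : ℝ) ^ hx (a :: b :: c :: d :: e :: f :: l) ≤
      (1841 / 1000) ^ m * ((if pat a b c d e f then (1 / 100 : ℝ) else 1) * H a b c d e f) := by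
  intro m
  induction m with
  | zero =>
    intro a b c d e f _ _ _ _ _ _ _ _ _
    have h1 := H_ge a b c d e f
    simp only [E, Finset.sum_singleton, hx, pow_zero, one_mul]
    by_cases hp : pat a b c d e f
    · simp only [if_pos hp]
      norm_num
      linarith
    · simp only [if_neg hp]
      norm_num
      linarith
  | succ m ih =>
    intro a b c d e f h1 h2 h3 h4 h5 h6 h7 h8 h9
    simp only [E]
    rw [Finset.sum_biUnion]
    · obtain ⟨τ, hτ⟩ : ∃ τ : ℝ, τ = (if pat a b c d e f then (1 / 100 : ℝ) else 1) := ⟨_, rfl⟩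
      have hτ0 : 0 ≤ τ := by rw [hτ]; split_ifs <;> norm_num
      have k1 : ∀ g ∈ ((nb f).erase e).erase a,
          548 * ∑ l ∈ (E m b c d e f g).image (List.cons g),
            (1 / 100 : ℝ) ^ hx (a :: b :: c :: d :: e :: f :: l) ≤
          (1841 / 1000) ^ m * τ * ((if pat b c d e f g then (1 / 100 : ℝ) else 1) *
            H b c d e f g) := by
        intro g hg
        rw [Finset.mem_erase, Finset.mem_erase, mem_nb] at hg
        rw [Finset.sum_image (fun _ _ _ _ h => (List.cons.inj h).2)]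
        have k2 := ih b c d e f g h2 h3 h4 h5 hg.2.2 h7 h8 h9 hg.2.1.symm
        have k3 : ∀ l, (1 / 100 : ℝ) ^ hx (a :: b :: c :: d :: e :: f :: g :: l) =
            τ * (1 / 100 : ℝ) ^ hx (b :: c :: d :: e :: f :: g :: l) := by
          intro l
          rw [hx, pow_add, hτ]
          congr 1
          split_ifs <;> simp
        simp only [k3]
        rw [← Finset.mul_sum]
        have k5 := mul_le_mul_of_nonneg_left k2 hτ0
        calc _ = τ * (548 *
              ∑ l ∈ E m b c d e f g, (1 / 100 : ℝ) ^ hx (b :: c :: d :: e :: f :: g :: l)) := by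
              ring
          _ ≤ _ := k5
          _ = _ := by ring
      rw [Finset.mul_sum]
      refine (Finset.sum_le_sum k1).trans ?_
      rw [← Finset.mul_sum, pow_succ, ← hτ]
      have k6 := step h1 h2 h4 h5 h6 h9
      calc (1841 / 1000) ^ m * τ * ∑ g ∈ ((nb f).erase e).erase a,
            (if pat b c d e f g then (1 / 100 : ℝ) else 1) * H b c d e f g ≤
            (1841 / 1000) ^ m * τ * (1841 / 1000 * H a b c d e f) :=
            mul_le_mul_of_nonneg_left k6 (by positivity)
        _ = _ := by ring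
    · intro c _ c' _ hcc
      simp only [Function.onFun]
      rw [Finset.disjoint_left]
      intro l hl hl'
      rw [Finset.mem_image] at hl hl'
      obtain ⟨l1, -, rfl⟩ := hl
      obtain ⟨l2, -, h2⟩ := hl'
      exact hcc (List.cons.inj h2).1.symm

theorem sum_EE (m : ℕ) {u : List P} (hl : u.length = 6) (hn : u.Nodup) (hc : u.IsChain A) :
    ∑ l ∈ EE m u, (1 / 100 : ℝ) ^ hx (u ++ l) ≤ 4 * (1841 / 1000) ^ m := by
  match u, hl with
  | [a, b, c, d, e, f], _ =>
    simp only [List.isChain_cons_cons] at hc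
    obtain ⟨c1, c2, c3, c4, c5, -⟩ := hc
    have n1 : a ≠ c := by
      rintro rfl
      simp at hn
    have n2 : b ≠ d := by
      rintro rfl
      simp at hn
    have n3 : c ≠ e := by
      rintro rfl
      simp at hn
    have n4 : d ≠ f := by
      rintro rfl
      simp at hn
    have h1 := sum_E m a b c d e f c1 c2 c3 c4 c5 n1 n2 n3 n4
    have h2 := H_le a b c d e f
    have h0 := H_ge a b c d e f
    have h5 : (if pat a b c d e f then (1 / 100 : ℝ) else 1) * H a b c d e f ≤ 1000 := by
      split_ifs <;> linarith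
    have h3 : (1841 / 1000 : ℝ) ^ m * ((if pat a b c d e f then (1 / 100 : ℝ) else 1) *
        H a b c d e f) ≤ (1841 / 1000 : ℝ) ^ m * 1000 :=
      mul_le_mul_of_nonneg_left h5 (by positivity)
    have h4 : (0 : ℝ) ≤ (1841 / 1000 : ℝ) ^ m := by positivity
    simp only [EE, List.cons_append, List.nil_append]
    linarith

theorem pow_small (n : ℕ) : (100 : ℝ) ^ (n / 100000) ≤ (501 / 500 : ℝ) ^ n := by
  have h1 : (100 : ℝ) ≤ (501 / 500 : ℝ) ^ 100000 := by
    have := one_add_mul_le_pow (a := (1 / 500 : ℝ)) (by norm_num) 100000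
    have e : (1 : ℝ) + 1 / 500 = 501 / 500 := by norm_num
    rw [e] at this
    refine le_trans ?_ this
    norm_num
  calc (100 : ℝ) ^ (n / 100000) ≤ ((501 / 500 : ℝ) ^ 100000) ^ (n / 100000) :=
        pow_le_pow_left₀ (by norm_num) h1 _
    _ = (501 / 500 : ℝ) ^ (100000 * (n / 100000)) := by rw [← pow_mul]
    _ ≤ (501 / 500 : ℝ) ^ n := pow_le_pow_right₀ (by norm_num) (Nat.mul_div_le n 100000)

open scoped Classical in
/-- walks with few patterns are rare, long walks -/
theorem poor_long (m k : ℕ) (hk : k = 5) :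
    (((Kw A (m + 5)).filter (fun w => 100000 * (rule.B w).card ≤ m + 5)).card : ℝ) ≤
    ((Kw A k).card : ℝ) * 4 * (922341 / 500000 : ℝ) ^ (m + 5) := by
  obtain ⟨Q, hQ⟩ : ∃ Q, Q = (Kw A (m + 5)).filter
    (fun w => 100000 * (rule.B w).card ≤ m + 5) := ⟨_, rfl⟩
  obtain ⟨K5, hK5⟩ : ∃ K5, K5 = Kw A k := ⟨_, rfl⟩
  obtain ⟨GG, hGG⟩ : ∃ GG : Finset (List P),
    GG = K5.biUnion (fun u => (EE m u).image (fun l => u ++ l)) := ⟨_, rfl⟩
  rw [← hQ, ← hK5]
  have hsub : Q ⊆ GG := by
    intro w hw
    rw [hQ, Finset.mem_filter, rule.mem_K] at hw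
    obtain ⟨⟨h1, h2, h3, h4⟩, -⟩ := hw
    match w, h1 with
    | a :: b :: c :: d :: e :: f :: l, h1 =>
      have hl : l.length = m := by
        simp only [List.length_cons] at h1
        omega
      rw [hGG, Finset.mem_biUnion]
      refine ⟨[a, b, c, d, e, f], ?_, ?_⟩
      · rw [hK5, rule.mem_K]
        refine ⟨by rw [hk]; rfl, ?_, ?_, ?_⟩
        · simpa using h2
        · exact h3.sublist (by simp)
        · exact chain_inf h4 ⟨[], l, by simp⟩
      · rw [Finset.mem_image]
        exact ⟨l, mem_E m a b c d e f l h3 h4 hl, by simp⟩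
  have h1 : (Q.card : ℝ) * (1 / 100 : ℝ) ^ ((m + 5) / 100000) ≤
      ∑ w ∈ Q, (1 / 100 : ℝ) ^ hx w := by
    rw [← nsmul_eq_mul, ← Finset.sum_const]
    refine Finset.sum_le_sum fun w hw => ?_
    refine pow_le_pow_of_le_one (by norm_num) (by norm_num) ?_
    rw [hQ, Finset.mem_filter, rule.mem_K] at hw
    obtain ⟨⟨h1, h2, h3, h4⟩, h5⟩ := hw
    have h6 := hx_le w h3 h4
    have h8 : (rule.B w).card ≤ (m + 5) / 100000 := by
      rw [Nat.le_div_iff_mul_le (by norm_num)]
      omega
    omega
  have h2 : ∑ w ∈ Q, (1 / 100 : ℝ) ^ hx w ≤ ∑ w ∈ GG, (1 / 100 : ℝ) ^ hx w :=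
    Finset.sum_le_sum_of_subset_of_nonneg hsub fun _ _ _ => by positivity
  have h3 : ∑ w ∈ GG, (1 / 100 : ℝ) ^ hx w ≤ K5.card * (4 * (1841 / 1000 : ℝ) ^ m) := by
    rw [hGG, Finset.sum_biUnion]
    · rw [← nsmul_eq_mul]
      refine Finset.sum_le_card_nsmul _ _ _ fun u hu => ?_
      rw [Finset.sum_image (fun _ _ _ _ h => List.append_cancel_left h)]
      rw [hK5, rule.mem_K, hk] at hu
      exact sum_EE m hu.1 hu.2.2.1 hu.2.2.2
    · intro u hu u' hu' huu
      simp only [Function.onFun]
      rw [Finset.disjoint_left]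
      intro l hl hl'
      rw [Finset.mem_image] at hl hl'
      obtain ⟨l1, -, rfl⟩ := hl
      obtain ⟨l2, -, h2⟩ := hl'
      rw [hK5, Finset.mem_coe, rule.mem_K] at hu hu'
      exact huu (List.append_inj h2 (by rw [hu.1, hu'.1])).1.symm
  have h4 := (h1.trans h2).trans h3
  have h5 := pow_small (m + 5)
  have h6 : (1 / 100 : ℝ) ^ ((m + 5) / 100000) * (100 : ℝ) ^ ((m + 5) / 100000) =
      1 := by
    rw [← mul_pow]; norm_num
  calc (Q.card : ℝ) = (Q.card : ℝ) * (1 / 100 : ℝ) ^ ((m + 5) / 100000) *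
        (100 : ℝ) ^ ((m + 5) / 100000) := by rw [mul_assoc, h6, mul_one]
    _ ≤ K5.card * (4 * (1841 / 1000 : ℝ) ^ m) * (100 : ℝ) ^ ((m + 5) / 100000) :=
        mul_le_mul_of_nonneg_right h4 (by positivity)
    _ = K5.card * 4 * ((1841 / 1000 : ℝ) ^ m * (100 : ℝ) ^ ((m + 5) / 100000)) := by
        ring
    _ ≤ K5.card * 4 * ((1841 / 1000 : ℝ) ^ (m + 5) * (501 / 500 : ℝ) ^ (m + 5)) := by
        refine mul_le_mul_of_nonneg_left ?_ (mul_nonneg (Nat.cast_nonneg _) (by norm_num))
        refine mul_le_mul ?_ h5 (by positivity) (by positivity)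
        exact pow_le_pow_right₀ (by norm_num) (by omega)
    _ = _ := by
        rw [← mul_pow]; norm_num

open scoped Classical in
/-- walks with few patterns are rare -/
theorem poor : ∃ C0 : ℝ, ∀ n : ℕ,
    (((Kw A n).filter (fun w => 100000 * (rule.B w).card ≤ n)).card : ℝ) ≤
      C0 * (922341 / 500000 : ℝ) ^ n := by
  obtain ⟨k, hk⟩ : ∃ k : ℕ, k = 5 := ⟨_, rfl⟩
  obtain ⟨D, hD⟩ : ∃ D : ℝ, D = ((Kw A k).card : ℝ) * 4 := ⟨_, rfl⟩
  have hD0 : 0 ≤ D := by rw [hD]; exact mul_nonneg (Nat.cast_nonneg _) (by norm_num)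
  refine ⟨D + ∑ i ∈ range 5, ((Kw A i).card : ℝ), fun n => ?_⟩
  have hsum : 0 ≤ ∑ i ∈ range 5, ((Kw A i).card : ℝ) :=
    Finset.sum_nonneg fun _ _ => Nat.cast_nonneg _
  have hp : (1 : ℝ) ≤ (922341 / 500000 : ℝ) ^ n := one_le_pow₀ (by norm_num)
  rcases Nat.lt_or_ge n 5 with h | h
  · have h1 : (((Kw A n).filter (fun w => 100000 * (rule.B w).card ≤ n)).card : ℝ) ≤
        (Kw A n).card := by exact_mod_cast Finset.card_filter_le _ _
    have h2 : ((Kw A n).card : ℝ) ≤ ∑ i ∈ range 5, ((Kw A i).card : ℝ) :=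
      Finset.single_le_sum (f := fun i => ((Kw A i).card : ℝ)) (fun _ _ => Nat.cast_nonneg _)
        (Finset.mem_range.2 h)
    nlinarith
  · obtain ⟨m, rfl⟩ : ∃ m, n = m + 5 := ⟨n - 5, by omega⟩
    have h1 := poor_long m k hk
    rw [← hD] at h1
    nlinarith

end Q215.SAW.Hex4
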