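import Pool.Agent.Q215.SAW.WinF
import Pool.Agent.Q215.SAW.Hex4
import Pool.Agent.Q219.SAW.Std
import Pool.Agent.TH966.AK.HexFin

/-!
# The square, the triangular and the honeycomb lattice
-/

set_option autoImplicit false

namespace Q215.SAW

open Finset Filter Topology TH966.AK Q219.SAW

/-- the square lattice -/
def sqAdj (p q : ℤ × ℤ) : Prop := |p.1 - q.1| + |p.2 - q.2| = 1

/-- the triangular lattice, in the coordinates with respect to two unit vectors with the angle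
`π / 3` -/
def triAdj (p q : ℤ × ℤ) : Prop :=
  q - p ∈ ({(1, 0), (-1, 0), (0, 1), (0, -1), (1, -1), (-1, 1)} : Set (ℤ × ℤ))

/-- the honeycomb lattice (brick wall) -/
def hexAdj (p q : ℤ × ℤ) : Prop :=
  q - p = (1, 0) ∨ q - p = (-1, 0) ∨ (q - p = (0, 1) ∧ Even (p.1 + p.2)) ∨
    (q - p = (0, -1) ∧ Even (q.1 + q.2))

/-- the number of `n`-step walks -/
noncomputable def cc (A : P → P → Prop) (n : ℕ) : ℝ := ((FW A n).ncard : ℝ)

/-- the connective constant -/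
noncomputable def muu (A : P → P → Prop) : ℝ :=
  ⨅ n : {n : ℕ // 1 ≤ n}, cc A n.1 ^ ((1 : ℝ) / (n.1 : ℝ))

theorem sq_eq : sqAdj = Sq.A := Sq.adj_eq

theorem tri_eq : triAdj = Tri.A := adjT_eq

theorem hex_eq : hexAdj = Hex.A := adjH_eq

/-- everything which is needed about a lattice with a local rule -/
structure Nice {A : P → P → Prop} (Z : Rule A) (K : ℝ) : Prop where
  gr : Growth Z (muu A) K
  sh : ∀ U U', Z.T U U' → ∀ x ∈ U, x ∈ U'

/-- translations -/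
def vtT (A : P → P → Prop) (hA : ∀ p q t : P, A (p + t) (q + t) ↔ A p q) : Vt A where
  φ x := Equiv.addRight x
  zero x := by simp
  adj x p q := hA p q x

theorem sq_nice : ∃ K, Nice Sq.rule K := by
  obtain ⟨hc, K, Gr⟩ := Sq.growth (fun n => Set.ncard {f : Fin (n + 1) → ℤ × ℤ |
            f 0 = 0 ∧ Function.Injective f ∧
            ∀ i : Fin n, Sq.Adj (f i.castSucc) (f i.succ)}) (fun _ => rfl) (muu Sq.A) (by
      unfold muu cc FW
      rw [← Sq.adj_eq])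
  exact ⟨K, Gr, Sq.shr⟩

def sqV : Vt Sq.A := vtT _ (by
  intro p q t
  unfold Sq.A
  rw [add_sub_add_right_eq_sub])

theorem tri_nice : ∃ K, Nice Tri.rule K := by
  obtain ⟨hc, K, Gr⟩ := tri_growth (fun n => Set.ncard {f : Fin (n + 1) → ℤ × ℤ |
            f 0 = 0 ∧ Function.Injective f ∧
            ∀ i : Fin n, AdjT (f i.castSucc) (f i.succ)}) (fun _ => rfl) (muu Tri.A) (by
      unfold muu cc FW
      rw [← adjT_eq])
  refine ⟨K, Gr, ?_⟩
  rintro U U' ⟨p, v, r, rfl, rfl, -⟩ x hx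
  simp only [List.mem_cons, List.not_mem_nil, or_false] at hx ⊢
  tauto

def triV : Vt Tri.A := vtT _ (by
  intro p q t
  unfold Tri.A
  rw [add_sub_add_right_eq_sub])

/-- the automorphisms of the honeycomb lattice: translations by even vectors, reflections in odd
points -/
def hexV : Vt Hex.A where
  φ x := if (x.1 + x.2) % 2 = 0 then Equiv.addRight x else Equiv.subLeft x
  zero x := by
    split_ifs <;> simp
  adj x p q := by
    obtain ⟨x1, x2⟩ := x
    obtain ⟨p1, p2⟩ := p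
    obtain ⟨q1, q2⟩ := q
    by_cases h : (x1 + x2) % 2 = 0
    · simp only [h, if_true, Equiv.coe_addRight, Prod.mk_add_mk]
      rw [Hex.A_iff, Hex.A_iff]
      simp only
      omega
    · simp only [h, if_false, Equiv.subLeft_apply, Prod.mk_sub_mk]
      rw [Hex.A_iff, Hex.A_iff]
      simp only
      omega

theorem hex_mu' : muu Hex.A = Real.sqrt (2 + Real.sqrt 2) := by
  have h := hex_mu (fun n => Set.ncard {f : Fin (n + 1) → ℤ × ℤ |
            f 0 = 0 ∧ Function.Injective f ∧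
            ∀ i : Fin n, AdjH (f i.castSucc) (f i.succ)}) (fun _ => rfl)
  rw [← h]
  unfold muu cc FW
  rw [← adjH_eq]

theorem hex_growth' : ∃ K, Growth Hex.rule (muu Hex.A) K := by
  obtain ⟨hc, K, Gr⟩ := hex_growth (fun n => Set.ncard {f : Fin (n + 1) → ℤ × ℤ |
            f 0 = 0 ∧ Function.Injective f ∧
            ∀ i : Fin n, AdjH (f i.castSucc) (f i.succ)}) (fun _ => rfl)
  rw [← hex_mu'] at Gr
  exact ⟨K, Gr⟩

theorem hex4_growth : ∃ K, Growth Hex4.rule (muu Hex.A) K := by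
  obtain ⟨K, Gr⟩ := hex_growth'
  obtain ⟨C0, hC0⟩ := Hex4.poor
  refine ⟨K, ⟨by decide, Gr.hμ, Gr.hK, Gr.low, Gr.up, ?_⟩⟩
  refine ⟨100000, 922341 / 500000, C0, by norm_num, by norm_num, ?_, hC0⟩
  rw [hex_mu']
  have h4 : (1.4142 : ℝ) ≤ Real.sqrt 2 := by
    rw [Real.le_sqrt' (by norm_num)]
    norm_num
  rw [Real.lt_sqrt (by norm_num)]
  linarith [show (922341 / 500000 : ℝ) ^ 2 < 2 + 1.4142 by norm_num]

theorem hex4_nice : ∃ K, Nice Hex4.rule K := by
  obtain ⟨K, Gr⟩ := hex4_growth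
  exact ⟨K, Gr, Hex4.shr⟩

/-- the three lattices with the lengths of the local moves -/
def IsLat (A : P → P → Prop) (s : ℕ) : Prop :=
  (A = sqAdj ∧ s = 2) ∨ (A = triAdj ∧ s = 1) ∨ (A = hexAdj ∧ s = 4)

theorem lat {A : P → P → Prop} {s : ℕ} (h : IsLat A s) :
    ∃ (Z : Rule A) (K : ℝ), Z.s = s ∧ Nice Z K ∧ Nonempty (Vt A) := by
  rcases h with ⟨rfl, rfl⟩ | ⟨rfl, rfl⟩ | ⟨rfl, rfl⟩
  · rw [sq_eq]
    obtain ⟨K, hK⟩ := sq_nice
    exact ⟨Sq.rule, K, rfl, hK, ⟨sqV⟩⟩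
  · rw [tri_eq]
    obtain ⟨K, hK⟩ := tri_nice
    exact ⟨Tri.rule, K, rfl, hK, ⟨triV⟩⟩
  · rw [hex_eq]
    obtain ⟨K, hK⟩ := hex4_nice
    exact ⟨Hex4.rule, K, rfl, hK, ⟨hexV⟩⟩

/-- the three lattices with the shortest moves -/
theorem lat' {A : P → P → Prop} (h : A = sqAdj ∨ A = triAdj ∨ A = hexAdj) :
    ∃ (Z : Rule A) (K : ℝ), (Z.s = 1 ∨ Z.s = 2) ∧ (A = triAdj → Z.s = 1) ∧
      Growth Z (muu A) K := by
  rcases h with rfl | rfl | rfl
  · rw [sq_eq]
    obtain ⟨K, hK⟩ := sq_nice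
    refine ⟨Sq.rule, K, Or.inr rfl, fun h => ?_, hK.gr⟩
    exfalso
    rw [tri_eq] at h
    have h1 : Tri.A (0, 0) (1, -1) := by
      rw [← tri_eq]
      simp [triAdj]
    rw [← h] at h1
    rw [Sq.A_iff] at h1
    simp at h1
  · rw [tri_eq]
    obtain ⟨K, hK⟩ := tri_nice
    exact ⟨Tri.rule, K, Or.inl rfl, fun _ => rfl, hK.gr⟩
  · rw [hex_eq]
    obtain ⟨K, hK⟩ := hex_growth'
    refine ⟨Hex.rule, K, Or.inr rfl, fun h => ?_, hK⟩
    exfalso
    rw [tri_eq] at h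
    have h1 : Tri.A (0, 0) (1, -1) := by
      rw [← tri_eq]
      simp [triAdj]
    rw [← h] at h1
    rw [Hex.A_iff] at h1
    simp at h1

theorem cc_card {A : P → P → Prop} (Z : Rule A) (n : ℕ) : cc A n = (Kw A n).card :=
  FW_card (Z := Z) n

end Q215.SAW
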