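import Pool.Agent.Q215.SAW.Glue

/-!
# Almost convex sequences: bounds between the members of a sequence with gaps of order `√t`
-/

set_option autoImplicit false

namespace Q215.SAW.Cvx

open Filter Topology

variable {x : ℕ → ℝ} {D : ℝ} {k0 : ℕ}

/-- the three point inequality -/
theorem three_pt (hx : AC x D k0) (hD : 0 ≤ D) {u m h : ℕ} (hu : k0 ≤ u) (hu1 : 1 ≤ u) :
    ((m : ℝ) + h) * x (u + m) ≤ h * x u + m * x (u + m + h) +
      D / (2 * u) * (m * h * (m + h)) := by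
  rcases Nat.eq_zero_or_pos m with rfl | hm
  · simp
  obtain ⟨i, rfl⟩ : ∃ i, m = i + 1 := ⟨m - 1, by omega⟩
  have h1 := z_slope (z := fun i : ℕ => x (u + i) + D / (2 * u) * (i : ℝ) ^ 2)
    (shift hx hD hu hu1) i h
  simp only [add_zero, Nat.cast_zero, ne_eq, OfNat.ofNat_ne_zero, not_false_eq_true, zero_pow,
    mul_zero, ← add_assoc] at h1
  push_cast at h1 ⊢
  simp only [← add_assoc] at h1 ⊢
  nlinarith

/-- upper bounds -/
theorem upK (hx : AC x D k0) (hD : 0 ≤ D) {t : ℕ → ℕ} (ht : Tendsto t atTop atTop) {η : ℝ}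
    (hg : ∀ᶠ j in atTop, (t (j + 1) : ℝ) - t j ≤ η * √(t j)) {b : ℝ}
    (hb : ∀ᶠ j in atTop, x (t j) ≤ b) : ∀ᶠ k in atTop, x k ≤ b + D * η ^ 2 := by
  obtain ⟨j0, hj0⟩ := eventually_atTop.1 ((hg.and hb).and
    ((ht.eventually_ge_atTop k0).and (ht.eventually_ge_atTop 1)))
  obtain ⟨N0, hN0⟩ := index ht j0
  refine eventually_atTop.2 ⟨N0, fun n hn => ?_⟩
  obtain ⟨j, hj, h1, h2⟩ := hN0 n hn
  obtain ⟨⟨a1, a2⟩, a3, a4⟩ := hj0 j hj
  obtain ⟨⟨-, b2⟩, -⟩ := hj0 (j + 1) (by omega)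
  obtain ⟨g, hg'⟩ : ∃ g, t (j + 1) = t j + g := ⟨t (j + 1) - t j, by omega⟩
  obtain ⟨i, rfl⟩ : ∃ i, n = t j + i := ⟨n - t j, by omega⟩
  have h3 := between hx hD a3 a4 (show i ≤ g by omega)
  rw [hg'] at a1 b2
  have h4 : (g : ℝ) ≤ η * √(t j) := by push_cast at a1; linarith
  have hT : (0 : ℝ) < t j := by exact_mod_cast a4
  have h5 : (g : ℝ) ^ 2 ≤ η ^ 2 * t j := by
    have h6 := pow_le_pow_left₀ (Nat.cast_nonneg g) h4 2
    rwa [mul_pow, Real.sq_sqrt hT.le] at h6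
  have h6 : D * (g : ℝ) ^ 2 / t j ≤ D * η ^ 2 := by
    rw [div_le_iff₀ hT]
    nlinarith [mul_le_mul_of_nonneg_left h5 hD]
  have h7 := max_le a2 b2
  linarith

/-- lower bounds -/
theorem loK (hx : AC x D k0) (hD : 0 ≤ D) {t : ℕ → ℕ} (ht : Tendsto t atTop atTop) {η : ℝ}
    (hη : 0 ≤ η) (hg : ∀ᶠ j in atTop, (t (j + 1) : ℝ) - t j ≤ η * √(t j)) {B : ℝ}
    (hB : ∀ᶠ k in atTop, x k ≤ B) {a : ℝ} (ha : ∀ᶠ j in atTop, a ≤ x (t j)) :
    ∀ᶠ k in atTop, a - η * (|B - a| + D * (η + 2)) ≤ x k := by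
  obtain ⟨K1, hK1⟩ := eventually_atTop.1 hB
  obtain ⟨j0, hj0⟩ := eventually_atTop.1 ((hg.and ha).and
    ((ht.eventually_ge_atTop (K1 + k0 + 1))))
  obtain ⟨N0, hN0⟩ := index ht j0
  refine eventually_atTop.2 ⟨N0, fun u hn => ?_⟩
  obtain ⟨j, hj, h1, h2⟩ := hN0 u hn
  obtain ⟨⟨a1, -⟩, a3⟩ := hj0 j hj
  obtain ⟨⟨-, b2⟩, -⟩ := hj0 (j + 1) (by omega)
  obtain ⟨m, hm⟩ : ∃ m, t (j + 1) = u + m := ⟨t (j + 1) - u, by omega⟩
  rw [hm] at a1 b2
  have hu0 : (0 : ℝ) < u := by exact_mod_cast (show 0 < u by omega)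
  obtain ⟨r, hr⟩ : ∃ r : ℝ, r = √(u : ℝ) := ⟨_, rfl⟩
  have hr0 : 0 < r := by rw [hr]; exact Real.sqrt_pos.2 hu0
  have hr2 : r * r = u := by rw [hr]; exact Real.mul_self_sqrt hu0.le
  have hr1 : 1 ≤ r := by
    rw [hr, Real.one_le_sqrt]
    exact_mod_cast (show 1 ≤ u by omega)
  have hmr : (m : ℝ) ≤ η * r := by
    have h3 : √(t j : ℝ) ≤ r := by
      rw [hr]; exact Real.sqrt_le_sqrt (by exact_mod_cast h1)
    have h4 : ((u + m : ℕ) : ℝ) - t j ≤ η * r := a1.trans (mul_le_mul_of_nonneg_left h3 hη)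
    have h5 : (t j : ℝ) ≤ u := by exact_mod_cast h1
    push_cast at h4
    linarith
  obtain ⟨h, hh⟩ : ∃ h : ℕ, h = ⌈r⌉₊ := ⟨_, rfl⟩
  have hh1 : r ≤ h := by rw [hh]; exact Nat.le_ceil r
  have hh2 : (h : ℝ) ≤ 2 * r := by
    have := Nat.ceil_lt_add_one hr0.le
    rw [← hh] at this
    linarith
  have hh0 : (0 : ℝ) < h := by linarith
  have h3 := three_pt hx hD (u := u) (m := m) (h := h) (by omega) (by omega)
  have h4 : x (u + m + h) ≤ B := hK1 _ (by omega)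
  have hm0 : (0 : ℝ) ≤ m := Nat.cast_nonneg m
  have h5 : (m : ℝ) * x (u + m + h) ≤ m * B := mul_le_mul_of_nonneg_left h4 hm0
  have h6 : ((m : ℝ) + h) * a ≤ (m + h) * x (u + m) :=
    mul_le_mul_of_nonneg_left b2 (by positivity)
  -- divide by `h`
  have h7 : (m : ℝ) * (B - a) ≤ h * (η * |B - a|) := by
    calc (m : ℝ) * (B - a) ≤ m * |B - a| := mul_le_mul_of_nonneg_left (le_abs_self _) hm0
      _ ≤ (h * η) * |B - a| := by
          refine mul_le_mul_of_nonneg_right ?_ (abs_nonneg _)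
          nlinarith
      _ = _ := by ring
  have h8 : D / (2 * u) * (m * h * (m + h)) ≤ h * (η * (D * (η + 2))) := by
    have e1 : D / (2 * u) * (m * h * (m + h)) = h * (D * (m * (m + h)) / (2 * u)) := by
      field_simp
    rw [e1]
    refine mul_le_mul_of_nonneg_left ?_ hh0.le
    rw [div_le_iff₀ (by positivity)]
    have h9 : (m : ℝ) * (m + h) ≤ (η * r) * ((η + 2) * r) :=
      mul_le_mul hmr (by linarith) (by positivity) (by positivity)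
    have h10 : (η * r) * ((η + 2) * r) = η * (η + 2) * u := by rw [← hr2]; ring
    rw [h10] at h9
    have h11 := mul_le_mul_of_nonneg_left h9 hD
    have h12 : 0 ≤ D * (η * (η + 2) * u) := by positivity
    nlinarith
  have h9 : (h : ℝ) * (a - η * (|B - a| + D * (η + 2))) ≤ h * x u := by nlinarith
  exact le_of_mul_le_mul_left h9 hh0

/-- the gaps are small with respect to `√t` -/
def RootSparse (t : ℕ → ℕ) : Prop :=
  Tendsto (fun j => ((t (j + 1) : ℝ) - t j) / √(t j)) atTop (𝓝 0)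

theorem RootSparse.le {t : ℕ → ℕ} (hs : RootSparse t) (ht : Tendsto t atTop atTop) {η : ℝ}
    (hη : 0 < η) : ∀ᶠ j in atTop, (t (j + 1) : ℝ) - t j ≤ η * √(t j) := by
  filter_upwards [hs.eventually_le_const hη, ht.eventually_ge_atTop 1] with j h1 h2
  have h3 : (0 : ℝ) < √(t j) := Real.sqrt_pos.2 (by exact_mod_cast h2)
  rwa [div_le_iff₀ h3] at h1

/-- upper bounds, small gaps -/
theorem up0 (hx : AC x D k0) (hD : 0 ≤ D) {t : ℕ → ℕ} (ht : Tendsto t atTop atTop)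
    (hs : RootSparse t) {b : ℝ} (hb : ∀ ε : ℝ, 0 < ε → ∀ᶠ j in atTop, x (t j) ≤ b + ε) {ε : ℝ}
    (hε : 0 < ε) : ∀ᶠ k in atTop, x k ≤ b + ε := by
  obtain ⟨η, hη⟩ : ∃ η : ℝ, η = min 1 (ε / (2 * (D + 1))) := ⟨_, rfl⟩
  have hη0 : 0 < η := by rw [hη]; exact lt_min one_pos (by positivity)
  have hη1 : η ≤ 1 := by rw [hη]; exact min_le_left _ _
  have hη2 : η ≤ ε / (2 * (D + 1)) := by rw [hη]; exact min_le_right _ _
  filter_upwards [upK hx hD ht (hs.le ht hη0) (hb (ε / 2) (by positivity))] with k hk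
  have h1 : D * η ^ 2 ≤ ε / 2 := by
    rw [le_div_iff₀ (by positivity)] at hη2
    have h2 : η ^ 2 ≤ η := by nlinarith
    have h3 : D * η ^ 2 ≤ D * η := mul_le_mul_of_nonneg_left h2 hD
    nlinarith
  linarith

/-- lower bounds, small gaps -/
theorem lo0 (hx : AC x D k0) (hD : 0 ≤ D) {t : ℕ → ℕ} (ht : Tendsto t atTop atTop)
    (hs : RootSparse t) {B : ℝ} (hB : ∀ᶠ k in atTop, x k ≤ B) {a : ℝ}
    (ha : ∀ ε : ℝ, 0 < ε → ∀ᶠ j in atTop, a - ε ≤ x (t j)) {ε : ℝ}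
    (hε : 0 < ε) : ∀ᶠ k in atTop, a - ε ≤ x k := by
  obtain ⟨Q, hQ⟩ : ∃ Q : ℝ, Q = |B - a| + ε + 3 * D := ⟨_, rfl⟩
  have hQ0 : 0 < Q := by rw [hQ]; positivity
  obtain ⟨η, hη⟩ : ∃ η : ℝ, η = min 1 (ε / (2 * Q)) := ⟨_, rfl⟩
  have hη0 : 0 < η := by rw [hη]; exact lt_min one_pos (by positivity)
  have hη1 : η ≤ 1 := by rw [hη]; exact min_le_left _ _
  have hη2 : η ≤ ε / (2 * Q) := by rw [hη]; exact min_le_right _ _
  filter_upwards [loK hx hD ht hη0.le (hs.le ht hη0) hB (ha (ε / 2) (by positivity))] with k hk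
  have h1 : |B - (a - ε / 2)| ≤ |B - a| + ε := by
    have e : B - (a - ε / 2) = (B - a) + ε / 2 := by ring
    rw [e]
    refine (abs_add_le _ _).trans ?_
    rw [abs_of_pos (show 0 < ε / 2 by positivity)]
    linarith
  have h2 : |B - (a - ε / 2)| + D * (η + 2) ≤ Q := by
    rw [hQ]
    have : D * (η + 2) ≤ 3 * D := by nlinarith
    linarith
  have h3 : η * (|B - (a - ε / 2)| + D * (η + 2)) ≤ ε / 2 := by
    refine (mul_le_mul_of_nonneg_left h2 hη0.le).trans ?_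
    rw [le_div_iff₀ (by positivity)] at hη2
    linarith
  linarith

/-- limits, small gaps -/
theorem lim0 (hx : AC x D k0) (hD : 0 ≤ D) {t : ℕ → ℕ} (ht : Tendsto t atTop atTop)
    (hs : RootSparse t) {c : ℝ} (hc : Tendsto (fun j => x (t j)) atTop (𝓝 c)) :
    Tendsto x atTop (𝓝 c) := by
  have h1 : ∀ ε : ℝ, 0 < ε → ∀ᶠ j in atTop, x (t j) ≤ c + ε := fun ε hε =>
    hc.eventually_le_const (by linarith)
  have h2 : ∀ ε : ℝ, 0 < ε → ∀ᶠ j in atTop, c - ε ≤ x (t j) := fun ε hε =>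
    hc.eventually_const_le (by linarith)
  have h3 : ∀ ε : ℝ, 0 < ε → ∀ᶠ k in atTop, x k ≤ c + ε := fun ε hε => up0 hx hD ht hs h1 hε
  have h4 : ∀ ε : ℝ, 0 < ε → ∀ᶠ k in atTop, c - ε ≤ x k := fun ε hε =>
    lo0 hx hD ht hs (h3 1 one_pos) h2 hε
  rw [Metric.tendsto_nhds]
  intro ε hε
  filter_upwards [h3 (ε / 2) (by positivity), h4 (ε / 2) (by positivity)] with k h5 h6
  rw [Real.dist_eq, abs_lt]
  constructor <;> linarith

end Q215.SAW.Cvx
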