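import Pool.Agent.Q215.SAW.AddLim

/-!
# Almost convex sequences: from averages over windows of length `δ √m` to the terms
-/

set_option autoImplicit false

namespace Q215.SAW.Cvx

open Finset Filter Topology

/-- the length of the window at `m` -/
noncomputable def wd (δ : ℝ) (m : ℕ) : ℕ := ⌊δ * √(m : ℝ)⌋₊ + 1

theorem wd_pos (δ : ℝ) (m : ℕ) : 1 ≤ wd δ m := by unfold wd; omega

theorem wd_le {δ : ℝ} (hδ : 0 ≤ δ) (m : ℕ) : ((wd δ m - 1 : ℕ) : ℝ) ≤ δ * √(m : ℝ) := by
  unfold wd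
  rw [Nat.add_sub_cancel]
  exact Nat.floor_le (by positivity)

theorem wd_tend {δ : ℝ} (hδ : 0 < δ) : Tendsto (wd δ) atTop atTop := by
  have h1 : Tendsto (fun m : ℕ => δ * √(m : ℝ)) atTop atTop :=
    (Real.tendsto_sqrt_atTop.comp tendsto_natCast_atTop_atTop).const_mul_atTop hδ
  have h2 := tendsto_nat_floor_atTop.comp h1
  exact tendsto_atTop_mono (fun m => by unfold wd; simp) h2

variable {x : ℕ → ℝ} {D : ℝ} {k0 : ℕ} {G : ℕ → ℝ}

/-- the symmetric inequality -/
theorem sym (hx : AC x D k0) (hD : 0 ≤ D) {u i : ℕ} (hu : k0 ≤ u) (hu1 : 1 ≤ u) (hi : 1 ≤ i) :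
    2 * x (u + i) ≤ x u + x (u + i + i) + D * (i : ℝ) ^ 2 / u := by
  have h1 := three_pt hx hD (u := u) (m := i) (h := i) hu hu1
  have hi0 : (0 : ℝ) < i := by exact_mod_cast hi
  have hu0 : (0 : ℝ) < u := by exact_mod_cast hu1
  have e : D / (2 * (u : ℝ)) * (i * i * (i + i)) = i * (D * (i : ℝ) ^ 2 / u) := by
    field_simp
    ring
  rw [e] at h1
  have h2 : (i : ℝ) * (2 * x (u + i)) ≤ i * (x u + x (u + i + i) + D * (i : ℝ) ^ 2 / u) := by
    linarith
  exact le_of_mul_le_mul_left h2 hi0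

/-- **upper bound from averages** -/
theorem avg_up (hx : AC x D k0) (hD : 0 ≤ D) (hG : ∀ k, 1 ≤ k → G k = Real.exp (x k))
    (hG0 : ∀ k, 0 ≤ G k) {δ : ℝ} (hδ0 : 0 < δ) (hδ : δ ≤ 1 / 2) {A : ℝ} (hA : 0 ≤ A)
    (h : ∀ᶠ m in atTop, ∑ i ∈ range (wd δ m), G (m + i) ≤ wd δ m * A) :
    ∀ᶠ m in atTop, G m ≤ Real.exp (2 * D * δ ^ 2) * (1 + δ) * A := by
  obtain ⟨N, hN⟩ := eventually_atTop.1 h
  have hw1 : ∀ᶠ m : ℕ in atTop, 1 / δ + 1 ≤ ((wd δ (m + 1) : ℕ) : ℝ) :=
    ((tendsto_natCast_atTop_atTop.comp (wd_tend hδ0)).comp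
      (tendsto_add_atTop_nat 1)).eventually_ge_atTop _
  filter_upwards [hw1, eventually_ge_atTop (4 * N + 4 * k0 + 64)] with m hw hm
  obtain ⟨w, hwd⟩ : ∃ w, w = wd δ (m + 1) := ⟨_, rfl⟩
  rw [← hwd] at hw
  have hdw : 0 < 1 / δ := by positivity
  have hw2 : 2 ≤ w := by
    have : (1 : ℝ) < w := by linarith
    exact_mod_cast this
  have hm0 : (0 : ℝ) < m := by exact_mod_cast (show 0 < m by omega)
  obtain ⟨R, hR⟩ : ∃ R : ℝ, R = √((m + 1 : ℕ) : ℝ) := ⟨_, rfl⟩
  have hR2 : R * R = m + 1 := by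
    rw [hR, Real.mul_self_sqrt (by positivity)]; push_cast; ring
  have hR0 : 0 < R := by rw [hR]; exact Real.sqrt_pos.2 (by positivity)
  have hR8 : 8 ≤ R := by
    by_contra hc
    push Not at hc
    have h64 : (64 : ℝ) ≤ m := by exact_mod_cast (show 64 ≤ m by omega)
    nlinarith
  have hwR : ((w - 1 : ℕ) : ℝ) ≤ δ * R := by
    rw [hwd, hR]; exact wd_le hδ0.le (m + 1)
  have hwR' : (w : ℝ) ≤ δ * R + 1 := by
    have e : ((w - 1 : ℕ) : ℝ) = w - 1 := by
      rw [Nat.cast_sub (by omega)]; simp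
    rw [e] at hwR
    linarith
  -- the window to the left
  have hwm : w ≤ m / 2 := by
    have h1 : (w : ℝ) ≤ R / 2 + 1 := by
      have : δ * R ≤ 1 / 2 * R := mul_le_mul_of_nonneg_right hδ hR0.le
      linarith
    have h2 : 2 * (w : ℝ) + 1 ≤ m := by nlinarith
    have h3 : 2 * w + 1 ≤ m := by exact_mod_cast h2
    omega
  obtain ⟨u, hu⟩ : ∃ u, u = m + 1 - w := ⟨_, rfl⟩
  have huw : u + w = m + 1 := by omega
  have hu2 : 2 * u ≥ m := by omega
  have hu0 : (0 : ℝ) < u := by exact_mod_cast (show 0 < u by omega)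
  have hwu : w ≤ wd δ u + 1 := by
    have h1 : δ * R ≤ δ * √(u : ℝ) + 1 := by
      obtain ⟨V, hV⟩ : ∃ V : ℝ, V = √(u : ℝ) := ⟨_, rfl⟩
      have hV0 : 0 ≤ V := by rw [hV]; exact Real.sqrt_nonneg _
      have hV2 : V * V = u := by rw [hV]; exact Real.mul_self_sqrt hu0.le
      rw [← hV]
      have h2 : R * R - V * V = w := by
        rw [hR2, hV2]
        have : ((u + w : ℕ) : ℝ) = ((m + 1 : ℕ) : ℝ) := by rw [huw]
        push_cast at this
        linarith
      have h3 : (R - V) * R ≤ w := by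
        have h4 : V ≤ R := by
          by_contra hc
          push Not at hc
          have : (0 : ℝ) ≤ w := Nat.cast_nonneg w
          nlinarith
        nlinarith
      have h4 : (R - V) * R ≤ 1 / 2 * R + 1 := by
        have : δ * R ≤ 1 / 2 * R := mul_le_mul_of_nonneg_right hδ hR0.le
        linarith
      have h5 : R - V ≤ 1 := by
        by_contra hc
        push Not at hc
        nlinarith
      nlinarith
    have h2 : ⌊δ * R⌋₊ ≤ ⌊δ * √(u : ℝ) + 1⌋₊ := Nat.floor_le_floor h1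
    rw [Nat.floor_add_one (by positivity)] at h2
    rw [hwd]
    unfold wd
    rw [← hR]
    omega
  have hc1 : ((w : ℝ) - 1) * G m ≤ Real.exp (2 * D * δ ^ 2) * (w * A) := by
    -- each `i`
    have hone : ∀ i ∈ range (w - 1), G m ≤ Real.exp (2 * D * δ ^ 2) *
        ((G (m - (i + 1)) + G (m + (i + 1))) / 2) := by
      intro i hi
      rw [mem_range] at hi
      have hiw : i + 1 ≤ w - 1 := by omega
      obtain ⟨v, hv⟩ : ∃ v, v = m - (i + 1) := ⟨_, rfl⟩
      have hvm : v + (i + 1) = m := by omega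
      have h1 := sym hx hD (u := v) (i := i + 1) (by omega) (by omega) (by omega)
      rw [hvm] at h1
      have hv0 : (0 : ℝ) < v := by exact_mod_cast (show 0 < v by omega)
      have h2 : D * ((i + 1 : ℕ) : ℝ) ^ 2 / v ≤ 4 * D * δ ^ 2 := by
        rw [div_le_iff₀ hv0]
        have h3 : ((i + 1 : ℕ) : ℝ) ≤ δ * R := by
          have : ((i + 1 : ℕ) : ℝ) ≤ ((w - 1 : ℕ) : ℝ) := by exact_mod_cast hiw
          linarith
        have h4 : ((i + 1 : ℕ) : ℝ) ^ 2 ≤ δ ^ 2 * (m + 1) := by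
          have h5 := pow_le_pow_left₀ (Nat.cast_nonneg _) h3 2
          have e : (δ * R) ^ 2 = δ ^ 2 * (m + 1) := by rw [← hR2]; ring
          rwa [e] at h5
        have h5 : (m : ℝ) + 1 ≤ 4 * v := by
          exact_mod_cast (show m + 1 ≤ 4 * v by omega)
        calc D * ((i + 1 : ℕ) : ℝ) ^ 2 ≤ D * (δ ^ 2 * (m + 1)) :=
              mul_le_mul_of_nonneg_left h4 hD
          _ ≤ D * (δ ^ 2 * (4 * v)) := by
              refine mul_le_mul_of_nonneg_left ?_ hD
              exact mul_le_mul_of_nonneg_left h5 (sq_nonneg _)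
          _ = 4 * D * δ ^ 2 * v := by ring
      have g0 := hG m (by omega)
      have g1 := hG v (by omega)
      have g2 := hG (m + (i + 1)) (by omega)
      have h3 : x m ≤ (x v + x (m + (i + 1))) / 2 + 2 * D * δ ^ 2 := by linarith
      rw [g0, ← hv, g1, g2]
      refine (Real.exp_le_exp.2 h3).trans ?_
      rw [Real.exp_add, mul_comm]
      refine mul_le_mul_of_nonneg_left ?_ (Real.exp_pos _).le
      have e : Real.exp ((x v + x (m + (i + 1))) / 2) =
          Real.exp (x v / 2) * Real.exp (x (m + (i + 1)) / 2) := by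
        rw [← Real.exp_add]; congr 1; ring
      have e1 : Real.exp (x v) = Real.exp (x v / 2) ^ 2 := by
        rw [← Real.exp_nat_mul]; congr 1; push_cast; ring
      have e2 : Real.exp (x (m + (i + 1))) = Real.exp (x (m + (i + 1)) / 2) ^ 2 := by
        rw [← Real.exp_nat_mul]; congr 1; push_cast; ring
      rw [e, e1, e2]
      nlinarith [sq_nonneg (Real.exp (x v / 2) - Real.exp (x (m + (i + 1)) / 2))]
    have hsum := sum_le_sum hone
    rw [sum_const, card_range, nsmul_eq_mul, ← mul_sum, ← sum_div, sum_add_distrib] at hsum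
    have ew : ((w - 1 : ℕ) : ℝ) = (w : ℝ) - 1 := by
      rw [Nat.cast_sub (by omega)]; simp
    rw [ew] at hsum
    -- the right half
    have hr : ∑ i ∈ range (w - 1), G (m + (i + 1)) ≤ w * A := by
      have h1 := hN (m + 1) (by omega)
      rw [← hwd] at h1
      refine le_trans ?_ h1
      have h2 : ∑ i ∈ range (w - 1), G (m + (i + 1)) = ∑ i ∈ range (w - 1), G (m + 1 + i) :=
        sum_congr rfl fun i _ => by congr 1; omega
      rw [h2]
      refine sum_le_sum_of_subset_of_nonneg (fun i hi => ?_) fun _ _ _ => hG0 _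
      rw [mem_range] at hi ⊢
      omega
    -- the left half
    have hl : ∑ i ∈ range (w - 1), G (m - (i + 1)) ≤ w * A := by
      have h1 := hN u (by omega)
      have h2 : ∑ i ∈ range (w - 1), G (m - (i + 1)) = ∑ i ∈ range (w - 1), G (u + i) := by
        rw [← sum_range_reflect (fun i => G (u + i))]
        refine sum_congr rfl fun i hi => ?_
        rw [mem_range] at hi
        congr 1
        omega
      rw [h2]
      have h3 : ∑ i ∈ range (w - 1), G (u + i) ≤ ∑ i ∈ range (wd δ u), G (u + i) := by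
        refine sum_le_sum_of_subset_of_nonneg (fun i hi => ?_) fun _ _ _ => hG0 _
        rw [mem_range] at hi ⊢
        omega
      refine (h3.trans h1).trans (mul_le_mul_of_nonneg_right ?_ hA)
      have h4 : wd δ u ≤ w := by
        rw [hwd]
        unfold wd
        refine Nat.add_le_add_right (Nat.floor_le_floor ?_) 1
        refine mul_le_mul_of_nonneg_left (Real.sqrt_le_sqrt ?_) hδ0.le
        exact_mod_cast (show u ≤ m + 1 by omega)
      exact_mod_cast h4
    refine hsum.trans (mul_le_mul_of_nonneg_left ?_ (Real.exp_pos _).le)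
    linarith
  have hw3 : (w : ℝ) ≤ (1 + δ) * (w - 1) := by
    have h1 : 1 ≤ δ * (w - 1) := by
      have h2 : 1 / δ ≤ w - 1 := by linarith
      rw [div_le_iff₀ hδ0] at h2
      linarith
    linarith
  have hw0 : (0 : ℝ) < w - 1 := by
    have : (2 : ℝ) ≤ w := by exact_mod_cast hw2
    linarith
  have hfin : ((w : ℝ) - 1) * G m ≤ (w - 1) * (Real.exp (2 * D * δ ^ 2) * (1 + δ) * A) := by
    refine hc1.trans ?_
    have h1 : (w : ℝ) * A ≤ (1 + δ) * (w - 1) * A := mul_le_mul_of_nonneg_right hw3 hA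
    have h2 := mul_le_mul_of_nonneg_left h1 (Real.exp_pos (2 * D * δ ^ 2)).le
    linarith
  exact le_of_mul_le_mul_left hfin hw0

/-- lower bounds from near members -/
theorem loN (hx : AC x D k0) (hD : 0 ≤ D) {η : ℝ} (hη : 0 ≤ η) {B : ℝ}
    (hB : ∀ᶠ k in atTop, x k ≤ B) {a : ℝ}
    (ha : ∀ᶠ u : ℕ in atTop, ∃ m : ℕ, (m : ℝ) ≤ η * √(u : ℝ) ∧ a ≤ x (u + m)) :
    ∀ᶠ k in atTop, a - η * (|B - a| + D * (η + 2)) ≤ x k := by
  obtain ⟨K1, hK1⟩ := eventually_atTop.1 hB
  filter_upwards [ha, eventually_ge_atTop (K1 + k0 + 1)] with u hu0' a3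
  obtain ⟨m, hmr0, b2⟩ := hu0'
  have hu0 : (0 : ℝ) < u := by exact_mod_cast (show 0 < u by omega)
  obtain ⟨r, hr⟩ : ∃ r : ℝ, r = √(u : ℝ) := ⟨_, rfl⟩
  have hr0 : 0 < r := by rw [hr]; exact Real.sqrt_pos.2 hu0
  have hr2 : r * r = u := by rw [hr]; exact Real.mul_self_sqrt hu0.le
  have hr1 : 1 ≤ r := by
    rw [hr, Real.one_le_sqrt]
    exact_mod_cast (show 1 ≤ u by omega)
  have hmr : (m : ℝ) ≤ η * r := by rw [hr]; exact hmr0
  obtain ⟨h, hh⟩ : ∃ h : ℕ, h = ⌈r⌉₊ := ⟨_, rfl⟩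
  have hh1 : r ≤ h := by rw [hh]; exact Nat.le_ceil r
  have hh2 : (h : ℝ) ≤ 2 * r := by
    have := Nat.ceil_lt_add_one hr0.le
    rw [← hh] at this
    linarith
  have hh0 : (0 : ℝ) < h := by linarith
  have h3 := three_pt hx hD (u := u) (m := m) (h := h) (by omega) (by omega)
  have h4 : x (u + m + h) ≤ B := hK1 _ (by omega)
  have hm0 : (0 : ℝ) ≤ m := Nat.cast_nonneg m
  have h5 : (m : ℝ) * x (u + m + h) ≤ m * B := mul_le_mul_of_nonneg_left h4 hm0
  have h6 : ((m : ℝ) + h) * a ≤ (m + h) * x (u + m) :=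
    mul_le_mul_of_nonneg_left b2 (by positivity)
  have h7 : (m : ℝ) * (B - a) ≤ h * (η * |B - a|) := by
    calc (m : ℝ) * (B - a) ≤ m * |B - a| := mul_le_mul_of_nonneg_left (le_abs_self _) hm0
      _ ≤ (h * η) * |B - a| := by
          refine mul_le_mul_of_nonneg_right ?_ (abs_nonneg _)
          nlinarith
      _ = _ := by ring
  have h8 : D / (2 * u) * (m * h * (m + h)) ≤ h * (η * (D * (η + 2))) := by
    have e1 : D / (2 * u) * (m * h * (m + h)) = h * (D * (m * (m + h)) / (2 * u)) := by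
      field_simp
    rw [e1]
    refine mul_le_mul_of_nonneg_left ?_ hh0.le
    rw [div_le_iff₀ (by positivity)]
    have h9 : (m : ℝ) * (m + h) ≤ (η * r) * ((η + 2) * r) :=
      mul_le_mul hmr (by linarith) (by positivity) (by positivity)
    have h10 : (η * r) * ((η + 2) * r) = η * (η + 2) * u := by rw [← hr2]; ring
    rw [h10] at h9
    have h11 := mul_le_mul_of_nonneg_left h9 hD
    have h12 : 0 ≤ D * (η * (η + 2) * u) := by positivity
    nlinarith
  have h9 : (h : ℝ) * (a - η * (|B - a| + D * (η + 2))) ≤ h * x u := by nlinarith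
  exact le_of_mul_le_mul_left h9 hh0

/-- **from averages to the terms** -/
theorem avg_lim (hx : AC x D k0) (hD : 0 ≤ D) (hG : ∀ k, 1 ≤ k → G k = Real.exp (x k))
    (hG0 : ∀ k, 0 ≤ G k) {A : ℝ} (hA : 0 < A)
    (h : ∀ δ : ℝ, 0 < δ → Tendsto (fun m => (∑ i ∈ range (wd δ m), G (m + i)) / wd δ m) atTop
      (𝓝 A)) : Tendsto G atTop (𝓝 A) := by
  have hw : ∀ δ : ℝ, ∀ m, (0 : ℝ) < wd δ m := fun δ m => by exact_mod_cast wd_pos δ m
  -- upper bound
  have hup : ∀ ε : ℝ, 0 < ε → ∀ᶠ m in atTop, G m ≤ A + ε := by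
    intro ε hε
    have t0 : Tendsto (fun δ : ℝ => Real.exp (2 * D * δ ^ 2) * (1 + δ) * (A + δ)) (𝓝[>] 0)
        (𝓝 A) := by
      have h1 : Continuous fun δ : ℝ => Real.exp (2 * D * δ ^ 2) * (1 + δ) * (A + δ) := by
        fun_prop
      have h2 := h1.tendsto 0
      simp only [ne_eq, OfNat.ofNat_ne_zero, not_false_eq_true, zero_pow, mul_zero, Real.exp_zero,
        add_zero, mul_one, one_mul] at h2
      exact h2.mono_left nhdsWithin_le_nhds
    obtain ⟨δ, h3, h1, h2⟩ := ((t0.eventually_le_const (show A < A + ε by linarith)).and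
      (Ioo_mem_nhdsGT (show (0 : ℝ) < 1 / 2 by norm_num))).exists
    have h4 := avg_up hx hD hG hG0 h1 h2.le (A := A + δ) (by positivity) (by
      filter_upwards [(h δ h1).eventually_le_const (show A < A + δ by linarith)] with m hm
      rw [div_le_iff₀ (hw δ m)] at hm
      linarith)
    filter_upwards [h4] with m hm
    exact hm.trans h3
  -- lower bound
  have hB : ∀ᶠ k in atTop, x k ≤ Real.log (A + 1) := by
    filter_upwards [hup 1 one_pos, eventually_ge_atTop 1] with k h1 h2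
    rw [hG k h2] at h1
    have h3 := Real.log_le_log (Real.exp_pos _) h1
    rwa [Real.log_exp] at h3
  have hlow : ∀ ε : ℝ, 0 < ε → ∀ᶠ m in atTop, A - ε ≤ G m := by
    intro ε hε
    have t0 : Tendsto (fun δ : ℝ => Real.exp (Real.log (A - δ) -
        δ * (|Real.log (A + 1) - Real.log (A - δ)| + D * (δ + 2)))) (𝓝[>] 0) (𝓝 A) := by
      have h1 : ContinuousAt (fun δ : ℝ => Real.exp (Real.log (A - δ) -
          δ * (|Real.log (A + 1) - Real.log (A - δ)| + D * (δ + 2)))) 0 := by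
        have hl : ContinuousAt (fun δ : ℝ => Real.log (A - δ)) 0 :=
          ContinuousAt.log (by fun_prop) (by simpa using hA.ne')
        refine Real.continuous_exp.continuousAt.comp (hl.sub ?_)
        exact continuousAt_id.mul (((continuousAt_const.sub hl).abs).add (by fun_prop))
      have h2 := h1.tendsto
      simp only [sub_zero, zero_mul, Real.exp_log hA] at h2
      exact h2.mono_left nhdsWithin_le_nhds
    obtain ⟨δ, h3, h1, h2⟩ := ((t0.eventually_const_le (show A - ε < A by linarith)).and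
      (Ioo_mem_nhdsGT hA)).exists
    have h4 := loN hx hD h1.le hB (a := Real.log (A - δ)) (by
      filter_upwards [(h δ h1).eventually_const_le (show A - δ < A by linarith),
        eventually_ge_atTop 1] with u hu hu1
      by_contra hcon
      push Not at hcon
      have h5 : ∀ i ∈ range (wd δ u), G (u + i) < A - δ := by
        intro i hi
        rw [mem_range] at hi
        have h6 := hcon i (by
          refine le_trans ?_ (wd_le h1.le u)
          exact_mod_cast (show i ≤ wd δ u - 1 by omega))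
        rw [hG _ (by omega)]
        have h7 := Real.exp_lt_exp.2 h6
        rwa [Real.exp_log (by linarith)] at h7
      have h6 := sum_lt_sum_of_nonempty (s := range (wd δ u)) ⟨0, mem_range.2 (wd_pos δ u)⟩ h5
      rw [sum_const, card_range, nsmul_eq_mul] at h6
      rw [le_div_iff₀ (hw δ u)] at hu
      linarith)
    filter_upwards [h4, eventually_ge_atTop 1] with m h5 h6
    rw [hG m h6]
    exact h3.trans (Real.exp_le_exp.2 h5)
  rw [Metric.tendsto_nhds]
  intro ε hε
  filter_upwards [hup (ε / 2) (by positivity), hlow (ε / 2) (by positivity)] with m h3 h4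
  rw [Real.dist_eq, abs_lt]
  constructor <;> linarith

/-- the converse -/
theorem avg_conv {A : ℝ} (h : Tendsto G atTop (𝓝 A)) (δ : ℝ) :
    Tendsto (fun m => (∑ i ∈ range (wd δ m), G (m + i)) / wd δ m) atTop (𝓝 A) := by
  have hw : ∀ m, (0 : ℝ) < wd δ m := fun m => by exact_mod_cast wd_pos δ m
  rw [Metric.tendsto_nhds] at h ⊢
  intro ε hε
  obtain ⟨N, hN⟩ := eventually_atTop.1 (h (ε / 2) (by positivity))
  filter_upwards [eventually_ge_atTop N] with m hm
  rw [Real.dist_eq]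
  have e : (∑ i ∈ range (wd δ m), G (m + i)) / wd δ m - A =
      (∑ i ∈ range (wd δ m), (G (m + i) - A)) / wd δ m := by
    rw [sum_sub_distrib, sum_const, card_range, nsmul_eq_mul, sub_div,
      mul_div_cancel_left₀ _ (hw m).ne']
  rw [e, abs_div, abs_of_pos (hw m), div_lt_iff₀ (hw m)]
  refine (abs_sum_le_sum_abs _ _).trans_lt ?_
  have h1 : ∑ i ∈ range (wd δ m), |G (m + i) - A| ≤ ∑ i ∈ range (wd δ m), ε / 2 := by
    refine sum_le_sum fun i _ => ?_
    have := hN (m + i) (by omega)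
    rw [Real.dist_eq] at this
    exact this.le
  rw [sum_const, card_range, nsmul_eq_mul] at h1
  have := hw m
  nlinarith

/-- sums with a remainder `o(√m)` -/
theorem avg_sum {A : ℝ} (h : Tendsto (fun m : ℕ => (∑ i ∈ range m, G i - A * m) / √(m : ℝ)) atTop
    (𝓝 0)) {δ : ℝ} (hδ : 0 < δ) :
    Tendsto (fun m => (∑ i ∈ range (wd δ m), G (m + i)) / wd δ m) atTop (𝓝 A) := by
  have hw : ∀ m, (0 : ℝ) < wd δ m := fun m => by exact_mod_cast wd_pos δ m
  rw [Metric.tendsto_nhds] at h ⊢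
  intro ε hε
  obtain ⟨η, hη⟩ : ∃ η : ℝ, η = ε * δ / (4 * (2 + δ)) := ⟨_, rfl⟩
  have hη0 : 0 < η := by rw [hη]; positivity
  obtain ⟨N, hN⟩ := eventually_atTop.1 (h η hη0)
  filter_upwards [eventually_ge_atTop (N + 1)] with m hm
  have hm0 : (0 : ℝ) < m := by exact_mod_cast (show 0 < m by omega)
  have hsm : 0 < √(m : ℝ) := Real.sqrt_pos.2 hm0
  obtain ⟨w, hwd⟩ : ∃ w, w = wd δ m := ⟨_, rfl⟩
  have hw0 := hw m
  rw [← hwd] at hw0 ⊢
  have h1 := hN m (by omega)
  have h2 := hN (m + w) (by omega)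
  have hsmw : 0 < √((m + w : ℕ) : ℝ) :=
    Real.sqrt_pos.2 (by exact_mod_cast (show 0 < m + w by omega))
  rw [dist_zero_right, Real.norm_eq_abs, abs_div, abs_of_pos hsm, div_lt_iff₀ hsm] at h1
  rw [dist_zero_right, Real.norm_eq_abs, abs_div, abs_of_pos hsmw, div_lt_iff₀ hsmw] at h2
  have h3 : ∑ i ∈ range (m + w), G i = ∑ i ∈ range m, G i + ∑ i ∈ range w, G (m + i) :=
    sum_range_add _ _ _
  have hwle : (w : ℝ) ≤ δ * √(m : ℝ) + 1 := by
    have h4 := wd_le hδ.le m
    rw [← hwd] at h4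
    have e : ((w - 1 : ℕ) : ℝ) = w - 1 := by
      rw [Nat.cast_sub (by rw [hwd]; exact wd_pos δ m)]; simp
    rw [e] at h4
    linarith
  have hwge : δ * √(m : ℝ) ≤ w := by
    rw [hwd]
    unfold wd
    push_cast
    exact (Nat.lt_floor_add_one _).le
  have hs1 : 1 ≤ √(m : ℝ) := by
    rw [Real.one_le_sqrt]
    exact_mod_cast (show 1 ≤ m by omega)
  have h4 : √((m + w : ℕ) : ℝ) ≤ (1 + (δ + 1)) * √(m : ℝ) := by
    rw [Real.sqrt_le_left (by positivity), mul_pow, Real.sq_sqrt hm0.le]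
    push_cast
    have h5 : √(m : ℝ) ≤ m := by
      nlinarith [Real.mul_self_sqrt hm0.le]
    nlinarith [mul_nonneg hδ.le hm0.le, mul_nonneg (mul_nonneg hδ.le hδ.le) hm0.le]
  have h5 : |∑ i ∈ range w, G (m + i) - A * w| ≤ η * √(m : ℝ) + η * √((m + w : ℕ) : ℝ) := by
    have e : ∑ i ∈ range w, G (m + i) - A * w =
        (∑ i ∈ range (m + w), G i - A * ((m + w : ℕ) : ℝ)) -
        (∑ i ∈ range m, G i - A * m) := by
      rw [h3]
      push_cast
      ring
    rw [e]
    refine (abs_sub _ _).trans ?_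
    linarith
  rw [Real.dist_eq]
  have e : (∑ i ∈ range w, G (m + i)) / w - A = (∑ i ∈ range w, G (m + i) - A * w) / w := by
    field_simp
  rw [e, abs_div, abs_of_pos hw0, div_lt_iff₀ hw0]
  have h6 : η * √(m : ℝ) + η * √((m + w : ℕ) : ℝ) ≤ η * (4 * (2 + δ)) * √(m : ℝ) / 2 := by
    have := mul_le_mul_of_nonneg_left h4 hη0.le
    nlinarith [mul_pos hη0 hsm, mul_pos (mul_pos hη0 hδ) hsm]
  have h7 : η * (4 * (2 + δ)) = ε * δ := by
    rw [hη]
    field_simp
  rw [h7] at h6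
  have h8 : ε * δ * √(m : ℝ) / 2 < ε * w := by
    have := mul_pos hε (mul_pos hδ hsm)
    nlinarith
  linarith

end Q215.SAW.Cvx
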