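import Mathlib

/-!
# Almost convex sequences: bounds along sparse sequences
-/

set_option autoImplicit false

namespace Q215.SAW.Cvx

open Filter Topology

/-! ### convex sequences -/

section
variable {z : ℕ → ℝ} (h : ∀ i, 2 * z (i + 1) ≤ z i + z (i + 2))
include h

theorem z_mono (i m : ℕ) : z (i + 1) - z i ≤ z (i + m + 1) - z (i + m) := by
  induction m with
  | zero => simp
  | succ m ih =>
    have := h (i + m)
    rw [← add_assoc]
    have e : i + m + 2 = i + m + 1 + 1 := by ring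
    rw [e] at this
    linarith

theorem z_up (i m : ℕ) : m * (z (i + 1) - z i) ≤ z (i + m) - z i := by
  induction m with
  | zero => simp
  | succ m ih =>
    have := z_mono h i m
    rw [← add_assoc]
    push_cast
    linarith

theorem z_low (i : ℕ) : z (i + 1) - z 0 ≤ (i + 1) * (z (i + 1) - z i) := by
  induction i with
  | zero => simp
  | succ i ih =>
    have h1 := z_mono h i 1
    have h2 : (0 : ℝ) ≤ (i : ℝ) + 1 := by positivity
    have h3 := mul_le_mul_of_nonneg_left h1 h2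
    push_cast
    linarith

theorem z_max {i g : ℕ} (hi : i ≤ g) : z i ≤ max (z 0) (z g) := by
  rcases Nat.eq_zero_or_pos i with rfl | hi0
  · exact le_max_left _ _
  obtain ⟨j, rfl⟩ : ∃ j, i = j + 1 := ⟨i - 1, by omega⟩
  obtain ⟨m, rfl⟩ : ∃ m, g = j + 1 + m := ⟨g - (j + 1), by omega⟩
  by_cases hc : z (j + 1) ≤ z 0
  · exact hc.trans (le_max_left _ _)
  push Not at hc
  have h1 := z_low h j
  have h2 : 0 < z (j + 1) - z j := by
    by_contra hcon
    push Not at hcon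
    have : ((j : ℝ) + 1) * (z (j + 1) - z j) ≤ 0 :=
      mul_nonpos_of_nonneg_of_nonpos (by positivity) hcon
    linarith
  have h3 := z_mono h j 1
  have h4 := z_up h (j + 1) m
  have h5 : 0 ≤ (m : ℝ) * (z (j + 1 + 1) - z (j + 1)) :=
    mul_nonneg (Nat.cast_nonneg _) (by linarith)
  exact le_trans (by linarith) (le_max_right _ _)

/-- slopes -/
theorem z_slope (i m : ℕ) :
    m * (z (i + 1) - z 0) ≤ (i + 1) * (z (i + 1 + m) - z (i + 1)) := by
  have h1 := z_low h i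
  have h2 := z_up h (i + 1) m
  have h3 := z_mono h i 1
  have hm : (0 : ℝ) ≤ m := Nat.cast_nonneg _
  have hi : (0 : ℝ) ≤ (i : ℝ) + 1 := by positivity
  have h4 := mul_le_mul_of_nonneg_left h1 hm
  have h5 : (m : ℝ) * (z (i + 1) - z i) ≤ m * (z (i + 1 + 1) - z (i + 1)) :=
    mul_le_mul_of_nonneg_left h3 hm
  have h6 := mul_le_mul_of_nonneg_left (h5.trans h2) hi
  calc (m : ℝ) * (z (i + 1) - z 0) ≤ m * ((i + 1) * (z (i + 1) - z i)) := h4
    _ = (i + 1) * (m * (z (i + 1) - z i)) := by ring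
    _ ≤ _ := h6
end

/-! ### almost convex sequences -/

/-- the second differences are at least `-D / k` -/
def AC (x : ℕ → ℝ) (D : ℝ) (k0 : ℕ) : Prop :=
  ∀ k, k0 ≤ k → 2 * x (k + 1) ≤ x k + x (k + 2) + D / k

variable {x : ℕ → ℝ} {D : ℝ} {k0 : ℕ}

theorem shift (hx : AC x D k0) (hD : 0 ≤ D) {t : ℕ} (ht : k0 ≤ t) (ht1 : 1 ≤ t) :
    ∀ i, 2 * (fun i : ℕ => x (t + i) + D / (2 * t) * (i : ℝ) ^ 2) (i + 1) ≤
      (fun i : ℕ => x (t + i) + D / (2 * t) * (i : ℝ) ^ 2) i +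
      (fun i : ℕ => x (t + i) + D / (2 * t) * (i : ℝ) ^ 2) (i + 2) := by
  intro i
  have h1 := hx (t + i) (by omega)
  have ht0 : (0 : ℝ) < t := by exact_mod_cast ht1
  have h2 : D / ((t + i : ℕ) : ℝ) ≤ D / t := by
    refine div_le_div_of_nonneg_left hD ht0 ?_
    push_cast
    have : (0 : ℝ) ≤ i := Nat.cast_nonneg _
    linarith
  have h3 : D / t = D / (2 * t) * 2 := by field_simp
  simp only [← add_assoc]
  push_cast
  rw [h3] at h2
  have e : 2 * (D / (2 * (t : ℝ)) * ((i : ℝ) + 1) ^ 2) + D / (2 * t) * 2 =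
      D / (2 * t) * (i : ℝ) ^ 2 + D / (2 * t) * ((i : ℝ) + 2) ^ 2 := by ring
  linarith

/-- between two members -/
theorem between (hx : AC x D k0) (hD : 0 ≤ D) {t i g : ℕ} (ht : k0 ≤ t) (ht1 : 1 ≤ t)
    (hi : i ≤ g) : x (t + i) ≤ max (x t) (x (t + g)) + D * (g : ℝ) ^ 2 / t := by
  have h1 := z_max (z := fun i : ℕ => x (t + i) + D / (2 * t) * (i : ℝ) ^ 2)
    (shift hx hD ht ht1) hi
  have ht0 : (0 : ℝ) < t := by exact_mod_cast ht1
  simp only [add_zero, Nat.cast_zero, ne_eq, OfNat.ofNat_ne_zero, not_false_eq_true, zero_pow,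
    mul_zero] at h1
  have h2 : 0 ≤ D / (2 * t) * (i : ℝ) ^ 2 := by positivity
  have h3 : D / (2 * t) * (g : ℝ) ^ 2 ≤ D * (g : ℝ) ^ 2 / t := by
    rw [div_mul_eq_mul_div]
    refine div_le_div_of_nonneg_left (by positivity) ht0 ?_
    linarith
  have h4 : 0 ≤ D * (g : ℝ) ^ 2 / t := by positivity
  have h5 : max (x t) (x (t + g) + D / (2 * t) * (g : ℝ) ^ 2) ≤
      max (x t) (x (t + g)) + D * (g : ℝ) ^ 2 / t := by
    refine max_le ?_ ?_
    · have := le_max_left (x t) (x (t + g))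
      linarith
    · have := le_max_right (x t) (x (t + g))
      linarith
  linarith

/-- to the right of two members -/
theorem right (hx : AC x D k0) (hD : 0 ≤ D) {u h m : ℕ} (hu : k0 ≤ u) (hu1 : 1 ≤ u)
    (hh : 1 ≤ h) (hm : m ≤ h) :
    x (u + h) + m / h * (x (u + h) - x u) - 3 * D * h * m / (2 * u) ≤ x (u + h + m) := by
  obtain ⟨i, rfl⟩ : ∃ i, h = i + 1 := ⟨h - 1, by omega⟩
  have h1 := z_slope (z := fun i : ℕ => x (u + i) + D / (2 * u) * (i : ℝ) ^ 2)
    (shift hx hD hu hu1) i m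
  have hu0 : (0 : ℝ) < u := by exact_mod_cast hu1
  simp only [add_zero, Nat.cast_zero, ne_eq, OfNat.ofNat_ne_zero, not_false_eq_true, zero_pow,
    mul_zero, ← add_assoc] at h1
  obtain ⟨H, hH⟩ : ∃ H : ℝ, H = ((i + 1 : ℕ) : ℝ) := ⟨_, rfl⟩
  have hH0 : 0 < H := by rw [hH]; positivity
  have hHi : (i : ℝ) + 1 = H := by rw [hH]; push_cast; ring
  have e1 : ((i + 1 + m : ℕ) : ℝ) = H + m := by rw [hH]; push_cast; ring
  rw [hHi, e1, ← hH] at h1
  simp only [← add_assoc] at h1 ⊢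
  rw [← hH]
  obtain ⟨M, hM⟩ : ∃ M : ℝ, M = m := ⟨_, rfl⟩
  have hM0 : 0 ≤ M := by rw [hM]; positivity
  have hMH : M ≤ H := by rw [hM, hH]; exact_mod_cast hm
  rw [← hM] at h1 ⊢
  obtain ⟨κ, hκ⟩ : ∃ κ : ℝ, κ = D / (2 * u) := ⟨_, rfl⟩
  have hκ0 : 0 ≤ κ := by rw [hκ]; positivity
  rw [← hκ] at h1
  have e2 : 3 * D * H * M / (2 * u) = 3 * κ * H * M := by rw [hκ]; ring
  rw [e2]
  have h2 : M * (x (u + i + 1) - x u) ≤
      H * (x (u + i + 1 + m) + κ * (H + M) ^ 2 - (x (u + i + 1) + κ * H ^ 2)) := by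
    have : 0 ≤ M * (κ * H ^ 2) := by positivity
    linarith
  have h3 : κ * (H + M) ^ 2 - κ * H ^ 2 ≤ 3 * κ * H * M := by
    have h4 : κ * M * M ≤ κ * M * H := mul_le_mul_of_nonneg_left hMH (by positivity)
    nlinarith
  have h4 : M / H * (x (u + i + 1) - x u) ≤
      x (u + i + 1 + m) + κ * (H + M) ^ 2 - (x (u + i + 1) + κ * H ^ 2) := by
    rw [div_mul_eq_mul_div, div_le_iff₀ hH0]
    linarith
  linarith

/-- every large number lies between two members of the sequence -/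
theorem index {t : ℕ → ℕ} (ht : Tendsto t atTop atTop) (j0 : ℕ) :
    ∃ N0 : ℕ, ∀ n, N0 ≤ n → ∃ j, j0 ≤ j ∧ t j ≤ n ∧ n < t (j + 1) := by
  refine ⟨t j0, fun n hn => ?_⟩
  obtain ⟨i0, hi0⟩ := eventually_atTop.1 (ht.eventually_ge_atTop (n + 1))
  have hex : ∃ j, j0 < j ∧ n < t j :=
    ⟨max i0 (j0 + 1), by omega, by have := hi0 (max i0 (j0 + 1)) (le_max_left _ _); omega⟩
  classical
  obtain ⟨j, hj, hmin⟩ : ∃ j, (j0 < j ∧ n < t j) ∧ ∀ i, i < j → ¬ (j0 < i ∧ n < t i) :=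
    ⟨Nat.find hex, Nat.find_spec hex, fun i hi => Nat.find_min hex hi⟩
  obtain ⟨k, rfl⟩ : ∃ k, j = k + 1 := ⟨j - 1, by omega⟩
  refine ⟨k, by omega, ?_, hj.2⟩
  by_contra hcon
  have := hmin k (by omega)
  rcases Nat.lt_or_ge j0 k with h1 | h1
  · exact this ⟨h1, by omega⟩
  · have : k = j0 := by omega
    rw [this] at hcon
    omega

/-- the gaps are small with respect to `√(t log t)` -/
def Sparse (t : ℕ → ℕ) : Prop :=
  Tendsto (fun j => ((t (j + 1) : ℝ) - t j) / √(t j * Real.log (t j))) atTop (𝓝 0)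

theorem log_tend : Tendsto (fun n : ℕ => Real.log (n : ℝ)) atTop atTop :=
  Real.tendsto_log_atTop.comp tendsto_natCast_atTop_atTop

/-- the facts about large members -/
theorem large {t : ℕ → ℕ} (ht : Tendsto t atTop atTop) (hs : Sparse t) {η : ℝ} (hη : 0 < η)
    (C : ℝ) :
    ∀ᶠ j in atTop, 3 ≤ t j ∧ C ≤ Real.log (t j) ∧ 1 ≤ Real.log (t j) ∧
      Real.log (t j) ≤ t j ∧ ((t (j + 1) : ℝ) - t j) ≤ η * √(t j * Real.log (t j)) := by
  have h1 := Metric.tendsto_nhds.1 hs η hη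
  have h3 : ∀ᶠ j in atTop, C ≤ Real.log (t j) := (log_tend.comp ht).eventually_ge_atTop C
  have h4 : ∀ᶠ j in atTop, 1 ≤ Real.log (t j) := (log_tend.comp ht).eventually_ge_atTop 1
  filter_upwards [h1, ht.eventually_ge_atTop 3, h3, h4] with j hj h2 h3 h4
  have h5 : (0 : ℝ) < t j := by exact_mod_cast (show 0 < t j by omega)
  refine ⟨h2, h3, h4, (Real.log_le_self h5.le), ?_⟩
  rw [dist_zero_right, Real.norm_eq_abs] at hj
  have h6 : 0 < √(t j * Real.log (t j)) := Real.sqrt_pos.2 (by positivity)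
  have h7 := (le_abs_self _).trans_lt hj
  rw [div_lt_iff₀ h6] at h7
  exact h7.le

theorem sq_sqrt' {a b : ℝ} (h : 0 ≤ a * b) : √(a * b) ^ 2 = a * b := Real.sq_sqrt h

/-- **upper bounds** -/
theorem upper (hx : AC x D k0) (hD : 0 ≤ D) {t : ℕ → ℕ} (ht : Tendsto t atTop atTop)
    (hs : Sparse t) {b : ℝ} (hb : ∀ᶠ j in atTop, x (t j) ≤ b * Real.log (t j)) {ε : ℝ}
    (hε : 0 < ε) : ∀ᶠ k : ℕ in atTop, x k ≤ (b + ε) * Real.log k := by
  obtain ⟨η, hη⟩ : ∃ η : ℝ, η = min 1 (ε / (2 * (D + 1))) := ⟨_, rfl⟩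
  have hη0 : 0 < η := by rw [hη]; exact lt_min one_pos (by positivity)
  have hη1 : η ≤ 1 := by rw [hη]; exact min_le_left _ _
  have hη2 : η ≤ ε / (2 * (D + 1)) := by rw [hη]; exact min_le_right _ _
  obtain ⟨j0, hj0⟩ := eventually_atTop.1 ((large ht hs hη0 (2 * |b| / ε)).and
    (hb.and (ht.eventually_ge_atTop k0)))
  obtain ⟨N0, hN0⟩ := index ht j0
  refine eventually_atTop.2 ⟨N0, fun n hn => ?_⟩
  obtain ⟨j, hj, hj1, hj2⟩ := hN0 n hn
  obtain ⟨⟨a1, a2, a3, a4, a5⟩, a6, a7⟩ := hj0 j hj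
  obtain ⟨-, b6, -⟩ := hj0 (j + 1) (by omega)
  obtain ⟨T, hT⟩ : ∃ T, T = t j := ⟨_, rfl⟩
  rw [← hT] at a1 a2 a3 a4 a5 a6 a7 hj1
  obtain ⟨g, hg⟩ : ∃ g, t (j + 1) = T + g := ⟨t (j + 1) - T, by omega⟩
  rw [hg] at a5 b6 hj2
  obtain ⟨i, rfl⟩ : ∃ i, n = T + i := ⟨n - T, by omega⟩
  have h1 := between hx hD a7 (by omega) (show i ≤ g by omega)
  have hT0 : (0 : ℝ) < T := by exact_mod_cast (show 0 < T by omega)
  obtain ⟨L, hL⟩ : ∃ L, L = Real.log (T : ℝ) := ⟨_, rfl⟩
  rw [← hL] at a2 a3 a4 a5 a6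
  have e1 : ((T + g : ℕ) : ℝ) - T = g := by push_cast; ring
  rw [e1] at a5
  have hg0 : (0 : ℝ) ≤ g := Nat.cast_nonneg _
  have h2 : (g : ℝ) ^ 2 ≤ η * (T * L) := by
    have h3 := pow_le_pow_left₀ hg0 a5 2
    rw [mul_pow, Real.sq_sqrt (by positivity)] at h3
    refine h3.trans (mul_le_mul_of_nonneg_right ?_ (by positivity))
    nlinarith
  have hgT : (g : ℝ) ≤ T := by
    have h3 : √(T * L) ≤ T := by
      rw [Real.sqrt_le_left hT0.le, sq]
      exact mul_le_mul_of_nonneg_left a4 hT0.le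
    calc (g : ℝ) ≤ η * √(T * L) := a5
      _ ≤ 1 * √(T * L) := mul_le_mul_of_nonneg_right hη1 (Real.sqrt_nonneg _)
      _ ≤ T := by rw [one_mul]; exact h3
  have h4 : D * (g : ℝ) ^ 2 / T ≤ ε / 2 * L := by
    rw [div_le_iff₀ hT0]
    calc D * (g : ℝ) ^ 2 ≤ (D + 1) * (η * (T * L)) := by
          refine mul_le_mul (by linarith) h2 (by positivity) (by linarith)
      _ ≤ (D + 1) * (ε / (2 * (D + 1)) * (T * L)) := by
          refine mul_le_mul_of_nonneg_left (mul_le_mul_of_nonneg_right hη2 ?_) (by linarith)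
          positivity
      _ = ε / 2 * L * T := by field_simp
  obtain ⟨y, hy⟩ : ∃ y, y = Real.log ((T + i : ℕ) : ℝ) := ⟨_, rfl⟩
  have hLy : L ≤ y := by
    rw [hL, hy]
    exact Real.log_le_log hT0 (by push_cast; have : (0 : ℝ) ≤ i := Nat.cast_nonneg _; linarith)
  have hgy : Real.log ((T + g : ℕ) : ℝ) ≤ L + 1 := by
    have h5 : ((T + g : ℕ) : ℝ) ≤ 2 * T := by push_cast; linarith
    have h6 := Real.log_le_log (by push_cast; linarith) h5
    rw [Real.log_mul (by norm_num) hT0.ne', ← hL] at h6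
    have := Real.log_two_lt_d9
    linarith
  have hyg : y ≤ Real.log ((T + g : ℕ) : ℝ) := by
    rw [hy]
    refine Real.log_le_log (by push_cast; have : (0 : ℝ) ≤ i := Nat.cast_nonneg _; linarith) ?_
    exact_mod_cast hj2.le
  have hbb : 2 * |b| ≤ ε * L := by
    rw [div_le_iff₀ hε] at a2
    linarith
  rw [← hy]
  have hb1 : b * L ≤ b * y + |b| := by
    have h7 : b * L - b * y = b * (L - y) := by ring
    have h8 : |b * (L - y)| ≤ |b| := by
      rw [abs_mul]
      refine mul_le_of_le_one_right (abs_nonneg _) ?_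
      rw [abs_le]; constructor <;> linarith
    have := (le_abs_self _).trans h8
    linarith
  have hb2 : b * Real.log ((T + g : ℕ) : ℝ) ≤ b * y + |b| := by
    have h7 : b * Real.log ((T + g : ℕ) : ℝ) - b * y =
        b * (Real.log ((T + g : ℕ) : ℝ) - y) := by ring
    have h8 : |b * (Real.log ((T + g : ℕ) : ℝ) - y)| ≤ |b| := by
      rw [abs_mul]
      refine mul_le_of_le_one_right (abs_nonneg _) ?_
      rw [abs_le]; constructor <;> linarith
    have := (le_abs_self _).trans h8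
    linarith
  have h9 : max (x T) (x (T + g)) ≤ b * y + |b| :=
    max_le (a6.trans hb1) (b6.trans hb2)
  have h10 : ε / 2 * L ≤ ε / 2 * y := mul_le_mul_of_nonneg_left hLy (by positivity)
  rw [add_mul]
  have h11 : |b| ≤ ε / 2 * L := by linarith
  linarith

/-- **lower bounds** -/
theorem lower (hx : AC x D k0) (hD : 0 ≤ D) {t : ℕ → ℕ} (ht : Tendsto t atTop atTop)
    (hs : Sparse t) {B : ℝ} (hB : ∀ᶠ k : ℕ in atTop, x k ≤ B * Real.log k) {a : ℝ}
    (ha : ∀ᶠ j in atTop, a * Real.log (t j) ≤ x (t j)) {ε : ℝ}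
    (hε : 0 < ε) : ∀ᶠ k : ℕ in atTop, (a - ε) * Real.log k ≤ x k := by
  obtain ⟨η, hη⟩ : ∃ η : ℝ, η = min (1 / 2) (ε / (4 * (|a| + |B| + 8 * D + 1))) := ⟨_, rfl⟩
  have hab : 0 < |a| + |B| + 8 * D + 1 := by
    have h1 := abs_nonneg a
    have h2 := abs_nonneg B
    linarith
  have hη0 : 0 < η := by rw [hη]; exact lt_min (by norm_num) (by positivity)
  have hη1 : η ≤ 1 / 2 := by rw [hη]; exact min_le_left _ _
  have hη2 : η ≤ ε / (4 * (|a| + |B| + 8 * D + 1)) := by rw [hη]; exact min_le_right _ _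
  obtain ⟨N1, hN1⟩ := eventually_atTop.1 hB
  have hlsq : ∀ᶠ n : ℕ in atTop, Real.log (n : ℝ) ≤ (1 / 64) * n := by
    have h1 := (Real.isLittleO_log_id_atTop.comp_tendsto tendsto_natCast_atTop_atTop).def
      (show (0 : ℝ) < 1 / 64 by norm_num)
    filter_upwards [h1, eventually_ge_atTop 1] with n hn h2
    simp only [Function.comp, id] at hn
    have h3 : (1 : ℝ) ≤ n := by exact_mod_cast h2
    rw [Real.norm_of_nonneg (Real.log_nonneg h3), Real.norm_of_nonneg (by positivity)] at hn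
    exact hn
  obtain ⟨j0, hj0⟩ := eventually_atTop.1 (((large ht hs hη0 (4 * |a| / ε)).and
    (ha.and (ht.eventually_ge_atTop (2 * k0 + 2 * N1 + 8)))).and (ht.eventually hlsq))
  obtain ⟨N0, hN0⟩ := index ht j0
  refine eventually_atTop.2 ⟨N0, fun n hn => ?_⟩
  obtain ⟨j, hj, hj1, hj2⟩ := hN0 n hn
  obtain ⟨⟨⟨a1, a2, a3, a4, a5⟩, a6, a7⟩, a8⟩ := hj0 j hj
  obtain ⟨T, hT⟩ : ∃ T, T = t j := ⟨_, rfl⟩
  rw [← hT] at a1 a2 a3 a4 a5 a6 a7 hj1 a8
  obtain ⟨g, hg⟩ : ∃ g, t (j + 1) = T + g := ⟨t (j + 1) - T, by omega⟩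
  rw [hg] at a5 hj2
  obtain ⟨m, rfl⟩ : ∃ m, n = T + m := ⟨n - T, by omega⟩
  have hT0 : (0 : ℝ) < T := by exact_mod_cast (show 0 < T by omega)
  obtain ⟨L, hL⟩ : ∃ L, L = Real.log (T : ℝ) := ⟨_, rfl⟩
  rw [← hL] at a2 a3 a4 a5 a6 a8
  have e1 : ((T + g : ℕ) : ℝ) - T = g := by push_cast; ring
  rw [e1] at a5
  obtain ⟨W, hW⟩ : ∃ W, W = √(T * L) := ⟨_, rfl⟩
  have hW2 : W ^ 2 = T * L := by rw [hW]; exact Real.sq_sqrt (by positivity)
  have hW0 : 0 < W := by rw [hW]; exact Real.sqrt_pos.2 (by positivity)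
  rw [← hW] at a5
  have hT3 : (3 : ℝ) ≤ T := by exact_mod_cast a1
  have hT8 : (8 : ℝ) ≤ T := by exact_mod_cast (show 8 ≤ T by omega)
  have hW1 : 2 ≤ W := by
    have h3 : (2 : ℝ) ^ 2 ≤ W ^ 2 := by
      rw [hW2]
      nlinarith
    exact (sq_le_sq₀ (by norm_num) hW0.le).1 h3
  have hWT : W ≤ T / 8 := by
    have h3 : W ^ 2 ≤ (T / 8) ^ 2 := by
      rw [hW2]
      have := mul_le_mul_of_nonneg_left a8 hT0.le
      nlinarith
    exact (sq_le_sq₀ hW0.le (by positivity)).1 h3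
  -- the base
  obtain ⟨h, hh⟩ : ∃ h : ℕ, h = ⌈W⌉₊ := ⟨_, rfl⟩
  have hh1 : W ≤ h := by rw [hh]; exact Nat.le_ceil _
  have hh2 : (h : ℝ) ≤ 2 * W := by
    rw [hh]
    have := Nat.ceil_lt_add_one hW0.le
    linarith
  have hh0 : 1 ≤ h := by
    have : (0 : ℝ) < h := by linarith
    exact_mod_cast this
  have hh3 : 4 * h ≤ T := by
    have : (4 : ℝ) * h ≤ T := by linarith
    exact_mod_cast this
  obtain ⟨u, hu⟩ : ∃ u, T = u + h := ⟨T - h, by omega⟩
  have hmg : m ≤ g := by omega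
  have hm1 : (m : ℝ) ≤ η * W := by
    have : (m : ℝ) ≤ g := by exact_mod_cast hmg
    linarith
  have hmh : m ≤ h := by
    have h3 : η * W ≤ 1 * W := mul_le_mul_of_nonneg_right (by linarith) hW0.le
    have : (m : ℝ) ≤ h := by linarith
    exact_mod_cast this
  have h1 := right hx hD (u := u) (h := h) (m := m) (by omega) (by omega) hh0 hmh
  have hxu : x u ≤ |B| * L := by
    have h2 := hN1 u (by omega)
    have hu0 : (0 : ℝ) < u := by exact_mod_cast (show 0 < u by omega)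
    have h3 : Real.log (u : ℝ) ≤ L := by
      rw [hL]
      exact Real.log_le_log hu0 (by exact_mod_cast (show u ≤ T by omega))
    have h4 : 0 ≤ Real.log (u : ℝ) := Real.log_nonneg (by exact_mod_cast (show 1 ≤ u by omega))
    calc x u ≤ B * Real.log u := h2
      _ ≤ |B| * Real.log u := mul_le_mul_of_nonneg_right (le_abs_self _) h4
      _ ≤ |B| * L := mul_le_mul_of_nonneg_left h3 (abs_nonneg _)
  rw [← hu] at h1
  have hL0 : 0 < L := by linarith
  have hu0 : (0 : ℝ) < u := by exact_mod_cast (show 0 < u by omega)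
  have huT : (T : ℝ) ≤ 2 * u := by exact_mod_cast (show T ≤ 2 * u by omega)
  have hhp : (0 : ℝ) < h := by linarith
  have hm0 : (0 : ℝ) ≤ m := Nat.cast_nonneg _
  -- the slope
  have h2 : -(η * ((|a| + |B|) * L)) ≤ m / h * (x T - x u) := by
    have h3 : -((|a| + |B|) * L) ≤ x T - x u := by
      have h4 : -(|a| * L) ≤ a * L := by
        have := mul_le_mul_of_nonneg_right (neg_abs_le a) hL0.le
        linarith
      linarith
    have h5 : (m : ℝ) / h ≤ η := by
      rw [div_le_iff₀ hhp]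
      exact hm1.trans (mul_le_mul_of_nonneg_left hh1 hη0.le)
    have h6 : 0 ≤ (m : ℝ) / h := by positivity
    have h7 : 0 ≤ (|a| + |B|) * L := by
      have := abs_nonneg a
      have := abs_nonneg B
      positivity
    have h8 := mul_le_mul_of_nonneg_left h3 h6
    have h9 := mul_le_mul_of_nonneg_right h5 h7
    linarith
  have h3 : 3 * D * h * m / (2 * u) ≤ η * (8 * D * L) := by
    rw [div_le_iff₀ (by positivity)]
    calc 3 * D * h * m ≤ 3 * D * (2 * W) * (η * W) := by gcongr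
      _ = 6 * D * η * W ^ 2 := by ring
      _ = 6 * D * η * L * T := by rw [hW2]; ring
      _ ≤ 6 * D * η * L * (2 * u) := by gcongr
      _ ≤ η * (8 * D * L) * (2 * u) := by
          have : 0 ≤ D * η * L * u := by positivity
          linarith
  have h4 : η * ((|a| + |B|) * L) + η * (8 * D * L) ≤ ε / 4 * L := by
    calc η * ((|a| + |B|) * L) + η * (8 * D * L) = η * ((|a| + |B| + 8 * D) * L) := by ring
      _ ≤ ε / (4 * (|a| + |B| + 8 * D + 1)) * ((|a| + |B| + 8 * D + 1) * L) := by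
          have h5 := abs_nonneg a
          have h6 := abs_nonneg B
          refine mul_le_mul hη2 (mul_le_mul_of_nonneg_right (by linarith) hL0.le) (by positivity)
            (by positivity)
      _ = ε / 4 * L := by field_simp
  obtain ⟨y, hy⟩ : ∃ y, y = Real.log ((T + m : ℕ) : ℝ) := ⟨_, rfl⟩
  have hLy : L ≤ y := by
    rw [hL, hy]
    exact Real.log_le_log hT0 (by push_cast; linarith)
  have hyL : y ≤ L + 1 := by
    have h5 : ((T + m : ℕ) : ℝ) ≤ 2 * T := by
      push_cast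
      have : η * W ≤ 1 * (T / 8) := mul_le_mul (by linarith) hWT hW0.le zero_le_one
      linarith
    have h6 := Real.log_le_log (by push_cast; linarith) h5
    rw [Real.log_mul (by norm_num) hT0.ne', ← hL, ← hy] at h6
    have := Real.log_two_lt_d9
    linarith
  have h5 : a * y ≤ a * L + |a| := by
    have h7 : a * y - a * L = a * (y - L) := by ring
    have h8 : |a * (y - L)| ≤ |a| := by
      rw [abs_mul]
      refine mul_le_of_le_one_right (abs_nonneg _) ?_
      rw [abs_le]; constructor <;> linarith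
    have := (le_abs_self _).trans h8
    linarith
  have h6 : 4 * |a| ≤ ε * L := by
    rw [div_le_iff₀ hε] at a2
    linarith
  rw [← hy, sub_mul]
  have h7 : ε * L ≤ ε * y := mul_le_mul_of_nonneg_left hLy hε.le
  have h8 := abs_nonneg a
  linarith

/-- **limits** -/
theorem limit (hx : AC x D k0) (hD : 0 ≤ D) {t : ℕ → ℕ} (ht : Tendsto t atTop atTop)
    (hs : Sparse t) {c : ℝ}
    (hc : Tendsto (fun j => x (t j) / Real.log (t j)) atTop (𝓝 c)) :
    Tendsto (fun k : ℕ => x k / Real.log k) atTop (𝓝 c) := by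
  have hpos : ∀ᶠ j in atTop, 0 < Real.log (t j) := (log_tend.comp ht).eventually_gt_atTop 0
  have key : ∀ ε : ℝ, 0 < ε → (∀ᶠ j in atTop, x (t j) ≤ (c + ε) * Real.log (t j)) ∧
      ∀ᶠ j in atTop, (c - ε) * Real.log (t j) ≤ x (t j) := by
    intro ε hε
    constructor
    · filter_upwards [hpos, hc.eventually_lt_const (show c < c + ε by linarith)] with j h1 h2
      rw [div_lt_iff₀ h1] at h2
      exact h2.le
    · filter_upwards [hpos, hc.eventually_const_lt (show c - ε < c by linarith)] with j h1 h2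
      rw [lt_div_iff₀ h1] at h2
      exact h2.le
  rw [Metric.tendsto_nhds]
  intro ε hε
  have u1 := upper hx hD ht hs (key (ε / 4) (by positivity)).1 (show 0 < ε / 4 by positivity)
  have l1 := lower hx hD ht hs u1 (key (ε / 4) (by positivity)).2 (show 0 < ε / 4 by positivity)
  filter_upwards [u1, l1, log_tend.eventually_gt_atTop 0] with k h1 h2 h3
  rw [Real.dist_eq, abs_lt]
  constructor
  · have : c - ε / 4 - ε / 4 ≤ x k / Real.log k := by
      rw [le_div_iff₀ h3]; exact h2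
    linarith
  · have : x k / Real.log k ≤ c + ε / 4 + ε / 4 := by
      rw [div_le_iff₀ h3]; exact h1
    linarith

end Q215.SAW.Cvx
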