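import Pool.Agent.Q215.SAW.AddLim

/-!
# Slopes of almost convex sequences of logarithmic size, all residue classes
-/

set_option autoImplicit false

namespace Q215.SAW.Cvx

open Finset Filter Topology

variable {ell : ℕ → ℝ} {s : ℕ}

/-- **slopes** -/
theorem Ser.slopes (E : Ser ell s) {B : ℝ} (hB : ∀ᶠ n : ℕ in atTop, |ell n| ≤ B * Real.log n) :
    ∃ R : ℝ, 0 < R ∧ ∀ᶠ n : ℕ in atTop, |ell (n + s) - ell n| ≤ R * √(Real.log n / n) := by
  have hs := E.s1
  have hs1 : (1 : ℝ) ≤ s := by exact_mod_cast hs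
  have key : ∀ r, r < s → ∃ R : ℝ, 0 < R ∧ ∀ᶠ k : ℕ in atTop,
      |ell (s * k + r + s) - ell (s * k + r)| ≤ R * √(Real.log k / k) := by
    intro r hr
    obtain ⟨D, k0, hD, hac⟩ := E.ac r hr
    have hmul : Tendsto (fun k : ℕ => s * k + r) atTop atTop := by
      refine tendsto_atTop_mono (fun k => ?_) tendsto_id
      have := Nat.mul_le_mul_right k hs
      simp only [id]
      omega
    have hbd : ∀ᶠ k : ℕ in atTop, |(fun k => ell (s * k + r)) k| ≤ (B + 1) * Real.log k := by
      have h2 := conv (L := fun k : ℕ => Real.log ((s * k + r : ℕ) : ℝ))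
        (L' := fun k : ℕ => Real.log k) (C0 := Real.log (2 * s)) log_tend
        ((eventually_ge_atTop 1).mono fun k hk => by
          have h3 := log_div_near hs (n := s * k + r) (by nlinarith)
          have e : (s * k + r) / s = k := by
            rw [Nat.mul_add_div (by omega), Nat.div_eq_of_lt hr, add_zero]
          rw [e] at h3
          exact h3) B 0 one_pos
      filter_upwards [h2, hmul.eventually hB, eventually_ge_atTop 1] with k h3 h4 h5
      linarith
    obtain ⟨R, hR, h⟩ := Cvx.slopes hac hD hbd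
    refine ⟨R, hR, ?_⟩
    filter_upwards [h] with k hk
    have e : s * (k + 1) + r = s * k + r + s := by ring
    simp only [e] at hk
    exact hk
  choose! R hR hk using key
  obtain ⟨S, hS⟩ : ∃ S : ℝ, S = 1 + ∑ r ∈ range s, R r := ⟨_, rfl⟩
  have hS0 : 0 < S := by
    rw [hS]
    have : 0 ≤ ∑ r ∈ range s, R r := sum_nonneg fun r hr => (hR r (mem_range.1 hr)).le
    linarith
  have hRS : ∀ r < s, R r ≤ S := by
    intro r hr
    rw [hS]
    have := single_le_sum (f := R) (fun i hi => (hR i (mem_range.1 hi)).le) (mem_range.2 hr)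
    linarith
  have hall := all_of_res hs (p := fun r k => r < s →
      |ell (s * k + r + s) - ell (s * k + r)| ≤ R r * √(Real.log k / k))
    (fun r hr => (hk r hr).mono fun k h _ => h)
  refine ⟨2 * s * S, by positivity, ?_⟩
  filter_upwards [hall, eventually_ge_atTop (s + 1), (div_tend hs).eventually
    (log_tend.eventually_ge_atTop 0)] with n h1 h2 h3
  have h5 := h1 (Nat.mod_lt _ hs)
  rw [Nat.div_add_mod] at h5
  obtain ⟨b1, b2, b3⟩ := div_bounds hs (show s ≤ n by omega)
  have hn0 : (0 : ℝ) < n := by exact_mod_cast (show 0 < n by omega)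
  have hQ0 : (0 : ℝ) < ((n / s : ℕ) : ℝ) := by linarith
  have h6 : √(Real.log ((n / s : ℕ) : ℝ) / ((n / s : ℕ) : ℝ)) ≤
      2 * s * √(Real.log n / n) := by
    rw [Real.sqrt_le_left (by positivity), mul_pow, Real.sq_sqrt (div_nonneg
      (Real.log_nonneg (by exact_mod_cast (show 1 ≤ n by omega))) hn0.le)]
    have h7 : Real.log ((n / s : ℕ) : ℝ) ≤ Real.log n := Real.log_le_log hQ0 (by nlinarith)
    have h8 : 0 ≤ Real.log (n : ℝ) := h3.trans h7
    rw [div_le_iff₀ hQ0]
    calc Real.log ((n / s : ℕ) : ℝ) ≤ Real.log n := h7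
      _ = Real.log n / n * n := by field_simp
      _ ≤ Real.log n / n * (2 * s * ((n / s : ℕ) : ℝ)) :=
          mul_le_mul_of_nonneg_left b3 (by positivity)
      _ ≤ (2 * s) ^ 2 * (Real.log n / n) * ((n / s : ℕ) : ℝ) := by
          have h9 : 0 ≤ Real.log n / n * ((n / s : ℕ) : ℝ) := by positivity
          have h10 : 2 * (s : ℝ) ≤ (2 * s) ^ 2 := by nlinarith
          have h11 := mul_le_mul_of_nonneg_right h10 h9
          linarith
  refine h5.trans ?_
  have h7 := hRS (n % s) (Nat.mod_lt _ hs)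
  calc R (n % s) * √(Real.log ((n / s : ℕ) : ℝ) / ((n / s : ℕ) : ℝ))
      ≤ S * (2 * s * √(Real.log n / n)) :=
        mul_le_mul h7 h6 (Real.sqrt_nonneg _) hS0.le
    _ = _ := by ring

/-- logarithms and quotients -/
theorem exp_slope {a b r : ℝ} (ha : 0 < a) (hb : 0 < b) (h : |Real.log b - Real.log a| ≤ r)
    (hr : r ≤ 1) : |b / a - 1| ≤ 2 * r := by
  have h1 : b / a = Real.exp (Real.log b - Real.log a) := by
    rw [Real.exp_sub, Real.exp_log hb, Real.exp_log ha]
  rw [h1]
  have h2 := Real.abs_exp_sub_one_le (h.trans hr)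
  linarith

end Q215.SAW.Cvx
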