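import Pool.Agent.Q215.SAW.Glue
import Pool.Agent.Q219.SAW.Gap

/-!
# Sequences with small slopes along residue classes
-/

set_option autoImplicit false

namespace Q215.SAW.Cvx

open Filter Topology

/-- the assumptions: bounded steps, and small steps at distance `s` measured by `w` -/
structure Slp (ell : ℕ → ℝ) (s : ℕ) (w : ℕ → ℝ) : Prop where
  s1 : 1 ≤ s
  wp : ∀ᶠ n : ℕ in atTop, 0 < w n ∧ w n ≤ n
  st : ∃ (C : ℝ) (N : ℕ), ∀ n, N ≤ n → |ell (n + 1) - ell n| ≤ C
  sl : ∃ R : ℝ, ∀ᶠ n : ℕ in atTop, ∀ m, n ≤ m → m ≤ 2 * n →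
    |ell (m + s) - ell m| * w n ≤ R * Real.log n

variable {ell : ℕ → ℝ} {s : ℕ} {w : ℕ → ℝ}

theorem Slp.near (E : Slp ell s w) {t : ℕ → ℕ} (ht : Tendsto t atTop atTop)
    (hgap : Tendsto (fun j => ((t (j + 1) : ℝ) - t j) / w (t j)) atTop (𝓝 0)) {ε : ℝ}
    (hε : 0 < ε) (j1 : ℕ) : ∃ N0 : ℕ, ∀ n, N0 ≤ n → ∃ j, j1 ≤ j ∧ t j ≤ n ∧ n ≤ 2 * t j ∧
      |ell n - ell (t j)| ≤ ε * Real.log (t j) := by
  have hs := E.s1
  obtain ⟨C, N, hst⟩ := E.st
  obtain ⟨R, hR⟩ := E.sl
  obtain ⟨η, hη⟩ : ∃ η : ℝ, η = min 1 (ε / (2 * (|R| + 1))) := ⟨_, rfl⟩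
  have hη0 : 0 < η := by rw [hη]; exact lt_min one_pos (by positivity)
  have hη1 : η ≤ 1 := by rw [hη]; exact min_le_left _ _
  have hη2 : η ≤ ε / (2 * (|R| + 1)) := by rw [hη]; exact min_le_right _ _
  have hlt : ∀ᶠ j in atTop, 2 * (s * |C|) / ε ≤ Real.log (t j) :=
    (log_tend.comp ht).eventually_ge_atTop _
  obtain ⟨j0, hj0⟩ := eventually_atTop.1 (((Metric.tendsto_nhds.1 hgap η hη0).and
    (ht.eventually E.wp)).and ((ht.eventually hR).and (hlt.and (ht.eventually_ge_atTop (N + 1)))))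
  obtain ⟨N0, hN0⟩ := index ht (max j0 j1)
  refine ⟨N0, fun n hn => ?_⟩
  obtain ⟨j, hj, h1, h2⟩ := hN0 n hn
  obtain ⟨⟨a1, a2, a3⟩, a4, a5, a6⟩ := hj0 j ((le_max_left _ _).trans hj)
  obtain ⟨T, hT⟩ : ∃ T, T = t j := ⟨_, rfl⟩
  rw [← hT] at a1 a2 a3 a4 a5 a6 h1
  obtain ⟨g, hg⟩ : ∃ g, t (j + 1) = T + g := ⟨t (j + 1) - T, by omega⟩
  rw [hg] at a1 h2
  have e1 : ((T + g : ℕ) : ℝ) - T = g := by push_cast; ring
  rw [dist_zero_right, Real.norm_eq_abs, e1, abs_div, abs_of_pos a2,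
    abs_of_nonneg (Nat.cast_nonneg g), div_lt_iff₀ a2] at a1
  obtain ⟨i, rfl⟩ : ∃ i, n = T + i := ⟨n - T, by omega⟩
  have hgT : (g : ℝ) ≤ T := by
    have : η * w T ≤ 1 * T := mul_le_mul hη1 a3 a2.le zero_le_one
    linarith
  have hiT : i ≤ T := by
    have : (i : ℝ) ≤ T := by
      have : (i : ℝ) ≤ g := by exact_mod_cast (show i ≤ g by omega)
      linarith
    exact_mod_cast this
  refine ⟨j, (le_max_right _ _).trans hj, by rw [← hT]; omega, by rw [← hT]; omega, ?_⟩
  rw [← hT]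
  have hq : ∀ q, s * q ≤ i → |ell (T + s * q) - ell T| ≤ q * (|R| * Real.log T / w T) := by
    intro q
    induction q with
    | zero => intro _; simp
    | succ q ih =>
      intro hq
      have h3 : s * (q + 1) = s * q + s := by ring
      have h4 := ih (by omega)
      have h5 := a4 (T + s * q) (by omega) (by omega)
      have h6 : |ell (T + s * q + s) - ell (T + s * q)| ≤ |R| * Real.log T / w T := by
        rw [le_div_iff₀ a2]
        refine h5.trans ?_
        have h7 : 0 ≤ Real.log (T : ℝ) :=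
          Real.log_nonneg (by exact_mod_cast (show 1 ≤ T by omega))
        exact mul_le_mul_of_nonneg_right (le_abs_self _) h7
      have h7 : ell (T + s * (q + 1)) - ell T =
          (ell (T + s * q + s) - ell (T + s * q)) + (ell (T + s * q) - ell T) := by
        rw [h3, ← add_assoc]; ring
      rw [h7]
      refine (abs_add_le _ _).trans ?_
      push_cast
      linarith
  obtain ⟨q, r, hqr, hrs⟩ : ∃ q r, i = s * q + r ∧ r < s :=
    ⟨i / s, i % s, (Nat.div_add_mod i s).symm, Nat.mod_lt _ hs⟩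
  have h3 := hq q (by omega)
  have h4 := steps hst (show N ≤ T + s * q by omega) r
  have h5 : ell (T + i) - ell T =
      (ell (T + s * q + r) - ell (T + s * q)) + (ell (T + s * q) - ell T) := by
    rw [hqr, ← add_assoc]; ring
  rw [h5]
  refine (abs_add_le _ _).trans ?_
  have hL : 0 ≤ Real.log (T : ℝ) := Real.log_nonneg (by exact_mod_cast (show 1 ≤ T by omega))
  have h6 : (r : ℝ) * C ≤ ε / 2 * Real.log T := by
    rw [div_le_iff₀ hε] at a5
    have h7 : (r : ℝ) * C ≤ s * |C| :=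
      mul_le_mul (by exact_mod_cast hrs.le) (le_abs_self _) ((abs_nonneg _).trans
        (hst N le_rfl)) (Nat.cast_nonneg _)
    linarith
  have h7 : (q : ℝ) * (|R| * Real.log T / w T) ≤ ε / 2 * Real.log T := by
    have h8 : (q : ℝ) ≤ η * w T := by
      have : q ≤ g := by
        have := Nat.mul_le_mul_right q hs
        omega
      have : (q : ℝ) ≤ g := by exact_mod_cast this
      linarith
    have h9 : 0 ≤ |R| * Real.log T / w T := by positivity
    calc (q : ℝ) * (|R| * Real.log T / w T) ≤ η * w T * (|R| * Real.log T / w T) :=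
          mul_le_mul_of_nonneg_right h8 h9
      _ = η * (|R| * Real.log T) := by field_simp
      _ ≤ ε / (2 * (|R| + 1)) * ((|R| + 1) * Real.log T) := by
          refine mul_le_mul hη2 ?_ (by positivity) (by positivity)
          exact mul_le_mul_of_nonneg_right (by linarith) hL
      _ = ε / 2 * Real.log T := by
          have : |R| + 1 ≠ 0 := by positivity
          field_simp
  linarith

theorem Slp.lim (E : Slp ell s w) {t : ℕ → ℕ} (ht : Tendsto t atTop atTop)
    (hgap : Tendsto (fun j => ((t (j + 1) : ℝ) - t j) / w (t j)) atTop (𝓝 0)) {c : ℝ}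
    (hc : Tendsto (fun j => ell (t j) / Real.log (t j)) atTop (𝓝 c)) :
    Tendsto (fun n : ℕ => ell n / Real.log n) atTop (𝓝 c) := by
  have hls : Tendsto (fun k => Real.log (t k : ℝ)) atTop atTop := log_tend.comp ht
  rw [Q219.SAW.Gap.ratio_iff (hls.eventually_gt_atTop 0)] at hc
  rw [Q219.SAW.Gap.ratio_iff (log_tend.eventually_gt_atTop 0)]
  intro ε hε
  obtain ⟨j1, hj1⟩ := eventually_atTop.1 ((hc (ε / 4) (by positivity)).and
    ((hls.eventually_ge_atTop (4 * |c| / ε)).and (ht.eventually_ge_atTop 1)))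
  obtain ⟨N0, hN0⟩ := E.near ht hgap (show 0 < ε / 4 by positivity) j1
  refine eventually_atTop.2 ⟨N0, fun n hn => ?_⟩
  obtain ⟨j, hj, h1, h2, h3⟩ := hN0 n hn
  obtain ⟨h4, h5, h6⟩ := hj1 j hj
  have hT0 : (0 : ℝ) < t j := by exact_mod_cast (show 0 < t j by omega)
  have hn0 : (t j : ℝ) ≤ n := by exact_mod_cast h1
  have hn2 : (n : ℝ) ≤ 2 * t j := by exact_mod_cast h2
  have h7 : Real.log (t j) ≤ Real.log n := Real.log_le_log hT0 hn0
  have h8 : Real.log (n : ℝ) ≤ Real.log (t j) + 1 := by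
    have h9 := Real.log_le_log (by linarith) hn2
    rw [Real.log_mul (by norm_num) hT0.ne'] at h9
    have := Real.log_two_lt_d9
    linarith
  have h9 : |c * (Real.log n - Real.log (t j))| ≤ |c| := by
    rw [abs_mul]
    refine mul_le_of_le_one_right (abs_nonneg _) ?_
    rw [abs_le]; constructor <;> linarith
  rw [div_le_iff₀ hε] at h5
  have a3 := abs_le.1 h3
  have a4 := abs_le.1 h4
  have a9 := abs_le.1 h9
  have e : c * Real.log n = c * Real.log (t j) + c * (Real.log n - Real.log (t j)) := by ring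
  have h10 : ε * Real.log (t j) ≤ ε * Real.log n := mul_le_mul_of_nonneg_left h7 hε.le
  rw [abs_le, e]
  constructor <;> linarith

end Q215.SAW.Cvx
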