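import Pool.Agent.Q215.SAW.GapF
import Pool.Agent.Q215.SAW.SerB
import Pool.Agent.Q215.SAW.Slope

/-!
# Sequences known through `x (2 k) - 2 x k` along a sparse sequence
-/

set_option autoImplicit false

namespace Q215.SAW.Cvx

open Filter Topology

/-! ### iteration -/

theorem iter_up {z : ℕ → ℝ} {N0 : ℕ} {θ C B B0 : ℝ} (hθ0 : 0 < θ) (hθ1 : θ < 1) (hB : 0 ≤ B)
    (hN0 : 1 ≤ N0) (hb : ∀ n, N0 ≤ n → z n ≤ B * Real.log n ^ 2 + B0)
    (h : ∀ n, N0 ≤ n → ∃ m, n ≤ m ∧ m ≤ 4 * n ∧ z n ≤ θ * z m + C) :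
    ∀ n, N0 ≤ n → z n ≤ C / (1 - θ) := by
  have h1θ : 0 < 1 - θ := by linarith
  obtain ⟨Q, hQ⟩ : ∃ Q : ℝ, Q = C / (1 - θ) := ⟨_, rfl⟩
  have hQ2 : θ * Q + C = Q := by
    rw [hQ]; field_simp; ring
  have key : ∀ K : ℕ, ∀ n, N0 ≤ n →
      z n ≤ Q + θ ^ K * (B * (Real.log n + K * Real.log 4) ^ 2 + (B0 - Q)) := by
    intro K
    induction K with
    | zero =>
      intro n hn
      have := hb n hn
      simp only [pow_zero, Nat.cast_zero, zero_mul, add_zero, one_mul]
      linarith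
    | succ K ih =>
      intro n hn
      obtain ⟨m, h1, h2, h3⟩ := h n hn
      have h4 := ih m (hn.trans h1)
      have hn0 : (0 : ℝ) < n := by exact_mod_cast (show 0 < n by omega)
      have hm0 : (0 : ℝ) < m := by exact_mod_cast (show 0 < m by omega)
      have h5 : Real.log (m : ℝ) ≤ Real.log n + Real.log 4 := by
        rw [← Real.log_mul hn0.ne' (by norm_num)]
        refine Real.log_le_log hm0 ?_
        have : (m : ℝ) ≤ 4 * n := by exact_mod_cast h2
        linarith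
      have h6 : 0 ≤ Real.log (m : ℝ) := Real.log_nonneg (by exact_mod_cast (show 1 ≤ m by omega))
      have h7 : 0 ≤ Real.log (4 : ℝ) := Real.log_nonneg (by norm_num)
      have h8 : (Real.log m + K * Real.log 4) ^ 2 ≤
          (Real.log n + ((K + 1 : ℕ) : ℝ) * Real.log 4) ^ 2 := by
        refine pow_le_pow_left₀ (by positivity) ?_ 2
        push_cast
        linarith
      have h9 : B * (Real.log m + K * Real.log 4) ^ 2 ≤
          B * (Real.log n + ((K + 1 : ℕ) : ℝ) * Real.log 4) ^ 2 :=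
        mul_le_mul_of_nonneg_left h8 hB
      have hθK : 0 < θ ^ K := by positivity
      calc z n ≤ θ * z m + C := h3
        _ ≤ θ * (Q + θ ^ K * (B * (Real.log m + K * Real.log 4) ^ 2 + (B0 - Q))) + C := by
            have := mul_le_mul_of_nonneg_left h4 hθ0.le
            linarith
        _ = Q + θ ^ (K + 1) * (B * (Real.log m + K * Real.log 4) ^ 2 + (B0 - Q)) := by
            rw [mul_add, pow_succ]
            linear_combination hQ2
        _ ≤ _ := by
            have h10 : 0 < θ ^ (K + 1) := by positivity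
            have := mul_le_mul_of_nonneg_left (show
              B * (Real.log m + K * Real.log 4) ^ 2 + (B0 - Q) ≤
              B * (Real.log n + ((K + 1 : ℕ) : ℝ) * Real.log 4) ^ 2 + (B0 - Q) by linarith) h10.le
            linarith
  intro n hn
  have hlim : Tendsto (fun K : ℕ => Q + θ ^ K * (B * (Real.log n + K * Real.log 4) ^ 2 + (B0 - Q)))
      atTop (𝓝 Q) := by
    have hab : |θ| < 1 := by rw [abs_of_pos hθ0]; exact hθ1
    have p0 := tendsto_pow_const_mul_const_pow_of_abs_lt_one 0 hab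
    have p1 := tendsto_pow_const_mul_const_pow_of_abs_lt_one 1 hab
    have p2 := tendsto_pow_const_mul_const_pow_of_abs_lt_one 2 hab
    have h1 := (((p0.mul_const (B * Real.log n ^ 2 + (B0 - Q))).add
      (p1.mul_const (2 * B * Real.log n * Real.log 4))).add
      (p2.mul_const (B * Real.log 4 ^ 2))).const_add Q
    simp only [zero_mul, add_zero] at h1
    refine h1.congr fun K => ?_
    ring
  rw [← hQ]
  exact ge_of_tendsto' hlim fun K => key K n hn

/-! ### one residue class -/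

section
variable {x : ℕ → ℝ} {D : ℝ} {k0 : ℕ}

/-- between the members of a sequence with gaps `o(√k)` -/
theorem near0 (hx : AC x D k0) (hD : 0 ≤ D) {t : ℕ → ℕ} (ht : Tendsto t atTop atTop)
    (hs : RootSparse t) {ε : ℝ} (hε : 0 < ε) (j1 : ℕ) :
    ∃ N0 : ℕ, ∀ n, N0 ≤ n → ∃ j, j1 ≤ j ∧ n ≤ 2 * t j ∧ t j ≤ 2 * n ∧ x n ≤ x (t j) + ε := by
  obtain ⟨η, hη⟩ : ∃ η : ℝ, η = min 1 (ε / (D + 1)) := ⟨_, rfl⟩
  have hη0 : 0 < η := by rw [hη]; exact lt_min one_pos (by positivity)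
  have hη1 : η ≤ 1 := by rw [hη]; exact min_le_left _ _
  have hη2 : η ≤ ε / (D + 1) := by rw [hη]; exact min_le_right _ _
  obtain ⟨j0, hj0⟩ := eventually_atTop.1 ((hs.le ht hη0).and
    ((ht.eventually_ge_atTop k0).and (ht.eventually_ge_atTop 1)))
  obtain ⟨N0, hN0⟩ := index ht (max j0 j1)
  refine ⟨N0, fun n hn => ?_⟩
  obtain ⟨j, hj, h1, h2⟩ := hN0 n hn
  obtain ⟨a1, a2, a3⟩ := hj0 j ((le_max_left _ _).trans hj)
  have hj' : j1 ≤ j := (le_max_right _ _).trans hj
  obtain ⟨T, hT⟩ : ∃ T, T = t j := ⟨_, rfl⟩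
  rw [← hT] at a1 a2 a3 h1
  obtain ⟨g, hg⟩ : ∃ g, t (j + 1) = T + g := ⟨t (j + 1) - T, by omega⟩
  rw [hg] at a1 h2
  have hT0 : (0 : ℝ) < T := by exact_mod_cast a3
  have e1 : ((T + g : ℕ) : ℝ) - T = g := by push_cast; ring
  rw [e1] at a1
  obtain ⟨i, rfl⟩ : ∃ i, n = T + i := ⟨n - T, by omega⟩
  have h3 := between hx hD a2 a3 (show i ≤ g by omega)
  have hg2 : (g : ℝ) ^ 2 ≤ η * T := by
    calc (g : ℝ) ^ 2 ≤ (η * √T) ^ 2 := pow_le_pow_left₀ (Nat.cast_nonneg _) a1 2
      _ = η ^ 2 * T := by rw [mul_pow, Real.sq_sqrt hT0.le]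
      _ ≤ η * T := by
        refine mul_le_mul_of_nonneg_right ?_ hT0.le
        nlinarith
  have h4 : D * (g : ℝ) ^ 2 / T ≤ ε := by
    rw [div_le_iff₀ hT0]
    calc D * (g : ℝ) ^ 2 ≤ D * (η * T) := mul_le_mul_of_nonneg_left hg2 hD
      _ = D * η * T := by ring
      _ ≤ ε * T := by
        refine mul_le_mul_of_nonneg_right ?_ hT0.le
        rw [le_div_iff₀ (by positivity)] at hη2
        nlinarith
  have hgT : g ≤ T := by
    have h5 : √(T : ℝ) ≤ T := by
      rw [Real.sqrt_le_left hT0.le]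
      have : (1 : ℝ) ≤ T := by exact_mod_cast a3
      nlinarith
    have h6 : (g : ℝ) ≤ T := by
      have h7 : η * √(T : ℝ) ≤ 1 * T := mul_le_mul hη1 h5 (Real.sqrt_nonneg _) zero_le_one
      linarith
    exact_mod_cast h6
  rcases max_cases (x T) (x (T + g)) with ⟨h5, -⟩ | ⟨h5, -⟩
  · refine ⟨j, hj', by rw [← hT]; omega, by rw [← hT]; omega, ?_⟩
    rw [← hT]
    linarith
  · refine ⟨j + 1, by omega, by rw [hg]; omega, by rw [hg]; omega, ?_⟩
    rw [hg]
    linarith

/-- from the right -/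
theorem far0 (hx : AC x D k0) (hD : 0 ≤ D) {t : ℕ → ℕ} (ht : Tendsto t atTop atTop)
    (hs : RootSparse t) {B : ℝ} (hB : ∀ᶠ k in atTop, x k ≤ B) {η : ℝ} (hη0 : 0 < η) (hη1 : η ≤ 1)
    (j1 : ℕ) :
    ∃ N0 : ℕ, ∀ n, N0 ≤ n → ∃ j, j1 ≤ j ∧ n ≤ 2 * t j ∧ t j ≤ 2 * n ∧
      (1 + η) * x (t j) - η * (B + 4 * D) ≤ x n := by
  obtain ⟨K1, hK1⟩ := eventually_atTop.1 hB
  obtain ⟨j0, hj0⟩ := eventually_atTop.1 ((hs.le ht hη0).and
    ((ht.eventually_ge_atTop (k0 + K1)).and (ht.eventually_ge_atTop 1)))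
  obtain ⟨N0, hN0⟩ := index ht (max j0 j1)
  refine ⟨max N0 (k0 + K1 + 1), fun u hn => ?_⟩
  obtain ⟨j, hj, h1, h2⟩ := hN0 u ((le_max_left _ _).trans hn)
  have hu1 : k0 + K1 + 1 ≤ u := (le_max_right _ _).trans hn
  obtain ⟨a1, a2, a3⟩ := hj0 j ((le_max_left _ _).trans hj)
  have hj' : j1 ≤ j := (le_max_right _ _).trans hj
  obtain ⟨m, hm⟩ : ∃ m, t (j + 1) = u + m := ⟨t (j + 1) - u, by omega⟩
  have hu0 : (0 : ℝ) < u := by exact_mod_cast (show 0 < u by omega)
  have hu1' : (1 : ℝ) ≤ u := by exact_mod_cast (show 1 ≤ u by omega)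
  have hT0 : (0 : ℝ) < t j := by exact_mod_cast a3
  have htu : (t j : ℝ) ≤ u := by exact_mod_cast h1
  have hsq : √(t j : ℝ) ≤ √(u : ℝ) := Real.sqrt_le_sqrt htu
  have hmle : (m : ℝ) ≤ η * √(u : ℝ) := by
    rw [hm] at a1
    push_cast at a1
    have := mul_le_mul_of_nonneg_left hsq hη0.le
    linarith
  obtain ⟨h, hh⟩ : ∃ h : ℕ, h = ⌈√(u : ℝ)⌉₊ := ⟨_, rfl⟩
  have hs1 : 1 ≤ √(u : ℝ) := Real.one_le_sqrt.2 hu1'
  have hh1 : √(u : ℝ) ≤ h := by rw [hh]; exact Nat.le_ceil _
  have hh2 : (h : ℝ) ≤ 2 * √(u : ℝ) := by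
    have := (Nat.ceil_lt_add_one (Real.sqrt_nonneg (u : ℝ))).le
    rw [← hh] at this
    linarith
  have hh0 : (0 : ℝ) < h := by linarith
  have hmh : (m : ℝ) ≤ η * h := hmle.trans (mul_le_mul_of_nonneg_left hh1 hη0.le)
  have h3 := three_pt hx hD (u := u) (m := m) (h := h) (by omega) (by omega)
  have h4 : x (u + m + h) ≤ B := hK1 _ (by omega)
  have h5 : x (u + m) ≤ B := hK1 _ (by omega)
  have hm0 : (0 : ℝ) ≤ m := Nat.cast_nonneg _
  have hsqu : √(u : ℝ) * √(u : ℝ) = u := Real.mul_self_sqrt hu0.le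
  have hmu : (m : ℝ) ≤ u := by
    have : η * √(u : ℝ) ≤ 1 * u := by
      refine mul_le_mul hη1 ?_ (Real.sqrt_nonneg _) zero_le_one
      nlinarith
    linarith
  refine ⟨j + 1, by omega, by rw [hm]; omega, ?_, ?_⟩
  · rw [hm]
    have : m ≤ u := by exact_mod_cast hmu
    omega
  rw [hm]
  have h6 : (m : ℝ) * x (u + m + h) ≤ m * B := mul_le_mul_of_nonneg_left h4 hm0
  have h7 : D / (2 * u) * (m * h * (m + h)) ≤ D * (4 * η) * h := by
    have h8 : (m : ℝ) * (m + h) ≤ 8 * η * u := by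
      have b1 : (m : ℝ) + h ≤ 4 * √(u : ℝ) := by
        have : (m : ℝ) ≤ 1 * √(u : ℝ) :=
          hmle.trans (mul_le_mul_of_nonneg_right hη1 (Real.sqrt_nonneg _))
        linarith
      calc (m : ℝ) * (m + h) ≤ (η * √(u : ℝ)) * (4 * √(u : ℝ)) :=
            mul_le_mul hmle b1 (by positivity) (by positivity)
        _ = 4 * η * (√(u : ℝ) * √(u : ℝ)) := by ring
        _ = 4 * η * u := by rw [hsqu]
        _ ≤ 8 * η * u := by nlinarith
    have h9 : D / (2 * u) * (m * h * (m + h)) = D * h * ((m * (m + h)) / (2 * u)) := by ring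
    rw [h9]
    have h10 : ((m : ℝ) * (m + h)) / (2 * u) ≤ 4 * η := by
      rw [div_le_iff₀ (by positivity)]
      linarith
    have h11 : 0 ≤ D * h := by positivity
    have := mul_le_mul_of_nonneg_left h10 h11
    linarith
  -- `h x(u) ≥ (m + h) x(u+m) - m B - 4 D η h`
  have h8 : h * x u ≥ (m + h) * x (u + m) - m * B - D * (4 * η) * h := by linarith
  have h9 : (m + h) * x (u + m) - m * B ≥ h * x (u + m) + η * h * (x (u + m) - B) := by
    have : (m : ℝ) * (x (u + m) - B) ≥ η * h * (x (u + m) - B) :=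
      mul_le_mul_of_nonpos_right hmh (by linarith)
    linarith
  have h10 : h * ((1 + η) * x (u + m) - η * (B + 4 * D)) ≤ h * x u := by
    have e : h * ((1 + η) * x (u + m) - η * (B + 4 * D)) =
      h * x (u + m) + η * h * (x (u + m) - B) - D * (4 * η) * h := by ring
    rw [e]
    linarith
  exact le_of_mul_le_mul_left h10 hh0

/-- **the sharp form** -/
theorem dbl_lim (hx : AC x D k0) (hD : 0 ≤ D) {B B0 : ℝ} (hB : 0 ≤ B)
    (hb : ∀ᶠ n : ℕ in atTop, |x n| ≤ B * Real.log n ^ 2 + B0)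
    {t : ℕ → ℕ} (ht : Tendsto t atTop atTop) (hs : RootSparse t) {c : ℝ}
    (hc : Tendsto (fun j => 2 * x (t j) - x (2 * t j)) atTop (𝓝 c)) :
    Tendsto x atTop (𝓝 c) := by
  obtain ⟨M0, hM0⟩ := eventually_atTop.1 hb
  have hup : ∀ ε : ℝ, 0 < ε → ∀ᶠ k in atTop, x k ≤ c + ε := by
    intro ε hε
    obtain ⟨j1, hj1⟩ := eventually_atTop.1 (hc.eventually_le_const (show c < c + ε / 2 by linarith))
    obtain ⟨N0, hN0⟩ := near0 hx hD ht hs (show 0 < ε / 4 by positivity) j1
    have h1 := iter_up (z := x) (N0 := max N0 M0 + 1) (θ := 1 / 2) (C := (c + ε) / 2) (B := B)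
      (B0 := B0) (by norm_num) (by norm_num) hB (by omega)
      (fun n hn => (le_abs_self _).trans (hM0 n (by omega)))
      (fun n hn => by
        obtain ⟨j, a1, a2, a3, a4⟩ := hN0 n (by omega)
        have a5 := hj1 j a1
        exact ⟨2 * t j, by omega, by omega, by linarith⟩)
    filter_upwards [eventually_ge_atTop (max N0 M0 + 1)] with n hn
    have := h1 n hn
    have e : (c + ε) / 2 / (1 - 1 / 2) = c + ε := by ring
    rwa [e] at this
  have hlo : ∀ ε : ℝ, 0 < ε → ∀ᶠ k in atTop, c - ε ≤ x k := by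
    intro ε hε
    obtain ⟨U, hU⟩ : ∃ U : ℝ, U = c + 1 := ⟨_, rfl⟩
    have hU1 : ∀ᶠ k in atTop, x k ≤ U := by rw [hU]; exact hup 1 one_pos
    obtain ⟨S, hS⟩ : ∃ S : ℝ, S = |c| + |U| + 4 * D + 1 := ⟨_, rfl⟩
    have hS0 : 0 < S := by rw [hS]; positivity
    obtain ⟨η, hη⟩ : ∃ η : ℝ, η = min (1 / 2) (ε / (8 * S)) := ⟨_, rfl⟩
    have hη0 : 0 < η := by rw [hη]; exact lt_min (by norm_num) (by positivity)
    have hη1 : η ≤ 1 / 2 := by rw [hη]; exact min_le_left _ _
    have hη2 : η ≤ ε / (8 * S) := by rw [hη]; exact min_le_right _ _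
    obtain ⟨δ, hδ⟩ : ∃ δ : ℝ, δ = ε / 12 := ⟨_, rfl⟩
    have hδ0 : 0 < δ := by rw [hδ]; positivity
    obtain ⟨j1, hj1⟩ := eventually_atTop.1 (hc.eventually_const_le
      (show c - 2 * δ < c by linarith))
    obtain ⟨N0, hN0⟩ := far0 hx hD ht hs hU1 hη0 (by linarith) j1
    have h1 := iter_up (z := fun n => - x n) (N0 := max N0 M0 + 1) (θ := (1 + η) / 2)
      (C := -((1 + η) * (c / 2 - δ)) + η * (U + 4 * D)) (B := B)
      (B0 := B0) (by linarith) (by linarith) hB (by omega)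
      (fun n hn => (neg_le_abs _).trans (hM0 n (by omega)))
      (fun n hn => by
        obtain ⟨j, a1, a2, a3, a4⟩ := hN0 n (by omega)
        have a5 := hj1 j a1
        refine ⟨2 * t j, by omega, by omega, ?_⟩
        have a6 : (1 + η) * (x (2 * t j) / 2 + (c / 2 - δ)) ≤ (1 + η) * x (t j) :=
          mul_le_mul_of_nonneg_left (by linarith) (by linarith)
        linarith)
    filter_upwards [eventually_ge_atTop (max N0 M0 + 1)] with n hn
    have h2 := h1 n hn
    have h3 : 0 < 1 - (1 + η) / 2 := by linarith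
    rw [le_div_iff₀ h3] at h2
    -- `- x n (1 - η)/2 ≤ ...`
    have h4 : η * (8 * S) ≤ ε := by rwa [le_div_iff₀ (by positivity)] at hη2
    have hc1 := neg_abs_le c
    have hc2 := le_abs_self c
    have hu2 := le_abs_self U
    by_contra hcon
    push Not at hcon
    have h5 : (c - ε) * (1 - (1 + η) / 2) > x n * (1 - (1 + η) / 2) :=
      mul_lt_mul_of_pos_right hcon h3
    have h6 : η * |c| + η * |U| + η * (4 * D) + η = η * S := by rw [hS]; ring
    have h7 : -(η * |c|) ≤ η * c := by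
      have := mul_le_mul_of_nonneg_left hc1 hη0.le
      linarith
    have h8 : η * U ≤ η * |U| := mul_le_mul_of_nonneg_left hu2 hη0.le
    have h9 : η * ε ≤ ε / 2 := by nlinarith
    have h10 : η * δ ≤ δ / 2 := by nlinarith
    have h11 : δ = ε / 12 := hδ
    nlinarith
  rw [Metric.tendsto_nhds]
  intro ε hε
  filter_upwards [hup (ε / 2) (by positivity), hlo (ε / 2) (by positivity)] with k h1 h2
  rw [Real.dist_eq, abs_lt]
  constructor <;> linarith
end

/-! ### exponents, all residue classes -/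

section
variable {ell : ℕ → ℝ} {s : ℕ}

theorem log_two_near {n m : ℕ} (hn : 1 ≤ n) (h1 : n ≤ 2 * m) (h2 : m ≤ 2 * n) :
    |Real.log (m : ℝ) - Real.log n| ≤ Real.log 2 := by
  have hn0 : (0 : ℝ) < n := by exact_mod_cast hn
  have hm0 : (0 : ℝ) < m := by exact_mod_cast (show 0 < m by omega)
  have a1 : Real.log (m : ℝ) ≤ Real.log 2 + Real.log n := by
    rw [← Real.log_mul (by norm_num) hn0.ne']
    exact Real.log_le_log hm0 (by exact_mod_cast h2)
  have a2 : Real.log (n : ℝ) ≤ Real.log 2 + Real.log m := by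
    rw [← Real.log_mul (by norm_num) hm0.ne']
    exact Real.log_le_log hn0 (by exact_mod_cast h1)
  rw [abs_le]
  constructor <;> linarith

/-- between the members of a sparse sequence -/
theorem Ser.near_up (E : Ser ell s) {t : ℕ → ℕ} (ht : Tendsto t atTop atTop) (hsp : Sparse t)
    {ε : ℝ} (hε : 0 < ε) (j1 : ℕ) :
    ∃ N0 : ℕ, ∀ n, N0 ≤ n → ∃ j, j1 ≤ j ∧ n ≤ 2 * t j ∧ t j ≤ 2 * n ∧
      ell n ≤ ell (t j) + ε * Real.log n := by
  have hs := E.s1
  have hs1 : (1 : ℝ) ≤ s := by exact_mod_cast hs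
  obtain ⟨C, N, hst⟩ := E.st
  have key : ∀ r, r < s → ∀ᶠ k : ℕ in atTop, ∃ j, j1 ≤ j ∧
      (k : ℝ) ≤ 3 / 2 * ((t j / s : ℕ) : ℝ) ∧ ((t j / s : ℕ) : ℝ) ≤ 3 / 2 * k ∧
      ell (s * k + r) ≤ ell (s * (t j / s) + r) + ε / 2 * Real.log k := by
    intro r hr
    obtain ⟨D, k0, hD, hx⟩ := E.ac r hr
    have hτ : Tendsto (fun j => t j / s) atTop atTop := (div_tend hs).comp ht
    have hsτ : Sparse (fun j => t j / s) := sparse_div hs ht hsp
    obtain ⟨η, hη⟩ : ∃ η : ℝ, η = min (1 / 2) (ε / (4 * (D + 1))) := ⟨_, rfl⟩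
    have hη0 : 0 < η := by rw [hη]; exact lt_min (by norm_num) (by positivity)
    have hη1 : η ≤ 1 / 2 := by rw [hη]; exact min_le_left _ _
    have hη2 : η ≤ ε / (4 * (D + 1)) := by rw [hη]; exact min_le_right _ _
    obtain ⟨j0, hj0⟩ := eventually_atTop.1 ((large hτ hsτ hη0 1).and
      (hτ.eventually_ge_atTop k0))
    obtain ⟨N0, hN0⟩ := index hτ (max j0 j1)
    refine eventually_atTop.2 ⟨N0, fun n hn => ?_⟩
    obtain ⟨j, hj, h1, h2⟩ := hN0 n hn
    obtain ⟨⟨a1, a2, a3, a4, a5⟩, a6⟩ := hj0 j ((le_max_left _ _).trans hj)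
    have hj' : j1 ≤ j := (le_max_right _ _).trans hj
    obtain ⟨T, hT⟩ : ∃ T, T = t j / s := ⟨_, rfl⟩
    simp only [← hT] at a1 a2 a3 a4 a5 a6 h1
    obtain ⟨g, hg⟩ : ∃ g, t (j + 1) / s = T + g := ⟨t (j + 1) / s - T, by omega⟩
    rw [hg] at a5 h2
    have hT0 : (0 : ℝ) < T := by exact_mod_cast (show 0 < T by omega)
    have e1 : ((T + g : ℕ) : ℝ) - T = g := by push_cast; ring
    rw [e1] at a5
    obtain ⟨i, rfl⟩ : ∃ i, n = T + i := ⟨n - T, by omega⟩
    have h3 := between hx hD a6 (show 1 ≤ T by omega) (show i ≤ g by omega)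
    have hL0 : 0 < Real.log (T : ℝ) := by linarith
    have hg2 : (g : ℝ) ^ 2 ≤ η * (T * Real.log T) := by
      calc (g : ℝ) ^ 2 ≤ (η * √(T * Real.log T)) ^ 2 :=
            pow_le_pow_left₀ (Nat.cast_nonneg _) a5 2
        _ = η ^ 2 * (T * Real.log T) := by rw [mul_pow, Real.sq_sqrt (by positivity)]
        _ ≤ η * (T * Real.log T) := by
          refine mul_le_mul_of_nonneg_right ?_ (by positivity)
          nlinarith
    have h4 : D * (g : ℝ) ^ 2 / T ≤ ε / 4 * Real.log T := by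
      rw [div_le_iff₀ hT0]
      calc D * (g : ℝ) ^ 2 ≤ D * (η * (T * Real.log T)) := mul_le_mul_of_nonneg_left hg2 hD
        _ = D * η * (T * Real.log T) := by ring
        _ ≤ ε / 4 * (T * Real.log T) := by
          refine mul_le_mul_of_nonneg_right ?_ (by positivity)
          rw [le_div_iff₀ (by positivity)] at hη2
          nlinarith
        _ = _ := by ring
    have hgT : (g : ℝ) ≤ 1 / 2 * T := by
      have h5 : √((T : ℝ) * Real.log T) ≤ T := by
        rw [Real.sqrt_le_left hT0.le]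
        nlinarith
      have h7 : η * √((T : ℝ) * Real.log T) ≤ 1 / 2 * T :=
        mul_le_mul hη1 h5 (Real.sqrt_nonneg _) (by norm_num)
      linarith
    have hig : (i : ℝ) ≤ g := by exact_mod_cast (show i ≤ g by omega)
    have hi0 : (0 : ℝ) ≤ i := Nat.cast_nonneg _
    have hlT : Real.log (T : ℝ) ≤ Real.log ((T + i : ℕ) : ℝ) :=
      Real.log_le_log hT0 (by push_cast; linarith)
    rcases max_cases ((fun k => ell (s * k + r)) T) ((fun k => ell (s * k + r)) (T + g)) with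
      ⟨h5, -⟩ | ⟨h5, -⟩
    · refine ⟨j, hj', ?_, ?_, ?_⟩
      · rw [← hT]; push_cast; linarith
      · rw [← hT]; push_cast; linarith
      · rw [← hT]
        rw [h5] at h3
        simp only at h3
        nlinarith
    · refine ⟨j + 1, by omega, ?_, ?_, ?_⟩
      · rw [hg]; push_cast
        have : (0 : ℝ) ≤ g := Nat.cast_nonneg _
        linarith
      · rw [hg]; push_cast; linarith
      · rw [hg]
        rw [h5] at h3
        simp only at h3
        nlinarith
  have hall := all_of_res hs (p := fun r k => r < s → ∃ j, j1 ≤ j ∧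
      (k : ℝ) ≤ 3 / 2 * ((t j / s : ℕ) : ℝ) ∧ ((t j / s : ℕ) : ℝ) ≤ 3 / 2 * k ∧
      ell (s * k + r) ≤ ell (s * (t j / s) + r) + ε / 2 * Real.log k)
    (fun r hr => (key r hr).mono fun k h _ => h)
  obtain ⟨N0, hN0⟩ := eventually_atTop.1 (((hall.and (log_tend.eventually_ge_atTop
    (2 * (s * (2 * |C|)) / ε))).and (log_tend.eventually_ge_atTop 0)).and
    (eventually_ge_atTop (8 * (N + s) + 8 * s)))
  refine ⟨N0, fun n hn => ?_⟩
  obtain ⟨⟨⟨h1, h2⟩, h3⟩, h4⟩ := hN0 n hn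
  obtain ⟨j, a1, a2, a3, a4⟩ := h1 (Nat.mod_lt _ hs)
  rw [Nat.div_add_mod] at a4
  obtain ⟨q, hq⟩ : ∃ q, q = n / s := ⟨_, rfl⟩
  obtain ⟨p, hp⟩ : ∃ p, p = t j / s := ⟨_, rfl⟩
  rw [← hq, ← hp] at a2 a3
  have b1 : s * q ≤ n := by rw [hq]; exact Nat.mul_div_le n s
  have b2 : n < s * q + s := by
    have := Nat.div_add_mod n s
    have := Nat.mod_lt n (show 0 < s by omega)
    rw [hq]; omega
  have b3 : s * p ≤ t j := by rw [hp]; exact Nat.mul_div_le (t j) s
  have b4 : t j < s * p + s := by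
    have := Nat.div_add_mod (t j) s
    have := Nat.mod_lt (t j) (show 0 < s by omega)
    rw [hp]; omega
  have a2' : 2 * q ≤ 3 * p := by
    have : (2 : ℝ) * q ≤ 3 * p := by linarith
    exact_mod_cast this
  have a3' : 2 * p ≤ 3 * q := by
    have : (2 : ℝ) * p ≤ 3 * q := by linarith
    exact_mod_cast this
  have c1 : 2 * (s * q) ≤ 3 * (s * p) := by
    have := Nat.mul_le_mul_left s a2'
    linarith
  have c2 : 2 * (s * p) ≤ 3 * (s * q) := by
    have := Nat.mul_le_mul_left s a3'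
    linarith
  have hbig : N + s ≤ t j := by omega
  have hst' : ∀ n, N ≤ n → |ell (n + 1) - ell n| ≤ |C| := fun n hn =>
    (hst n hn).trans (le_abs_self C)
  have d1 := steps_div hst' hs (Nat.mod_lt n hs) hbig
  rw [abs_le] at d1
  have d2 : s * (2 * |C|) ≤ ε / 2 * Real.log n := by
    rw [div_le_iff₀ hε] at h2
    linarith
  have d3 : Real.log ((n / s : ℕ) : ℝ) ≤ Real.log n := by
    obtain ⟨b1, b2, b3⟩ := div_bounds hs (show s ≤ n by omega)
    exact Real.log_le_log (by linarith) (by nlinarith)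
  refine ⟨j, a1, by omega, by omega, ?_⟩
  have d4 : ε / 2 * Real.log ((n / s : ℕ) : ℝ) ≤ ε / 2 * Real.log n :=
    mul_le_mul_of_nonneg_left d3 (by positivity)
  linarith [d1.2]

/-- **upper bounds** from `2 ell (t) - ell (2 t)` -/
theorem Ser.dbl_up (E : Ser ell s) {B B0 : ℝ} (hB : 0 ≤ B)
    (hb : ∀ᶠ n : ℕ in atTop, |ell n| ≤ B * Real.log n ^ 2 + B0)
    {t : ℕ → ℕ} (ht : Tendsto t atTop atTop) (hsp : Sparse t) {b : ℝ}
    (hc : ∀ ε : ℝ, 0 < ε → ∀ᶠ j in atTop, 2 * ell (t j) - ell (2 * t j) ≤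
      (b + ε) * Real.log (t j)) {ε : ℝ} (hε : 0 < ε) :
    ∀ᶠ n : ℕ in atTop, ell n ≤ (b + ε) * Real.log n := by
  obtain ⟨M0, hM0⟩ := eventually_atTop.1 hb
  obtain ⟨δ, hδ⟩ : ∃ δ : ℝ, δ = ε / 8 := ⟨_, rfl⟩
  have hδ0 : 0 < δ := by rw [hδ]; positivity
  obtain ⟨j1, hj1⟩ := eventually_atTop.1 (hc δ hδ0)
  obtain ⟨N0, hN0⟩ := E.near_up ht hsp hδ0 j1
  obtain ⟨b', hb'⟩ : ∃ b' : ℝ, b' = b + 4 * δ := ⟨_, rfl⟩
  have h1 := iter_up (z := fun n => ell n - b' * Real.log n) (N0 := max N0 M0 + 1)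
    (θ := 1 / 2) (C := |b'| * Real.log 4 + |b + δ| * Real.log 2) (B := B + |b'|)
    (B0 := B0 + |b'|) (by norm_num) (by norm_num) (by positivity) (by omega)
    (fun n hn => by
      have h2 := (le_abs_self _).trans (hM0 n (by omega))
      have h3 : 0 ≤ Real.log (n : ℝ) := Real.log_nonneg (by exact_mod_cast (show 1 ≤ n by omega))
      have h4 : -(b' * Real.log n) ≤ |b'| * Real.log n := by
        have := mul_le_mul_of_nonneg_right (neg_abs_le b') h3
        linarith
      have h5 : |b'| * Real.log n ≤ |b'| * (Real.log n ^ 2 + 1) :=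
        mul_le_mul_of_nonneg_left (by nlinarith [sq_nonneg (Real.log (n : ℝ) - 1)])
          (abs_nonneg _)
      linarith)
    (fun n hn => by
      obtain ⟨j, a1, a2, a3, a4⟩ := hN0 n (by omega)
      have a5 := hj1 j a1
      have hn1 : 1 ≤ n := by omega
      have hL0 : 0 ≤ Real.log (n : ℝ) := Real.log_nonneg (by exact_mod_cast hn1)
      have a6 := log_two_near hn1 a2 a3
      refine ⟨2 * t j, by omega, by omega, ?_⟩
      have hm1 : 1 ≤ 2 * t j := by omega
      have hn0 : (0 : ℝ) < n := by exact_mod_cast hn1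
      have hm0 : (0 : ℝ) < ((2 * t j : ℕ) : ℝ) := by exact_mod_cast hm1
      have a7 : Real.log ((2 * t j : ℕ) : ℝ) ≤ Real.log n + Real.log 4 := by
        rw [← Real.log_mul hn0.ne' (by norm_num)]
        refine Real.log_le_log hm0 ?_
        have : ((2 * t j : ℕ) : ℝ) ≤ ((4 * n : ℕ) : ℝ) := by exact_mod_cast (by omega)
        push_cast at this ⊢
        linarith
      have a8 : Real.log (n : ℝ) ≤ Real.log ((2 * t j : ℕ) : ℝ) :=
        Real.log_le_log hn0 (by exact_mod_cast a2)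
      have a9 : (b + δ) * Real.log (t j) ≤ (b + δ) * Real.log n + |b + δ| * Real.log 2 := by
        have : (b + δ) * (Real.log (t j) - Real.log n) ≤ |b + δ| * Real.log 2 := by
          refine (le_abs_self _).trans ?_
          rw [abs_mul]
          exact mul_le_mul_of_nonneg_left a6 (abs_nonneg _)
        linarith
      have a10 : b' / 2 * (Real.log ((2 * t j : ℕ) : ℝ) - Real.log n) ≤
          |b'| / 2 * Real.log 4 := by
        refine (le_abs_self _).trans ?_
        rw [abs_mul, abs_div, abs_of_pos (show (0 : ℝ) < 2 by norm_num),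
          abs_of_nonneg (sub_nonneg.2 a8)]
        exact mul_le_mul_of_nonneg_left (by linarith) (by positivity)
      have h2 : 0 ≤ |b'| * Real.log 4 := by positivity
      have h3 : 0 ≤ |b + δ| * Real.log 2 := by positivity
      nlinarith)
  have hfin : ∀ᶠ n : ℕ in atTop,
      (|b'| * Real.log 4 + |b + δ| * Real.log 2) / (1 - 1 / 2) ≤ (ε / 2) * Real.log n := by
    filter_upwards [log_tend.eventually_ge_atTop
      ((|b'| * Real.log 4 + |b + δ| * Real.log 2) / (1 - 1 / 2) / (ε / 2))] with n hn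
    rw [div_le_iff₀ (by positivity)] at hn
    linarith
  filter_upwards [hfin, eventually_ge_atTop (max N0 M0 + 1)] with n h2 h3
  have h4 := h1 n h3
  have e : b' = b + ε / 2 := by rw [hb', hδ]; ring
  rw [e] at h4 h2
  linarith

/-- small oscillations over windows of length `o(√(n log n))` -/
theorem Ser.osc (E : Ser ell s) {B : ℝ} (hB : ∀ᶠ n : ℕ in atTop, |ell n| ≤ B * Real.log n)
    {ε : ℝ} (hε : 0 < ε) : ∃ η : ℝ, 0 < η ∧ η ≤ 1 ∧ ∀ᶠ m : ℕ in atTop, ∀ i : ℕ,
      (i : ℝ) ≤ η * √(m * Real.log m) → |ell (m + i) - ell m| ≤ ε * Real.log m := by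
  have hs := E.s1
  have hs1 : (1 : ℝ) ≤ s := by exact_mod_cast hs
  obtain ⟨C, N, hst⟩ := E.st
  obtain ⟨R, hR, hsl⟩ := E.slopes hB
  obtain ⟨M, hM⟩ := eventually_atTop.1 hsl
  obtain ⟨η, hη⟩ : ∃ η : ℝ, η = min 1 (ε / (4 * R)) := ⟨_, rfl⟩
  have hη0 : 0 < η := by rw [hη]; exact lt_min one_pos (by positivity)
  have hη1 : η ≤ 1 := by rw [hη]; exact min_le_left _ _
  have hη2 : η ≤ ε / (4 * R) := by rw [hη]; exact min_le_right _ _
  refine ⟨η, hη0, hη1, ?_⟩
  filter_upwards [eventually_ge_atTop (M + N + 3), log_tend.eventually_ge_atTop 1,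
    log_tend.eventually_ge_atTop (2 * (s * |C|) / ε)] with m h1 h2 h3 i hi
  have hm0 : (0 : ℝ) < m := by exact_mod_cast (show 0 < m by omega)
  have hlm : Real.log (m : ℝ) ≤ m := Real.log_le_self hm0.le
  have hsqm : √((m : ℝ) * Real.log m) ≤ m := by
    rw [Real.sqrt_le_left hm0.le]
    nlinarith
  have him : (i : ℝ) ≤ m := by
    have : η * √((m : ℝ) * Real.log m) ≤ 1 * m :=
      mul_le_mul hη1 hsqm (Real.sqrt_nonneg _) zero_le_one
    linarith
  have him' : i ≤ m := by exact_mod_cast him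
  obtain ⟨q, hq⟩ : ∃ q, q = i / s := ⟨_, rfl⟩
  obtain ⟨r, hr⟩ : ∃ r, r = i % s := ⟨_, rfl⟩
  have hi2 : i = s * q + r := by rw [hq, hr]; exact (Nat.div_add_mod i s).symm
  have hrs : r < s := by rw [hr]; exact Nat.mod_lt _ hs
  obtain ⟨σ, hσ⟩ : ∃ σ : ℝ, σ = √(2 * Real.log m / m) := ⟨_, rfl⟩
  have hσ0 : 0 ≤ σ := by rw [hσ]; exact Real.sqrt_nonneg _
  have hone : ∀ k, s * k ≤ i → |ell (m + s * k + s) - ell (m + s * k)| ≤ R * σ := by
    intro k hk
    refine (hM (m + s * k) (by omega)).trans (mul_le_mul_of_nonneg_left ?_ hR.le)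
    rw [hσ]
    refine Real.sqrt_le_sqrt ?_
    have hk1 : (m : ℝ) ≤ ((m + s * k : ℕ) : ℝ) := by exact_mod_cast (Nat.le_add_right _ _)
    have hk2 : ((m + s * k : ℕ) : ℝ) ≤ 2 * m := by
      have : ((m + s * k : ℕ) : ℝ) ≤ ((2 * m : ℕ) : ℝ) := by exact_mod_cast (by omega)
      push_cast at this ⊢
      linarith
    have hk3 : Real.log ((m + s * k : ℕ) : ℝ) ≤ 2 * Real.log m := by
      calc Real.log ((m + s * k : ℕ) : ℝ) ≤ Real.log (2 * m) :=
            Real.log_le_log (by linarith) hk2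
        _ ≤ Real.log ((m : ℝ) ^ 2) := Real.log_le_log (by positivity) (by
            have : (2 : ℝ) ≤ m := by exact_mod_cast (show 2 ≤ m by omega)
            nlinarith)
        _ = 2 * Real.log m := by rw [Real.log_pow]; norm_num
    exact div_le_div₀ (by positivity) hk3 hm0 hk1
  have hsum : ∀ k, s * k ≤ i → |ell (m + s * k) - ell m| ≤ k * (R * σ) := by
    intro k
    induction k with
    | zero => intro _; simp
    | succ k ih =>
      intro hk
      have h5 : s * k ≤ i := by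
        have : s * k ≤ s * (k + 1) := Nat.mul_le_mul_left s (by omega)
        omega
      have h6 := ih h5
      have h7 := hone k h5
      have e : m + s * (k + 1) = m + s * k + s := by ring
      rw [e]
      push_cast
      have h8 := abs_add_le (ell (m + s * k + s) - ell (m + s * k)) (ell (m + s * k) - ell m)
      have e2 : ell (m + s * k + s) - ell (m + s * k) + (ell (m + s * k) - ell m) =
        ell (m + s * k + s) - ell m := by ring
      rw [e2] at h8
      linarith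
  have h5 := hsum q (by omega)
  have hst' : ∀ n, N ≤ n → |ell (n + 1) - ell n| ≤ |C| := fun n hn =>
    (hst n hn).trans (le_abs_self C)
  have h6 := steps hst' (n := m + s * q) (by omega) r
  have e3 : m + s * q + r = m + i := by rw [hi2]; ring
  rw [e3] at h6
  have h7 : (r : ℝ) * |C| ≤ s * |C| :=
    mul_le_mul_of_nonneg_right (by exact_mod_cast hrs.le) (abs_nonneg _)
  have h8 : s * |C| ≤ ε / 2 * Real.log m := by
    rw [div_le_iff₀ hε] at h3
    linarith
  have h9 : (q : ℝ) * (R * σ) ≤ ε / 2 * Real.log m := by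
    have hqi : (q : ℝ) ≤ i := by
      have : q ≤ i := by
        rw [hi2]
        have : 1 * q ≤ s * q := Nat.mul_le_mul_right q hs
        omega
      exact_mod_cast this
    have hL : 0 < Real.log (m : ℝ) := by linarith
    have h10 : √((m : ℝ) * Real.log m) * σ ≤ 2 * Real.log m := by
      rw [hσ, ← Real.sqrt_mul (by positivity)]
      have e : (m : ℝ) * Real.log m * (2 * Real.log m / m) = 2 * Real.log m ^ 2 := by
        field_simp
      rw [e, Real.sqrt_le_left (by positivity)]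
      nlinarith [sq_nonneg (Real.log (m : ℝ))]
    calc (q : ℝ) * (R * σ) ≤ (η * √((m : ℝ) * Real.log m)) * (R * σ) :=
          mul_le_mul_of_nonneg_right (hqi.trans hi) (by positivity)
      _ = η * R * (√((m : ℝ) * Real.log m) * σ) := by ring
      _ ≤ η * R * (2 * Real.log m) := mul_le_mul_of_nonneg_left h10 (by positivity)
      _ = (η * (4 * R)) * (1 / 2 * Real.log m) := by ring
      _ ≤ ε * (1 / 2 * Real.log m) := by
          refine mul_le_mul_of_nonneg_right ?_ (by positivity)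
          rwa [le_div_iff₀ (by positivity)] at hη2
      _ = _ := by ring
  have h10 := abs_add_le (ell (m + i) - ell (m + s * q)) (ell (m + s * q) - ell m)
  have e4 : ell (m + i) - ell (m + s * q) + (ell (m + s * q) - ell m) = ell (m + i) - ell m := by
    ring
  rw [e4] at h10
  linarith

/-- near a member of a sparse sequence, at `n` and at `2 n` -/
theorem Ser.near2 (E : Ser ell s) {B : ℝ} (hB : ∀ᶠ n : ℕ in atTop, |ell n| ≤ B * Real.log n)
    {t : ℕ → ℕ} (ht : Tendsto t atTop atTop) (hsp : Sparse t) {ε : ℝ} (hε : 0 < ε) (j1 : ℕ) :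
    ∃ N0 : ℕ, ∀ n, N0 ≤ n → ∃ j, j1 ≤ j ∧ t j ≤ n ∧ n ≤ 2 * t j ∧
      |ell n - ell (t j)| ≤ ε * Real.log (t j) ∧
      |ell (2 * n) - ell (2 * t j)| ≤ 2 * ε * Real.log (t j) := by
  obtain ⟨η, hη0, hη1, hosc⟩ := E.osc hB hε
  obtain ⟨M, hM⟩ := eventually_atTop.1 hosc
  obtain ⟨j0, hj0⟩ := eventually_atTop.1 ((large ht hsp (show 0 < η / 2 by positivity) 1).and
    (ht.eventually_ge_atTop M))
  obtain ⟨N0, hN0⟩ := index ht (max j0 j1)
  refine ⟨N0, fun n hn => ?_⟩
  obtain ⟨j, hj, h1, h2⟩ := hN0 n hn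
  obtain ⟨⟨a1, a2, a3, a4, a5⟩, a6⟩ := hj0 j ((le_max_left _ _).trans hj)
  obtain ⟨T, hT⟩ : ∃ T, T = t j := ⟨_, rfl⟩
  rw [← hT] at a1 a2 a3 a4 a5 a6 h1
  obtain ⟨i, rfl⟩ : ∃ i, n = T + i := ⟨n - T, by omega⟩
  have hT0 : (0 : ℝ) < T := by exact_mod_cast (show 0 < T by omega)
  have hi : (i : ℝ) ≤ η / 2 * √(T * Real.log T) := by
    have : ((T + i : ℕ) : ℝ) ≤ t (j + 1) := by exact_mod_cast h2.le
    push_cast at this
    linarith
  have hL0 : 0 < Real.log (T : ℝ) := by linarith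
  have hsq0 : 0 ≤ √((T : ℝ) * Real.log T) := Real.sqrt_nonneg _
  have h3 := hM T a6 i (by nlinarith)
  have hlog2 : Real.log (2 * (T : ℝ)) ≤ 2 * Real.log T := by
    calc Real.log (2 * (T : ℝ)) ≤ Real.log ((T : ℝ) ^ 2) := Real.log_le_log (by positivity) (by
            have : (3 : ℝ) ≤ T := by exact_mod_cast a1
            nlinarith)
      _ = 2 * Real.log T := by rw [Real.log_pow]; norm_num
  have h4 := hM (2 * T) (by omega) (2 * i) (by
    push_cast
    have h5 : √((T : ℝ) * Real.log T) ≤ √(2 * (T : ℝ) * Real.log (2 * (T : ℝ))) := by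
      refine Real.sqrt_le_sqrt ?_
      have h6 : Real.log (T : ℝ) ≤ Real.log (2 * (T : ℝ)) := Real.log_le_log hT0 (by linarith)
      nlinarith
    calc 2 * (i : ℝ) ≤ 2 * (η / 2 * √(T * Real.log T)) := by linarith
      _ = η * √(T * Real.log T) := by ring
      _ ≤ _ := mul_le_mul_of_nonneg_left h5 hη0.le)
  have hiT : (i : ℝ) ≤ T := by
    have h5 : √((T : ℝ) * Real.log T) ≤ T := by
      rw [Real.sqrt_le_left hT0.le]
      nlinarith
    nlinarith
  have hiT' : i ≤ T := by exact_mod_cast hiT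
  refine ⟨j, (le_max_right _ _).trans hj, by rw [← hT]; omega, by rw [← hT]; omega, ?_, ?_⟩
  · rw [← hT]; exact h3
  · rw [← hT]
    have e : 2 * (T + i) = 2 * T + 2 * i := by ring
    rw [e]
    refine h4.trans ?_
    push_cast
    have := mul_le_mul_of_nonneg_left hlog2 hε.le
    linarith

/-- **the exponent** from `2 ell (t) - ell (2 t)` -/
theorem Ser.dbl_lim (E : Ser ell s) {B B0 : ℝ} (hB : 0 ≤ B)
    (hb : ∀ᶠ n : ℕ in atTop, |ell n| ≤ B * Real.log n ^ 2 + B0)
    (hpos : ∀ᶠ n : ℕ in atTop, 0 ≤ ell n)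
    {t : ℕ → ℕ} (ht : Tendsto t atTop atTop) (hsp : Sparse t) {c : ℝ}
    (hc : Tendsto (fun j => (2 * ell (t j) - ell (2 * t j)) / Real.log (t j)) atTop (𝓝 c)) :
    Tendsto (fun n : ℕ => ell n / Real.log n) atTop (𝓝 c) := by
  have hlogt : ∀ᶠ j in atTop, 0 < Real.log (t j) := (log_tend.comp ht).eventually_gt_atTop 0
  have hc1 : ∀ ε : ℝ, 0 < ε → ∀ᶠ j in atTop, 2 * ell (t j) - ell (2 * t j) ≤
      (c + ε) * Real.log (t j) := by
    intro ε hε
    filter_upwards [hlogt, hc.eventually_lt_const (show c < c + ε by linarith)] with j h1 h2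
    rw [div_lt_iff₀ h1] at h2
    exact h2.le
  have hc2 : ∀ ε : ℝ, 0 < ε → ∀ᶠ j in atTop, (c - ε) * Real.log (t j) ≤
      2 * ell (t j) - ell (2 * t j) := by
    intro ε hε
    filter_upwards [hlogt, hc.eventually_const_lt (show c - ε < c by linarith)] with j h1 h2
    rw [lt_div_iff₀ h1] at h2
    exact h2.le
  have hup : ∀ ε : ℝ, 0 < ε → ∀ᶠ n : ℕ in atTop, ell n ≤ (c + ε) * Real.log n :=
    fun ε hε => E.dbl_up hB hb ht hsp hc1 hε
  have habs : ∀ᶠ n : ℕ in atTop, |ell n| ≤ (c + 1) * Real.log n := by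
    filter_upwards [hup 1 one_pos, hpos] with n h1 h2
    rwa [abs_of_nonneg h2]
  obtain ⟨M1, hM1⟩ := eventually_atTop.1 hpos
  have hlo : ∀ ε : ℝ, 0 < ε → ∀ᶠ n : ℕ in atTop, (c - ε) * Real.log n ≤ ell n := by
    intro ε hε
    obtain ⟨δ, hδ⟩ : ∃ δ : ℝ, δ = ε / 8 := ⟨_, rfl⟩
    have hδ0 : 0 < δ := by rw [hδ]; positivity
    obtain ⟨j1, hj1⟩ := eventually_atTop.1 (hc2 δ hδ0)
    obtain ⟨N0, hN0⟩ := E.near2 habs ht hsp hδ0 j1
    obtain ⟨b', hb'⟩ : ∃ b' : ℝ, b' = c - 4 * δ := ⟨_, rfl⟩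
    have h1 := iter_up (z := fun n => b' * Real.log n - ell n) (N0 := max N0 M1 + 1)
      (θ := 1 / 2) (C := |b'| * Real.log 4 + |c - δ| * Real.log 2) (B := |b'|)
      (B0 := |b'|) (by norm_num) (by norm_num) (by positivity) (by omega)
      (fun n hn => by
        have h2 := hM1 n (by omega)
        have h3 : 0 ≤ Real.log (n : ℝ) :=
          Real.log_nonneg (by exact_mod_cast (show 1 ≤ n by omega))
        have h4 : b' * Real.log n ≤ |b'| * Real.log n :=
          mul_le_mul_of_nonneg_right (le_abs_self b') h3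
        have h5 : |b'| * Real.log n ≤ |b'| * (Real.log n ^ 2 + 1) :=
          mul_le_mul_of_nonneg_left (by nlinarith [sq_nonneg (Real.log (n : ℝ) - 1)])
            (abs_nonneg _)
        linarith)
      (fun n hn => by
        obtain ⟨j, a1, a2, a3, a4, -⟩ := hN0 n (by omega)
        have a5 := hj1 j a1
        have hn1 : 1 ≤ n := by omega
        have hL0 : 0 ≤ Real.log (n : ℝ) := Real.log_nonneg (by exact_mod_cast hn1)
        have a6 := log_two_near hn1 a3 (by omega)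
        refine ⟨2 * t j, by omega, by omega, ?_⟩
        have hm1 : 1 ≤ 2 * t j := by omega
        have hn0 : (0 : ℝ) < n := by exact_mod_cast hn1
        have hm0 : (0 : ℝ) < ((2 * t j : ℕ) : ℝ) := by exact_mod_cast hm1
        have htj : (0 : ℝ) < (t j : ℝ) := by exact_mod_cast (show 0 < t j by omega)
        have htn : Real.log (t j : ℝ) ≤ Real.log n := Real.log_le_log htj (by exact_mod_cast a2)
        have a7 : Real.log ((2 * t j : ℕ) : ℝ) ≤ Real.log n + Real.log 4 := by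
          rw [← Real.log_mul hn0.ne' (by norm_num)]
          refine Real.log_le_log hm0 ?_
          have : ((2 * t j : ℕ) : ℝ) ≤ ((4 * n : ℕ) : ℝ) := by exact_mod_cast (by omega)
          push_cast at this ⊢
          linarith
        have a8 : Real.log (n : ℝ) ≤ Real.log ((2 * t j : ℕ) : ℝ) :=
          Real.log_le_log hn0 (by exact_mod_cast a3)
        have a9 : (c - δ) * Real.log n - |c - δ| * Real.log 2 ≤ (c - δ) * Real.log (t j) := by
          have : (c - δ) * (Real.log n - Real.log (t j)) ≤ |c - δ| * Real.log 2 := by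
            refine (le_abs_self _).trans ?_
            rw [abs_mul, abs_sub_comm (Real.log (n : ℝ))]
            exact mul_le_mul_of_nonneg_left a6 (abs_nonneg _)
          linarith
        have a10 : -(b' / 2 * (Real.log ((2 * t j : ℕ) : ℝ) - Real.log n)) ≤
            |b'| / 2 * Real.log 4 := by
          refine (neg_le_abs _).trans ?_
          rw [abs_mul, abs_div, abs_of_pos (show (0 : ℝ) < 2 by norm_num),
            abs_of_nonneg (sub_nonneg.2 a8)]
          exact mul_le_mul_of_nonneg_left (by linarith) (by positivity)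
        have a11 := (abs_le.1 a4).1
        have a12 : δ * Real.log (t j) ≤ δ * Real.log n := mul_le_mul_of_nonneg_left htn hδ0.le
        have h2 : 0 ≤ |b'| * Real.log 4 := by positivity
        have h3 : 0 ≤ |c - δ| * Real.log 2 := by positivity
        nlinarith)
    have hfin : ∀ᶠ n : ℕ in atTop,
        (|b'| * Real.log 4 + |c - δ| * Real.log 2) / (1 - 1 / 2) ≤ (ε / 2) * Real.log n := by
      filter_upwards [log_tend.eventually_ge_atTop
        ((|b'| * Real.log 4 + |c - δ| * Real.log 2) / (1 - 1 / 2) / (ε / 2))] with n hn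
      rw [div_le_iff₀ (by positivity)] at hn
      linarith
    filter_upwards [hfin, eventually_ge_atTop (max N0 M1 + 1)] with n h2 h3
    have h4 := h1 n h3
    have e : b' = c - ε / 2 := by rw [hb', hδ]; ring
    rw [e] at h4 h2
    linarith
  have hlog : ∀ᶠ n : ℕ in atTop, 0 < Real.log (n : ℝ) := log_tend.eventually_gt_atTop 0
  rw [Metric.tendsto_nhds]
  intro ε hε
  filter_upwards [hlog, hup (ε / 2) (by positivity), hlo (ε / 2) (by positivity)] with n h1 h2 h3
  rw [Real.dist_eq, abs_lt]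
  constructor
  · have : c - ε / 2 ≤ ell n / Real.log n := by rwa [le_div_iff₀ h1]
    linarith
  · have : ell n / Real.log n ≤ c + ε / 2 := by rwa [div_le_iff₀ h1]
    linarith

/-- **lower bounds** for `ell (2 n) - 2 ell n` -/
theorem Ser.dbl_low (E : Ser ell s) {B B0 : ℝ} (hB : 0 ≤ B)
    (hb : ∀ᶠ n : ℕ in atTop, |ell n| ≤ B * Real.log n ^ 2 + B0)
    (hpos : ∀ᶠ n : ℕ in atTop, 0 ≤ ell n)
    {t : ℕ → ℕ} (ht : Tendsto t atTop atTop) (hsp : Sparse t) {b : ℝ} (hb0 : 0 ≤ b)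
    (hc : ∀ᶠ j in atTop, -(b * Real.log (t j)) ≤ ell (2 * t j) - 2 * ell (t j))
    {ε : ℝ} (hε : 0 < ε) :
    ∀ᶠ n : ℕ in atTop, -((b + ε) * Real.log n) ≤ ell (2 * n) - 2 * ell n := by
  have hlogt : ∀ᶠ j in atTop, 0 < Real.log (t j) := (log_tend.comp ht).eventually_gt_atTop 0
  have hup : ∀ᶠ n : ℕ in atTop, ell n ≤ (b + 1) * Real.log n := by
    refine E.dbl_up hB hb ht hsp (fun δ hδ => ?_) one_pos
    filter_upwards [hc, hlogt] with j h1 h2
    nlinarith
  have habs : ∀ᶠ n : ℕ in atTop, |ell n| ≤ (b + 1) * Real.log n := by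
    filter_upwards [hup, hpos] with n h1 h2
    rwa [abs_of_nonneg h2]
  obtain ⟨j1, hj1⟩ := eventually_atTop.1 (hc.and hlogt)
  obtain ⟨N0, hN0⟩ := E.near2 habs ht hsp (show 0 < ε / 4 by positivity) j1
  filter_upwards [eventually_ge_atTop N0] with n hn
  obtain ⟨j, a1, a2, a3, a4, a5⟩ := hN0 n hn
  obtain ⟨a6, a7⟩ := hj1 j a1
  have htj : (0 : ℝ) < (t j : ℝ) := by
    rcases Nat.eq_zero_or_pos (t j) with h | h
    · rw [h] at a7; simp at a7
    · exact_mod_cast h
  have htn : Real.log (t j : ℝ) ≤ Real.log n := Real.log_le_log htj (by exact_mod_cast a2)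
  rw [abs_le] at a4 a5
  have h1 : (b + ε) * Real.log (t j) ≤ (b + ε) * Real.log n :=
    mul_le_mul_of_nonneg_left htn (by positivity)
  nlinarith [a4.1, a4.2, a5.1, a5.2]
end

end Q215.SAW.Cvx
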