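import Pool.Agent.Q215.SAW.GSer
import Pool.Agent.Q215.SAW.Slope

/-!
# Means of functions of the end point along sparse sequences
-/

set_option autoImplicit false

namespace Q215.SAW

open Finset Filter Topology TH966.AK Cvx

variable {A : P → P → Prop} {Z : Rule A} {μ K : ℝ}

/-- the mean of `F(end point)` -/
noncomputable def MF (A : P → P → Prop) (F : P → ℝ) (n : ℕ) : ℝ := WF A F n / (Kw A n).card

theorem card_pos (G : Growth Z μ K) (n : ℕ) : (0 : ℝ) < (Kw A n).card :=
  lt_of_lt_of_le (pow_pos (by linarith [G.hμ]) n) (G.low n)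

theorem MF_pos (G : Growth Z μ K) {m : ℕ} {F : P → ℝ} (hF : Fn A m F) {n : ℕ} (hn : 1 ≤ n) :
    0 < MF A F n := div_pos (WF_pos G hF hn) (card_pos G n)

theorem fn_oneM (A : P → P → Prop) (m : ℕ) : WOK A m (fun _ => 1) 1 :=
  ⟨fn_one m, le_rfl, fun _ _ _ _ _ _ => by norm_num⟩

/-- logarithms -/
theorem log_MF (G : Growth Z μ K) {m : ℕ} {F : P → ℝ} (hF : Fn A m F) {n : ℕ} (hn : 1 ≤ n) :
    Real.log (MF A F n) =
      Real.log (WF A F n / μ ^ n) - Real.log (WF A (fun _ => 1) n / μ ^ n) := by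
  have hμ0 : 0 < μ := by linarith [G.hμ]
  have h1 := WF_pos G hF hn
  have h2 := card_pos G n
  rw [WF_one, ← Real.log_div (by positivity) (by positivity)]
  congr 1
  unfold MF
  field_simp

theorem MF_step (G : Growth Z μ K) {m : ℕ} {F : P → ℝ} {b : ℝ} (hF : WOK A m F b) :
    ∃ (C : ℝ) (N : ℕ), ∀ n, N ≤ n → |Real.log (MF A F (n + 1)) - Real.log (MF A F n)| ≤ C := by
  obtain ⟨C1, N1, h1⟩ := (ser G hF).st
  obtain ⟨C2, N2, h2⟩ := (ser G (fn_oneM A m)).st
  refine ⟨C1 + C2, N1 + N2 + 1, fun n hn => ?_⟩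
  rw [log_MF G hF.fn (by omega), log_MF G hF.fn (by omega)]
  have h3 := h1 n (by omega)
  have h4 := h2 n (by omega)
  rw [abs_le] at h3 h4 ⊢
  constructor <;> linarith

/-- `log x` near `1` -/
theorem abs_log_le {x : ℝ} (h : |x - 1| ≤ 1 / 2) : |Real.log x| ≤ 2 * |x - 1| := by
  have h1 := abs_le.1 h
  have hx : 0 < x := by linarith
  have h2 := Real.log_le_sub_one_of_pos hx
  have h3 := Real.one_sub_inv_le_log_of_pos hx
  rw [abs_le]
  constructor
  · have h4 : 1 - x⁻¹ = (x - 1) / x := by field_simp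
    rw [h4] at h3
    refine le_trans ?_ h3
    rw [le_div_iff₀ hx]
    have h5 := neg_abs_le (x - 1)
    have h6 := abs_nonneg (x - 1)
    nlinarith
  · have := le_abs_self (x - 1)
    have := abs_nonneg (x - 1)
    linarith

/-- from the ratios to the slopes -/
theorem slp_of (G : Growth Z μ K) {m : ℕ} {F : P → ℝ} {b : ℝ} (hF : WOK A m F b)
    {ρ w : ℕ → ℝ} {R : ℝ} (hR : 0 ≤ R)
    (hr : ∀ᶠ n : ℕ in atTop, |MF A F (n + Z.s) / MF A F n - 1| ≤ R * ρ n)
    (hρ0 : Tendsto ρ atTop (𝓝 0)) (hw : ∀ᶠ n : ℕ in atTop, 0 < w n ∧ w n ≤ n)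
    (hρ : ∀ᶠ n : ℕ in atTop, ∀ m, n ≤ m → m ≤ 2 * n → ρ m * w n ≤ 2 * Real.log n) :
    Slp (fun n => Real.log (MF A F n)) Z.s w := by
  refine ⟨G.hs, hw, MF_step G hF, 4 * R, ?_⟩
  have h0 : ∀ᶠ n : ℕ in atTop, R * ρ n ≤ 1 / 2 := by
    have h1 := hρ0.const_mul R
    rw [mul_zero] at h1
    exact (h1.eventually_lt_const (show (0 : ℝ) < 1 / 2 by norm_num)).mono fun _ h => h.le
  obtain ⟨N, hN⟩ := eventually_atTop.1 (hr.and (h0.and (eventually_ge_atTop 1)))
  filter_upwards [eventually_ge_atTop N, hw, hρ, eventually_ge_atTop 1] with n h1 h2 h3 h4 m hm1 hm2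
  obtain ⟨a1, a2, a3⟩ := hN m (by omega)
  have p1 := MF_pos G hF.fn a3
  have p2 := MF_pos G hF.fn (show 1 ≤ m + Z.s by omega)
  have e : Real.log (MF A F (m + Z.s)) - Real.log (MF A F m) =
      Real.log (MF A F (m + Z.s) / MF A F m) := (Real.log_div p2.ne' p1.ne').symm
  have h5 := abs_log_le (a1.trans a2)
  rw [e]
  calc |Real.log (MF A F (m + Z.s) / MF A F m)| * w n ≤ 2 * (R * ρ m) * w n := by
        refine mul_le_mul_of_nonneg_right (h5.trans ?_) h2.1.le
        linarith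
    _ = 2 * R * (ρ m * w n) := by ring
    _ ≤ 2 * R * (2 * Real.log n) := mul_le_mul_of_nonneg_left (h3 m hm1 hm2) (by positivity)
    _ = _ := by ring

theorem log_two_mul_le {n m : ℕ} (hn : 2 ≤ n) (hm : n ≤ m) (hm2 : m ≤ 2 * n) :
    0 < Real.log n ∧ 0 ≤ Real.log m ∧ Real.log m ≤ 2 * Real.log n := by
  have h1 : (2 : ℝ) ≤ n := by exact_mod_cast hn
  have h2 : (m : ℝ) ≤ 2 * n := by exact_mod_cast hm2
  have h3 : (2 : ℝ) ≤ m := by exact_mod_cast hn.trans hm
  have h4 := Real.log_le_log (by linarith) h2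
  rw [Real.log_mul (by norm_num) (by linarith)] at h4
  have h5 := Real.log_le_log (by norm_num) h1
  have h6 := Real.log_pos (show (1 : ℝ) < n by linarith)
  exact ⟨h6, Real.log_nonneg (by linarith), by linarith⟩

/-- **unconditional slopes** -/
theorem slp_uncond (G : Growth Z μ K) {m : ℕ} {F : P → ℝ} {b : ℝ} (hF : WOK A m F b) :
    Slp (fun n => Real.log (MF A F n)) Z.s (fun n => √(n : ℝ)) := by
  obtain ⟨R, hR, h⟩ := G.meanF m
  refine slp_of G hF (ρ := fun n => Real.log n / √(n : ℝ)) hR ?_ log_sq_tendsto ?_ ?_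
  · filter_upwards [h] with n hn
    exact hn F hF.fn
  · filter_upwards [eventually_ge_atTop 1] with n hn
    have h1 : (1 : ℝ) ≤ n := by exact_mod_cast hn
    refine ⟨by positivity, ?_⟩
    rw [Real.sqrt_le_left (by linarith)]
    nlinarith
  · filter_upwards [eventually_ge_atTop 2] with n hn m hm1 hm2
    obtain ⟨h1, h2, h3⟩ := log_two_mul_le hn hm1 hm2
    have hn0 : (0 : ℝ) < n := by exact_mod_cast (show 0 < n by omega)
    have h4 : √(n : ℝ) ≤ √(m : ℝ) := Real.sqrt_le_sqrt (by exact_mod_cast hm1)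
    have h5 : 0 < √(n : ℝ) := Real.sqrt_pos.2 hn0
    rw [div_mul_eq_mul_div, div_le_iff₀ (by linarith)]
    calc Real.log m * √(n : ℝ) ≤ 2 * Real.log n * √(m : ℝ) :=
          mul_le_mul h3 h4 h5.le (by linarith)
      _ = _ := rfl

/-- **the ratio of the means under a polynomial upper bound** -/
theorem MF_ratio_poly (G : Growth Z μ K) {m : ℕ} {F : P → ℝ} (hF : Fn A m F) {B : ℝ}
    (hB : ∀ᶠ n : ℕ in atTop, Real.log (WF A (fun _ => 1) n / μ ^ n) ≤ B * Real.log n) :
    ∃ R : ℝ, 0 < R ∧ ∀ᶠ n : ℕ in atTop,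
      |MF A F (n + Z.s) / MF A F n - 1| ≤ R * √(Real.log n / n) := by
  have hμ0 : 0 < μ := by linarith [G.hμ]
  have hBF : ∀ᶠ n : ℕ in atTop, Real.log (WF A F n / μ ^ n) ≤ (B + 3 * m) * Real.log n := by
    filter_upwards [hB, eventually_ge_atTop 2] with n h1 h2
    have hn2 : (2 : ℝ) ≤ n := by exact_mod_cast h2
    have h3 := WF_le hF n
    have h4 := WF_pos G hF (show 1 ≤ n by omega)
    have h5 := card_pos G n
    rw [WF_one] at h1
    have h6 : WF A F n / μ ^ n ≤ (2 * (n : ℝ) + 2) ^ m * ((Kw A n).card / μ ^ n) := by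
      rw [← mul_div_assoc]
      exact div_le_div_of_nonneg_right h3 (by positivity)
    have h7 := Real.log_le_log (by positivity) h6
    rw [Real.log_mul (by positivity) (by positivity), Real.log_pow] at h7
    have h8 : Real.log (2 * (n : ℝ) + 2) ≤ 3 * Real.log n := by
      have h9 : 2 * (n : ℝ) + 2 ≤ n ^ 3 := by nlinarith [sq_nonneg ((n : ℝ) - 2)]
      have h10 := Real.log_le_log (by positivity) h9
      rw [Real.log_pow] at h10
      push_cast at h10
      exact h10
    have h9 : (m : ℝ) * Real.log (2 * (n : ℝ) + 2) ≤ m * (3 * Real.log n) :=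
      mul_le_mul_of_nonneg_left h8 (Nat.cast_nonneg _)
    linarith
  obtain ⟨R1, hR1, h1⟩ := ratio_poly G hF hBF
  obtain ⟨R2, hR2, h2⟩ := ratio_poly G (fn_one m) hB
  have tz : Tendsto (fun n : ℕ => (R1 + R2) * √(Real.log n / n)) atTop (𝓝 0) := by
    have h1 : Tendsto (fun n : ℕ => Real.log n / n) atTop (𝓝 0) :=
      Real.isLittleO_log_id_atTop.tendsto_div_nhds_zero.comp tendsto_natCast_atTop_atTop
    have h2 := (Real.continuous_sqrt.tendsto _).comp h1
    rw [Real.sqrt_zero] at h2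
    have h3 := h2.const_mul (R1 + R2)
    rw [mul_zero] at h3
    exact h3
  refine ⟨4 * (R1 + R2), by positivity, ?_⟩
  filter_upwards [h1, h2, tz.eventually_lt_const (show (0 : ℝ) < 1 / 2 by norm_num),
    eventually_ge_atTop 1] with n a1 a2 a3 a4
  have hsq := Real.sqrt_nonneg (Real.log n / n)
  have b1 : R1 * √(Real.log n / n) ≤ (R1 + R2) * √(Real.log n / n) :=
    mul_le_mul_of_nonneg_right (by linarith) hsq
  have b2 : R2 * √(Real.log n / n) ≤ (R1 + R2) * √(Real.log n / n) :=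
    mul_le_mul_of_nonneg_right (by linarith) hsq
  rw [WF_one, WF_one] at a2
  have h6 := ratio_aux (WF_pos G hF a4) (card_pos G n) (pow_pos hμ0 Z.s) (a1.trans b1)
    (a2.trans b2) a3.le
  unfold MF
  refine h6.trans (le_of_eq ?_)
  ring

/-- **slopes under a polynomial upper bound** -/
theorem slp_poly (G : Growth Z μ K) {m : ℕ} {F : P → ℝ} {b : ℝ} (hF : WOK A m F b) {B : ℝ}
    (hB : ∀ᶠ n : ℕ in atTop, Real.log (WF A (fun _ => 1) n / μ ^ n) ≤ B * Real.log n) :
    Slp (fun n => Real.log (MF A F n)) Z.s (fun n => √(n * Real.log n)) := by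
  obtain ⟨R, hR, h⟩ := MF_ratio_poly G hF.fn hB
  refine slp_of G hF (ρ := fun n => √(Real.log n / n)) hR.le h ?_ ?_ ?_
  · have h1 : Tendsto (fun n : ℕ => Real.log n / n) atTop (𝓝 0) :=
      Real.isLittleO_log_id_atTop.tendsto_div_nhds_zero.comp tendsto_natCast_atTop_atTop
    have h2 := (Real.continuous_sqrt.tendsto _).comp h1
    rw [Real.sqrt_zero] at h2
    exact h2
  · filter_upwards [eventually_ge_atTop 2] with n hn
    have h1 : (2 : ℝ) ≤ n := by exact_mod_cast hn
    have h2 := Real.log_pos (show (1 : ℝ) < n by linarith)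
    refine ⟨by positivity, ?_⟩
    rw [Real.sqrt_le_left (by linarith), sq]
    exact mul_le_mul_of_nonneg_left (Real.log_le_self (by linarith)) (by linarith)
  · filter_upwards [eventually_ge_atTop 2] with n hn m hm1 hm2
    obtain ⟨h1, h2, h3⟩ := log_two_mul_le hn hm1 hm2
    have hn0 : (0 : ℝ) < n := by exact_mod_cast (show 0 < n by omega)
    have hm0 : (n : ℝ) ≤ m := by exact_mod_cast hm1
    have hmp : (0 : ℝ) < m := by linarith
    rw [← Real.sqrt_mul (by positivity), Real.sqrt_le_left (by positivity)]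
    calc Real.log m / m * (n * Real.log n) = Real.log m * Real.log n * (n / m) := by ring
      _ ≤ Real.log m * Real.log n * 1 := by
          refine mul_le_mul_of_nonneg_left ?_ (by positivity)
          rw [div_le_one hmp]
          exact hm0
      _ ≤ 2 * Real.log n * Real.log n * 1 := by
          refine mul_le_mul_of_nonneg_right (mul_le_mul_of_nonneg_right h3 h1.le) zero_le_one
      _ ≤ (2 * Real.log n) ^ 2 := by nlinarith

/-- **joint limits** -/
theorem joint (G : Growth Z μ K) {m : ℕ} {F : P → ℝ} {b : ℝ} (hF : WOK A m F b) {t : ℕ → ℕ}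
    (ht : Tendsto t atTop atTop) (hsp : Sparse t) {g h : ℝ}
    (hg : Tendsto (fun j => Real.log (WF A (fun _ => 1) (t j) / μ ^ (t j)) / Real.log (t j))
      atTop (𝓝 g))
    (hh : Tendsto (fun j => Real.log (MF A F (t j)) / Real.log (t j)) atTop (𝓝 h)) :
    Tendsto (fun n : ℕ => Real.log (WF A (fun _ => 1) n / μ ^ n) / Real.log n) atTop (𝓝 g) ∧
    Tendsto (fun n : ℕ => Real.log (MF A F n) / Real.log n) atTop (𝓝 h) := by
  have h1 := (ser G (fn_oneM A m)).lim ht hsp hg
  have h2 : Tendsto (fun j => Real.log (WF A F (t j) / μ ^ (t j)) / Real.log (t j))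
      atTop (𝓝 (g + h)) := by
    refine (hg.add hh).congr' ?_
    filter_upwards [ht.eventually_ge_atTop 1] with j hj
    rw [log_MF G hF.fn hj]
    ring
  have h3 := (ser G hF).lim ht hsp h2
  refine ⟨h1, ?_⟩
  have h4 := h3.sub h1
  rw [add_sub_cancel_left] at h4
  refine h4.congr' ?_
  filter_upwards [eventually_ge_atTop 1] with n hn
  rw [log_MF G hF.fn hn]
  ring

end Q215.SAW
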