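import Pool.Agent.Q215.SAW.Z3
import Pool.Agent.Q215.SAW.MeanSer
import Pool.Agent.Q215.SAW.Lat

/-!
# Self-avoiding walks on `ℤ²` and `ℤ³`: common facts
-/

set_option autoImplicit false

namespace Q215.SAW.D23

open Filter Topology TH966.AK Q219.SAW

/-- the number of `n`-step self-avoiding nearest-neighbour walks on `ℤ^d` from `0` -/
noncomputable def C (d n : ℕ) : ℕ :=
  Nat.card {ω : Fin (n + 1) → (Fin d → ℤ) //
    ω 0 = 0 ∧ Function.Injective ω ∧
    ∀ i : Fin n, ∑ j : Fin d, |ω i.succ j - ω i.castSucc j| = 1}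

/-- the limit of the `n`-th roots -/
theorem root {A : P → P → Prop} {Z : Rule A} {μ K : ℝ} (G : Growth Z μ K) :
    Tendsto (fun n : ℕ => ((Kw A n).card : ℝ) ^ (1 / (n : ℝ))) atTop (𝓝 μ) := by
  have hμ := G.hμ
  have hμ0 : 0 < μ := by linarith
  have h1 : Tendsto (fun n : ℕ => μ * Real.exp (K * (√(Real.log n ^ 2 / n)) ^ 2)) atTop
      (𝓝 μ) := by
    have h2 : Tendsto (fun n : ℕ => √(Real.log n ^ 2 / n)) atTop (𝓝 0) := by
      refine log_sq_tendsto.congr' ?_
      filter_upwards [eventually_ge_atTop 1] with n hn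
      rw [Real.sqrt_div (sq_nonneg _), Real.sqrt_sq (Real.log_natCast_nonneg n)]
    have h3 := (((Real.continuous_exp.tendsto _).comp ((h2.pow 2).const_mul K)).const_mul μ)
    simpa using h3
  refine tendsto_of_tendsto_of_tendsto_of_le_of_le' tendsto_const_nhds h1 ?_ ?_
  · filter_upwards [eventually_ge_atTop 1] with n hn
    have hn0 : (n : ℝ) ≠ 0 := by exact_mod_cast (show n ≠ 0 by omega)
    have h2 := Real.rpow_le_rpow (by positivity) (G.low n)
      (show (0 : ℝ) ≤ 1 / (n : ℝ) by positivity)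
    have e : (μ ^ n) ^ (1 / (n : ℝ)) = μ := by
      rw [← Real.rpow_natCast, ← Real.rpow_mul hμ0.le, mul_one_div_cancel hn0, Real.rpow_one]
    rwa [e] at h2
  · filter_upwards [eventually_ge_atTop 2] with n hn
    have hn0 : (0 : ℝ) < n := by exact_mod_cast (show 0 < n by omega)
    have h2 := Real.rpow_le_rpow (by positivity) (G.up n hn)
      (show (0 : ℝ) ≤ 1 / (n : ℝ) by positivity)
    have e : (μ ^ n * Real.exp (K * Real.log n ^ 2)) ^ (1 / (n : ℝ)) =
        μ * Real.exp (K * (√(Real.log n ^ 2 / n)) ^ 2) := by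
      rw [Real.mul_rpow (by positivity) (by positivity), ← Real.rpow_natCast,
        ← Real.rpow_mul hμ0.le, mul_one_div_cancel hn0.ne', Real.rpow_one, ← Real.exp_mul,
        Real.sq_sqrt (by positivity)]
      congr 2
      ring
    rwa [e] at h2

/-- the coordinates for `d = 2` -/
theorem C_two (n : ℕ) : (C 2 n : ℝ) = ((Kw Q219.SAW.Sq.A n).card : ℝ) := by
  rw [← cc_card Q219.SAW.Sq.rule n]
  unfold cc C
  rw [← Nat.card_coe_set_eq]
  congr 1
  refine Nat.card_congr (Equiv.subtypeEquiv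
    ((Equiv.refl (Fin (n + 1))).arrowCongr (finTwoArrowEquiv ℤ)) fun ω => ?_)
  show _ ↔ (_ ∈ FW _ _)
  have e : ∀ i, ((Equiv.refl (Fin (n + 1))).arrowCongr (finTwoArrowEquiv ℤ)) ω i =
      (ω i 0, ω i 1) := fun i => rfl
  have e0 : ∀ i, ((ω i 0, ω i 1) : ℤ × ℤ) = finTwoArrowEquiv ℤ (ω i) := fun i => rfl
  unfold FW
  rw [← sq_eq]
  simp only [Set.mem_ofPred_eq, e]
  refine and_congr ?_ (and_congr ?_ (forall_congr' fun i => ?_))
  · constructor
    · intro h
      rw [h]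
      rfl
    · intro h
      funext j
      rw [Prod.ext_iff] at h
      fin_cases j
      · exact h.1
      · exact h.2
  · constructor
    · intro h i j hij
      apply h
      exact (finTwoArrowEquiv ℤ).injective hij
    · intro h i j hij
      apply h
      show (ω i 0, ω i 1) = (ω j 0, ω j 1)
      rw [hij]
  · unfold sqAdj
    rw [Fin.sum_univ_two, abs_sub_comm (ω i.succ 0), abs_sub_comm (ω i.succ 1)]

theorem C_three (n : ℕ) : C 3 n = Q219.SAW.Z3.C n := rfl

/-- **the facts** -/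
theorem facts (d : ℕ) (hd : d = 2 ∨ d = 3) : ∃ μ : ℝ, 0 < μ ∧
    Tendsto (fun n : ℕ => (C d n : ℝ) ^ (1 / (n : ℝ))) atTop (𝓝 μ) ∧
    (∀ n, (0 : ℝ) < C d n) ∧ (∀ n, μ ^ n ≤ (C d n : ℝ)) ∧
    Cvx.Ser (fun n => Real.log ((C d n : ℝ) / μ ^ n)) 2 := by
  rcases hd with rfl | rfl
  · obtain ⟨K, N⟩ := sq_nice
    have G := N.gr
    have hμ := G.hμ
    simp only [C_two]
    refine ⟨muu Q219.SAW.Sq.A, by linarith, root G, fun n => ?_, G.low, ?_⟩
    · have h1 := G.low n
      have : 0 < muu Q219.SAW.Sq.A ^ n := by positivity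
      linarith
    · have E := ser G (fn_oneM Q219.SAW.Sq.A 0)
      simp only [TH966.AK.WF_one] at E
      exact E
  · simp only [C_three]
    refine ⟨TH966.KO.μ, Q219.SAW.Z3.mu_pos, ?_, Q219.SAW.Z3.C_pos, fun n => ?_, Z3.ser3⟩
    · refine TH966.KO.tend.congr fun n => ?_
      rw [Q219.SAW.Z3.C_eq]
    · rw [Q219.SAW.Z3.C_eq]
      exact TH966.KO.mu_pow n

/-- the ratio theorem under a polynomial bound, from the facts -/
theorem ratio {d : ℕ} {μ : ℝ} (hμ : 0 < μ) (hC : ∀ n, (0 : ℝ) < C d n)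
    (hlow : ∀ n, μ ^ n ≤ (C d n : ℝ))
    (E : Cvx.Ser (fun n => Real.log ((C d n : ℝ) / μ ^ n)) 2) {B : ℝ}
    (hB : ∀ᶠ n : ℕ in atTop, Real.log ((C d n : ℝ) / μ ^ n) ≤ B * Real.log n) :
    ∃ K : ℝ, ∀ n : ℕ, 2 ≤ n → |(C d (n + 2) : ℝ) / C d n - μ ^ 2| ≤ K * √(Real.log n / n) := by
  obtain ⟨R, hR, h⟩ := E.slopes (B := B) (by
    filter_upwards [hB] with n hn
    rw [abs_of_nonneg]
    · exact hn
    · refine Real.log_nonneg ?_
      rw [one_le_div (pow_pos hμ n)]
      exact hlow n)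
  have t0 : Tendsto (fun n : ℕ => R * √(Real.log n / n)) atTop (𝓝 0) := by
    have h1 : Tendsto (fun n : ℕ => Real.log n / n) atTop (𝓝 0) :=
      Real.isLittleO_log_id_atTop.tendsto_div_nhds_zero.comp tendsto_natCast_atTop_atTop
    have h2 := (Real.continuous_sqrt.tendsto _).comp h1
    rw [Real.sqrt_zero] at h2
    have h3 := h2.const_mul R
    rw [mul_zero] at h3
    exact h3
  refine TH966.AK.all_of_eventually
    (F := fun n => |(C d (n + 2) : ℝ) / C d n - μ ^ 2|) (g := fun n => √(Real.log n / n)) ?_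
    (R := μ ^ 2 * (2 * R)) ?_
  · intro n hn
    have h3 : (1 : ℝ) < n := by exact_mod_cast hn
    have := Real.log_pos h3
    positivity
  filter_upwards [h, t0.eventually_le_const one_pos] with n h1 h2
  have p0 : 0 < (C d n : ℝ) / μ ^ n := div_pos (hC n) (pow_pos hμ n)
  have p2 : 0 < (C d (n + 2) : ℝ) / μ ^ (n + 2) := div_pos (hC _) (pow_pos hμ _)
  have h3 := Cvx.exp_slope p0 p2 h1 h2
  have e : (C d (n + 2) : ℝ) / C d n - μ ^ 2 =
      μ ^ 2 * ((C d (n + 2) : ℝ) / μ ^ (n + 2) / ((C d n : ℝ) / μ ^ n) - 1) := by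
    have := (hC n).ne'
    have := (hC (n + 2)).ne'
    rw [pow_add]
    field_simp
  rw [e, abs_mul, abs_of_pos (show 0 < μ ^ 2 by positivity), mul_assoc]
  refine mul_le_mul_of_nonneg_left ?_ (by positivity)
  linarith

end Q215.SAW.D23
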