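import Pool.Agent.Q215.SAW.Glue
import Pool.Agent.TH966.AK.Weight
import Pool.Agent.Q219.SAW.Sq

/-!
# The weighted numbers of walks are almost log-convex
-/

set_option autoImplicit false

namespace Q215.SAW

open Finset Filter Topology TH966.AK Cvx
open scoped Classical

variable {A : P → P → Prop} {Z : Rule A} {μ K : ℝ}

theorem ac_log {y : ℕ → ℝ} {D θ : ℝ} {k0 : ℕ} (hD : 0 ≤ D) (hθ0 : 0 ≤ θ) (hθ : θ ≤ 1)
    (h : TH966.KS.Kes y D θ k0) (hy : ∀ k, 1 ≤ k → 1 ≤ y k) :
    AC (fun k => Real.log (y k)) D (max k0 1) := by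
  intro k hk
  have hk1 : 1 ≤ k := le_trans (le_max_right _ _) hk
  have h1 := h k (le_trans (le_max_left _ _) hk) ((pow_le_one₀ hθ0 hθ).trans (hy (k + 1) (by omega)))
  have y0 : 0 < y k := lt_of_lt_of_le one_pos (hy k hk1)
  have y1 : 0 < y (k + 1) := lt_of_lt_of_le one_pos (hy (k + 1) (by omega))
  have y2 : 0 < y (k + 2) := lt_of_lt_of_le one_pos (hy (k + 2) (by omega))
  have hk0 : (0 : ℝ) < k := by exact_mod_cast hk1
  have h2 := Real.log_le_log (by positivity) h1
  rw [Real.log_pow, Real.log_mul (by positivity) (by positivity),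
    Real.log_mul y0.ne' y2.ne'] at h2
  have h3 : Real.log (1 + D / k) ≤ D / k := by
    have := Real.log_le_sub_one_of_pos (show 0 < 1 + D / (k : ℝ) by positivity)
    linarith
  push_cast at h2
  simp only
  linarith

theorem lst_concat (u : List P) (z : P) : lst (u ++ [z]) = z := by
  unfold lst
  rw [List.getLast?_concat, Option.getD_some]

include Z in
theorem WF_succ {F : P → ℝ} (hF0 : ∀ x, 0 ≤ F x) {b : ℝ} (hb0 : 0 ≤ b) {n : ℕ}
    (hb : ∀ u ∈ Kw A n, ∀ z, A (lst u) z → F z ≤ b * F (lst u)) :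
    WF A F (n + 1) ≤ 9 * b * WF A F n := by
  have hsub : Kw A (n + 1) ⊆ (Kw A n).biUnion
      (fun u => ((box (lst u) 1).filter (fun z => A (lst u) z)).image (fun z => u ++ [z])) := by
    intro w hw
    rw [Z.mem_K] at hw
    obtain ⟨h1, h2, h3, h4⟩ := hw
    have hw0 : w ≠ [] := by
      rintro rfl
      simp at h1
    rcases w.eq_nil_or_concat with rfl | ⟨u, z, rfl⟩
    · exact absurd rfl hw0
    rw [List.concat_eq_append] at *
    have hu : u.length = n + 1 := by simpa using h1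
    have hu0 : u ≠ [] := by
      rintro rfl
      simp at hu
    have hc := List.isChain_append.1 h4
    have hAl : A (lst u) z := by
      refine hc.2.2 (lst u) ?_ z (by simp)
      unfold lst
      rw [List.getLast?_eq_getLast_of_ne_nil hu0]
      simp
    rw [mem_biUnion]
    refine ⟨u, ?_, ?_⟩
    · rw [Z.mem_K]
      refine ⟨hu, ?_, (List.nodup_append.1 h3).1, hc.1⟩
      obtain ⟨p, t, rfl⟩ := List.exists_cons_of_ne_nil hu0
      simpa using h2
    · rw [mem_image]
      refine ⟨z, ?_, rfl⟩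
      rw [mem_filter, mem_box]
      refine ⟨?_, hAl⟩
      have := Z.step _ _ hAl
      push_cast
      exact this
  have hb9 : ∀ u ∈ Kw A n, ∑ w ∈ ((box (lst u) 1).filter (fun z => A (lst u) z)).image
      (fun z => u ++ [z]), F (lst w) ≤ 9 * b * F (lst u) := by
    intro u hu
    rw [sum_image (fun z _ z' _ h => by simpa using h)]
    simp only [lst_concat]
    have hbF : 0 ≤ b * F (lst u) := mul_nonneg hb0 (hF0 _)
    have h1 := sum_le_card_nsmul ((box (lst u) 1).filter (fun z => A (lst u) z))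
      (fun z => F z) (b * F (lst u)) (fun z hz => hb u hu z (mem_filter.1 hz).2)
    refine h1.trans ?_
    rw [nsmul_eq_mul]
    have h2 : (((box (lst u) 1).filter (fun z => A (lst u) z)).card : ℝ) ≤ 9 := by
      have := (card_filter_le (box (lst u) 1) (fun z => A (lst u) z)).trans
        (card_box (lst u) 1).le
      exact_mod_cast this
    have h3 := mul_le_mul_of_nonneg_right h2 hbF
    linarith
  unfold WF
  refine (sum_le_sum_of_subset_of_nonneg hsub fun _ _ _ => hF0 _).trans ?_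
  refine (Q219.SAW.Sq.sum_bi_le _ _ (fun w => F (lst w)) fun _ => hF0 _).trans ?_
  rw [mul_sum]
  exact sum_le_sum hb9


/-- the assumptions about the weight -/
structure WOK (A : P → P → Prop) (m : ℕ) (F : P → ℝ) (b : ℝ) : Prop where
  fn : Fn A m F
  b0 : 1 ≤ b
  st : ∀ n, 1 ≤ n → ∀ u ∈ Kw A n, ∀ z, A (lst u) z → F z ≤ b * F (lst u)

theorem WF_pos (G : Growth Z μ K) {m : ℕ} {F : P → ℝ} (hF : Fn A m F) {n : ℕ} (hn : 1 ≤ n) :
    0 < WF A F n := by
  have hμ := G.hμ
  have hμ0 : 0 < μ := by linarith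
  exact lt_of_lt_of_le (pow_pos hμ0 n) ((G.low n).trans (WF_ge hF hn))

/-- the ratio at distance `s` tends to `μ ^ s` -/
theorem WF_ratio (G : Growth Z μ K) {m : ℕ} {F : P → ℝ} (hF : Fn A m F) :
    ∀ᶠ n : ℕ in atTop, μ ^ Z.s / 2 * WF A F n ≤ WF A F (n + Z.s) := by
  have hμ := G.hμ
  have hμ0 : 0 < μ := by linarith
  have key : ∀ r, r < Z.s → ∀ᶠ k : ℕ in atTop,
      μ ^ Z.s / 2 * WF A F (Z.s * k + r) ≤ WF A F (Z.s * k + r + Z.s) := by
    intro r _
    obtain ⟨R, hR, h⟩ := G.rateF m r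
    have t1 : Tendsto (fun k : ℕ => R * (Real.log k / √(k : ℝ))) atTop (𝓝 0) := by
      have := log_sq_tendsto.const_mul R
      rwa [mul_zero] at this
    filter_upwards [h, t1.eventually_lt_const (show (0 : ℝ) < 1 / 2 by norm_num),
      eventually_ge_atTop 1] with k h1 h2 h3
    have h4 := (abs_le.1 (h1 F hF)).1
    have hn : 1 ≤ Z.s * k + r := by
      have := Nat.mul_le_mul G.hs h3
      omega
    have h5 := WF_pos G hF hn
    have h6 : 1 / 2 ≤ WF A F (Z.s * k + r + Z.s) / WF A F (Z.s * k + r) / μ ^ Z.s := by linarith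
    rw [le_div_iff₀ (by positivity), le_div_iff₀ h5] at h6
    linarith
  filter_upwards [all_of_res G.hs key] with n hn
  rw [Nat.div_add_mod] at hn
  exact hn

/-- **the logarithms of the normalised weighted numbers** -/
theorem ser (G : Growth Z μ K) {m : ℕ} {F : P → ℝ} {b : ℝ} (hF : WOK A m F b) :
    Ser (fun n => Real.log (WF A F n / μ ^ n)) Z.s := by
  have hμ := G.hμ
  have hμ0 : 0 < μ := by linarith
  have hs := G.hs
  refine ⟨hs, ?_, ?_⟩
  · intro r _
    obtain ⟨D, hD, hk⟩ := G.kesF m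
    obtain ⟨k0, hk0⟩ := hk r
    refine ⟨D, max k0 1, hD, ?_⟩
    refine ac_log hD (by norm_num) (by norm_num) (hk0 F hF.fn) ?_
    intro j hj
    show 1 ≤ WF A F (Z.s * j + r) / μ ^ (Z.s * j + r)
    rw [one_le_div (by positivity)]
    refine (G.low _).trans (WF_ge hF.fn ?_)
    have := Nat.mul_le_mul hs hj
    omega
  · obtain ⟨N, hN⟩ := eventually_atTop.1 (WF_ratio G hF.fn)
    have hb := hF.b0
    have hup : ∀ n, 1 ≤ n → WF A F (n + 1) ≤ 9 * b * WF A F n := fun n hn =>
      WF_succ (Z := Z) hF.fn.nn (by linarith) (hF.st n hn)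
    have hups : ∀ n, 1 ≤ n → ∀ j, WF A F (n + j) ≤ (9 * b) ^ j * WF A F n := by
      intro n hn j
      induction j with
      | zero => simp
      | succ j ih =>
        have h1 := hup (n + j) (by omega)
        rw [← add_assoc]
        refine h1.trans ?_
        have h2 := mul_le_mul_of_nonneg_left ih (show 0 ≤ 9 * b by linarith)
        calc 9 * b * WF A F (n + j) ≤ 9 * b * ((9 * b) ^ j * WF A F n) := h2
          _ = _ := by ring
    obtain ⟨c, hc⟩ : ∃ c : ℝ, c = (9 * b) ^ Z.s * (2 * μ) := ⟨_, rfl⟩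
    have hb9 : 1 ≤ 9 * b := by linarith
    have hp1 : 1 ≤ (9 * b) ^ Z.s := one_le_pow₀ hb9
    have hc1 : 1 ≤ c := by rw [hc]; nlinarith
    refine ⟨Real.log c, max N 1, fun n hn => ?_⟩
    have hn1 : 1 ≤ n := le_trans (le_max_right _ _) hn
    have h0 := WF_pos G hF.fn hn1
    have h1 := WF_pos G hF.fn (show 1 ≤ n + 1 by omega)
    have e : Real.log (WF A F (n + 1) / μ ^ (n + 1)) - Real.log (WF A F n / μ ^ n) =
        Real.log (WF A F (n + 1) / WF A F n / μ) := by
      rw [← Real.log_div (by positivity) (by positivity)]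
      congr 1
      rw [pow_succ]
      field_simp
    have hx0 : 0 < WF A F (n + 1) / WF A F n / μ := by positivity
    have hx1 : WF A F (n + 1) / WF A F n / μ ≤ c := by
      rw [div_le_iff₀ hμ0, div_le_iff₀ h0]
      refine (hup n hn1).trans (mul_le_mul_of_nonneg_right ?_ h0.le)
      rw [hc]
      have h2 : 9 * b ≤ (9 * b) ^ Z.s := le_self_pow₀ hb9 (by omega)
      have h3 : (9 * b) ^ Z.s * 1 ≤ (9 * b) ^ Z.s * (2 * μ * μ) :=
        mul_le_mul_of_nonneg_left (by nlinarith) (by positivity)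
      calc 9 * b ≤ (9 * b) ^ Z.s * (2 * μ * μ) := by linarith
        _ = _ := by ring
    have hx2 : 1 / c ≤ WF A F (n + 1) / WF A F n / μ := by
      obtain ⟨i, hi⟩ : ∃ i, Z.s = 1 + i := ⟨Z.s - 1, by omega⟩
      have h2 := hN n (le_trans (le_max_left _ _) hn)
      have h3 := hups (n + 1) (by omega) i
      have h4 : n + 1 + i = n + Z.s := by omega
      rw [h4] at h3
      rw [le_div_iff₀ hμ0, le_div_iff₀ h0, one_div, inv_mul_eq_div, div_mul_eq_mul_div,
        div_le_iff₀ (by linarith), hc]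
      have h5 : (9 * b) ^ i ≤ (9 * b) ^ Z.s := pow_le_pow_right₀ hb9 (by omega)
      have h6 : 1 ≤ μ ^ Z.s := one_le_pow₀ hμ
      have h7 : WF A F n ≤ 2 * WF A F (n + Z.s) := by nlinarith
      calc μ * WF A F n ≤ μ * (2 * ((9 * b) ^ i * WF A F (n + 1))) := by
            refine mul_le_mul_of_nonneg_left (h7.trans ?_) hμ0.le
            linarith
        _ ≤ μ * (2 * ((9 * b) ^ Z.s * WF A F (n + 1))) := by
            refine mul_le_mul_of_nonneg_left (mul_le_mul_of_nonneg_left
              (mul_le_mul_of_nonneg_right h5 h1.le) (by norm_num)) hμ0.le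
        _ = _ := by ring
    show |Real.log (WF A F (n + 1) / μ ^ (n + 1)) - Real.log (WF A F n / μ ^ n)| ≤ _
    rw [e, abs_le]
    constructor
    · have := Real.log_le_log (by positivity) hx2
      rw [one_div, Real.log_inv] at this
      exact this
    · exact Real.log_le_log hx0 hx1

/-- **the ratios under a polynomial upper bound** -/
theorem ratio_poly (G : Growth Z μ K) {m : ℕ} {F : P → ℝ} (hF : Fn A m F) {B : ℝ}
    (hB : ∀ᶠ n : ℕ in atTop, Real.log (WF A F n / μ ^ n) ≤ B * Real.log n) :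
    ∃ R : ℝ, 0 < R ∧ ∀ᶠ n : ℕ in atTop,
      |WF A F (n + Z.s) / WF A F n / μ ^ Z.s - 1| ≤ R * √(Real.log n / n) := by
  have hμ := G.hμ
  have hμ0 : 0 < μ := by linarith
  have hs := G.hs
  have hs1 : (1 : ℝ) ≤ Z.s := by exact_mod_cast hs
  have key : ∀ r, r < Z.s → ∃ R : ℝ, 0 < R ∧ ∀ᶠ k : ℕ in atTop,
      |Real.log (WF A F (Z.s * k + r + Z.s) / μ ^ (Z.s * k + r + Z.s)) -
        Real.log (WF A F (Z.s * k + r) / μ ^ (Z.s * k + r))| ≤ R * √(Real.log k / k) := by
    intro r hr
    obtain ⟨D, hD, hk⟩ := G.kesF m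
    obtain ⟨k0, hk0⟩ := hk r
    have hyk : ∀ j, 1 ≤ j → 1 ≤ yF A F μ Z.s r j := by
      intro j hj
      unfold yF
      rw [one_le_div (by positivity)]
      refine (G.low _).trans (WF_ge hF ?_)
      have := Nat.mul_le_mul hs hj
      omega
    have hac := ac_log hD (by norm_num) (by norm_num) (hk0 F hF) hyk
    have hmul : Tendsto (fun k : ℕ => Z.s * k + r) atTop atTop := by
      refine tendsto_atTop_mono (fun k => ?_) tendsto_id
      have := Nat.mul_le_mul_right k hs
      simp only [id]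
      omega
    have hbd : ∀ᶠ k : ℕ in atTop, |Real.log (yF A F μ Z.s r k)| ≤ (B + 1) * Real.log k := by
      have h2 := conv (L := fun k : ℕ => Real.log ((Z.s * k + r : ℕ) : ℝ))
        (L' := fun k : ℕ => Real.log k) (C0 := Real.log (2 * Z.s)) log_tend
        ((eventually_ge_atTop 1).mono fun k hk => by
          have h3 := log_div_near hs (n := Z.s * k + r) (by nlinarith)
          have e : (Z.s * k + r) / Z.s = k := by
            rw [Nat.mul_add_div (by omega), Nat.div_eq_of_lt hr, add_zero]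
          rw [e] at h3
          exact h3) B 0 one_pos
      filter_upwards [h2, hmul.eventually hB, eventually_ge_atTop 1] with k h3 h4 h5
      rw [abs_of_nonneg (Real.log_nonneg (hyk k h5))]
      unfold yF
      linarith
    obtain ⟨R, hR, h⟩ := slopes hac hD hbd
    refine ⟨R, hR, ?_⟩
    filter_upwards [h] with k hk
    unfold yF at hk
    have e : Z.s * (k + 1) + r = Z.s * k + r + Z.s := by ring
    rw [e] at hk
    exact hk
  choose! R hR hk using key
  obtain ⟨S, hS⟩ : ∃ S : ℝ, S = 1 + ∑ r ∈ range Z.s, R r := ⟨_, rfl⟩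
  have hS0 : 0 < S := by
    rw [hS]
    have : 0 ≤ ∑ r ∈ range Z.s, R r := sum_nonneg fun r hr => (hR r (mem_range.1 hr)).le
    linarith
  have hRS : ∀ r < Z.s, R r ≤ S := by
    intro r hr
    rw [hS]
    have := single_le_sum (f := R) (fun i hi => (hR i (mem_range.1 hi)).le) (mem_range.2 hr)
    linarith
  have hall := all_of_res hs (p := fun r k => r < Z.s →
      |Real.log (WF A F (Z.s * k + r + Z.s) / μ ^ (Z.s * k + r + Z.s)) -
        Real.log (WF A F (Z.s * k + r) / μ ^ (Z.s * k + r))| ≤ R r * √(Real.log k / k))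
    (fun r hr => (hk r hr).mono fun k h _ => h)
  have tz : Tendsto (fun n : ℕ => 2 * Z.s * S * √(Real.log n / n)) atTop (𝓝 0) := by
    have h1 : Tendsto (fun n : ℕ => Real.log n / n) atTop (𝓝 0) :=
      Real.isLittleO_log_id_atTop.tendsto_div_nhds_zero.comp tendsto_natCast_atTop_atTop
    have h2 := (Real.continuous_sqrt.tendsto _).comp h1
    rw [Real.sqrt_zero] at h2
    have h3 := h2.const_mul (2 * (Z.s : ℝ) * S)
    rw [mul_zero] at h3
    exact h3
  refine ⟨4 * Z.s * S, by positivity, ?_⟩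
  filter_upwards [hall, eventually_ge_atTop (Z.s + 1), (div_tend hs).eventually
    (log_tend.eventually_ge_atTop 0), tz.eventually_lt_const (show (0 : ℝ) < 1 / 2 by norm_num)]
    with n h1 h2 h3 h4
  have h5 := h1 (Nat.mod_lt _ hs)
  rw [Nat.div_add_mod] at h5
  obtain ⟨b1, b2, b3⟩ := div_bounds hs (show Z.s ≤ n by omega)
  have hn0 : (0 : ℝ) < n := by exact_mod_cast (show 0 < n by omega)
  have hQ0 : (0 : ℝ) < ((n / Z.s : ℕ) : ℝ) := by linarith
  have h6 : √(Real.log ((n / Z.s : ℕ) : ℝ) / ((n / Z.s : ℕ) : ℝ)) ≤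
      2 * Z.s * √(Real.log n / n) := by
    rw [Real.sqrt_le_left (by positivity), mul_pow, Real.sq_sqrt (div_nonneg
      (Real.log_nonneg (by exact_mod_cast (show 1 ≤ n by omega))) hn0.le)]
    have h7 : Real.log ((n / Z.s : ℕ) : ℝ) ≤ Real.log n := Real.log_le_log hQ0 (by nlinarith)
    have h8 : 0 ≤ Real.log (n : ℝ) := h3.trans h7
    rw [div_le_iff₀ hQ0]
    calc Real.log ((n / Z.s : ℕ) : ℝ) ≤ Real.log n := h7
      _ = Real.log n / n * n := by field_simp
      _ ≤ Real.log n / n * (2 * Z.s * ((n / Z.s : ℕ) : ℝ)) :=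
          mul_le_mul_of_nonneg_left b3 (by positivity)
      _ ≤ (2 * Z.s) ^ 2 * (Real.log n / n) * ((n / Z.s : ℕ) : ℝ) := by
          have h9 : 0 ≤ Real.log n / n * ((n / Z.s : ℕ) : ℝ) := by positivity
          have h10 : 2 * (Z.s : ℝ) ≤ (2 * Z.s) ^ 2 := by nlinarith
          have h11 := mul_le_mul_of_nonneg_right h10 h9
          linarith
  obtain ⟨v, hv⟩ : ∃ v, v = WF A F (n + Z.s) / WF A F n / μ ^ Z.s := ⟨_, rfl⟩
  have hW0 := WF_pos G hF (show 1 ≤ n by omega)
  have hW1 := WF_pos G hF (show 1 ≤ n + Z.s by omega)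
  have hv0 : 0 < v := by rw [hv]; positivity
  have e : Real.log (WF A F (n + Z.s) / μ ^ (n + Z.s)) - Real.log (WF A F n / μ ^ n) =
      Real.log v := by
    rw [← Real.log_div (by positivity) (by positivity), hv]
    congr 1
    rw [pow_add]
    field_simp
  rw [e] at h5
  rw [← hv]
  obtain ⟨ε, hε⟩ : ∃ ε : ℝ, ε = 2 * Z.s * S * √(Real.log n / n) := ⟨_, rfl⟩
  have hsq : 0 ≤ √(Real.log n / n) := Real.sqrt_nonneg _
  have h7 : |Real.log v| ≤ ε := by
    refine h5.trans ?_
    have h8 : R (n % Z.s) * √(Real.log ((n / Z.s : ℕ) : ℝ) / ((n / Z.s : ℕ) : ℝ)) ≤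
        S * (2 * Z.s * √(Real.log n / n)) :=
      mul_le_mul (hRS _ (Nat.mod_lt _ hs)) h6 (Real.sqrt_nonneg _) hS0.le
    rw [hε]
    linarith
  rw [← hε] at h4
  have h8 := abs_le.1 h7
  have h9 : Real.exp (-ε) ≤ v := by
    rw [← Real.log_le_log_iff (Real.exp_pos _) hv0, Real.log_exp]
    exact h8.1
  have h10 : v ≤ Real.exp ε := by
    rw [← Real.log_le_log_iff hv0 (Real.exp_pos _), Real.log_exp]
    exact h8.2
  have hε0 : 0 ≤ ε := by rw [hε]; positivity
  have h11 : Real.exp ε ≤ 1 + 2 * ε := by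
    have h12 := Real.add_one_le_exp (-ε)
    have h13 : Real.exp ε * Real.exp (-ε) = 1 := by rw [← Real.exp_add]; simp
    have h14 := Real.exp_pos ε
    have h15 : Real.exp ε * (1 - ε) ≤ 1 := by nlinarith
    nlinarith
  have h16 := Real.add_one_le_exp (-ε)
  have h17 : 4 * Z.s * S * √(Real.log n / n) = 2 * ε := by rw [hε]; ring
  rw [h17, abs_le]
  constructor <;> linarith

end Q215.SAW
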