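import Pool.Agent.Q215.SAW.SerB

/-!
# Asymptotic formulas along sequences with gaps of order `√n`, one residue class
-/

set_option autoImplicit false

namespace Q215.SAW.GapF

open Filter Topology Cvx

/-- `exp (ell n) / n^g` at `n = s k + e` -/
noncomputable def F (ell : ℕ → ℝ) (s e : ℕ) (g : ℝ) (k : ℕ) : ℝ :=
  Real.exp (ell (s * k + e)) / ((s * k + e : ℕ) : ℝ) ^ g

/-- its logarithm -/
noncomputable def xF (ell : ℕ → ℝ) (s e : ℕ) (g : ℝ) (k : ℕ) : ℝ :=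
  ell (s * k + e) - g * Real.log ((s * k + e : ℕ) : ℝ)

variable {ell : ℕ → ℝ} {s e : ℕ} {g : ℝ}

theorem F_exp (hs : 1 ≤ s) {k : ℕ} (hk : 1 ≤ k) : F ell s e g k = Real.exp (xF ell s e g k) := by
  have hn : (0 : ℝ) < ((s * k + e : ℕ) : ℝ) := by
    have : 0 < s * k := Nat.mul_pos hs hk
    exact_mod_cast (show 0 < s * k + e by omega)
  unfold F xF
  rw [Real.exp_sub]
  congr 1
  rw [Real.rpow_def_of_pos hn, mul_comm]

theorem F_pos (hs : 1 ≤ s) {k : ℕ} (hk : 1 ≤ k) : 0 < F ell s e g k := by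
  rw [F_exp hs hk]; exact Real.exp_pos _

theorem log_F (hs : 1 ≤ s) {k : ℕ} (hk : 1 ≤ k) : Real.log (F ell s e g k) = xF ell s e g k := by
  rw [F_exp hs hk, Real.log_exp]

theorem log_step (hs : 1 ≤ s) {k : ℕ} (hk : 1 ≤ k) :
    |Real.log ((s * (k + 1) + e : ℕ) : ℝ) - Real.log ((s * k + e : ℕ) : ℝ)| ≤ 1 / k := by
  have hk0 : (0 : ℝ) < k := by exact_mod_cast hk
  have hsk : 0 < s * k := Nat.mul_pos hs hk
  have h1 : (0 : ℝ) < ((s * k + e : ℕ) : ℝ) := by exact_mod_cast (show 0 < s * k + e by omega)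
  have h2 : (0 : ℝ) < ((s * (k + 1) + e : ℕ) : ℝ) := by
    exact_mod_cast (show 0 < s * (k + 1) + e by rw [mul_add]; omega)
  have h3 : ((s * k + e : ℕ) : ℝ) ≤ ((s * (k + 1) + e : ℕ) : ℝ) := by
    exact_mod_cast (show s * k + e ≤ s * (k + 1) + e by rw [mul_add]; omega)
  rw [abs_of_nonneg (sub_nonneg.2 (Real.log_le_log h1 h3)), ← Real.log_div h2.ne' h1.ne']
  refine (Real.log_le_sub_one_of_pos (div_pos h2 h1)).trans ?_
  rw [div_sub_one h1.ne', div_le_div_iff₀ h1 hk0]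
  push_cast
  have : (0 : ℝ) ≤ e := Nat.cast_nonneg e
  nlinarith

/-- **near-convexity** -/
theorem xF_ac (hs : 1 ≤ s) (h0 : ∃ (D : ℝ) (k0 : ℕ), 0 ≤ D ∧ AC (fun k => ell (s * k + e)) D k0) :
    ∃ (D : ℝ) (k0 : ℕ), 0 ≤ D ∧ AC (xF ell s e g) D k0 := by
  obtain ⟨D, k0, hD, h⟩ := h0
  refine ⟨D + 2 * |g|, k0 + 1, by positivity, fun k hk => ?_⟩
  have h1 := h k (by omega)
  simp only at h1
  have hk1 : 1 ≤ k := by omega
  have hk0 : (0 : ℝ) < k := by exact_mod_cast hk1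
  obtain ⟨L, hL⟩ : ∃ L : ℕ → ℝ, L = fun m => Real.log ((s * m + e : ℕ) : ℝ) := ⟨_, rfl⟩
  have a1 : |L (k + 1) - L k| ≤ 1 / k := by
    rw [hL]; exact log_step hs hk1
  have a2 : |L (k + 2) - L (k + 1)| ≤ 1 / k := by
    have h2 := log_step (e := e) hs (k := k + 1) (by omega)
    have h3 : (1 : ℝ) / ((k + 1 : ℕ) : ℝ) ≤ 1 / k := by
      refine div_le_div_of_nonneg_left zero_le_one hk0 ?_
      push_cast
      linarith
    rw [hL]
    exact h2.trans h3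
  have a3 : |g * (L (k + 2) - 2 * L (k + 1) + L k)| ≤ |g| * (2 / k) := by
    rw [abs_mul]
    refine mul_le_mul_of_nonneg_left ?_ (abs_nonneg _)
    have e1 : L (k + 2) - 2 * L (k + 1) + L k = (L (k + 2) - L (k + 1)) - (L (k + 1) - L k) := by
      ring
    rw [e1]
    refine (abs_sub _ _).trans ?_
    have e2 : (2 : ℝ) / k = 1 / k + 1 / k := by ring
    rw [e2]
    linarith
  have a4 := neg_abs_le (g * (L (k + 2) - 2 * L (k + 1) + L k))
  have a5 := le_abs_self (g * (L (k + 2) - 2 * L (k + 1) + L k))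
  have e3 : (D + 2 * |g|) / (k : ℝ) = D / k + |g| * (2 / k) := by ring
  have e4 : ∀ m, xF ell s e g m = ell (s * m + e) - g * L m := fun m => by rw [hL]; rfl
  rw [e3, e4, e4, e4]
  linarith

/-- upper bounds -/
theorem F_up (hs : 1 ≤ s) (h0 : ∃ (D : ℝ) (k0 : ℕ), 0 ≤ D ∧ AC (fun k => ell (s * k + e)) D k0)
    {t : ℕ → ℕ} (ht : Tendsto t atTop atTop) (hsp : RootSparse t)
    {b : ℝ} (hb : ∀ᶠ j in atTop, F ell s e g (t j) ≤ b) {ε : ℝ} (hε : 0 < ε) :
    ∀ᶠ k in atTop, F ell s e g k ≤ b + ε := by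
  obtain ⟨D, k0, hD, h⟩ := xF_ac (g := g) hs h0
  have hb0 : 0 < b := by
    obtain ⟨j, h1, h2⟩ := (hb.and (ht.eventually_ge_atTop 1)).exists
    exact (F_pos hs h2).trans_le h1
  have h1 := up0 h hD ht hsp (b := Real.log b) (fun δ hδ => by
    filter_upwards [hb, ht.eventually_ge_atTop 1] with j h1 h2
    rw [← log_F hs h2]
    have := Real.log_le_log (F_pos hs h2) h1
    linarith) (ε := Real.log (1 + ε / b)) (Real.log_pos (by
      have : 0 < ε / b := by positivity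
      linarith))
  filter_upwards [h1, eventually_ge_atTop 1] with k h2 h3
  rw [F_exp hs h3]
  have h4 := Real.exp_le_exp.2 h2
  rw [Real.exp_add, Real.exp_log hb0, Real.exp_log (by positivity)] at h4
  refine h4.trans (le_of_eq ?_)
  field_simp

/-- boundedness -/
theorem F_bdd (hs : 1 ≤ s) (h0 : ∃ (D : ℝ) (k0 : ℕ), 0 ≤ D ∧ AC (fun k => ell (s * k + e)) D k0)
    {t : ℕ → ℕ} (ht : Tendsto t atTop atTop) {η : ℝ}
    (hg : ∀ᶠ j in atTop, (t (j + 1) : ℝ) - t j ≤ η * √(t j))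
    {b : ℝ} (hb : ∀ᶠ j in atTop, F ell s e g (t j) ≤ b) :
    ∃ b' : ℝ, ∀ᶠ k in atTop, F ell s e g k ≤ b' := by
  obtain ⟨D, k0, hD, h⟩ := xF_ac (g := g) hs h0
  have h1 := upK h hD ht hg (b := Real.log b) (by
    filter_upwards [hb, ht.eventually_ge_atTop 1] with j h1 h2
    rw [← log_F hs h2]
    exact Real.log_le_log (F_pos hs h2) h1)
  refine ⟨Real.exp (Real.log b + D * η ^ 2), ?_⟩
  filter_upwards [h1, eventually_ge_atTop 1] with k h2 h3
  rw [F_exp hs h3]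
  exact Real.exp_le_exp.2 h2

/-- two-sided bounds -/
theorem F_two (hs : 1 ≤ s) (h0 : ∃ (D : ℝ) (k0 : ℕ), 0 ≤ D ∧ AC (fun k => ell (s * k + e)) D k0)
    {t : ℕ → ℕ} (ht : Tendsto t atTop atTop) {η : ℝ} (hη : 0 ≤ η)
    (hg : ∀ᶠ j in atTop, (t (j + 1) : ℝ) - t j ≤ η * √(t j)) {B : ℝ}
    (hB : ∀ᶠ k in atTop, F ell s e g k ≤ B) {a : ℝ} (ha0 : 0 < a)
    (ha : ∀ᶠ j in atTop, a ≤ F ell s e g (t j)) :
    ∃ a' : ℝ, 0 < a' ∧ ∀ᶠ k in atTop, a' ≤ F ell s e g k := by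
  obtain ⟨D, k0, hD, h⟩ := xF_ac (g := g) hs h0
  have h1 := loK h hD ht hη hg (B := Real.log B) (by
    filter_upwards [hB, eventually_ge_atTop 1] with k h1 h2
    rw [← log_F hs h2]
    exact Real.log_le_log (F_pos hs h2) h1) (a := Real.log a) (by
    filter_upwards [ha, ht.eventually_ge_atTop 1] with j h1 h2
    rw [← log_F hs h2]
    exact Real.log_le_log ha0 h1)
  refine ⟨Real.exp (Real.log a - η * (|Real.log B - Real.log a| + D * (η + 2))),
    Real.exp_pos _, ?_⟩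
  filter_upwards [h1, eventually_ge_atTop 1] with k h2 h3
  rw [F_exp hs h3]
  exact Real.exp_le_exp.2 h2

/-- lower bounds, small gaps -/
theorem F_low (hs : 1 ≤ s) (h0 : ∃ (D : ℝ) (k0 : ℕ), 0 ≤ D ∧ AC (fun k => ell (s * k + e)) D k0)
    {t : ℕ → ℕ} (ht : Tendsto t atTop atTop) (hsp : RootSparse t)
    {B : ℝ} (hB : ∀ᶠ k in atTop, F ell s e g k ≤ B) {a : ℝ} (ha0 : 0 < a)
    (ha : ∀ᶠ j in atTop, a ≤ F ell s e g (t j)) {ε : ℝ} (hε : 0 < ε) :
    ∀ᶠ k in atTop, a - ε ≤ F ell s e g k := by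
  obtain ⟨D, k0, hD, h⟩ := xF_ac (g := g) hs h0
  rcases le_or_gt a ε with hae | hae
  · filter_upwards [eventually_ge_atTop 1] with k h3
    have := F_pos (ell := ell) (e := e) (g := g) hs h3
    linarith
  have h1 := lo0 h hD ht hsp (B := Real.log B) (by
    filter_upwards [hB, eventually_ge_atTop 1] with k h1 h2
    rw [← log_F hs h2]
    exact Real.log_le_log (F_pos hs h2) h1) (a := Real.log a) (fun δ hδ => by
    filter_upwards [ha, ht.eventually_ge_atTop 1] with j h1 h2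
    rw [← log_F hs h2]
    have := Real.log_le_log ha0 h1
    linarith) (ε := Real.log a - Real.log (a - ε)) (by
      have := Real.log_lt_log (show 0 < a - ε by linarith) (show a - ε < a by linarith)
      linarith)
  filter_upwards [h1, eventually_ge_atTop 1] with k h2 h3
  rw [F_exp hs h3]
  have h4 := Real.exp_le_exp.2 h2
  rw [show Real.log a - (Real.log a - Real.log (a - ε)) = Real.log (a - ε) by ring,
    Real.exp_log (by linarith)] at h4
  exact h4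

/-- limits, small gaps -/
theorem F_lim (hs : 1 ≤ s) (h0 : ∃ (D : ℝ) (k0 : ℕ), 0 ≤ D ∧ AC (fun k => ell (s * k + e)) D k0)
    {t : ℕ → ℕ} (ht : Tendsto t atTop atTop) (hsp : RootSparse t) {A : ℝ} (hA : 0 < A)
    (h : Tendsto (fun j => F ell s e g (t j)) atTop (𝓝 A)) :
    Tendsto (fun k => F ell s e g k) atTop (𝓝 A) := by
  have hup : ∀ ε : ℝ, 0 < ε → ∀ᶠ m in atTop, F ell s e g m ≤ A + ε := by
    intro ε hε
    have h1 := F_up hs h0 ht hsp (b := A + ε / 2)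
      (h.eventually_le_const (by linarith)) (show 0 < ε / 2 by positivity)
    filter_upwards [h1] with m hm
    linarith
  rw [Metric.tendsto_nhds]
  intro ε hε
  obtain ⟨δ, hδ⟩ : ∃ δ : ℝ, δ = min (A / 2) (ε / 4) := ⟨_, rfl⟩
  have hδ0 : 0 < δ := by rw [hδ]; exact lt_min (by positivity) (by positivity)
  have hδ1 : δ ≤ A / 2 := by rw [hδ]; exact min_le_left _ _
  have hδ2 : δ ≤ ε / 4 := by rw [hδ]; exact min_le_right _ _
  have h2 := F_low hs h0 ht hsp (hup 1 one_pos) (a := A - δ) (by linarith)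
    (h.eventually_const_le (by linarith)) (show 0 < ε / 4 by positivity)
  filter_upwards [hup (ε / 2) (by positivity), h2] with m h3 h4
  rw [Real.dist_eq, abs_lt]
  constructor <;> linarith

/-- the four statements together -/
theorem all4 (hs : 1 ≤ s)
    (h0 : ∃ (D : ℝ) (k0 : ℕ), 0 ≤ D ∧ AC (fun k => ell (s * k + e)) D k0) :
    (∀ (t : ℕ → ℕ) (b : ℝ), Tendsto t atTop atTop → RootSparse t →
      (∀ᶠ j in atTop, F ell s e g (t j) ≤ b) →
      ∀ ε : ℝ, 0 < ε → ∀ᶠ m in atTop, F ell s e g m ≤ b + ε) ∧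
    (∀ (t : ℕ → ℕ) (a B : ℝ), Tendsto t atTop atTop → RootSparse t → 0 < a →
      (∀ᶠ m in atTop, F ell s e g m ≤ B) → (∀ᶠ j in atTop, a ≤ F ell s e g (t j)) →
      ∀ ε : ℝ, 0 < ε → ∀ᶠ m in atTop, a - ε ≤ F ell s e g m) ∧
    (∀ (t : ℕ → ℕ) (A : ℝ), Tendsto t atTop atTop → RootSparse t → 0 < A →
      Tendsto (fun j => F ell s e g (t j)) atTop (𝓝 A) →
      Tendsto (fun m => F ell s e g m) atTop (𝓝 A)) ∧
    ∀ (t : ℕ → ℕ) (η a b : ℝ), Tendsto t atTop atTop →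
      (∀ᶠ j in atTop, (t (j + 1) : ℝ) - t j ≤ η * √(t j)) → 0 < a →
      (∀ᶠ j in atTop, a ≤ F ell s e g (t j) ∧ F ell s e g (t j) ≤ b) →
      ∃ a' b' : ℝ, 0 < a' ∧ ∀ᶠ m in atTop, a' ≤ F ell s e g m ∧ F ell s e g m ≤ b' := by
  refine ⟨fun t b ht hsp hb ε hε => F_up hs h0 ht hsp hb hε,
    fun t a B ht hsp ha0 hB ha ε hε => F_low hs h0 ht hsp hB ha0 ha hε,
    fun t A ht hsp hA h => F_lim hs h0 ht hsp hA h, ?_⟩
  intro t η a b ht hη ha hab
  have hη' : ∀ᶠ j in atTop, (t (j + 1) : ℝ) - t j ≤ |η| * √(t j) := by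
    filter_upwards [hη] with j hj
    exact hj.trans (mul_le_mul_of_nonneg_right (le_abs_self _) (Real.sqrt_nonneg _))
  obtain ⟨b', hb'⟩ := F_bdd hs h0 ht hη' (hab.mono fun j h => h.2)
  obtain ⟨a', ha', h⟩ := F_two hs h0 ht (abs_nonneg η) hη' hb' ha (hab.mono fun j h => h.1)
  exact ⟨a', b', ha', h.and hb'⟩

/-- the perfect squares -/
theorem squares_root : Tendsto (fun j : ℕ => (j + 1) ^ 2) atTop atTop ∧
    ∀ᶠ j : ℕ in atTop, ((((j + 1 + 1) ^ 2 : ℕ) : ℝ) - ((j + 1) ^ 2 : ℕ)) ≤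
      3 * √(((j + 1) ^ 2 : ℕ) : ℝ) := by
  refine ⟨?_, Eventually.of_forall fun j => ?_⟩
  · refine tendsto_atTop_mono (fun j => ?_) tendsto_id
    simp only [id]
    nlinarith
  · have e : √(((j + 1) ^ 2 : ℕ) : ℝ) = j + 1 := by
      push_cast
      exact Real.sqrt_sq (by positivity)
    rw [e]
    push_cast
    have : (0 : ℝ) ≤ j := Nat.cast_nonneg _
    nlinarith

end Q215.SAW.GapF
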