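import Pool.Agent.Q219.SAW.Prb

/-!
# The ratio theorem for functions of the whole walk which are invariant under the local moves
-/

set_option autoImplicit false

namespace Q215.SAW

open Finset Filter Topology TH966.AK Q219.SAW
open scoped Classical

variable {A : P → P → Prop} {Z : Rule A}

variable (Z) in
/-- weights between `0` and `1` which do not change under the moves -/
structure WtG (f : List P → ℝ) : Prop where
  nn : ∀ w, 0 ≤ f w
  le : ∀ w, f w ≤ 1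
  inv : ∀ w U U', Walk A w → Z.T U U' → Free U U' w → f (Rule.rep w U U') = f w

/-- weighted numbers of walks -/
noncomputable def cG (A : P → P → Prop) (f : List P → ℝ) (n : ℕ) : ℝ := ∑ w ∈ Kw A n, f w

theorem cG_nonneg {f : List P → ℝ} (hf : ∀ w, 0 ≤ f w) (n : ℕ) : 0 ≤ cG A f n :=
  sum_nonneg fun _ _ => hf _

theorem cG_le {f : List P → ℝ} (hf : ∀ w, f w ≤ 1) (n : ℕ) :
    cG A f n ≤ (Kw A n).card := by
  unfold cG
  refine (sum_le_sum (g := fun _ => (1 : ℝ)) fun w _ => hf w).trans ?_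
  rw [sum_const, nsmul_one]

theorem cG_one (n : ℕ) : cG A (fun _ => 1) n = (Kw A n).card := by
  unfold cG
  rw [sum_const, nsmul_one]

theorem wtG_one : WtG Z (fun _ => 1) :=
  ⟨fun _ => zero_le_one, fun _ => le_rfl, fun _ _ _ _ _ _ => rfl⟩

theorem wtG_ind (E : Set P) : WtG Z (ind E) := by
  refine ⟨ind_nn E, ind_le E, ?_⟩
  intro w U U' hw hT hf
  unfold ind
  rw [lst_rep (Z.pair _ _ hT) hw hf]

/-- the ratios along one residue class -/
theorem ratio_resG {μ K : ℝ} (G : Growth Z μ K)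
    (r : ℕ) :
    ∃ (R δ : ℝ) (k1 : ℕ), 0 < R ∧ 0 < δ ∧ ∀ (f : List P → ℝ), WtG Z f →
      ∀ k : ℕ, k1 ≤ k → ∀ Λ : ℝ, Real.log k ^ 2 ≤ Λ → Λ ≤ δ * k →
      Real.exp (-Λ) * μ ^ (Z.s * k + r) ≤ cG A f (Z.s * k + r) →
      |cG A f (Z.s * k + r + Z.s) / cG A f (Z.s * k + r) / μ ^ Z.s - 1| ≤ R * √(Λ / k) := by
  have hμ := G.hμ
  have hμ0 : 0 < μ := by linarith
  have hs := G.hs
  have hK0 := G.hK
  obtain ⟨M0, ρ, C0, hM0, hρ0, hρ1, hpoor⟩ := G.poor
  choose C1 hC1 using G.hup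
  obtain ⟨M, θ, C', hM, hθ0, hθ1, hC', hbad⟩ := pattern_u (α := List P) (σ := List P × List P)
    Z.CC Z.s 0 μ hμ (fun τ => if h : 0 < τ then C1 τ h else 0) M0 ρ C0 hM0 hρ0 hρ1
  obtain ⟨θ₁, hθ₁⟩ : ∃ θ₁ : ℝ, θ₁ = (1 + θ) / 2 := ⟨_, rfl⟩
  have hθ₁0 : 0 < θ₁ := by linarith
  have hθ₁1 : θ₁ < 1 := by linarith
  have hconv := convex_u (α := List P) (σ := List P × List P) Z.CC Z.s 0 M hM μ θ θ₁ C' hμ0 hθ0
    (by linarith)
  obtain ⟨K', hK', hg⟩ := G.grow r
  obtain ⟨θK, hθK⟩ : ∃ θK : ℝ, θK = √θ₁ := ⟨_, rfl⟩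
  have hθK0 : 0 < θK := by rw [hθK]; exact Real.sqrt_pos.2 hθ₁0
  have hθK1 : θK < 1 := by
    rw [hθK, Real.sqrt_lt' one_pos]
    linarith
  have hθK2 : θK ^ 2 = θ₁ := by rw [hθK]; exact Real.sq_sqrt hθ₁0.le
  have ht : Tendsto (fun k : ℕ => Z.s * k + r) atTop atTop := by
    refine tendsto_atTop_mono (fun k => ?_) tendsto_id
    have := Nat.mul_le_mul_right k hs
    simp only [id]
    omega
  obtain ⟨k0, hk0⟩ := eventually_atTop.1 (ht.eventually hconv)
  obtain ⟨R, δ, k1, hR, hδ, hrate⟩ := rate_loc (8 * (6 * Z.CC * M + 1)) θK (max k0 1)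
    (by positivity) hθK0 hθK1 hK'
  refine ⟨R, δ, k1, hR, hδ, ?_⟩
  intro f hf k hk Λ hΛ1 hΛ2 hlow
  obtain ⟨Y, hY⟩ : ∃ Y, Y = Z.sys := ⟨_, rfl⟩
  have hYC : Y.C = Z.CC := by rw [hY]; rfl
  have hYs : Y.s = Z.s := by rw [hY]; rfl
  have hYn : Y.n0 = 0 := by rw [hY]; rfl
  have hYK : ∀ n, Y.K n = Kw A n := by intro n; rw [hY]; rfl
  have hYB : ∀ w, Y.B w = Z.B w := by intro n; rw [hY]; rfl
  have hwt : Y.Wt f := by
    refine ⟨fun n w _ => hf.nn w, ?_⟩
    rintro n w ⟨U, U'⟩ hw hq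
    rw [hY] at hw hq ⊢
    change w ∈ Kw A n at hw
    change (U, U') ∈ Z.S w at hq
    change f (Rule.rep w U U') = f w
    rw [Z.mem_K] at hw
    rw [Z.mem_S] at hq
    exact hf.inv w U U' hw.2 hq.1 hq.2
  have hYbad : ∀ n, ((Y.bad M n).card : ℝ) ≤ C' * (θ * μ) ^ n := by
    refine hbad Y hYC hYs hYn ?_ ?_
    · intro τ hτ n
      simp only [dif_pos hτ]
      refine le_trans ?_ (hC1 τ hτ n)
      rw [hYK]
    · intro n
      refine le_trans ?_ (hpoor n)
      rw [hYK]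
      simp only [hYB]
      exact le_rfl
  have haf : ∀ n, Y.af f n = cG A f n := by
    intro n
    unfold Sys.af cG
    rw [hYK]
  have hbadf : ∀ n, Y.badf f M n ≤ C' * (θ * μ) ^ n := by
    intro n
    refine le_trans ?_ (hYbad n)
    unfold Sys.badf
    rw [← nsmul_one, ← sum_const]
    exact sum_le_sum fun w _ => hf.le w
  obtain ⟨y, hy⟩ : ∃ y : ℕ → ℝ, y = fun k => cG A f (Z.s * k + r) / μ ^ (Z.s * k + r) :=
    ⟨_, rfl⟩
  have hy0 : ∀ k, 0 ≤ y k := by
    intro k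
    rw [hy]
    exact div_nonneg (cG_nonneg hf.nn _) (by positivity)
  have hKes : TH966.KS.Kes y (8 * (6 * Z.CC * M + 1)) θK (max k0 1) := by
    intro j hj hth
    have hj1 : 1 ≤ j := le_trans (le_max_right _ _) hj
    have h1 := hk0 j (le_trans (le_max_left _ _) hj) Y hYC hYs hYn f hwt hbadf
    rw [haf, haf, haf] at h1
    have e1 : Z.s * j + r + Z.s = Z.s * (j + 1) + r := by ring
    have e2 : Z.s * (j + 1) + r + Z.s = Z.s * (j + 2) + r := by ring
    rw [e1, e2] at h1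
    have h2 := h1 (by
      rw [mul_pow]
      rw [hy] at hth
      simp only at hth
      rw [le_div_iff₀ (by positivity)] at hth
      refine le_trans (mul_le_mul_of_nonneg_right ?_ (by positivity)) hth
      have e3 : 2 * j + 2 = 2 * (j + 1) := by ring
      rw [e3, pow_mul, hθK2]
      refine pow_le_pow_of_le_one hθ₁0.le hθ₁1.le ?_
      have := Nat.mul_le_mul_right (j + 1) hs
      omega)
    have hj' : (1 : ℝ) ≤ j := by exact_mod_cast hj1
    have h3 : (1 : ℝ) + (8 * (6 * Z.CC * M + 1)) / ((Z.s * j + r : ℕ) : ℝ) ≤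
        1 + (8 * (6 * Z.CC * M + 1)) / j := by
      refine add_le_add le_rfl (div_le_div_of_nonneg_left (by positivity) (by positivity) ?_)
      have h4 : j ≤ Z.s * j + r := by
        have := Nat.mul_le_mul_right j hs
        omega
      exact_mod_cast h4
    have h4 : cG A f (Z.s * (j + 1) + r) ^ 2 ≤ cG A f (Z.s * j + r) *
        cG A f (Z.s * (j + 2) + r) * (1 + (8 * (6 * Z.CC * M + 1)) / j) := by
      refine h2.trans (mul_le_mul_of_nonneg_left ?_
        (mul_nonneg (cG_nonneg hf.nn _) (cG_nonneg hf.nn _)))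
      exact h3
    rw [hy]
    simp only
    have e3 : (μ ^ (Z.s * (j + 1) + r)) ^ 2 = μ ^ (Z.s * j + r) * μ ^ (Z.s * (j + 2) + r) := by
      rw [← pow_mul, ← pow_add]
      congr 1
      ring
    rw [div_pow, div_mul_div_comm, div_mul_eq_mul_div, e3]
    exact div_le_div_of_nonneg_right h4 (by positivity)
  have hgr : ∀ k : ℕ, 2 ≤ k → ∀ m ≤ k, y m ≤ Real.exp (K' * Real.log k ^ 2) := by
    intro k hk2 m hm
    refine le_trans ?_ (hg k hk2 m hm)
    rw [hy]
    unfold yy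
    exact div_le_div_of_nonneg_right (cG_le hf.le _) (by positivity)
  have hlow' : Real.exp (-Λ) ≤ y k := by
    rw [hy]
    simp only
    rw [le_div_iff₀ (by positivity)]
    exact hlow
  have hfin := hrate y hKes hy0 hgr k hk Λ hΛ1 hΛ2 hlow'
  have e : cG A f (Z.s * k + r + Z.s) / cG A f (Z.s * k + r) / μ ^ Z.s =
      y (k + 1) / y k := by
    rw [hy]
    simp only
    have e1 : Z.s * (k + 1) + r = Z.s * k + r + Z.s := by ring
    have h2 : 0 < cG A f (Z.s * k + r) := lt_of_lt_of_le (by positivity) hlow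
    rw [e1, pow_add μ (Z.s * k + r) Z.s]
    field_simp
  rw [e]
  exact hfin

/-- **the uniform ratio theorem** -/
theorem ratio_domG {μ K : ℝ} (G : Growth Z μ K) :
    ∃ (R δ : ℝ) (n1 : ℕ), 0 < R ∧ 0 < δ ∧ ∀ (f : List P → ℝ), WtG Z f →
      ∀ n : ℕ, n1 ≤ n → ∀ Λ : ℝ, Real.log n ^ 2 ≤ Λ → Λ ≤ δ * n →
      Real.exp (-Λ) * μ ^ n ≤ cG A f n →
      |cG A f (n + Z.s) / cG A f n / μ ^ Z.s - 1| ≤ R * √(Λ / n) := by
  have hs := G.hs
  choose R δ k1 hR hδ h using ratio_resG G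
  obtain ⟨S, hS⟩ : ∃ S : ℝ, S = ∑ r ∈ range Z.s, R r := ⟨_, rfl⟩
  have hne : (range Z.s).Nonempty := ⟨0, mem_range.2 hs⟩
  obtain ⟨δ', hδ'⟩ : ∃ δ' : ℝ, δ' = (range Z.s).inf' hne δ := ⟨_, rfl⟩
  have hδ'0 : 0 < δ' := by
    rw [hδ', Finset.lt_inf'_iff]
    exact fun r _ => hδ r
  obtain ⟨k2, hk2⟩ : ∃ k2 : ℕ, k2 = ∑ r ∈ range Z.s, k1 r := ⟨_, rfl⟩
  have hS0 : 0 ≤ S := by
    rw [hS]
    exact sum_nonneg fun r _ => (hR r).le
  have hs1 : (1 : ℝ) ≤ Z.s := by exact_mod_cast hs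
  refine ⟨(S + 1) * (2 * Z.s), δ' / (2 * Z.s), Z.s * (k2 + 2), by positivity, by positivity, ?_⟩
  intro f hf n hn Λ hΛ1 hΛ2 hlow
  obtain ⟨k, hk⟩ : ∃ k, k = n / Z.s := ⟨_, rfl⟩
  obtain ⟨r, hr⟩ : ∃ r, r = n % Z.s := ⟨_, rfl⟩
  have hrs : r < Z.s := by rw [hr]; exact Nat.mod_lt _ hs
  have hnk : Z.s * k + r = n := by rw [hk, hr]; exact Nat.div_add_mod n Z.s
  have hkk : k2 + 2 ≤ k := by
    rw [hk, Nat.le_div_iff_mul_le hs, mul_comm]
    exact hn
  have hk1r : k1 r ≤ k := by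
    have : k1 r ≤ k2 := by
      rw [hk2]
      exact single_le_sum (f := k1) (fun _ _ => Nat.zero_le _) (mem_range.2 hrs)
    omega
  have hkn : k ≤ n := by
    have := Nat.mul_le_mul_right k hs
    omega
  have hk0 : (0 : ℝ) < k := by
    have : 0 < k := by omega
    exact_mod_cast this
  have hn0 : (0 : ℝ) < n := lt_of_lt_of_le hk0 (by exact_mod_cast hkn)
  have hk2n : (n : ℝ) ≤ 2 * Z.s * k := by
    have h10 : n ≤ Z.s * k + Z.s := by omega
    have h11 : (n : ℝ) ≤ Z.s * k + Z.s := by exact_mod_cast h10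
    have h12 : (1 : ℝ) ≤ k := by exact_mod_cast (show 1 ≤ k by omega)
    nlinarith
  have hlk : Real.log (k : ℝ) ≤ Real.log n := Real.log_le_log hk0 (by exact_mod_cast hkn)
  have hlk0 : 0 ≤ Real.log (k : ℝ) := Real.log_nonneg (by exact_mod_cast (show 1 ≤ k by omega))
  have hΛ0 : 0 ≤ Λ := (sq_nonneg _).trans hΛ1
  have g1 := h r f hf k hk1r Λ ((pow_le_pow_left₀ hlk0 hlk 2).trans hΛ1) (by
    refine hΛ2.trans ?_
    have h1 : δ' ≤ δ r := by
      rw [hδ']
      exact Finset.inf'_le _ (mem_range.2 hrs)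
    calc δ' / (2 * Z.s) * n ≤ δ' / (2 * Z.s) * (2 * Z.s * k) :=
          mul_le_mul_of_nonneg_left hk2n (by positivity)
      _ = δ' * k := by field_simp
      _ ≤ δ r * k := mul_le_mul_of_nonneg_right h1 hk0.le) (by rw [hnk]; exact hlow)
  rw [hnk] at g1
  refine g1.trans ?_
  have hRS : R r ≤ S := by
    rw [hS]
    exact single_le_sum (f := R) (fun i _ => (hR i).le) (mem_range.2 hrs)
  have h7 : √(Λ / k) ≤ 2 * Z.s * √(Λ / n) := by
    rw [Real.sqrt_le_left (by positivity), mul_pow, Real.sq_sqrt (by positivity)]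
    rw [div_le_iff₀ hk0]
    have h8 : Λ ≤ Λ / n * (2 * Z.s * k) := by
      rw [div_mul_eq_mul_div, le_div_iff₀ hn0]
      exact mul_le_mul_of_nonneg_left hk2n hΛ0
    refine h8.trans ?_
    have h9 : 0 ≤ Λ / n * k := by positivity
    have h10 : (2 * (Z.s : ℝ)) ≤ (2 * Z.s) ^ 2 := by nlinarith
    calc Λ / n * (2 * Z.s * k) = 2 * Z.s * (Λ / n * k) := by ring
      _ ≤ (2 * Z.s) ^ 2 * (Λ / n * k) := mul_le_mul_of_nonneg_right h10 h9
      _ = _ := by ring
  calc R r * √(Λ / k) ≤ S * (2 * Z.s * √(Λ / n)) :=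
        mul_le_mul hRS h7 (by positivity) hS0
    _ ≤ _ := by
        have : 0 ≤ 2 * Z.s * √(Λ / n) := by positivity
        nlinarith

/-- the ratio theorem in domains, for all lengths -/
theorem ratio_allG {μ K : ℝ} (G : Growth Z μ K) :
    ∃ (R δ : ℝ), 0 < R ∧ 0 < δ ∧ ∀ (f : List P → ℝ), WtG Z f →
      ∀ n : ℕ, 2 ≤ n → Real.exp (-(δ * n)) ≤ cG A f n / (Kw A n).card →
      |cG A f (n + Z.s) / cG A f n / μ ^ Z.s - 1| ≤
        R * √((Real.log n ^ 2 + Real.log (1 / (cG A f n / (Kw A n).card))) / n) ∧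
      |cG A f (n + Z.s) / (Kw A (n + Z.s)).card / (cG A f n / (Kw A n).card) - 1| ≤
        R * √((Real.log n ^ 2 + Real.log (1 / (cG A f n / (Kw A n).card))) / n) := by
  have hμ := G.hμ
  have hμ0 : 0 < μ := by linarith
  have hs := G.hs
  obtain ⟨R, δ, n1, hR, hδ, h⟩ := ratio_domG G
  obtain ⟨δ', hδ'⟩ : ∃ δ', δ' = min (δ / 2) (1 / (8 * R ^ 2)) := ⟨_, rfl⟩
  have hδ'0 : 0 < δ' := by rw [hδ']; exact lt_min (by positivity) (by positivity)
  have hδ1 : δ' ≤ δ / 2 := by rw [hδ']; exact min_le_left _ _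
  have hδ2 : δ' ≤ 1 / (8 * R ^ 2) := by rw [hδ']; exact min_le_right _ _
  have t1 : ∀ᶠ n : ℕ in atTop, Real.log n ^ 2 ≤ δ' * n := by
    have h1 := (log_sq_tendsto.pow 2)
    rw [zero_pow two_ne_zero] at h1
    filter_upwards [h1.eventually (gt_mem_nhds hδ'0), eventually_ge_atTop 1] with n hn hn1
    have hn0 : (0 : ℝ) < n := by exact_mod_cast hn1
    rw [div_pow, Real.sq_sqrt hn0.le, div_lt_iff₀ hn0] at hn
    exact hn.le
  obtain ⟨N, hN⟩ := eventually_atTop.1 (t1.and (eventually_ge_atTop (n1 + 2)))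
  obtain ⟨B, hB⟩ : ∃ B : ℝ, B = Real.exp (δ' * N) *
    (1 + ∑ i ∈ range (N + Z.s), ((Kw A i).card : ℝ)) := ⟨_, rfl⟩
  have hsum : 0 ≤ ∑ i ∈ range (N + Z.s), ((Kw A i).card : ℝ) :=
    sum_nonneg fun _ _ => Nat.cast_nonneg _
  have hB0 : 0 < B := by rw [hB]; positivity
  have hl2 : 0 < Real.log 2 := Real.log_pos (by norm_num)
  refine ⟨4 * R + (1 + B) * (√(N : ℝ) / Real.log 2), δ', by positivity, hδ'0, ?_⟩
  intro f hf n hn2 hp
  have hn2' : (2 : ℝ) ≤ n := by exact_mod_cast hn2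
  have hn0 : (0 : ℝ) < n := by linarith
  have hcard : ∀ m, (0 : ℝ) < (Kw A m).card := fun m =>
    lt_of_lt_of_le (pow_pos hμ0 m) (G.low m)
  have hcard1 : ∀ m, (1 : ℝ) ≤ (Kw A m).card := fun m => (one_le_pow₀ hμ).trans (G.low m)
  obtain ⟨p, hpd⟩ : ∃ p : ℝ, p = cG A f n / (Kw A n).card := ⟨_, rfl⟩
  rw [← hpd] at hp ⊢
  have hp0 : 0 < p := (Real.exp_pos _).trans_le hp
  have hcp : cG A f n = p * (Kw A n).card := by
    rw [hpd, div_mul_cancel₀ _ (hcard n).ne']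
  have hp1 : p ≤ 1 := by
    rw [hpd, div_le_one (hcard n)]
    exact cG_le hf.le n
  have hc0 : 0 < cG A f n := by rw [hcp]; exact mul_pos hp0 (hcard n)
  have hlp : 0 ≤ Real.log (1 / p) := Real.log_nonneg (by rw [le_div_iff₀ hp0]; linarith)
  have hlp2 : Real.log (1 / p) ≤ δ' * n := by
    rw [one_div, Real.log_inv]
    have h1 := Real.log_le_log (Real.exp_pos _) hp
    rw [Real.log_exp] at h1
    linarith
  obtain ⟨Λ, hΛ⟩ : ∃ Λ : ℝ, Λ = Real.log n ^ 2 + Real.log (1 / p) := ⟨_, rfl⟩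
  rw [← hΛ]
  have hln : Real.log 2 ≤ Real.log n := Real.log_le_log (by norm_num) hn2'
  have hln0 : 0 < Real.log n := by linarith
  have hΛ0 : 0 < Λ := by rw [hΛ]; positivity
  rcases le_or_gt N n with hNn | hNn
  · obtain ⟨e1, e2⟩ := hN n hNn
    have hΛδ : Λ ≤ δ * n := by
      rw [hΛ]
      have := mul_le_mul_of_nonneg_right hδ1 hn0.le
      linarith
    have g1 := h f hf n (by omega) Λ (by rw [hΛ]; linarith) hΛδ (by
      rw [hcp]
      refine mul_le_mul ?_ (G.low n) (by positivity) hp0.le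
      have : Real.exp (-Λ) ≤ Real.exp (-Real.log (1 / p)) := by
        refine Real.exp_le_exp.2 ?_
        rw [hΛ]
        have h0 := sq_nonneg (Real.log n)
        linarith
      refine this.trans (le_of_eq ?_)
      rw [one_div, Real.log_inv, neg_neg, Real.exp_log hp0])
    have g2 := h (fun _ => 1) wtG_one n (by omega) Λ (by rw [hΛ]; linarith) hΛδ (by
      rw [cG_one]
      refine le_trans (mul_le_of_le_one_left (by positivity) ?_) (G.low n)
      rw [Real.exp_le_one_iff]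
      linarith)
    rw [cG_one, cG_one] at g2
    have hhalf : R * √(Λ / n) ≤ 1 / 2 := by
      have h1 : Λ / n ≤ (1 / (2 * R)) ^ 2 := by
        rw [div_le_iff₀ hn0, hΛ]
        have h3 := mul_le_mul_of_nonneg_right hδ2 hn0.le
        have h4 : (1 / (2 * R)) ^ 2 * n = 1 / (8 * R ^ 2) * n + 1 / (8 * R ^ 2) * n := by
          field_simp
          norm_num
        rw [h4]
        linarith
      have h2 : √(Λ / n) ≤ 1 / (2 * R) := by
        rw [Real.sqrt_le_left (by positivity)]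
        exact h1
      calc R * √(Λ / n) ≤ R * (1 / (2 * R)) := mul_le_mul_of_nonneg_left h2 hR.le
        _ = 1 / 2 := by field_simp
    have hx : 0 ≤ √(Λ / n) := Real.sqrt_nonneg _
    have hR4 : R * √(Λ / n) ≤ (4 * R + (1 + B) * (√(N : ℝ) / Real.log 2)) * √(Λ / n) := by
      refine mul_le_mul_of_nonneg_right ?_ hx
      have : 0 ≤ (1 + B) * (√(N : ℝ) / Real.log 2) := by positivity
      linarith
    refine ⟨g1.trans hR4, ?_⟩
    have g3 := ratio_aux hc0 (hcard n) (pow_pos hμ0 Z.s) g1 g2 hhalf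
    rw [← hpd] at g3
    refine g3.trans ?_
    have : 0 ≤ (1 + B) * (√(N : ℝ) / Real.log 2) * √(Λ / n) := by positivity
    calc 4 * (R * √(Λ / n)) ≤ 4 * (R * √(Λ / n)) +
          (1 + B) * (√(N : ℝ) / Real.log 2) * √(Λ / n) := by linarith
      _ = _ := by ring
  · -- small lengths
    have hnN : (n : ℝ) ≤ N := by exact_mod_cast hNn.le
    have hN0 : (0 : ℝ) < N := by linarith
    have hexp : 1 / p ≤ Real.exp (δ' * N) := by
      rw [div_le_iff₀ hp0]
      have h1 : Real.exp (δ' * N) * Real.exp (-(δ' * n)) ≤ Real.exp (δ' * N) * p :=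
        mul_le_mul_of_nonneg_left hp (Real.exp_pos _).le
      refine le_trans ?_ h1
      rw [← Real.exp_add, ← Real.exp_zero]
      refine Real.exp_le_exp.2 ?_
      have := mul_le_mul_of_nonneg_left hnN hδ'0.le
      linarith
    have hcs : ((Kw A (n + Z.s)).card : ℝ) ≤ ∑ i ∈ range (N + Z.s), ((Kw A i).card : ℝ) :=
      single_le_sum (f := fun i => ((Kw A i).card : ℝ)) (fun _ _ => Nat.cast_nonneg _)
        (mem_range.2 (by omega))
    have hlow : 1 ≤ (√(N : ℝ) / Real.log 2) * √(Λ / n) := by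
      have h1 : Real.log 2 / √(N : ℝ) ≤ √(Λ / n) := by
        refine Real.le_sqrt_of_sq_le ?_
        rw [div_pow, Real.sq_sqrt hN0.le]
        refine div_le_div₀ hΛ0.le ?_ hn0 hnN
        have := pow_le_pow_left₀ hl2.le hln 2
        rw [hΛ]
        linarith
      have h2 : (√(N : ℝ) / Real.log 2) * (Real.log 2 / √(N : ℝ)) = 1 := by
        have : 0 < √(N : ℝ) := Real.sqrt_pos.2 hN0
        field_simp
      rw [← h2]
      exact mul_le_mul_of_nonneg_left h1 (by positivity)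
    have hfin : 1 + B ≤ (4 * R + (1 + B) * (√(N : ℝ) / Real.log 2)) * √(Λ / n) := by
      have h1 : 0 ≤ 4 * R * √(Λ / n) := by positivity
      have h2 : (1 + B) * 1 ≤ (1 + B) * ((√(N : ℝ) / Real.log 2) * √(Λ / n)) :=
        mul_le_mul_of_nonneg_left hlow (by positivity)
      rw [add_mul, mul_assoc (1 + B)]
      linarith
    have habs : ∀ x : ℝ, 0 ≤ x → x ≤ B → |x - 1| ≤ 1 + B := by
      intro x h0 h1
      rw [abs_le]
      constructor <;> linarith
    have hpm : 1 ≤ μ ^ Z.s := one_le_pow₀ hμ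
    have hf1 : cG A f (n + Z.s) ≤ (Kw A (n + Z.s)).card := cG_le hf.le _
    have hf0 : 0 ≤ cG A f (n + Z.s) := cG_nonneg hf.nn _
    have hinv : 1 / cG A f n ≤ Real.exp (δ' * N) := by
      refine le_trans ?_ hexp
      rw [hcp]
      refine one_div_le_one_div_of_le hp0 ?_
      exact le_mul_of_one_le_right hp0.le (hcard1 n)
    constructor
    · refine (habs _ (div_nonneg (div_nonneg hf0 hc0.le) (by positivity)) ?_).trans hfin
      refine (div_le_self (div_nonneg hf0 hc0.le) hpm).trans ?_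
      rw [div_eq_mul_one_div, hB, mul_comm]
      refine mul_le_mul hinv ?_ hf0 (Real.exp_pos _).le
      linarith
    · refine (habs _ ?_ ?_).trans hfin
      · exact div_nonneg (div_nonneg hf0 (hcard _).le) hp0.le
      · rw [div_eq_mul_one_div, hB, mul_comm]
        refine mul_le_mul hexp ?_ (div_nonneg hf0 (hcard _).le) (Real.exp_pos _).le
        have : cG A f (n + Z.s) / (Kw A (n + Z.s)).card ≤ 1 := by
          rw [div_le_one (hcard _)]
          exact hf1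
        linarith

end Q215.SAW
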