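import Pool.Agent.Q215.SAW.Cvx

/-!
# Almost convex sequences along residue classes
-/

set_option autoImplicit false

namespace Q215.SAW.Cvx

open Filter Topology

/-- change of the logarithm by a bounded amount -/
theorem conv {ι : Type*} {F : Filter ι} {L L' : ι → ℝ} (hL : Tendsto L' F atTop) {C0 : ℝ}
    (h : ∀ᶠ i in F, |L i - L' i| ≤ C0) (b C : ℝ) {ε : ℝ} (hε : 0 < ε) :
    ∀ᶠ i in F, b * L i + C ≤ (b + ε) * L' i := by
  filter_upwards [h, hL.eventually_ge_atTop ((|b| * C0 + C) / ε)] with i h1 h2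
  rw [div_le_iff₀ hε] at h2
  have h3 : b * (L i - L' i) ≤ |b| * C0 := by
    refine (le_abs_self _).trans ?_
    rw [abs_mul]
    exact mul_le_mul_of_nonneg_left h1 (abs_nonneg _)
  nlinarith

/-- steps -/
theorem steps {f : ℕ → ℝ} {C : ℝ} {N : ℕ} (h : ∀ n, N ≤ n → |f (n + 1) - f n| ≤ C) {n : ℕ}
    (hn : N ≤ n) (m : ℕ) : |f (n + m) - f n| ≤ m * C := by
  induction m with
  | zero => simp
  | succ m ih =>
    have h1 := h (n + m) (by omega)
    have h2 : f (n + (m + 1)) - f n = (f (n + m + 1) - f (n + m)) + (f (n + m) - f n) := by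
      rw [← add_assoc]; ring
    rw [h2]
    refine (abs_add_le _ _).trans ?_
    push_cast
    linarith

theorem steps_div {f : ℕ → ℝ} {C : ℝ} {N : ℕ} (h : ∀ n, N ≤ n → |f (n + 1) - f n| ≤ C)
    {s r n : ℕ} (hs : 1 ≤ s) (hr : r < s) (hn : N + s ≤ n) :
    |f (s * (n / s) + r) - f n| ≤ s * (2 * C) := by
  have hC : 0 ≤ C := (abs_nonneg _).trans (h N le_rfl)
  obtain ⟨a, ha⟩ : ∃ a, a = s * (n / s) := ⟨_, rfl⟩
  obtain ⟨i, hi, hi2⟩ : ∃ i, n = a + i ∧ i < s :=
    ⟨n % s, by rw [ha]; exact (Nat.div_add_mod n s).symm, Nat.mod_lt _ hs⟩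
  rw [← ha]
  subst hi
  have h1 := steps h (show N ≤ a by omega) i
  have h2 := steps h (show N ≤ a by omega) r
  have h3 : f (a + r) - f (a + i) = (f (a + r) - f a) - (f (a + i) - f a) := by ring
  rw [h3]
  refine (abs_sub _ _).trans ?_
  have h4 : (i : ℝ) * C ≤ s * C := mul_le_mul_of_nonneg_right (by exact_mod_cast hi2.le) hC
  have h5 : (r : ℝ) * C ≤ s * C := mul_le_mul_of_nonneg_right (by exact_mod_cast hr.le) hC
  linarith

theorem div_tend {s : ℕ} (hs : 1 ≤ s) : Tendsto (fun n : ℕ => n / s) atTop atTop :=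
  Nat.tendsto_div_const_atTop (by omega)

theorem div_bounds {s n : ℕ} (hs : 1 ≤ s) (hn : s ≤ n) :
    1 ≤ ((n / s : ℕ) : ℝ) ∧ ((n / s : ℕ) : ℝ) * s ≤ n ∧ (n : ℝ) ≤ 2 * s * ((n / s : ℕ) : ℝ) := by
  have h1 : 1 ≤ n / s := (Nat.one_le_div_iff (by omega)).2 hn
  have h2 : n / s * s ≤ n := Nat.div_mul_le_self n s
  have h3 : n < s * (n / s) + s := by
    have := Nat.div_add_mod n s
    have := Nat.mod_lt n (show 0 < s by omega)
    omega
  have h4 : n ≤ 2 * s * (n / s) := by nlinarith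
  exact ⟨by exact_mod_cast h1, by exact_mod_cast h2, by exact_mod_cast h4⟩

theorem log_div_near {s n : ℕ} (hs : 1 ≤ s) (hn : s ≤ n) :
    |Real.log (n : ℝ) - Real.log ((n / s : ℕ) : ℝ)| ≤ Real.log (2 * s) := by
  obtain ⟨h1, h2, h3⟩ := div_bounds hs hn
  have hs1 : (1 : ℝ) ≤ s := by exact_mod_cast hs
  have h4 : ((n / s : ℕ) : ℝ) ≤ n := by nlinarith
  have h5 : Real.log ((n / s : ℕ) : ℝ) ≤ Real.log n := Real.log_le_log (by linarith) h4
  have h6 : Real.log (n : ℝ) ≤ Real.log (2 * s) + Real.log ((n / s : ℕ) : ℝ) := by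
    rw [← Real.log_mul (by positivity) (by positivity)]
    exact Real.log_le_log (by linarith) h3
  rw [abs_le]
  constructor
  · have : 0 ≤ Real.log (2 * (s : ℝ)) := Real.log_nonneg (by linarith)
    linarith
  · linarith

/-- the sequence of the quotients is sparse -/
theorem sparse_div {s : ℕ} (hs : 1 ≤ s) {t : ℕ → ℕ} (ht : Tendsto t atTop atTop)
    (hsp : Sparse t) : Sparse (fun j => t j / s) := by
  have hs1 : (1 : ℝ) ≤ s := by exact_mod_cast hs
  unfold Sparse at *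
  have h1 : Tendsto (fun j => (2 * s) * ((|((t (j + 1) : ℝ) - t j) / √(t j * Real.log (t j))|) +
      1 / √(t j : ℝ))) atTop (𝓝 ((2 * s) * (|(0 : ℝ)| + 0))) := by
    refine (hsp.abs.add ?_).const_mul _
    have h2 : Tendsto (fun j => √(t j : ℝ)) atTop atTop :=
      Real.tendsto_sqrt_atTop.comp (tendsto_natCast_atTop_atTop.comp ht)
    simp only [one_div]
    exact h2.inv_tendsto_atTop
  simp only [abs_zero, add_zero, mul_zero] at h1
  refine squeeze_zero_norm' ?_ h1
  filter_upwards [ht.eventually_ge_atTop (2 * s + 8), (log_tend.comp ht).eventually_ge_atTop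
    (2 * Real.log (2 * s) + 1)] with j hj hj2
  obtain ⟨a1, a2, a3⟩ := div_bounds hs (show s ≤ t j by omega)
  have a4 := abs_le.1 (log_div_near hs (show s ≤ t j by omega))
  obtain ⟨T, hT⟩ : ∃ T : ℝ, T = t j := ⟨_, rfl⟩
  obtain ⟨Q, hQ⟩ : ∃ Q : ℝ, Q = ((t j / s : ℕ) : ℝ) := ⟨_, rfl⟩
  simp only [Function.comp] at hj2
  rw [← hT] at a2 a3 a4 hj2 ⊢
  rw [← hQ] at a1 a2 a3 a4 ⊢
  have hl0 : 0 ≤ Real.log (2 * (s : ℝ)) := Real.log_nonneg (by linarith)
  have hT0 : 0 < T := by nlinarith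
  obtain ⟨L, hL⟩ : ∃ L, L = Real.log T := ⟨_, rfl⟩
  rw [← hL] at a4 hj2 ⊢
  have hlQ : L / 2 ≤ Real.log Q := by linarith
  have hL1 : 1 ≤ L := by linarith
  have hlQ0 : 0 < Real.log Q := by linarith
  -- the denominators
  have h3 : √(T * L) ≤ 2 * s * √(Q * Real.log Q) := by
    rw [Real.sqrt_le_left (by positivity), mul_pow, Real.sq_sqrt (by positivity)]
    calc T * L ≤ (2 * s * Q) * (2 * Real.log Q) := by
          refine mul_le_mul a3 (by linarith) (by linarith) (by positivity)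
      _ = (2 * (2 * s)) * (Q * Real.log Q) := by ring
      _ ≤ (2 * s) ^ 2 * (Q * Real.log Q) := by
          refine mul_le_mul_of_nonneg_right ?_ (by positivity)
          nlinarith
  have h4 : 0 < √(T * L) := Real.sqrt_pos.2 (by positivity)
  have h5 : 0 < √(Q * Real.log Q) := Real.sqrt_pos.2 (by positivity)
  -- the numerators
  have h6 : |((t (j + 1) / s : ℕ) : ℝ) - Q| ≤ |(t (j + 1) : ℝ) - T| + 1 := by
    have k1 : ∀ n : ℕ, ((n / s : ℕ) : ℝ) * s ≤ n ∧ (n : ℝ) < ((n / s : ℕ) : ℝ) * s + s := by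
      intro n
      constructor
      · exact_mod_cast Nat.div_mul_le_self n s
      · have h7 := Nat.div_add_mod n s
        have h8 := Nat.mod_lt n (show 0 < s by omega)
        have h9 : n < n / s * s + s := by rw [mul_comm]; omega
        exact_mod_cast h9
    obtain ⟨b1, b2⟩ := k1 (t (j + 1))
    obtain ⟨b3, b4⟩ := k1 (t j)
    rw [← hT, ← hQ] at b3 b4
    obtain ⟨Q', hQ'⟩ : ∃ Q' : ℝ, Q' = ((t (j + 1) / s : ℕ) : ℝ) := ⟨_, rfl⟩
    rw [← hQ'] at b1 b2 ⊢
    obtain ⟨d, hd⟩ : ∃ d, d = |(t (j + 1) : ℝ) - T| := ⟨_, rfl⟩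
    have hd1 := abs_le.1 (le_of_eq hd.symm)
    have hd0 : 0 ≤ d := by rw [hd]; exact abs_nonneg _
    rw [← hd, abs_le]
    constructor
    · by_contra hc
      push Not at hc
      nlinarith
    · by_contra hc
      push Not at hc
      nlinarith
  rw [Real.norm_eq_abs, abs_div, abs_of_pos h5, div_le_iff₀ h5, abs_div, abs_of_pos h4]
  have h7 : 1 ≤ 1 / √T * √(T * L) := by
    rw [Real.sqrt_mul hT0.le, one_div, ← mul_assoc, inv_mul_cancel₀ (Real.sqrt_pos.2 hT0).ne',
      one_mul]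
    exact Real.one_le_sqrt.2 hL1
  calc |((t (j + 1) / s : ℕ) : ℝ) - Q| ≤ |(t (j + 1) : ℝ) - T| + 1 := h6
    _ ≤ |(t (j + 1) : ℝ) - T| / √(T * L) * √(T * L) + 1 / √T * √(T * L) := by
        rw [div_mul_cancel₀ _ h4.ne']
        linarith
    _ = (|(t (j + 1) : ℝ) - T| / √(T * L) + 1 / √T) * √(T * L) := by ring
    _ ≤ (|(t (j + 1) : ℝ) - T| / √(T * L) + 1 / √T) * (2 * s * √(Q * Real.log Q)) :=
        mul_le_mul_of_nonneg_left h3 (by positivity)
    _ = _ := by ring

/-- the assumptions about the sequence -/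
structure Ser (ell : ℕ → ℝ) (s : ℕ) : Prop where
  s1 : 1 ≤ s
  ac : ∀ r, r < s → ∃ (D : ℝ) (k0 : ℕ), 0 ≤ D ∧ AC (fun k => ell (s * k + r)) D k0
  st : ∃ (C : ℝ) (N : ℕ), ∀ n, N ≤ n → |ell (n + 1) - ell n| ≤ C

variable {ell : ℕ → ℝ} {s : ℕ}

/-- from the residue classes to all `n` -/
theorem all_of_res (hs : 1 ≤ s) {p : ℕ → ℕ → Prop} (h : ∀ r, r < s → ∀ᶠ k in atTop, p r k) :
    ∀ᶠ n : ℕ in atTop, p (n % s) (n / s) := by
  have h1 : ∀ᶠ k in atTop, ∀ r ∈ Finset.range s, p r k :=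
    (Finset.eventually_all _).2 fun r hr => h r (Finset.mem_range.1 hr)
  filter_upwards [(div_tend hs).eventually h1] with n hn
  exact hn _ (Finset.mem_range.2 (Nat.mod_lt _ hs))

theorem Ser.up (E : Ser ell s) {t : ℕ → ℕ} (ht : Tendsto t atTop atTop) (hsp : Sparse t) {b : ℝ}
    (hb : ∀ ε : ℝ, 0 < ε → ∀ᶠ j in atTop, ell (t j) ≤ (b + ε) * Real.log (t j)) {ε : ℝ}
    (hε : 0 < ε) : ∀ᶠ n : ℕ in atTop, ell n ≤ (b + ε) * Real.log n := by
  have hs := E.s1
  obtain ⟨C, N, hst⟩ := E.st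
  have key : ∀ r, r < s → ∀ᶠ k : ℕ in atTop, ell (s * k + r) ≤ (b + 3 * ε / 4) * Real.log k := by
    intro r hr
    obtain ⟨D, k0, hD, hac⟩ := E.ac r hr
    have h1 : ∀ᶠ j in atTop, (fun k => ell (s * k + r)) (t j / s) ≤
        (b + ε / 2) * Real.log ((t j / s : ℕ) : ℝ) := by
      have hL' : Tendsto (fun j => Real.log ((t j / s : ℕ) : ℝ)) atTop atTop :=
        log_tend.comp ((div_tend hs).comp ht)
      have h2 := conv (L := fun j => Real.log ((t j : ℕ) : ℝ)) (C0 := Real.log (2 * s)) hL'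
        ((ht.eventually_ge_atTop s).mono fun j hj => log_div_near hs hj)
        (b + ε / 4) (s * (2 * C)) (show 0 < ε / 4 by positivity)
      filter_upwards [h2, hb (ε / 4) (by positivity), ht.eventually_ge_atTop (N + s)] with j h3 h4 h5
      have h6 := (abs_le.1 (steps_div hst hs hr h5)).2
      have e : b + ε / 4 + ε / 4 = b + ε / 2 := by ring
      rw [e] at h3
      linarith
    have h2 := upper hac hD ((div_tend hs).comp ht) (sparse_div hs ht hsp) h1
      (show 0 < ε / 4 by positivity)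
    filter_upwards [h2] with k hk
    have e : b + ε / 2 + ε / 4 = b + 3 * ε / 4 := by ring
    rw [e] at hk
    exact hk
  have h1 := conv (L := fun n : ℕ => Real.log ((n / s : ℕ) : ℝ)) (L' := fun n : ℕ => Real.log n)
    (C0 := Real.log (2 * s)) log_tend
    ((eventually_ge_atTop s).mono fun n hn => by
      rw [abs_sub_comm]; exact log_div_near hs hn) (b + 3 * ε / 4) 0
    (show 0 < ε / 4 by positivity)
  filter_upwards [all_of_res hs key, h1] with n h2 h3
  rw [Nat.div_add_mod] at h2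
  have e : b + 3 * ε / 4 + ε / 4 = b + ε := by ring
  rw [e] at h3
  linarith

theorem Ser.low (E : Ser ell s) {t : ℕ → ℕ} (ht : Tendsto t atTop atTop) (hsp : Sparse t) {B : ℝ}
    (hB : ∀ᶠ n : ℕ in atTop, ell n ≤ B * Real.log n) {a : ℝ}
    (ha : ∀ ε : ℝ, 0 < ε → ∀ᶠ j in atTop, (a - ε) * Real.log (t j) ≤ ell (t j)) {ε : ℝ}
    (hε : 0 < ε) : ∀ᶠ n : ℕ in atTop, (a - ε) * Real.log n ≤ ell n := by
  have hs := E.s1
  obtain ⟨C, N, hst⟩ := E.st
  have hmul : ∀ r, Tendsto (fun k : ℕ => s * k + r) atTop atTop := by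
    intro r
    refine tendsto_atTop_mono (fun k => ?_) tendsto_id
    have := Nat.mul_le_mul_right k hs
    simp only [id]
    omega
  have key : ∀ r, r < s → ∀ᶠ k : ℕ in atTop, (a - 3 * ε / 4) * Real.log k ≤ ell (s * k + r) := by
    intro r hr
    obtain ⟨D, k0, hD, hac⟩ := E.ac r hr
    have h0 : ∀ᶠ k : ℕ in atTop, (fun k => ell (s * k + r)) k ≤ (B + 1) * Real.log k := by
      have h2 := conv (L := fun k : ℕ => Real.log ((s * k + r : ℕ) : ℝ))
        (L' := fun k : ℕ => Real.log k) (C0 := Real.log (2 * s)) log_tend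
        ((eventually_ge_atTop 1).mono fun k hk => by
          have h3 := log_div_near hs (n := s * k + r) (by nlinarith)
          have e : (s * k + r) / s = k := by
            rw [Nat.mul_add_div (by omega), Nat.div_eq_of_lt hr, add_zero]
          rw [e] at h3
          exact h3) B 0 one_pos
      filter_upwards [h2, (hmul r).eventually hB] with k h3 h4
      linarith
    have h1 : ∀ᶠ j in atTop, (a - ε / 2) * Real.log ((t j / s : ℕ) : ℝ) ≤
        (fun k => ell (s * k + r)) (t j / s) := by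
      have h2 := conv (L := fun j => Real.log ((t j / s : ℕ) : ℝ))
        (L' := fun j => Real.log ((t j : ℕ) : ℝ)) (C0 := Real.log (2 * s)) (log_tend.comp ht)
        ((ht.eventually_ge_atTop s).mono fun j hj => by
          rw [abs_sub_comm]; exact log_div_near hs hj)
        (a - ε / 2) (s * (2 * C)) (show 0 < ε / 4 by positivity)
      filter_upwards [h2, ha (ε / 4) (by positivity), ht.eventually_ge_atTop (N + s)] with j h3 h4 h5
      have h6 := (abs_le.1 (steps_div hst hs hr h5)).1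
      have e : a - ε / 2 + ε / 4 = a - ε / 4 := by ring
      rw [e] at h3
      linarith
    have h2 := lower hac hD ((div_tend hs).comp ht) (sparse_div hs ht hsp) h0 h1
      (show 0 < ε / 4 by positivity)
    filter_upwards [h2] with k hk
    have e : a - ε / 2 - ε / 4 = a - 3 * ε / 4 := by ring
    rw [e] at hk
    exact hk
  have h1 := conv (L := fun n : ℕ => Real.log (n : ℝ)) (L' := fun n : ℕ => Real.log ((n / s : ℕ) : ℝ))
    (C0 := Real.log (2 * s)) (log_tend.comp (div_tend hs))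
    ((eventually_ge_atTop s).mono fun n hn => log_div_near hs hn) (a - ε) 0
    (show 0 < ε / 4 by positivity)
  filter_upwards [all_of_res hs key, h1] with n h2 h3
  rw [Nat.div_add_mod] at h2
  have e : a - ε + ε / 4 = a - 3 * ε / 4 := by ring
  rw [e] at h3
  linarith

theorem Ser.lim (E : Ser ell s) {t : ℕ → ℕ} (ht : Tendsto t atTop atTop) (hsp : Sparse t) {c : ℝ}
    (hc : Tendsto (fun j => ell (t j) / Real.log (t j)) atTop (𝓝 c)) :
    Tendsto (fun n : ℕ => ell n / Real.log n) atTop (𝓝 c) := by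
  have hpos : ∀ᶠ j in atTop, 0 < Real.log (t j) := (log_tend.comp ht).eventually_gt_atTop 0
  have key : ∀ ε : ℝ, 0 < ε → (∀ᶠ j in atTop, ell (t j) ≤ (c + ε) * Real.log (t j)) ∧
      ∀ᶠ j in atTop, (c - ε) * Real.log (t j) ≤ ell (t j) := by
    intro ε hε
    constructor
    · filter_upwards [hpos, hc.eventually_lt_const (show c < c + ε by linarith)] with j h1 h2
      rw [div_lt_iff₀ h1] at h2
      exact h2.le
    · filter_upwards [hpos, hc.eventually_const_lt (show c - ε < c by linarith)] with j h1 h2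
      rw [lt_div_iff₀ h1] at h2
      exact h2.le
  rw [Metric.tendsto_nhds]
  intro ε hε
  have u1 := E.up ht hsp (fun δ hδ => (key δ hδ).1) (show 0 < ε / 2 by positivity)
  have l1 := E.low ht hsp u1 (fun δ hδ => (key δ hδ).2) (show 0 < ε / 2 by positivity)
  filter_upwards [u1, l1, log_tend.eventually_gt_atTop 0] with k h1 h2 h3
  rw [Real.dist_eq, abs_lt]
  constructor
  · have : c - ε / 2 ≤ ell k / Real.log k := by
      rw [le_div_iff₀ h3]; exact h2
    linarith
  · have : ell k / Real.log k ≤ c + ε / 2 := by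
      rw [div_le_iff₀ h3]; exact h1
    linarith

/-- perfect squares -/
theorem sparse_squares : Sparse (fun j => (j + 1) ^ 2) := by
  unfold Sparse
  have h1 : Tendsto (fun j : ℕ => 3 / √(Real.log (((j + 1) ^ 2 : ℕ) : ℝ))) atTop (𝓝 0) := by
    have h2 : Tendsto (fun j : ℕ => (j + 1) ^ 2) atTop atTop := by
      refine tendsto_atTop_mono (fun j => ?_) tendsto_id
      simp only [id]
      nlinarith
    have h3 : Tendsto (fun j : ℕ => √(Real.log (((j + 1) ^ 2 : ℕ) : ℝ))) atTop atTop :=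
      Real.tendsto_sqrt_atTop.comp (log_tend.comp h2)
    exact h3.const_div_atTop _
  refine squeeze_zero_norm' ?_ h1
  filter_upwards [eventually_ge_atTop 2] with j hj
  have hj0 : (0 : ℝ) ≤ j := Nat.cast_nonneg _
  have h3 : (0 : ℝ) < Real.log (((j + 1) ^ 2 : ℕ) : ℝ) := by
    refine Real.log_pos ?_
    have : 1 < (j + 1) ^ 2 := by nlinarith
    exact_mod_cast this
  have e : √((((j + 1) ^ 2 : ℕ) : ℝ) * Real.log (((j + 1) ^ 2 : ℕ) : ℝ)) =
      ((j : ℝ) + 1) * √(Real.log (((j + 1) ^ 2 : ℕ) : ℝ)) := by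
    rw [Real.sqrt_mul (by positivity)]
    congr 1
    push_cast
    exact Real.sqrt_sq (by positivity)
  have e2 : ((((j + 1 + 1) ^ 2 : ℕ) : ℝ) - (((j + 1) ^ 2 : ℕ) : ℝ)) = 2 * j + 3 := by
    push_cast; ring
  rw [e, e2, Real.norm_eq_abs, abs_of_nonneg (by positivity)]
  have h4 := Real.sqrt_pos.2 h3
  rw [div_le_div_iff₀ (by positivity) h4]
  nlinarith

/-- bounded slopes -/
theorem slopes {x : ℕ → ℝ} {D : ℝ} {k0 : ℕ} (hx : AC x D k0) (hD : 0 ≤ D) {B : ℝ}
    (hB : ∀ᶠ k : ℕ in atTop, |x k| ≤ B * Real.log k) :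
    ∃ R : ℝ, 0 < R ∧ ∀ᶠ k : ℕ in atTop, |x (k + 1) - x k| ≤ R * √(Real.log k / k) := by
  obtain ⟨N1, hN1⟩ := eventually_atTop.1 hB
  have hlsq : ∀ᶠ n : ℕ in atTop, Real.log (n : ℝ) ≤ (1 / 64) * n := by
    have h1 := (Real.isLittleO_log_id_atTop.comp_tendsto tendsto_natCast_atTop_atTop).def
      (show (0 : ℝ) < 1 / 64 by norm_num)
    filter_upwards [h1, eventually_ge_atTop 1] with n hn h2
    simp only [Function.comp, id] at hn
    have h3 : (1 : ℝ) ≤ n := by exact_mod_cast h2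
    rw [Real.norm_of_nonneg (Real.log_nonneg h3), Real.norm_of_nonneg (by positivity)] at hn
    exact hn
  refine ⟨4 * |B| + 12 * D + 1, by positivity, ?_⟩
  filter_upwards [hlsq, log_tend.eventually_ge_atTop 1,
    eventually_ge_atTop (2 * k0 + 2 * N1 + 8)] with T a8 a3 a7
  have hT0 : (0 : ℝ) < T := by exact_mod_cast (show 0 < T by omega)
  have hT8 : (8 : ℝ) ≤ T := by exact_mod_cast (show 8 ≤ T by omega)
  obtain ⟨L, hL⟩ : ∃ L, L = Real.log (T : ℝ) := ⟨_, rfl⟩
  rw [← hL] at a3 a8 ⊢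
  obtain ⟨W, hW⟩ : ∃ W, W = √(T * L) := ⟨_, rfl⟩
  have hW2 : W ^ 2 = T * L := by rw [hW]; exact Real.sq_sqrt (by positivity)
  have hW0 : 0 < W := by rw [hW]; exact Real.sqrt_pos.2 (by positivity)
  have hW1 : 2 ≤ W := by
    have h3 : (2 : ℝ) ^ 2 ≤ W ^ 2 := by
      rw [hW2]
      nlinarith
    exact (sq_le_sq₀ (by norm_num) hW0.le).1 h3
  have hWT : W ≤ T / 8 := by
    have h3 : W ^ 2 ≤ (T / 8) ^ 2 := by
      rw [hW2]
      have := mul_le_mul_of_nonneg_left a8 hT0.le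
      nlinarith
    exact (sq_le_sq₀ hW0.le (by positivity)).1 h3
  obtain ⟨h, hh⟩ : ∃ h : ℕ, h = ⌈W⌉₊ := ⟨_, rfl⟩
  have hh1 : W ≤ h := by rw [hh]; exact Nat.le_ceil _
  have hh2 : (h : ℝ) ≤ 2 * W := by
    rw [hh]
    have := Nat.ceil_lt_add_one hW0.le
    linarith
  have hh0 : 1 ≤ h := by
    have : (0 : ℝ) < h := by linarith
    exact_mod_cast this
  have hh3 : 4 * h ≤ T := by
    have : (4 : ℝ) * h ≤ T := by linarith
    exact_mod_cast this
  obtain ⟨u, hu⟩ : ∃ u, T = u + h := ⟨T - h, by omega⟩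
  have hL0 : 0 < L := by linarith
  have hu0 : (0 : ℝ) < u := by exact_mod_cast (show 0 < u by omega)
  have huT : (T : ℝ) ≤ 2 * u := by exact_mod_cast (show T ≤ 2 * u by omega)
  have hhp : (0 : ℝ) < h := by linarith
  have hbd : ∀ k : ℕ, N1 ≤ k → 1 ≤ k → k ≤ 2 * T → |x k| ≤ 2 * (|B| * L) := by
    intro k h1 h2 h3
    have hk0 : (1 : ℝ) ≤ k := by exact_mod_cast h2
    have h4 : Real.log (k : ℝ) ≤ 2 * L := by
      have h5 : Real.log (k : ℝ) ≤ Real.log (2 * T) :=
        Real.log_le_log (by linarith) (by exact_mod_cast h3)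
      rw [Real.log_mul (by norm_num) hT0.ne', ← hL] at h5
      have := Real.log_two_lt_d9
      linarith
    have h6 : 0 ≤ Real.log (k : ℝ) := Real.log_nonneg hk0
    calc |x k| ≤ B * Real.log k := hN1 k h1
      _ ≤ |B| * Real.log k := mul_le_mul_of_nonneg_right (le_abs_self _) h6
      _ ≤ |B| * (2 * L) := mul_le_mul_of_nonneg_left h4 (abs_nonneg _)
      _ = _ := by ring
  have hsl : √(L / T) = L / W := by
    have h1 : L / T = (L / W) ^ 2 := by
      rw [div_pow, hW2]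
      field_simp
    rw [h1]
    exact Real.sqrt_sq (by positivity)
  rw [hsl]
  have hWL : W = T * L / W := by
    rw [eq_div_iff hW0.ne', ← sq, hW2]
  have hB0 := abs_nonneg B
  -- the upper bound
  have up : h * (x (T + 1) - x T) ≤ x (T + h) - x T + D * h ^ 2 / T := by
    have h1 := z_up (z := fun i : ℕ => x (T + i) + D / (2 * T) * (i : ℝ) ^ 2)
      (shift hx hD (by omega) (by omega)) 0 h
    simp only [add_zero, zero_add, Nat.cast_zero, Nat.cast_one, ne_eq, OfNat.ofNat_ne_zero,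
      not_false_eq_true, zero_pow, mul_zero, one_pow, mul_one] at h1
    have h2 : D / (2 * T) * (h : ℝ) ^ 2 ≤ D * h ^ 2 / T := by
      rw [div_mul_eq_mul_div]
      refine div_le_div_of_nonneg_left (by positivity) hT0 ?_
      linarith
    have h3 : 0 ≤ (h : ℝ) * (D / (2 * T)) := by positivity
    linarith
  -- the lower bound
  have lo : x T - x u - D * h ^ 2 / u ≤ h * (x (T + 1) - x T) := by
    obtain ⟨i, hi⟩ : ∃ i, h = i + 1 := ⟨h - 1, by omega⟩
    have h1 := z_slope (z := fun i : ℕ => x (u + i) + D / (2 * u) * (i : ℝ) ^ 2)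
      (shift hx hD (show k0 ≤ u by omega) (by omega)) i 1
    simp only [add_zero, Nat.cast_zero, Nat.cast_one, ne_eq, OfNat.ofNat_ne_zero,
      not_false_eq_true, zero_pow, mul_zero, one_mul, ← add_assoc] at h1
    have e1 : u + i + 1 = T := by omega
    have e2 : ((i + 1 : ℕ) : ℝ) = h := by rw [hi]
    have e3 : ((i + 1 + 1 : ℕ) : ℝ) = h + 1 := by rw [hi]; push_cast; ring
    have e4 : (i : ℝ) + 1 = h := by rw [hi]; push_cast; ring
    rw [e1, e2, e3, e4] at h1
    obtain ⟨κ, hκ⟩ : ∃ κ : ℝ, κ = D / (2 * u) := ⟨_, rfl⟩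
    have hκ0 : 0 ≤ κ := by rw [hκ]; positivity
    rw [← hκ] at h1
    have h2 : D * (h : ℝ) ^ 2 / u = 2 * κ * h ^ 2 := by rw [hκ]; field_simp
    rw [h2]
    have h3 : (1 : ℝ) ≤ h := by exact_mod_cast hh0
    have h5 : κ * h * 1 ≤ κ * h * h := mul_le_mul_of_nonneg_left h3 (by positivity)
    nlinarith
  have hx1 := abs_le.1 (hbd T (by omega) (by omega) (by omega))
  have hx2 := abs_le.1 (hbd (T + h) (by omega) (by omega) (by omega))
  have hx3 := abs_le.1 (hbd u (by omega) (by omega) (by omega))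
  have hE : D * (h : ℝ) ^ 2 / T ≤ 4 * D * L := by
    rw [div_le_iff₀ hT0]
    calc D * (h : ℝ) ^ 2 ≤ D * (2 * W) ^ 2 := by gcongr
      _ = 4 * D * L * T := by rw [mul_pow, hW2]; ring
  have hE2 : D * (h : ℝ) ^ 2 / u ≤ 8 * D * L := by
    rw [div_le_iff₀ hu0]
    calc D * (h : ℝ) ^ 2 ≤ D * (2 * W) ^ 2 := by gcongr
      _ = 4 * D * L * T := by rw [mul_pow, hW2]; ring
      _ ≤ 4 * D * L * (2 * u) := by gcongr
      _ = _ := by ring
  have hfin : |(h : ℝ) * (x (T + 1) - x T)| ≤ (4 * |B| + 12 * D + 1) * L := by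
    rw [abs_le]
    constructor
    · have : 0 ≤ D * L := by positivity
      linarith
    · have : 0 ≤ D * L := by positivity
      linarith
  rw [abs_mul, abs_of_pos hhp] at hfin
  have h9 : W * |x (T + 1) - x T| ≤ h * |x (T + 1) - x T| :=
    mul_le_mul_of_nonneg_right hh1 (abs_nonneg _)
  rw [← mul_div_assoc, le_div_iff₀ hW0]
  linarith

end Q215.SAW.Cvx
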