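import Pool.Agent.Q215.SAW.Win
import Pool.Agent.Q219.SAW.Mom

/-!
# The window theorem and moments for lattices with automorphisms which move the origin to every site
-/

set_option autoImplicit false

namespace Q215.SAW

open Finset Filter Topology TH966.AK Q219.SAW

variable {A : P → P → Prop} {Z : Rule A}

/-- the window theorem -/
theorem window_fn {μ K : ℝ} (Gr : Growth Z μ K) (hsh : ∀ U U', Z.T U U' → ∀ x ∈ U, x ∈ U')
    (V : Vt A) :
    ∃ R δ : ℝ, 0 < R ∧ 0 < δ ∧ ∀ (a L m : ℕ) (D : Set P)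
    (H : Set ((Fin (a + 1) → ℤ × ℤ) × (Fin (m + 1) → ℤ × ℤ))),
    2 ≤ a + L + m → 0 < prF A D H (a + L + m) →
    Real.log (a + L + m : ℕ) ^ 2 + Real.log (1 / prF A D H (a + L + m)) ≤ δ * L →
    0 < prF A D H (a + L + m + Z.s) ∧
    |prF A D H (a + L + m + Z.s) / prF A D H (a + L + m) - 1| ≤ R *
      √((Real.log (a + L + m : ℕ) ^ 2 + Real.log (1 / prF A D H (a + L + m))) / L) ∧
    |((WK A D H (a + L + m + Z.s)).ncard : ℝ) / ((WK A D H (a + L + m)).ncard : ℝ) / μ ^ Z.s - 1| ≤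
      R * √((Real.log (a + L + m : ℕ) ^ 2 + Real.log (1 / prF A D H (a + L + m))) / L) ∧
    ∀ G : (Fin (a + 1) → ℤ × ℤ) × (Fin (m + 1) → ℤ × ℤ) → ℝ, (∀ o, 0 ≤ G o) → (∀ o, G o ≤ 1) →
    |mnF A D H (a + L + m + Z.s) G - mnF A D H (a + L + m) G| ≤
      R * √((Real.log (a + L + m : ℕ) ^ 2 + Real.log (1 / prF A D H (a + L + m))) / L) *
        mnF A D H (a + L + m) G +
      prF A D H (a + L + m) * Real.exp (-(Real.log (a + L + m : ℕ) ^ 2)) := by
  classical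
  have hμ := Gr.hμ
  have hμ0 : 0 < μ := by linarith
  obtain ⟨R, δ, hR, hδ, h⟩ := window Gr hsh V
  have hcard : ∀ k, (0 : ℝ) < (Kw A k).card := fun k =>
    lt_of_lt_of_le (pow_pos hμ0 k) (Gr.low k)
  have hδ'0 : 0 < min δ (1 / (4 * R ^ 2)) := lt_min hδ (by positivity)
  refine ⟨4 * R, min δ (1 / (4 * R ^ 2)), by positivity, hδ'0, ?_⟩
  intro a L m D H hN hp hΛ2
  obtain ⟨Λ, hΛ⟩ : ∃ Λ : ℝ, Λ = Real.log (a + L + m : ℕ) ^ 2 +
    Real.log (1 / prF A D H (a + L + m)) := ⟨_, rfl⟩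
  rw [← hΛ] at hΛ2 ⊢
  obtain ⟨p, hpd⟩ : ∃ p, p = prF A D H (a + L + m) := ⟨_, rfl⟩
  rw [← hpd] at hp hΛ ⊢
  obtain ⟨l, rfl⟩ : ∃ l, L = l + 1 := by
    rcases L.eq_zero_or_pos with h0 | h0
    · exfalso
      subst h0
      have h1 : Real.log 2 ≤ Real.log (a + 0 + m : ℕ) :=
        Real.log_le_log (by norm_num) (by exact_mod_cast hN)
      have h2 : 0 < Real.log 2 := Real.log_pos (by norm_num)
      have h3 : 0 < Real.log (a + 0 + m : ℕ) ^ 2 := by
        have : 0 < Real.log (a + 0 + m : ℕ) := by linarith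
        positivity
      have h4 : 0 ≤ Real.log (1 / p) := by
        refine Real.log_nonneg ?_
        rw [le_div_iff₀ hp, one_mul, hpd]
        unfold prF
        rw [FW_card (Z := Z), div_le_one (hcard _)]
        unfold WK
        rw [← WD_card (Z := Z) D (L := 0) rfl H]
        exact WD_le D a 0 m _ fun o => by split_ifs <;> norm_num
      have h5 : (0 : ℝ) < min δ (1 / (4 * R ^ 2)) * ((0 : ℕ) : ℝ) := by linarith
      simp at h5
    · exact ⟨L - 1, by omega⟩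
  obtain ⟨N, hNd⟩ : ∃ N, N = a + (l + 1) + m := ⟨_, rfl⟩
  have hN2 : N + Z.s = a + (l + Z.s + 1) + m := by omega
  have eW : ((WK A D H N).ncard : ℝ) =
      WD A D a (l + 1) m (fun o => (if dec a m o ∈ H then 1 else 0)) := by
    rw [WD_card (Z := Z) D hNd H]; rfl
  have eW' : ((WK A D H (N + Z.s)).ncard : ℝ) =
      WD A D a (l + Z.s + 1) m (fun o => (if dec a m o ∈ H then 1 else 0)) := by
    rw [WD_card (Z := Z) D hN2 H]; rfl
  rw [← hNd] at hN hpd hΛ ⊢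
  have hpW : WD A D a (l + 1) m (fun o => (if dec a m o ∈ H then 1 else 0)) =
      p * (Kw A N).card := by
    rw [← eW, hpd]
    unfold prF
    rw [FW_card (Z := Z), div_mul_cancel₀ _ (hcard N).ne']
  have hplog : Real.exp (-Λ) = p * Real.exp (-(Real.log (N : ℕ) ^ 2)) := by
    rw [hΛ, neg_add, Real.exp_add, one_div, Real.log_inv, neg_neg, Real.exp_log hp, mul_comm]
  have hexp1 : Real.exp (-(Real.log (N : ℕ) ^ 2)) ≤ 1 :=
    Real.exp_le_one_iff.2 (by have := sq_nonneg (Real.log (N : ℕ)); linarith)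
  have hlow : Real.exp (-Λ) * μ ^ N ≤
      WD A D a (l + 1) m (fun o => (if dec a m o ∈ H then 1 else 0)) := by
    rw [hpW]
    refine mul_le_mul ?_ (Gr.low N) (by positivity) hp.le
    rw [hplog]
    exact mul_le_of_le_one_right hp.le hexp1
  have hp1 : p ≤ 1 := by
    have h1 : WD A D a (l + 1) m (fun o => (if dec a m o ∈ H then 1 else 0)) ≤
        (Kw A N).card := by
      rw [hNd]
      exact WD_le D a (l + 1) m _ fun o => by split_ifs <;> norm_num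
    rw [hpW] at h1
    exact le_of_mul_le_mul_right (by linarith) (hcard N)
  have hlp : 0 ≤ Real.log (1 / p) := Real.log_nonneg (by rw [le_div_iff₀ hp]; linarith)
  have hΛ1 : Real.log (N : ℕ) ^ 2 ≤ Λ := by rw [hΛ]; linarith
  have hL0 : (0 : ℝ) < ((l + 1 : ℕ) : ℝ) := by positivity
  have hΛδ : Λ ≤ δ * ((l + 1 : ℕ) : ℝ) :=
    hΛ2.trans (mul_le_mul_of_nonneg_right (min_le_left _ _) hL0.le)
  have hh0 : ∀ o : List P × List P, (0 : ℝ) ≤ (if dec a m o ∈ H then 1 else 0) := fun o => by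
    split_ifs <;> norm_num
  have hh1 : ∀ o : List P × List P, (if dec a m o ∈ H then (1 : ℝ) else 0) ≤ 1 := fun o => by
    split_ifs <;> norm_num
  obtain ⟨g1, g2, g3⟩ := h a l m D (fun o => (if dec a m o ∈ H then 1 else 0)) Λ
    (by rw [← hNd]; exact hN) hh0 hh1 (by rw [← hNd]; exact hΛ1) hΛδ (by rw [← hNd]; exact hlow)
  obtain ⟨f1, -, -⟩ := h a l m Set.univ (fun _ => 1) Λ
    (by rw [← hNd]; exact hN) (fun _ => zero_le_one) (fun _ => le_rfl)
    (by rw [← hNd]; exact hΛ1) hΛδ (by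
      rw [← hNd, WD_univ, ← hNd]
      refine le_trans (mul_le_of_le_one_left (by positivity) ?_) (Gr.low N)
      rw [Real.exp_le_one_iff]
      have := sq_nonneg (Real.log (N : ℕ))
      linarith)
  rw [WD_univ, WD_univ, ← hNd, ← hN2] at f1
  have hΛ0 : 0 ≤ Λ := (sq_nonneg _).trans hΛ1
  have hhalf : R * √(Λ / ((l + 1 : ℕ) : ℝ)) ≤ 1 / 2 := by
    have h1 : Λ / ((l + 1 : ℕ) : ℝ) ≤ (1 / (2 * R)) ^ 2 := by
      rw [div_le_iff₀ hL0]
      refine hΛ2.trans (mul_le_mul_of_nonneg_right ?_ hL0.le)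
      refine (min_le_right _ _).trans (le_of_eq ?_)
      field_simp
      norm_num
    have h2 : √(Λ / ((l + 1 : ℕ) : ℝ)) ≤ 1 / (2 * R) := by
      rw [Real.sqrt_le_left (by positivity)]
      exact h1
    calc R * √(Λ / ((l + 1 : ℕ) : ℝ)) ≤ R * (1 / (2 * R)) :=
          mul_le_mul_of_nonneg_left h2 hR.le
      _ = 1 / 2 := by field_simp
  have hW0 : 0 < WD A D a (l + 1) m (fun o => (if dec a m o ∈ H then 1 else 0)) := by
    rw [hpW]
    exact mul_pos hp (hcard N)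
  have hsq : 0 ≤ √(Λ / ((l + 1 : ℕ) : ℝ)) := Real.sqrt_nonneg _
  refine ⟨?_, ?_, ?_, ?_⟩
  · unfold prF
    rw [eW', FW_card (Z := Z)]
    exact div_pos g2 (hcard _)
  · have h4 := ratio_aux hW0 (hcard N) (pow_pos hμ0 Z.s) g1 f1 hhalf
    unfold prF at hpd ⊢
    rw [hpd, FW_card (Z := Z), FW_card (Z := Z), eW', eW]
    refine h4.trans (le_of_eq ?_)
    ring
  · rw [eW', eW]
    refine g1.trans ?_
    refine mul_le_mul_of_nonneg_right ?_ hsq
    linarith
  · intro G hG0 hG1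
    have h4 := g3 (fun o => G (dec a m o)) (fun o => hG0 _) (fun o => hG1 _)
    unfold mnF
    have e1 := WD_fn (Z := Z) D hNd H G
    have e2 := WD_fn (Z := Z) D hN2 H G
    unfold WK at eW eW' ⊢
    rw [eW, eW', ← e1, ← e2]
    refine h4.trans ?_
    rw [hplog]
    refine add_le_add (mul_le_mul_of_nonneg_right ?_ ?_) le_rfl
    · refine mul_le_mul_of_nonneg_right ?_ hsq
      linarith
    · refine div_nonneg ?_ hW0.le
      unfold WD
      exact Finset.sum_nonneg fun w _ => mul_nonneg (hh0 _) (hG0 _)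

/-- the window theorem as an estimate of the total variation distance -/
theorem window_tv {μ K : ℝ} (Gr : Growth Z μ K) (hsh : ∀ U U', Z.T U U' → ∀ x ∈ U, x ∈ U')
    (V : Vt A) :
    ∃ R : ℝ, 0 < R ∧ ∀ (a L m : ℕ) (D : Set P)
    (H : Set ((Fin (a + 1) → ℤ × ℤ) × (Fin (m + 1) → ℤ × ℤ))),
    2 ≤ a + L + m → 1 ≤ L → 0 < prF A D H (a + L + m) →
    ∀ G : (Fin (a + 1) → ℤ × ℤ) × (Fin (m + 1) → ℤ × ℤ) → ℝ, (∀ o, 0 ≤ G o) → (∀ o, G o ≤ 1) →
    |mnF A D H (a + L + m + Z.s) G - mnF A D H (a + L + m) G| ≤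
      R * √((Real.log (a + L + m : ℕ) ^ 2 + Real.log (1 / prF A D H (a + L + m))) / L) := by
  obtain ⟨R, δ, hR, hδ, h⟩ := window_fn Gr hsh V
  refine ⟨R + 3 + 1 / √δ, by positivity, ?_⟩
  intro a L m D H hN hL hp G hG0 hG1
  obtain ⟨Λ, hΛ⟩ : ∃ Λ : ℝ, Λ = Real.log (a + L + m : ℕ) ^ 2 +
    Real.log (1 / prF A D H (a + L + m)) := ⟨_, rfl⟩
  have hL0 : (0 : ℝ) < L := by exact_mod_cast hL
  have hm1 := mnF_mem (A := A) D H (a + L + m) (WK_finite (Z := Z) D H _) G hG0 hG1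
  have hm2 := mnF_mem (A := A) D H (a + L + m + Z.s) (WK_finite (Z := Z) D H _) G hG0 hG1
  have hμ := Gr.hμ
  have hμ0 : 0 < μ := by linarith
  have hcard : ∀ k, (0 : ℝ) < (Kw A k).card := fun k =>
    lt_of_lt_of_le (pow_pos hμ0 k) (Gr.low k)
  have hp1 : prF A D H (a + L + m) ≤ 1 := by
    unfold prF
    refine div_le_one_of_le₀ ?_ (Nat.cast_nonneg _)
    exact_mod_cast Set.ncard_le_ncard (show WK A D H _ ⊆ FW A _ from fun _ h => h.1)
      (FW_finite (Z := Z) _)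
  have hlp : 0 ≤ Real.log (1 / prF A D H (a + L + m)) :=
    Real.log_nonneg (by rw [le_div_iff₀ hp]; linarith)
  have hΛ1 : Real.log (a + L + m : ℕ) ^ 2 ≤ Λ := by rw [hΛ]; linarith
  have hs : 0 ≤ √(Λ / L) := Real.sqrt_nonneg _
  rw [← hΛ]
  by_cases hc : Λ ≤ δ * L
  · obtain ⟨-, -, -, h4⟩ := h a L m D H hN hp (by rw [← hΛ]; exact hc)
    refine (h4 G hG0 hG1).trans ?_
    rw [← hΛ]
    have hLN : (L : ℝ) ≤ ((a + L + m : ℕ) : ℝ) := by
      exact_mod_cast (show L ≤ a + L + m by omega)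
    have h5 := exp_small (N := a + L + m) (L := L) hN hL0 hLN hΛ1
    have h6 : prF A D H (a + L + m) * Real.exp (-(Real.log (a + L + m : ℕ) ^ 2)) ≤
        1 * (3 * √(Λ / L)) := mul_le_mul hp1 h5 (Real.exp_pos _).le zero_le_one
    have h7 : R * √(Λ / L) * mnF A D H (a + L + m) G ≤ R * √(Λ / L) * 1 :=
      mul_le_mul_of_nonneg_left hm1.2 (by positivity)
    have h8 : 0 ≤ 1 / √δ * √(Λ / L) := by positivity
    rw [add_mul, add_mul]
    linarith
  · push Not at hc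
    have h1 : √δ ≤ √(Λ / L) := by
      refine Real.sqrt_le_sqrt ?_
      rw [le_div_iff₀ hL0]
      exact hc.le
    have h2 : 1 ≤ 1 / √δ * √(Λ / L) := by
      have : 0 < √δ := Real.sqrt_pos.2 hδ
      rw [div_mul_eq_mul_div, one_mul, one_le_div this]
      exact h1
    have h3 : |mnF A D H (a + L + m + Z.s) G - mnF A D H (a + L + m) G| ≤ 1 := by
      rw [abs_le]
      constructor <;> linarith
    have h4 : 0 ≤ (R + 3) * √(Λ / L) := by positivity
    rw [add_mul]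
    linarith

/-- the ratio of the conditional means -/
theorem mom_window {μ K : ℝ} (Gr : Growth Z μ K) (hsh : ∀ U U', Z.T U U' → ∀ x ∈ U, x ∈ U')
    (V : Vt A) :
    ∃ R δ : ℝ, 0 < R ∧ 0 < δ ∧ ∀ (a L m : ℕ) (D : Set P)
    (H : Set ((Fin (a + 1) → ℤ × ℤ) × (Fin (m + 1) → ℤ × ℤ))),
    2 ≤ a + L + m → 0 < prF A D H (a + L + m) →
    Real.log (a + L + m : ℕ) ^ 2 + Real.log (1 / prF A D H (a + L + m)) ≤ δ * L →
    ∀ (f : (Fin (a + 1) → ℤ × ℤ) × (Fin (m + 1) → ℤ × ℤ) → ℝ) (B : ℝ), 0 < B →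
    (∀ o, 0 ≤ f o) → (∀ o, f o ≤ B) → 1 ≤ mnF A D H (a + L + m) f →
    |mnF A D H (a + L + m + Z.s) f / mnF A D H (a + L + m) f - 1| ≤
      R * √((Real.log (a + L + m : ℕ) ^ 2 + Real.log (1 / prF A D H (a + L + m))) / L) +
      B * Real.exp (-(Real.log (a + L + m : ℕ) ^ 2)) := by
  obtain ⟨R, δ, hR, hδ, h⟩ := window_fn Gr hsh V
  refine ⟨R, δ, hR, hδ, ?_⟩
  intro a L m D H hN hp hΛ f B hB hf0 hfB hm
  obtain ⟨N, hNd⟩ : ∃ N, N = a + L + m := ⟨_, rfl⟩
  obtain ⟨-, -, -, h4⟩ := h a L m D H hN hp hΛ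
  rw [← hNd] at hN hp hΛ hm h4 ⊢
  have hμ := Gr.hμ
  have hμ0 : 0 < μ := by linarith
  have hp1 : prF A D H N ≤ 1 := by
    unfold prF
    refine div_le_one_of_le₀ ?_ (Nat.cast_nonneg _)
    exact_mod_cast Set.ncard_le_ncard (show WK A D H _ ⊆ FW A _ from fun _ h => h.1)
      (FW_finite (Z := Z) _)
  have h5 := h4 (fun o => B⁻¹ * f o) (fun o => mul_nonneg (inv_nonneg.2 hB.le) (hf0 o))
    (fun o => by rw [inv_mul_le_iff₀ hB, mul_one]; exact hfB o)
  rw [mnF_mul (A := A) D H _ (WK_finite (Z := Z) D H _),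
    mnF_mul (A := A) D H _ (WK_finite (Z := Z) D H _)] at h5
  obtain ⟨M, hM⟩ : ∃ M, M = mnF A D H N f := ⟨_, rfl⟩
  obtain ⟨M', hM'⟩ : ∃ M', M' = mnF A D H (N + Z.s) f := ⟨_, rfl⟩
  obtain ⟨ε, hε⟩ : ∃ ε, ε = R * √((Real.log (N : ℕ) ^ 2 + Real.log (1 / prF A D H N)) / L) :=
    ⟨_, rfl⟩
  rw [← hM, ← hM', ← hε] at h5
  rw [← hM] at hm
  rw [← hM, ← hM', ← hε]
  have hM0 : 0 < M := by linarith
  have e1 : M' / M - 1 = (B⁻¹ * M' - B⁻¹ * M) * (B / M) := by
    field_simp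
  rw [e1, abs_mul, abs_of_pos (show 0 < B / M by positivity)]
  have hE := Real.exp_pos (-(Real.log (N : ℕ) ^ 2))
  calc |B⁻¹ * M' - B⁻¹ * M| * (B / M) ≤
        (ε * (B⁻¹ * M) + prF A D H N * Real.exp (-(Real.log (N : ℕ) ^ 2))) * (B / M) :=
        mul_le_mul_of_nonneg_right h5 (by positivity)
    _ = ε + prF A D H N * (Real.exp (-(Real.log (N : ℕ) ^ 2)) * B) * (1 / M) := by
        field_simp
    _ ≤ ε + 1 * (Real.exp (-(Real.log (N : ℕ) ^ 2)) * B) * 1 := by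
        have h6 : 1 / M ≤ 1 := by rw [div_le_one hM0]; exact hm
        gcongr
    _ = ε + B * Real.exp (-(Real.log (N : ℕ) ^ 2)) := by ring

/-- the ratio of the moments of order `q` of a functional of linear growth -/
theorem mom_pow {μ K : ℝ} (Gr : Growth Z μ K) (hsh : ∀ U U', Z.T U U' → ∀ x ∈ U, x ∈ U')
    (V : Vt A) {c : ℝ} (hc : 0 < c) :
    ∃ δ : ℝ, 0 < δ ∧ ∀ q : ℝ, 0 ≤ q → ∃ R : ℝ, 0 < R ∧
    ∀ (a L m : ℕ) (D : Set P)
    (H : Set ((Fin (a + 1) → ℤ × ℤ) × (Fin (m + 1) → ℤ × ℤ))),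
    2 ≤ a + L + m → 0 < prF A D H (a + L + m) →
    Real.log (a + L + m : ℕ) ^ 2 + Real.log (1 / prF A D H (a + L + m)) ≤ δ * L →
    ∀ (f : (Fin (a + 1) → ℤ × ℤ) × (Fin (m + 1) → ℤ × ℤ) → ℝ),
    (∀ n, n = a + L + m ∨ n = a + L + m + Z.s → ∀ ω ∈ WK A D H n,
      1 ≤ f (outerF a m ω) ∧ f (outerF a m ω) ≤ c * n) →
    0 < mnF A D H (a + L + m) (fun o => f o ^ q) ∧
    |mnF A D H (a + L + m + Z.s) (fun o => f o ^ q) /
      mnF A D H (a + L + m) (fun o => f o ^ q) - 1| ≤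
      R * √((Real.log (a + L + m : ℕ) ^ 2 + Real.log (1 / prF A D H (a + L + m))) / L) := by
  obtain ⟨R, δ, hR, hδ, h⟩ := mom_window Gr hsh V
  have hμ := Gr.hμ
  have hμ0 : 0 < μ := by linarith
  have hcard : ∀ k, (0 : ℝ) < (Kw A k).card := fun k =>
    lt_of_lt_of_le (pow_pos hμ0 k) (Gr.low k)
  refine ⟨δ, hδ, fun q hq => ?_⟩
  obtain ⟨C, hC, ht⟩ := tiny (s := (Z.s : ℝ)) hq (Nat.cast_nonneg _)
  have hcq : 0 < c ^ q := Real.rpow_pos_of_pos hc _
  refine ⟨R + c ^ q * C, by positivity, ?_⟩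
  intro a L m D H hN hp hΛ f hf
  obtain ⟨N, hNd⟩ : ∃ N, N = a + L + m := ⟨_, rfl⟩
  have h5 := h a L m D H hN hp hΛ
  rw [← hNd] at hN hp hΛ hf h5 ⊢
  have hN2 : (2 : ℝ) ≤ N := by exact_mod_cast hN
  have hs0 : (0 : ℝ) ≤ (Z.s : ℝ) := Nat.cast_nonneg _
  obtain ⟨B, hB⟩ : ∃ B : ℝ, B = (c * (N + Z.s)) ^ q := ⟨_, rfl⟩
  have hB0 : 0 < B := by rw [hB]; exact Real.rpow_pos_of_pos (by positivity) _
  have hag : ∀ n, n = N ∨ n = N + Z.s →
      mnF A D H n (fun o => f o ^ q) = mnF A D H n (fun o => max 0 (min (f o ^ q) B)) := by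
    intro n hn
    unfold mnF
    congr 1
    refine finsum_mem_congr rfl fun ω hω => ?_
    obtain ⟨h1, h2⟩ := hf n hn ω hω
    have h3 : f (outerF a m ω) ^ q ≤ B := by
      rw [hB]
      refine Real.rpow_le_rpow (by linarith) (h2.trans ?_) hq
      refine mul_le_mul_of_nonneg_left ?_ hc.le
      rcases hn with rfl | rfl
      · linarith
      · push_cast; exact le_rfl
    have h4 : 0 ≤ f (outerF a m ω) ^ q := Real.rpow_nonneg (by linarith) _
    show f (outerF a m ω) ^ q = max 0 (min (f (outerF a m ω) ^ q) B)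
    rw [min_eq_left h3, max_eq_right h4]
  have hpos : 0 < (WK A D H N).ncard := by
    by_contra hcon
    have : (WK A D H N).ncard = 0 := by omega
    unfold prF at hp
    rw [this, Nat.cast_zero, zero_div] at hp
    exact lt_irrefl _ hp
  have hone : 1 ≤ mnF A D H N (fun o => max 0 (min (f o ^ q) B)) := by
    refine one_le_mnF D H N (WK_finite (Z := Z) D H _) hpos _ fun ω hω => ?_
    obtain ⟨h1, h2⟩ := hf N (Or.inl rfl) ω hω
    refine le_max_of_le_right (le_min ?_ ?_)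
    · exact Real.one_le_rpow h1 hq
    · rw [hB]
      refine Real.one_le_rpow (h1.trans (h2.trans ?_)) hq
      refine mul_le_mul_of_nonneg_left ?_ hc.le
      linarith
  rw [hag N (Or.inl rfl), hag (N + Z.s) (Or.inr rfl)]
  refine ⟨by linarith, ?_⟩
  refine (h5 (fun o => max 0 (min (f o ^ q) B)) B hB0 (fun o => le_max_left _ _)
    (fun o => max_le hB0.le (min_le_right _ _)) hone).trans ?_
  have hL0 : (0 : ℝ) < L := by
    rcases Nat.eq_zero_or_pos L with h0 | h0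
    · exfalso
      have h1 : Real.log 2 ≤ Real.log (N : ℕ) :=
        Real.log_le_log (by norm_num) hN2
      have h2 : 0 < Real.log 2 := Real.log_pos (by norm_num)
      have h3 : 0 < Real.log (N : ℕ) ^ 2 := by
        have : 0 < Real.log (N : ℕ) := by linarith
        positivity
      have hp1 : prF A D H N ≤ 1 := by
        unfold prF
        refine div_le_one_of_le₀ ?_ (Nat.cast_nonneg _)
        exact_mod_cast Set.ncard_le_ncard (show WK A D H _ ⊆ FW A _ from fun _ h => h.1)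
          (FW_finite (Z := Z) _)
      have h4 : 0 ≤ Real.log (1 / prF A D H N) :=
        Real.log_nonneg (by rw [le_div_iff₀ hp]; linarith)
      rw [h0, Nat.cast_zero, mul_zero] at hΛ
      linarith
    · exact_mod_cast h0
  have hp1 : prF A D H N ≤ 1 := by
    unfold prF
    refine div_le_one_of_le₀ ?_ (Nat.cast_nonneg _)
    exact_mod_cast Set.ncard_le_ncard (show WK A D H _ ⊆ FW A _ from fun _ h => h.1)
      (FW_finite (Z := Z) _)
  have h4 : 0 ≤ Real.log (1 / prF A D H N) :=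
    Real.log_nonneg (by rw [le_div_iff₀ hp]; linarith)
  have h6 := ht N L (Real.log (N : ℕ) ^ 2 + Real.log (1 / prF A D H N)) hN hL0 (by
    exact_mod_cast (show L ≤ N by omega)) (by linarith)
  have h7 : B * Real.exp (-(Real.log (N : ℕ) ^ 2)) ≤ c ^ q * (C *
      √((Real.log (N : ℕ) ^ 2 + Real.log (1 / prF A D H N)) / L)) := by
    rw [hB, Real.mul_rpow hc.le (by positivity), mul_assoc]
    exact mul_le_mul_of_nonneg_left h6 hcq.le
  rw [add_mul]
  linarith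

end Q215.SAW
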