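import Pool.Agent.TH966.KS.Kn
import Pool.Agent.Q215.SAW.GapF
import Pool.Agent.Q215.SAW.Avg

/-!
# Polygons of fixed knot type: almost convexity, averages
-/

set_option autoImplicit false

namespace Q215.SAW.Knot

open Finset Filter Topology KN TH966.KS Q215.SAW.Cvx

/-- logarithms of the normalised counts -/
noncomputable def lk (Q : List Dir → Prop) (n : ℕ) : ℝ := Real.log (pq Q n / gr Q ^ n)

theorem lk_two (Q : List Dir → Prop) (k : ℕ) : lk Q (2 * k) = Real.log (yq Q k) := rfl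

/-- almost convexity when the counts are not exponentially small -/
theorem ac_low (Q : List Dir → Prop) (hQ : KClass Q) (hne : ∃ w, SAP w ∧ Q w)
    (hlow : ∀ θ : ℝ, 0 < θ → θ < 1 → ∀ᶠ k : ℕ in atTop, θ ^ (2 * k) ≤ yq Q k) :
    ∃ (D : ℝ) (k0 : ℕ), 0 ≤ D ∧ AC (fun k => lk Q (2 * k + 0)) D k0 := by
  obtain ⟨D, θ, k0, hD, hθ0, hθ1, hK⟩ := kes_yq Q hQ hne
  obtain ⟨N, hN⟩ := eventually_atTop.1 (hlow θ hθ0 hθ1)
  refine ⟨D, max N k0 + 1, hD, fun k hk => ?_⟩
  have hp : ∀ j, N ≤ j → 0 < yq Q j := fun j hj => lt_of_lt_of_le (by positivity) (hN j hj)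
  have h1 := hK k (by omega) (by
    have := hN (k + 1) (by omega)
    rwa [show 2 * (k + 1) = 2 * k + 2 by ring] at this)
  have p0 := hp k (by omega)
  have p1 := hp (k + 1) (by omega)
  have p2 := hp (k + 2) (by omega)
  have hk0 : (0 : ℝ) < k := by exact_mod_cast (show 0 < k by omega)
  have hg : 0 < 1 + D / k := by positivity
  have h2 := Real.log_le_log (pow_pos p1 2) h1
  rw [Real.log_pow, Real.log_mul (mul_pos p0 p2).ne' hg.ne', Real.log_mul p0.ne' p2.ne'] at h2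
  have h3 : Real.log (1 + D / k) ≤ D / k := by
    have := Real.log_le_sub_one_of_pos hg
    linarith
  simp only [add_zero, lk_two]
  push_cast at h2
  linarith

theorem poly_low {y : ℕ → ℝ} {M : ℝ}
    (h : ∀ᶠ k : ℕ in atTop, 0 < y k ∧ |Real.log (y k)| ≤ M * (1 + Real.log k))
    {θ : ℝ} (hθ0 : 0 < θ) (hθ1 : θ < 1) : ∀ᶠ k : ℕ in atTop, θ ^ (2 * k) ≤ y k := by
  have hl : 0 < -Real.log θ := by
    have := Real.log_neg hθ0 hθ1
    linarith
  have hEn : Tendsto (fun n : ℕ => |M| * ((1 + Real.log (n : ℝ)) / n)) atTop (𝓝 (|M| * 0)) := by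
    refine Tendsto.const_mul _ ?_
    have h1 := E_one.add log_over
    rw [add_zero] at h1
    refine h1.congr fun n => ?_
    rw [add_div]
  rw [mul_zero] at hEn
  filter_upwards [h, hEn.eventually_lt_const hl, eventually_ge_atTop 1] with k h1 h2 h3
  obtain ⟨h4, h5⟩ := h1
  have hk0 : (0 : ℝ) < k := by exact_mod_cast h3
  have hk1 : (1 : ℝ) ≤ k := by exact_mod_cast h3
  rw [← Real.log_le_log_iff (by positivity) h4, Real.log_pow]
  rw [← mul_div_assoc, div_lt_iff₀ hk0] at h2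
  have h6 : 0 ≤ 1 + Real.log (k : ℝ) := by
    have := Real.log_nonneg hk1
    linarith
  have h7 : M * (1 + Real.log k) ≤ |M| * (1 + Real.log k) :=
    mul_le_mul_of_nonneg_right (le_abs_self M) h6
  have h8 := (abs_le.1 h5).1
  push_cast
  nlinarith

theorem E_facts : (∀ n : ℕ, (1 : ℝ) ≤ 1 + Real.log n) ∧
    Monotone (fun n : ℕ => 1 + Real.log (n : ℝ)) ∧
    (∀ n : ℕ, 1 ≤ n → 1 + Real.log ((2 * n : ℕ) : ℝ) ≤ 2 * (1 + Real.log n)) ∧
    Tendsto (fun n : ℕ => (1 + Real.log (n : ℝ)) / n) atTop (𝓝 0) := by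
  have hlog0 : ∀ n : ℕ, 0 ≤ Real.log (n : ℝ) := fun n => Real.log_natCast_nonneg n
  have hlog2 : Real.log 2 ≤ 1 := by
    have := Real.log_two_lt_d9
    linarith
  have hE1 : ∀ n : ℕ, (1 : ℝ) ≤ 1 + Real.log n := fun n => by linarith [hlog0 n]
  refine ⟨hE1, ?_, ?_, ?_⟩
  · intro m n hmn
    rcases Nat.eq_zero_or_pos m with h0 | h0
    · subst h0
      simp only [Nat.cast_zero, Real.log_zero, add_zero]
      exact hE1 n
    · have h1 : (0 : ℝ) < m := by exact_mod_cast h0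
      have h2 : (m : ℝ) ≤ n := by exact_mod_cast hmn
      have := Real.log_le_log h1 h2
      simp only
      linarith
  · intro n hn
    have h1 : (0 : ℝ) < n := by exact_mod_cast (show 0 < n by omega)
    push_cast
    rw [Real.log_mul (by norm_num) h1.ne']
    linarith [hlog0 n]
  · have h1 := E_one.add log_over
    rw [add_zero] at h1
    refine h1.congr fun n => ?_
    rw [add_div]

/-- polynomial bounds on a set of lengths with gaps `O(√(n log n))` hold for all lengths -/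
theorem poly_of (Q : List Dir → Prop) (hQ : KClass Q) (hne : ∃ w, SAP w ∧ Q w) {S : Set ℕ}
    {τ δ : ℝ} (hτ : 0 < τ) (hδ : 0 < δ)
    (hS : ∀ᶠ n : ℕ in atTop, ∃ k ∈ S, n ≤ k ∧ (k : ℝ) ≤ n + δ * √(n * (1 + Real.log n)))
    (hyS : ∀ᶠ k : ℕ in atTop, k ∈ S → |Real.log (yq Q k)| ≤ τ * (1 + Real.log k)) :
    ∃ M : ℝ, ∀ᶠ k : ℕ in atTop, 0 < yq Q k ∧ |Real.log (yq Q k)| ≤ M * (1 + Real.log k) := by
  obtain ⟨D, θ, k0, hD, hθ0, hθ1, hK⟩ := kes_yq Q hQ hne
  obtain ⟨h1, -, -⟩ := gr_bounds Q hQ hne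
  have hμ : 0 < gr Q := by linarith
  have hpos : ∀ᶠ k : ℕ in atTop, 0 < yq Q k := by
    filter_upwards [class_pos Q hQ hne] with k hk
    exact div_pos hk (pow_pos hμ _)
  obtain ⟨e1, e2, e3, e4⟩ := E_facts
  have h := step (ψ := fun _ => 0) (B := 0) (E := fun n : ℕ => 1 + Real.log (n : ℝ)) hK
    (yq_nonneg Q hμ.le) hD hθ0 hθ1 (fun n _ => e1 n) e2 e3 e4 hτ hδ le_rfl
    (fun m n _ _ => by simp) (by simp) hS (by
      filter_upwards [hpos, hyS] with k a1 a2 a3
      refine ⟨a1, ?_⟩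
      rw [sub_zero]
      exact a2 a3)
  refine ⟨9 * τ + 384 * D * δ ^ 2, ?_⟩
  filter_upwards [h] with k hk
  rw [sub_zero] at hk
  exact hk

/-- the quotient of the asymptotic form -/
noncomputable def Fq (Q : List Dir → Prop) (β : ℝ) (k : ℕ) : ℝ :=
  pq Q (2 * k) / ((2 * k : ℝ) ^ β * gr Q ^ (2 * k))

theorem Fq_eq (Q : List Dir → Prop) (hQ : KClass Q) (hne : ∃ w, SAP w ∧ Q w) (β : ℝ) :
    ∀ᶠ k : ℕ in atTop, Fq Q β k = GapF.F (lk Q) 2 0 β k := by
  obtain ⟨h1, -, -⟩ := gr_bounds Q hQ hne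
  have hμ : 0 < gr Q := by linarith
  filter_upwards [class_pos Q hQ hne] with k hk
  unfold Fq GapF.F
  rw [add_zero]
  unfold lk
  rw [Real.exp_log (div_pos hk (pow_pos hμ _)), div_div, mul_comm (gr Q ^ (2 * k))]
  push_cast
  rfl

theorem Fq_nonneg (Q : List Dir → Prop) (hQ : KClass Q) (hne : ∃ w, SAP w ∧ Q w) (β : ℝ) (k : ℕ) :
    0 ≤ Fq Q β k := by
  obtain ⟨h1, -, -⟩ := gr_bounds Q hQ hne
  have hμ : 0 < gr Q := by linarith
  unfold Fq pq
  positivity

/-- averages over windows at `m`, of two functions which are eventually equal -/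
theorem avg_congr {F G : ℕ → ℝ} (h : ∀ᶠ k : ℕ in atTop, F k = G k) (δ : ℝ) :
    ∀ᶠ m : ℕ in atTop, (∑ i ∈ range (wd δ m), F (m + i)) / wd δ m =
      (∑ i ∈ range (wd δ m), G (m + i)) / wd δ m := by
  obtain ⟨N, hN⟩ := eventually_atTop.1 h
  filter_upwards [eventually_ge_atTop N] with m hm
  congr 1
  exact sum_congr rfl fun i _ => hN _ (by omega)

/-- polynomial bounds from averages -/
theorem poly_avg (Q : List Dir → Prop) (hQ : KClass Q) (hne : ∃ w, SAP w ∧ Q w) (β : ℝ) {A : ℝ}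
    (hA : 0 < A)
    (h : Tendsto (fun m => (∑ i ∈ range (wd 1 m), Fq Q β (m + i)) / wd 1 m) atTop (𝓝 A)) :
    ∃ M : ℝ, ∀ᶠ k : ℕ in atTop, 0 < yq Q k ∧ |Real.log (yq Q k)| ≤ M * (1 + Real.log k) := by
  obtain ⟨h1, -, -⟩ := gr_bounds Q hQ hne
  have hμ : 0 < gr Q := by linarith
  have hpos : ∀ᶠ k : ℕ in atTop, 0 < yq Q k := by
    filter_upwards [class_pos Q hQ hne] with k hk
    exact div_pos hk (pow_pos hμ _)
  have hw : ∀ m, (0 : ℝ) < wd 1 m := fun m => by exact_mod_cast wd_pos 1 m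
  have hlo := h.eventually_const_lt (show A / 2 < A by linarith)
  have hhi := h.eventually_lt_const (show A < 2 * A by linarith)
  obtain ⟨C, hC⟩ : ∃ C : ℝ, C = |Real.log (A / 2)| + |Real.log (4 * A)| + 3 * |β| + 1 := ⟨_, rfl⟩
  have hC0 : 0 < C := by rw [hC]; positivity
  refine poly_of Q hQ hne (S := {k | A / 2 ≤ Fq Q β k}) (τ := C) (δ := 1) hC0 one_pos ?_ ?_
  · filter_upwards [hlo, eventually_ge_atTop 1] with n hn hn1
    rw [lt_div_iff₀ (hw n)] at hn
    by_contra hcon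
    push Not at hcon
    have hlt : ∀ i ∈ range (wd 1 n), Fq Q β (n + i) ≤ A / 2 := by
      intro i hi
      by_contra hi2
      push Not at hi2
      have hi3 := mem_range.1 hi
      have h5 := hcon (n + i) hi2.le (by omega)
      have h6 : (i : ℝ) ≤ ((wd 1 n - 1 : ℕ) : ℝ) := by exact_mod_cast (show i ≤ wd 1 n - 1 by omega)
      have h7 := wd_le (zero_le_one) n (δ := 1)
      have h8 : √(n : ℝ) ≤ √(n * (1 + Real.log n)) := by
        refine Real.sqrt_le_sqrt ?_
        have := Real.log_natCast_nonneg n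
        have hn0 : (0 : ℝ) ≤ n := Nat.cast_nonneg _
        nlinarith
      push_cast at h5
      linarith
    have hs := sum_le_sum hlt
    rw [sum_const, card_range, nsmul_eq_mul] at hs
    linarith
  · filter_upwards [hhi, hpos, eventually_ge_atTop 1] with k hk hp hk1 hkS
    rw [div_lt_iff₀ (hw k)] at hk
    have hk0 : (0 : ℝ) < k := by exact_mod_cast hk1
    have hk1' : (1 : ℝ) ≤ k := by exact_mod_cast hk1
    have h2k : (0 : ℝ) < 2 * k := by linarith
    have hF0 : 0 < Fq Q β k := lt_of_lt_of_le (by linarith) hkS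
    have hFe : Fq Q β k = yq Q k / (2 * k : ℝ) ^ β := yq_form Q β k
    have h5 : Fq Q β k ≤ 2 * A * wd 1 k := by
      have h6 := single_le_sum (f := fun i => Fq Q β (k + i))
        (fun i _ => Fq_nonneg Q hQ hne β (k + i)) (mem_range.2 (wd_pos 1 k))
      simp only [add_zero] at h6
      linarith
    have h6 : ((wd 1 k : ℕ) : ℝ) ≤ 2 * k := by
      have h7 := wd_le (zero_le_one) k (δ := 1)
      have h8 : ((wd 1 k : ℕ) : ℝ) = ((wd 1 k - 1 : ℕ) : ℝ) + 1 := by
        have := wd_pos 1 k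
        have h9 : wd 1 k = (wd 1 k - 1) + 1 := by omega
        exact_mod_cast h9
      have h9 : √(k : ℝ) ≤ k := by
        rw [Real.sqrt_le_left hk0.le]
        nlinarith
      linarith
    have h7 : Fq Q β k ≤ 4 * A * k := by nlinarith
    have hl1 := Real.log_le_log (by positivity) hkS
    have hl2 := Real.log_le_log hF0 h7
    rw [Real.log_mul (by positivity) hk0.ne'] at hl2
    have hl3 : Real.log (yq Q k) = Real.log (Fq Q β k) + β * Real.log (2 * k) := by
      rw [hFe, Real.log_div hp.ne' (Real.rpow_pos_of_pos h2k _).ne', Real.log_rpow h2k]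
      ring
    have hlk : 0 ≤ Real.log (k : ℝ) := Real.log_nonneg hk1'
    have hl2k : Real.log (2 * (k : ℝ)) = Real.log 2 + Real.log k := Real.log_mul (by norm_num) hk0.ne'
    have hlog2 : Real.log 2 ≤ 1 := by
      have := Real.log_two_lt_d9
      linarith
    have hlog2' : 0 ≤ Real.log 2 := Real.log_nonneg (by norm_num)
    have hb : |β * Real.log (2 * k)| ≤ |β| * (1 + Real.log k) := by
      rw [abs_mul, hl2k, abs_of_nonneg (show 0 ≤ Real.log 2 + Real.log (k : ℝ) by linarith)]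
      exact mul_le_mul_of_nonneg_left (by linarith) (abs_nonneg _)
    have hf : |Real.log (Fq Q β k)| ≤
        (|Real.log (A / 2)| + |Real.log (4 * A)| + 1) * (1 + Real.log k) := by
      rw [abs_le]
      have b1 := neg_abs_le (Real.log (A / 2))
      have b2 := le_abs_self (Real.log (4 * A))
      have b3 := abs_nonneg (Real.log (A / 2))
      have b4 := abs_nonneg (Real.log (4 * A))
      constructor
      · nlinarith
      · nlinarith
    rw [hl3]
    refine (abs_add_le _ _).trans ?_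
    rw [hC]
    have b5 : 0 ≤ |β| * (1 + Real.log k) := by positivity
    nlinarith

/-- **the asymptotic form from averages** -/
theorem avg_form (Q : List Dir → Prop) (hQ : KClass Q) (hne : ∃ w, SAP w ∧ Q w) (β : ℝ) {A : ℝ}
    (hA : 0 < A)
    (h : ∀ δ : ℝ, 0 < δ → Tendsto (fun m => (∑ i ∈ range (wd δ m), Fq Q β (m + i)) / wd δ m)
      atTop (𝓝 A)) : Tendsto (Fq Q β) atTop (𝓝 A) := by
  obtain ⟨M, hM⟩ := poly_avg Q hQ hne β hA (h 1 one_pos)
  have h0 := ac_low Q hQ hne (fun θ hθ0 hθ1 => poly_low hM hθ0 hθ1)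
  obtain ⟨D, k0, hD, hx⟩ := GapF.xF_ac (g := β) (s := 2) (e := 0) (by norm_num) h0
  have hG : ∀ k, 1 ≤ k → GapF.F (lk Q) 2 0 β k = Real.exp (GapF.xF (lk Q) 2 0 β k) :=
    fun k hk => GapF.F_exp (by norm_num) hk
  have hG0 : ∀ k, 0 ≤ GapF.F (lk Q) 2 0 β k := by
    intro k
    unfold GapF.F
    positivity
  have hlim := avg_lim hx hD hG hG0 hA (fun δ hδ =>
    (h δ hδ).congr' (avg_congr (Fq_eq Q hQ hne β) δ))
  exact hlim.congr' ((Fq_eq Q hQ hne β).mono fun k hk => hk.symm)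

end Q215.SAW.Knot
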