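import Pool.Agent.Q215.SAW.SecD
import Pool.Agent.Q215.SAW.Dim23

/-!
# The total variation of the slopes, general rates
-/

set_option autoImplicit false

namespace Q215.SAW

open Finset Filter Topology Cvx

/-- the total variation, large `n` -/
theorem tvR_large {ell : ℕ → ℝ} {s : ℕ} {D C : ℝ} {N : ℕ} {r : ℕ → ℝ} (hD : 0 ≤ D) (hC : 0 ≤ C)
    (hN : 1 ≤ N) (hr : ∀ n m, N ≤ n → n ≤ m → r m ≤ r n)
    (h1 : ∀ n, N ≤ n → -(D / n) ≤ dd ell s n)
    (h2 : ∀ n, N ≤ n → |ell (n + s) - ell n| ≤ C * r n) {n : ℕ} (hn : N ≤ n)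
    (w : ℕ) : ∑ k ∈ range w, |dd ell s (n + k)| ≤
      2 * D * (w / n) + 2 * s * C * r n := by
  have hn0 : (0 : ℝ) < n := by exact_mod_cast (show 0 < n by omega)
  have e : ∀ k, dd ell s (n + k) = (ell (n + k + s + s) - ell (n + k + s)) -
      (ell (n + k + s) - ell (n + k)) := by
    intro k
    unfold dd
    rw [show n + k + 2 * s = n + k + s + s by ring]
    ring
  have h3 : ∀ k, |dd ell s (n + k)| ≤ dd ell s (n + k) + 2 * D / n := by
    intro k
    have h4 := h1 (n + k) (by omega)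
    have h5 : D / ((n + k : ℕ) : ℝ) ≤ D / n :=
      div_le_div_of_nonneg_left hD hn0 (by exact_mod_cast (Nat.le_add_right n k))
    have h6 : 0 ≤ D / n := by positivity
    rw [abs_le]
    have e2 : 2 * D / (n : ℝ) = 2 * (D / n) := by ring
    rw [e2]
    constructor <;> linarith
  have h4 : ∑ k ∈ range w, dd ell s (n + k) ≤ 2 * s * C * r n := by
    have e2 : ∑ k ∈ range w, dd ell s (n + k) =
        ∑ j ∈ range s, ((ell (n + w + j + s) - ell (n + w + j)) -
          (ell (n + j + s) - ell (n + j))) := by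
      rw [← tele (fun m => ell (m + s) - ell m) s n w]
      exact sum_congr rfl fun k _ => e k
    rw [e2]
    have h5 : ∀ j ∈ range s, ((ell (n + w + j + s) - ell (n + w + j)) -
          (ell (n + j + s) - ell (n + j))) ≤ 2 * (C * r n) := by
      intro j _
      have h6 := (abs_le.1 (h2 (n + w + j) (by omega))).2
      have h7 := (abs_le.1 (h2 (n + j) (by omega))).1
      have h8 := mul_le_mul_of_nonneg_left (hr n (n + w + j) hn (by omega)) hC
      have h9 := mul_le_mul_of_nonneg_left (hr n (n + j) hn (by omega)) hC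
      linarith
    refine (sum_le_sum h5).trans (le_of_eq ?_)
    rw [sum_const, card_range, nsmul_eq_mul]
    ring
  calc ∑ k ∈ range w, |dd ell s (n + k)| ≤ ∑ k ∈ range w, (dd ell s (n + k) + 2 * D / n) :=
        sum_le_sum fun k _ => h3 k
    _ = ∑ k ∈ range w, dd ell s (n + k) + 2 * D * (w / n) := by
        rw [sum_add_distrib, sum_const, card_range, nsmul_eq_mul]
        ring
    _ ≤ _ := by linarith

/-- the total variation for all `n ≥ 2` -/
theorem tvR_all {ell : ℕ → ℝ} {s : ℕ} {D C : ℝ} {N : ℕ} {r : ℕ → ℝ} (hD : 0 ≤ D) (hC : 0 ≤ C)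
    (hN : 1 ≤ N) (hr0 : ∀ n, 2 ≤ n → 0 < r n) (hr : ∀ n m, N ≤ n → n ≤ m → r m ≤ r n)
    (h1 : ∀ n, N ≤ n → -(D / n) ≤ dd ell s n)
    (h2 : ∀ n, N ≤ n → |ell (n + s) - ell n| ≤ C * r n) :
    ∃ K : ℝ, 0 < K ∧ ∀ n w : ℕ, 2 ≤ n → ∑ k ∈ range w, |dd ell s (n + k)| ≤
      K * (w / n + r n) := by
  obtain ⟨M, hM, hM2⟩ : ∃ M : ℕ, N ≤ M ∧ 2 ≤ M := ⟨max N 2, le_max_left _ _, le_max_right _ _⟩
  have key : ∀ n, M ≤ n → ∀ w : ℕ, ∑ k ∈ range w, |dd ell s (n + k)| ≤
      2 * D * (w / n) + 2 * s * C * r n := fun n hn w =>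
    tvR_large hD hC hN hr h1 h2 (hM.trans hn) w
  obtain ⟨S, hS⟩ : ∃ S : ℝ, S = ∑ k ∈ range M, |dd ell s k| := ⟨_, rfl⟩
  have hS0 : 0 ≤ S := by rw [hS]; exact sum_nonneg fun _ _ => abs_nonneg _
  obtain ⟨c, hc0, hc⟩ : ∃ c : ℝ, 0 < c ∧ ∀ n, 2 ≤ n → n ≤ M → c ≤ r n := by
    have hne : (Icc 2 M).Nonempty := ⟨2, mem_Icc.2 ⟨le_rfl, hM2⟩⟩
    obtain ⟨b, hb, hmin⟩ := exists_min_image (Icc 2 M) r hne
    exact ⟨r b, hr0 b (mem_Icc.1 hb).1, fun n h3 h4 => hmin n (mem_Icc.2 ⟨h3, h4⟩)⟩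
  have hM0 : (0 : ℝ) < M := by exact_mod_cast (show 0 < M by omega)
  obtain ⟨U, hU⟩ : ∃ U : ℝ, U = 2 * s * C * r M := ⟨_, rfl⟩
  have hU0 : 0 ≤ U := by
    rw [hU]
    have := hr0 M hM2
    positivity
  refine ⟨2 * D + 2 * s * C + (S + U) / c + 1, by positivity, ?_⟩
  intro n w hn
  have hn0 : (0 : ℝ) < n := by exact_mod_cast (show 0 < n by omega)
  have hrn := hr0 n hn
  have hw0 : (0 : ℝ) ≤ w / n := by positivity
  have hq : 0 ≤ (S + U) / c := by positivity
  by_cases hcs : M ≤ n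
  · refine (key n hcs w).trans ?_
    have h3 : 2 * D * (w / n) ≤ (2 * D + 2 * s * C + (S + U) / c + 1) * (w / n) :=
      mul_le_mul_of_nonneg_right (by
        have : 0 ≤ 2 * (s : ℝ) * C := by positivity
        linarith) hw0
    have h4 : 2 * s * C * r n ≤ (2 * D + 2 * s * C + (S + U) / c + 1) * r n :=
      mul_le_mul_of_nonneg_right (by linarith) hrn.le
    linarith
  · push Not at hcs
    have hrc : c ≤ r n := hc n hn hcs.le
    -- split
    have hsplit : ∑ k ∈ range w, |dd ell s (n + k)| ≤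
        S + ∑ k ∈ range w, |dd ell s (M + k)| := by
      have h5 : ∑ k ∈ range w, |dd ell s (n + k)| = ∑ k ∈ Ico n (n + w), |dd ell s k| := by
        rw [sum_Ico_eq_sum_range]
        congr 2
        omega
      have h6 : ∑ k ∈ range w, |dd ell s (M + k)| = ∑ k ∈ Ico M (M + w), |dd ell s k| := by
        rw [sum_Ico_eq_sum_range]
        congr 2
        omega
      rw [h5, h6, hS]
      have h7 : Disjoint (range M) (Ico M (M + w)) := by
        rw [disjoint_left]
        intro a ha hb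
        rw [mem_range] at ha
        rw [mem_Ico] at hb
        omega
      rw [← sum_union h7]
      refine sum_le_sum_of_subset_of_nonneg ?_ fun _ _ _ => abs_nonneg _
      intro a ha
      rw [mem_Ico] at ha
      rw [mem_union, mem_range, mem_Ico]
      omega
    have h8 := key M le_rfl w
    rw [← hU] at h8
    have h9 : 2 * D * (w / M) ≤ 2 * D * (w / n) := by
      refine mul_le_mul_of_nonneg_left ?_ (by positivity)
      exact div_le_div_of_nonneg_left (Nat.cast_nonneg _) hn0 (by exact_mod_cast hcs.le)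
    have h10 : S + U ≤ (S + U) / c * r n := by
      rw [div_mul_eq_mul_div, le_div_iff₀ hc0]
      exact mul_le_mul_of_nonneg_left hrc (by positivity)
    have h11 : 0 ≤ (2 * s * C + (S + U) / c + 1) * (w / n) := by positivity
    have h12 : 0 ≤ (2 * D + 2 * s * C + 1) * r n := by positivity
    have h13 : (2 * D + 2 * s * C + (S + U) / c + 1) * (w / n + r n) =
        2 * D * (w / n) + (2 * s * C + (S + U) / c + 1) * (w / n) +
        ((S + U) / c * r n + (2 * D + 2 * s * C + 1) * r n) := by ring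
    rw [h13]
    linarith

/-- near-convexity of a series in terms of `dd` -/
theorem ser_cvx {ell : ℕ → ℝ} {s : ℕ} (hS : Ser ell s) :
    ∃ (D : ℝ) (N : ℕ), 0 ≤ D ∧ ∀ n, N ≤ n → -(D / n) ≤ dd ell s n := by
  have hs := hS.s1
  choose! D k0 hD h using hS.ac
  obtain ⟨k1, hk1⟩ : ∃ k1 : ℕ, ∀ r, r < s → k0 r ≤ k1 :=
    ⟨∑ r ∈ range s, k0 r, fun r hr => single_le_sum (fun _ _ => Nat.zero_le _)
      (mem_range.2 hr)⟩
  obtain ⟨E, hE⟩ : ∃ E : ℝ, ∀ r, r < s → D r ≤ E :=
    ⟨∑ r ∈ range s, |D r|, fun r hr => (le_abs_self _).trans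
      (single_le_sum (f := fun r => |D r|) (fun _ _ => abs_nonneg _) (mem_range.2 hr))⟩
  have hE0 : 0 ≤ E := (hD 0 hs).trans (hE 0 hs)
  refine ⟨2 * s * E, s * (k1 + 1), by positivity, ?_⟩
  intro n hn
  have hr : n % s < s := Nat.mod_lt _ hs
  have hnk : s * (n / s) + n % s = n := Nat.div_add_mod n s
  have hk : k1 + 1 ≤ n / s := by
    rw [Nat.le_div_iff_mul_le hs, mul_comm]
    exact hn
  have h1 := h (n % s) hr (n / s) ((hk1 _ hr).trans (by omega))
  simp only at h1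
  have e1 : s * (n / s + 1) + n % s = n + s := by
    rw [mul_add, mul_one]; omega
  have e2 : s * (n / s + 2) + n % s = n + 2 * s := by
    rw [mul_add]; omega
  rw [e1, e2, hnk] at h1
  obtain ⟨b1, b2, b3⟩ := div_bounds hs (show s ≤ n by
    have : s * 1 ≤ s * (k1 + 1) := Nat.mul_le_mul_left _ (by omega)
    omega)
  have hn0 : (0 : ℝ) < n := by
    have : (1 : ℝ) ≤ s := by exact_mod_cast hs
    nlinarith
  have h2 : D (n % s) / ((n / s : ℕ) : ℝ) ≤ 2 * s * E / n := by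
    rw [div_le_div_iff₀ (by linarith) hn0]
    have h3 := hE _ hr
    calc D (n % s) * n ≤ E * (2 * s * ((n / s : ℕ) : ℝ)) :=
          mul_le_mul h3 b3 hn0.le hE0
      _ = _ := by ring
  unfold dd
  linarith

/-- the polynomial case -/
theorem ser_poly {ell : ℕ → ℝ} {s : ℕ} (hS : Ser ell s) {B : ℝ}
    (hB : ∀ᶠ n : ℕ in atTop, |ell n| ≤ B * Real.log n) :
    ∃ K : ℝ, 0 < K ∧ ∀ n w : ℕ, 2 ≤ n → ∑ k ∈ range w, |dd ell s (n + k)| ≤
      K * (w / n + √(Real.log n / n)) := by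
  obtain ⟨D, N1, hD, h1⟩ := ser_cvx hS
  obtain ⟨R, hR, h2⟩ := hS.slopes hB
  obtain ⟨N2, hN2⟩ := eventually_atTop.1 h2
  refine tvR_all (N := N1 + N2 + 8) hD hR.le (by omega) ?_ ?_ (fun n hn => h1 n (by omega))
    (fun n hn => hN2 n (by omega))
  · intro n hn
    have h3 : (1 : ℝ) < n := by exact_mod_cast hn
    have := Real.log_pos h3
    positivity
  · intro n m hn hm
    refine Real.sqrt_le_sqrt ?_
    have h8 : Real.exp 1 ≤ 8 := by
      have := Real.exp_one_lt_d9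
      linarith
    have h1 : (8 : ℝ) ≤ n := by exact_mod_cast (show 8 ≤ n by omega)
    have h2 : (n : ℝ) ≤ m := by exact_mod_cast hm
    exact Real.log_div_self_antitoneOn (Set.mem_Ici.2 (h8.trans h1))
      (Set.mem_Ici.2 ((h8.trans h1).trans h2)) h2

end Q215.SAW

namespace Q215.SAW.Z3

open Filter Topology TH966.KO Cvx Q219.SAW.Z3

/-- the second differences on `ℤ³` -/
theorem tv3 {ε : ℝ} (hε : 0 < ε) (hε1 : ε < 1 / 3) : ∃ K : ℝ, 0 < K ∧ ∀ n w : ℕ, 2 ≤ n →
    ∑ k ∈ Finset.range w, |dd el 2 (n + k)| ≤ K * (w / n + (n : ℝ) ^ (-(1 / 3 : ℝ) + ε)) := by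
  obtain ⟨D, N1, hD, h1⟩ := ser_cvx ser3
  obtain ⟨K, hK⟩ := rates_all ε hε
  have hμ := mu_pos
  obtain ⟨r, hr⟩ : ∃ r : ℕ → ℝ, r = fun n : ℕ => (n : ℝ) ^ (-(1 / 3 : ℝ) + ε) := ⟨_, rfl⟩
  have hr0 : ∀ n, 2 ≤ n → 0 < r n := fun n hn => by
    rw [hr]
    exact Real.rpow_pos_of_pos (by exact_mod_cast (show 0 < n by omega)) _
  have hra : ∀ n m, 1 ≤ n → n ≤ m → r m ≤ r n := fun n m hn hm => by
    rw [hr]
    exact Real.rpow_le_rpow_of_nonpos (by exact_mod_cast (show 0 < n by omega))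
      (by exact_mod_cast hm) (by linarith)
  have t0 : Tendsto (fun n : ℕ => |K| / μ ^ 2 * r n) atTop (𝓝 0) := by
    have h2 := (tendsto_rpow_neg_atTop (show (0 : ℝ) < 1 / 3 - ε by linarith)).comp
      tendsto_natCast_atTop_atTop
    have h3 := h2.const_mul (|K| / μ ^ 2)
    rw [mul_zero] at h3
    refine h3.congr fun n => ?_
    rw [hr]
    simp only [Function.comp]
    congr 2
    ring
  obtain ⟨N2, hN2⟩ := eventually_atTop.1 (t0.eventually_lt_const
    (show (0 : ℝ) < 1 / 2 by norm_num))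
  have key := tvR_all (ell := el) (s := 2) (D := D) (C := 2 * (|K| / μ ^ 2)) (N := N1 + N2 + 1)
    (r := r) hD (by positivity) (by omega) hr0 (fun n m hn hm => hra n m (by omega) hm)
    (fun n hn => h1 n (by omega)) (by
    intro n hn
    obtain ⟨a1, a2⟩ := hK n (by omega)
    have hn1 : (1 : ℝ) ≤ n := by exact_mod_cast (show 1 ≤ n by omega)
    have b1 : (n : ℝ) ^ (-(2 / 5 : ℝ) + ε) ≤ r n := by
      rw [hr]
      exact Real.rpow_le_rpow_of_exponent_le hn1 (by linarith)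
    have c1 : K * (n : ℝ) ^ (-(2 / 5 : ℝ) + ε) ≤ |K| * r n :=
      (mul_le_mul_of_nonneg_right (le_abs_self K) (by positivity)).trans
        (mul_le_mul_of_nonneg_left b1 (abs_nonneg _))
    have c2 : K * (n : ℝ) ^ (-(1 / 3 : ℝ) + ε) ≤ |K| * r n := by
      rw [hr]
      exact mul_le_mul_of_nonneg_right (le_abs_self K) (by positivity)
    have c3 : |(C (n + 2) : ℝ) / C n / μ ^ 2 - 1| ≤ |K| / μ ^ 2 * r n := by
      have e : (C (n + 2) : ℝ) / C n / μ ^ 2 - 1 = ((C (n + 2) : ℝ) / C n - μ ^ 2) / μ ^ 2 := by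
        field_simp
      rw [e, abs_div, abs_of_pos (show 0 < μ ^ 2 by positivity), div_mul_eq_mul_div]
      refine div_le_div_of_nonneg_right ?_ (by positivity)
      rw [abs_le]
      constructor <;> linarith
    have c4 := hN2 n (by omega)
    have e2 : el (n + 2) - el n = Real.log ((C (n + 2) : ℝ) / C n / μ ^ 2) := by
      unfold el
      rw [← Real.log_div (q_pos _).ne' (q_pos _).ne']
      congr 1
      have := (C_pos n).ne'
      have := (C_pos (n + 2)).ne'
      rw [pow_add]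
      field_simp
    rw [e2]
    have c5 := Q215.SAW.abs_log_le (c3.trans c4.le)
    linarith)
  rw [hr] at key
  exact key

end Q215.SAW.Z3
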