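import Pool.Agent.Q215.SAW.Knot
import Pool.Agent.Q215.SAW.TvR
import Pool.Agent.Q219.SAW.KntB

/-!
# Polygons of fixed knot type: total variation of the slopes
-/

set_option autoImplicit false

namespace Q215.SAW.Knot

open Finset Filter Topology KN TH966.KS Q215.SAW.Cvx Q215.SAW

/-- the deficit of the count at `2 k` -/
noncomputable def dfc (Q : List Dir → Prop) (k : ℕ) : ℝ :=
  max 0 (Real.log (gr Q ^ (2 * k) / pq Q (2 * k)))

/-- the rate of the ratios for classes closed under connected sums (from `Q219.SAW.KntB`) -/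
theorem csum_rate (Q : List Dir → Prop) (hQ : KClass Q) (hne : ∃ w, SAP w ∧ Q w) (hc : CSum Q) :
    ∃ R : ℝ, 0 < R ∧ ∀ᶠ k : ℕ in atTop,
      |yq Q (k + 1) / yq Q k - 1| ≤ R * √((1 + dfc Q k) / k) := by
  obtain ⟨h1, -, -⟩ := gr_bounds Q hQ hne
  have hμ : 0 < gr Q := by linarith
  have hμk : ∀ n : ℕ, 0 < gr Q ^ n := fun n => pow_pos hμ n
  have hy := TH966.KS.yq_nonneg Q hμ.le
  obtain ⟨D, θ, k0, hD, hθ0, hθ1, hK⟩ := TH966.KS.kes_yq Q hQ hne
  obtain ⟨R, δ, hR, hδ, hrate⟩ := Q219.SAW.Knt.rate hK hy hD hθ0 hθ1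
  have key : ∃ R δ : ℝ, 0 < R ∧ 0 < δ ∧ ∀ᶠ k : ℕ in atTop, ∀ L : ℝ, 1 ≤ L → L ≤ δ * k →
      Real.exp (-L) * gr Q ^ (2 * k) ≤ pq Q (2 * k) →
      (∀ m, m ≤ 2 * k →
        pq Q (2 * m) / gr Q ^ (2 * m) ≤ Real.exp L * (pq Q (2 * k) / gr Q ^ (2 * k))) →
      |yq Q (k + 1) / yq Q k - 1| ≤ R * √(L / k) := by
    refine ⟨R, δ, hR, hδ, ?_⟩
    filter_upwards [hrate] with k hk L hL1 hL2 hlow hup
    have hyk : Real.exp (-L) ≤ TH966.KS.yq Q k := by
      unfold TH966.KS.yq
      rwa [le_div_iff₀ (hμk _)]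
    have hyk0 : 0 < TH966.KS.yq Q k := (Real.exp_pos _).trans_le hyk
    exact hk L hL1 hL2 hyk0 (by
      have := (Real.le_log_iff_exp_le hyk0).2 hyk
      linarith) hup
  obtain ⟨R, δ, hR, hδ, hkey⟩ := key
  obtain ⟨B, hB1, hB⟩ : ∃ B : ℝ, 1 ≤ B ∧ ∀ m, TH966.KS.yq Q m ≤ B :=
    ⟨16, by norm_num, Q219.SAW.Knt.bdd_sum Q hQ hne hc⟩
  have hlB : 0 ≤ Real.log B := Real.log_nonneg hB1
  have hroots := (class_sum Q hQ hne hc).1
  obtain ⟨E, hE⟩ : ∃ E : ℝ, E = 1 + Real.log B := ⟨_, rfl⟩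
  have hE1 : 1 ≤ E := by rw [hE]; linarith
  have hsmall : ∀ᶠ k : ℕ in atTop,
      E * (1 + max 0 (Real.log (gr Q ^ (2 * k) / pq Q (2 * k)))) ≤ δ * k := by
    have hη : 0 < δ / (4 * E) := by positivity
    have h2 : gr Q * Real.exp (-(δ / (4 * E))) < gr Q := by
      have : Real.exp (-(δ / (4 * E))) < 1 := by
        rw [Real.exp_lt_one_iff]
        linarith
      nlinarith
    filter_upwards [hroots.eventually_const_lt h2, class_pos Q hQ hne,
      eventually_ge_atTop (⌈2 * E / δ⌉₊ + 1)] with k h3 h4 h5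
    have hk0 : (0 : ℝ) < k := by exact_mod_cast (show 0 < k by omega)
    have h6 : (gr Q * Real.exp (-(δ / (4 * E)))) ^ (2 * k) ≤ pq Q (2 * k) := by
      have h7 := pow_le_pow_left₀ (mul_pos hμ (Real.exp_pos _)).le h3.le (2 * k)
      refine h7.trans (le_of_eq ?_)
      rw [← Real.rpow_natCast, ← Real.rpow_mul h4.le]
      have : 1 / (2 * (k : ℝ)) * ((2 * k : ℕ) : ℝ) = 1 := by
        push_cast
        field_simp
      rw [this, Real.rpow_one]
    have h7 : Real.log (gr Q ^ (2 * k) / pq Q (2 * k)) ≤ k * (δ / (2 * E)) := by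
      rw [Real.log_le_iff_le_exp (div_pos (hμk _) h4), div_le_iff₀ h4]
      rw [mul_pow, ← Real.exp_nat_mul] at h6
      have h8 := mul_le_mul_of_nonneg_left h6 (Real.exp_pos (k * (δ / (2 * E)))).le
      refine le_trans (le_of_eq ?_) h8
      have e : Real.exp (k * (δ / (2 * E))) * (gr Q ^ (2 * k) *
          Real.exp (((2 * k : ℕ) : ℝ) * -(δ / (4 * E)))) =
          gr Q ^ (2 * k) * (Real.exp (k * (δ / (2 * E))) *
            Real.exp (((2 * k : ℕ) : ℝ) * -(δ / (4 * E)))) := by ring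
      rw [e, ← Real.exp_add]
      have e2 : (k : ℝ) * (δ / (2 * E)) + ((2 * k : ℕ) : ℝ) * -(δ / (4 * E)) = 0 := by
        push_cast
        field_simp
        ring
      rw [e2, Real.exp_zero, mul_one]
    have h8 : max 0 (Real.log (gr Q ^ (2 * k) / pq Q (2 * k))) ≤ k * (δ / (2 * E)) :=
      max_le (by positivity) h7
    have h9 : 2 * E / δ ≤ k := by
      refine (Nat.le_ceil _).trans ?_
      exact_mod_cast (show ⌈2 * E / δ⌉₊ ≤ k by omega)
    have h10 : E ≤ δ * k / 2 := by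
      rw [div_le_iff₀ hδ] at h9
      linarith
    calc E * (1 + max 0 (Real.log (gr Q ^ (2 * k) / pq Q (2 * k)))) ≤
          E * (1 + k * (δ / (2 * E))) := mul_le_mul_of_nonneg_left (by linarith) (by linarith)
      _ = E + δ * k / 2 := by field_simp
      _ ≤ δ * k := by linarith
  refine ⟨R * √E, mul_pos hR (Real.sqrt_pos.2 (by linarith)), ?_⟩
  filter_upwards [hkey, hsmall, class_pos Q hQ hne] with k hk hs hp
  unfold dfc
  obtain ⟨X, hX⟩ : ∃ X : ℝ, X = max 0 (Real.log (gr Q ^ (2 * k) / pq Q (2 * k))) := ⟨_, rfl⟩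
  have hX0 : 0 ≤ X := by rw [hX]; exact le_max_left _ _
  have hX1 : Real.log (gr Q ^ (2 * k) / pq Q (2 * k)) ≤ X := by rw [hX]; exact le_max_right _ _
  rw [← hX] at hs ⊢
  have hy0 : 0 < pq Q (2 * k) / gr Q ^ (2 * k) := div_pos hp (hμk _)
  have hlow : Real.exp (-X) ≤ pq Q (2 * k) / gr Q ^ (2 * k) := by
    rw [← Real.le_log_iff_exp_le hy0]
    rw [← inv_div, Real.log_inv] at hX1
    linarith
  have hXE : X ≤ E * (1 + X) := by nlinarith
  have h2 := hk (E * (1 + X)) (by nlinarith) hs (by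
    have h3 : Real.exp (-(E * (1 + X))) ≤ Real.exp (-X) := Real.exp_le_exp.2 (by linarith)
    exact (le_div_iff₀ (hμk _)).1 (h3.trans hlow)) (by
    intro m _
    have h3 : TH966.KS.yq Q m ≤ B := hB m
    have h4 : B ≤ Real.exp (E * (1 + X)) * Real.exp (-X) := by
      rw [← Real.exp_add, ← Real.log_le_iff_le_exp (by linarith)]
      rw [hE]
      nlinarith
    exact h3.trans (h4.trans (mul_le_mul_of_nonneg_left hlow (Real.exp_pos _).le)))
  refine h2.trans (le_of_eq ?_)
  rw [mul_assoc, ← Real.sqrt_mul (by linarith : (0 : ℝ) ≤ E), mul_div_assoc]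

/-- classes closed under connected sums: the counts are not exponentially small -/
theorem low_csum (Q : List Dir → Prop) (hQ : KClass Q) (hne : ∃ w, SAP w ∧ Q w) (hc : CSum Q)
    {θ : ℝ} (hθ0 : 0 < θ) (hθ1 : θ < 1) : ∀ᶠ k : ℕ in atTop, θ ^ (2 * k) ≤ yq Q k := by
  obtain ⟨h1, -, -⟩ := gr_bounds Q hQ hne
  have hμ : 0 < gr Q := by linarith
  have hroots := (class_sum Q hQ hne hc).1
  have h2 : gr Q * θ < gr Q := by nlinarith
  filter_upwards [hroots.eventually_const_lt h2, class_pos Q hQ hne, eventually_ge_atTop 1]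
    with k h3 h4 h5
  have hk0 : (0 : ℝ) < k := by exact_mod_cast h5
  have h7 := pow_le_pow_left₀ (mul_pos hμ hθ0).le h3.le (2 * k)
  rw [← Real.rpow_natCast (pq Q (2 * k) ^ (1 / (2 * (k : ℝ)))), ← Real.rpow_mul h4.le] at h7
  have : 1 / (2 * (k : ℝ)) * ((2 * k : ℕ) : ℝ) = 1 := by
    push_cast
    field_simp
  rw [this, Real.rpow_one, mul_pow] at h7
  unfold yq
  rw [le_div_iff₀ (pow_pos hμ _), mul_comm]
  exact h7

/-- the second differences of the logarithms of the counts -/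
noncomputable def E2 (Q : List Dir → Prop) (k : ℕ) : ℝ :=
  Real.log (pq Q (2 * k) * pq Q (2 * k + 4) / pq Q (2 * k + 2) ^ 2)

theorem E2_eq (Q : List Dir → Prop) (hQ : KClass Q) (hne : ∃ w, SAP w ∧ Q w) :
    ∃ N : ℕ, ∀ k, N ≤ k → 0 < yq Q k ∧
      E2 Q k = dd (fun k => Real.log (yq Q k)) 1 k := by
  obtain ⟨h1, -, -⟩ := gr_bounds Q hQ hne
  have hμ : 0 < gr Q := by linarith
  obtain ⟨N, hN⟩ := eventually_atTop.1 (class_pos Q hQ hne)
  refine ⟨N, fun k hk => ?_⟩
  have p0 := hN k hk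
  have p1 := hN (k + 1) (by omega)
  have p2 := hN (k + 2) (by omega)
  refine ⟨div_pos p0 (pow_pos hμ _), ?_⟩
  unfold E2 dd yq
  simp only
  rw [Real.log_div p0.ne' (pow_pos hμ _).ne', Real.log_div p1.ne' (pow_pos hμ _).ne',
    show k + 2 * 1 = k + 2 by ring,
    Real.log_div p2.ne' (pow_pos hμ _).ne', Real.log_pow, Real.log_pow, Real.log_pow]
  rw [show 2 * (k + 1) = 2 * k + 2 by ring] at p1 ⊢
  rw [show 2 * (k + 2) = 2 * k + 4 by ring] at p2 ⊢
  rw [Real.log_div (mul_pos p0 p2).ne' (pow_pos p1 2).ne', Real.log_mul p0.ne' p2.ne', Real.log_pow]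
  push_cast
  ring

theorem abs_log_ratio {a b r : ℝ} (ha : 0 < a) (hb : 0 < b) (h : |b / a - 1| ≤ r)
    (hr : r ≤ 1 / 2) : |Real.log b - Real.log a| ≤ 2 * r := by
  rw [← Real.log_div hb.ne' ha.ne']
  have hx : 0 < b / a := div_pos hb ha
  have h1 := Real.log_le_sub_one_of_pos hx
  have h2 := Real.one_sub_inv_le_log_of_pos hx
  rw [abs_le] at h
  have h0 : 0 ≤ r := by linarith [h.1, h.2]
  have h3 : 1 / 2 ≤ b / a := by linarith [h.1]
  have h4 : 1 - (b / a)⁻¹ ≥ -(2 * r) := by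
    have e : 1 - (b / a)⁻¹ = (b / a - 1) / (b / a) := by
      rw [sub_div, div_self hx.ne', one_div]
    rw [e, ge_iff_le, le_div_iff₀ hx]
    nlinarith [h.1]
  rw [abs_le]
  constructor <;> linarith [h.2]

/-- **total variation, classes closed under connected sums** -/
theorem tv_csum (Q : List Dir → Prop) (hQ : KClass Q) (hne : ∃ w, SAP w ∧ Q w) (hc : CSum Q) :
    ∃ K : ℝ, 0 < K ∧ (∀ᶠ n : ℕ in atTop, ∀ w : ℕ, ∑ i ∈ range w, |E2 Q (n + i)| ≤
      K * (w / n + √((1 + dfc Q n) / n) + √((1 + dfc Q (n + w)) / (n + w : ℕ)))) ∧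
      (∀ ε : ℝ, 0 < ε → ∀ᶠ n : ℕ in atTop, ∀ w : ℕ, ∑ i ∈ range w, |E2 Q (n + i)| ≤
        K * (w / n) + ε) := by
  obtain ⟨h1, -, -⟩ := gr_bounds Q hQ hne
  have hμ : 0 < gr Q := by linarith
  obtain ⟨D, k0, hD, hac⟩ := ac_low Q hQ hne (fun θ hθ0 hθ1 => low_csum Q hQ hne hc hθ0 hθ1)
  simp only [add_zero, lk_two] at hac
  obtain ⟨N, hN⟩ := E2_eq Q hQ hne
  obtain ⟨R, hR, hrate⟩ := csum_rate Q hQ hne hc
  have hratio : Tendsto (fun k => yq Q (k + 1) / yq Q k) atTop (𝓝 1) := by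
    have h2 := ((class_sum Q hQ hne hc).2).div_const (gr Q ^ 2)
    rw [div_self (pow_pos hμ 2).ne'] at h2
    refine h2.congr' ?_
    filter_upwards [eventually_ge_atTop N] with k hk
    have h3 := (hN k hk).1
    unfold yq at h3 ⊢
    have h4 : 0 < pq Q (2 * k) := by
      rcases lt_trichotomy 0 (pq Q (2 * k)) with h | h | h
      · exact h
      · rw [← h] at h3; simp at h3
      · have := div_neg_of_neg_of_pos h (pow_pos hμ (2 * k)); linarith
    rw [show 2 * (k + 1) = 2 * k + 2 by ring, pow_add]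
    have h5 := (pow_pos hμ (2 * k)).ne'
    have h6 := (pow_pos hμ 2).ne'
    field_simp
  have hsl0 : Tendsto (fun k => |Real.log (yq Q (k + 1)) - Real.log (yq Q k)|) atTop (𝓝 0) := by
    have h2 := (hratio.log one_ne_zero).abs
    rw [Real.log_one, abs_zero] at h2
    refine h2.congr' ?_
    filter_upwards [eventually_ge_atTop N] with k hk
    rw [Real.log_div (hN (k + 1) (by omega)).1.ne' (hN k hk).1.ne']
  have hhalf : ∀ᶠ k in atTop, |yq Q (k + 1) / yq Q k - 1| ≤ 1 / 2 := by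
    have h2 := (hratio.sub_const 1).abs
    rw [sub_self, abs_zero] at h2
    exact h2.eventually_le_const (by norm_num)
  -- telescoping
  have htel : ∀ n, max N k0 + 1 ≤ n → ∀ w : ℕ, ∑ i ∈ range w, |E2 Q (n + i)| ≤
      2 * D * (w / n) + |Real.log (yq Q (n + 1)) - Real.log (yq Q n)| +
        |Real.log (yq Q (n + w + 1)) - Real.log (yq Q (n + w))| := by
    intro n hn w
    have hn0 : (0 : ℝ) < n := by exact_mod_cast (show 0 < n by omega)
    have hone : ∀ i, |E2 Q (n + i)| ≤ E2 Q (n + i) + 2 * D / n := by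
      intro i
      have h2 := hac (n + i) (by omega)
      have h3 := (hN (n + i) (by omega)).2
      have h4 : D / ((n + i : ℕ) : ℝ) ≤ D / n := by
        refine div_le_div_of_nonneg_left hD hn0 ?_
        push_cast
        have : (0 : ℝ) ≤ i := Nat.cast_nonneg _
        linarith
      have h5 : -(D / n) ≤ E2 Q (n + i) := by
        rw [h3]
        unfold dd
        simp only [mul_one]
        simp only at h2
        linarith
      have h6 : 0 ≤ D / (n : ℝ) := by positivity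
      have h7 : 2 * D / (n : ℝ) = 2 * (D / n) := by ring
      rw [abs_le]
      constructor
      · linarith
      · linarith
    have hsum : ∀ w : ℕ, ∑ i ∈ range w, E2 Q (n + i) =
        (Real.log (yq Q (n + w + 1)) - Real.log (yq Q (n + w))) -
        (Real.log (yq Q (n + 1)) - Real.log (yq Q n)) := by
      intro w
      induction w with
      | zero => simp
      | succ w ih =>
        rw [sum_range_succ, ih, (hN (n + w) (by omega)).2]
        unfold dd
        simp only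
        rw [show n + w + 2 * 1 = n + (w + 1) + 1 by ring, show n + w + 1 = n + (w + 1) by ring]
        ring
    calc ∑ i ∈ range w, |E2 Q (n + i)| ≤ ∑ i ∈ range w, (E2 Q (n + i) + 2 * D / n) :=
          sum_le_sum fun i _ => hone i
      _ = (Real.log (yq Q (n + w + 1)) - Real.log (yq Q (n + w))) -
          (Real.log (yq Q (n + 1)) - Real.log (yq Q n)) + w * (2 * D / n) := by
          rw [sum_add_distrib, hsum w, sum_const, card_range, nsmul_eq_mul]
      _ ≤ _ := by
          have a1 := le_abs_self (Real.log (yq Q (n + w + 1)) - Real.log (yq Q (n + w)))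
          have a2 := neg_abs_le (Real.log (yq Q (n + 1)) - Real.log (yq Q n))
          have a3 : (w : ℝ) * (2 * D / n) = 2 * D * (w / n) := by ring
          linarith
  obtain ⟨K, hK⟩ : ∃ K : ℝ, K = 2 * D + 2 * R := ⟨_, rfl⟩
  have hK0 : 0 < K := by rw [hK]; positivity
  refine ⟨K, hK0, ?_, ?_⟩
  · obtain ⟨M, hM⟩ := eventually_atTop.1 ((hrate.and hhalf))
    filter_upwards [eventually_ge_atTop (max M (max N k0 + 1))] with n hn w
    have h2 := htel n (by omega) w
    have hsl : ∀ m, max M (max N k0 + 1) ≤ m →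
        |Real.log (yq Q (m + 1)) - Real.log (yq Q m)| ≤ 2 * (R * √((1 + dfc Q m) / m)) := by
      intro m hm
      obtain ⟨h3, h4⟩ := hM m (by omega)
      have q0 := (hN m (by omega)).1
      have q1 := (hN (m + 1) (by omega)).1
      have h5 := abs_log_ratio q0 q1 le_rfl h4
      linarith
    have h3 := hsl n hn
    have h4 := hsl (n + w) (by omega)
    have h5 : (0 : ℝ) ≤ w / n := by positivity
    have h6 : 0 ≤ √((1 + dfc Q n) / n) := Real.sqrt_nonneg _
    have h7 : 0 ≤ √((1 + dfc Q (n + w)) / (n + w : ℕ)) := Real.sqrt_nonneg _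
    rw [hK]
    nlinarith [mul_nonneg hD h6, mul_nonneg hD h7, mul_nonneg hR.le h5]
  · intro ε hε
    obtain ⟨M, hM⟩ := eventually_atTop.1 (hsl0.eventually_le_const (show (0 : ℝ) < ε / 2 by positivity))
    filter_upwards [eventually_ge_atTop (max M (max N k0 + 1))] with n hn w
    have h2 := htel n (by omega) w
    have h3 := hM n (by omega)
    have h4 := hM (n + w) (by omega)
    have h5 : (0 : ℝ) ≤ w / n := by positivity
    rw [hK]
    nlinarith [mul_nonneg hR.le h5]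

/-- **total variation under polynomial bounds** -/
theorem tv_poly (Q : List Dir → Prop) (hQ : KClass Q) (hne : ∃ w, SAP w ∧ Q w) {M : ℝ}
    (hM : ∀ᶠ k : ℕ in atTop, 0 < yq Q k ∧ |Real.log (yq Q k)| ≤ M * (1 + Real.log k)) :
    ∃ K : ℝ, 0 < K ∧ ∀ᶠ n : ℕ in atTop, ∀ w : ℕ, ∑ i ∈ range w, |E2 Q (n + i)| ≤
      K * (w / n + √(Real.log n / n)) := by
  have h0 := ac_low Q hQ hne (fun θ hθ0 hθ1 => poly_low hM hθ0 hθ1)
  obtain ⟨D, k0, hD, hx⟩ := h0
  obtain ⟨ell, hell⟩ : ∃ ell : ℕ → ℝ, ell = fun k => Real.log (yq Q k) := ⟨_, rfl⟩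
  have hxe : AC ell D k0 := by
    rw [hell]
    intro k hk
    have := hx k hk
    simpa only [add_zero, lk_two] using this
  have hB : ∀ᶠ k : ℕ in atTop, |ell k| ≤ (2 * |M|) * Real.log k := by
    filter_upwards [hM, log_tend.eventually_ge_atTop 1] with k h1 h2
    rw [hell]
    simp only
    refine h1.2.trans ?_
    have := le_abs_self M
    have h3 := mul_le_mul_of_nonneg_right this (show 0 ≤ 1 + Real.log (k : ℝ) by linarith)
    have h4 := mul_le_mul_of_nonneg_left h2 (abs_nonneg M)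
    linarith
  obtain ⟨R, hR, hsl⟩ := Cvx.slopes hxe hD hB
  have hS : Ser ell 1 := by
    refine ⟨le_rfl, fun r hr => ⟨D, k0, hD, ?_⟩, ?_⟩
    · have hr0 : r = 0 := by omega
      subst hr0
      intro k hk
      simp only [one_mul, add_zero]
      exact hxe k hk
    · obtain ⟨N, hN⟩ := eventually_atTop.1 (hsl.and (eventually_ge_atTop 1))
      refine ⟨R, N, fun n hn => ?_⟩
      obtain ⟨h1, h2⟩ := hN n hn
      refine h1.trans ?_
      have hn0 : (0 : ℝ) < n := by exact_mod_cast h2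
      have h3 : √(Real.log n / n) ≤ 1 := by
        rw [Real.sqrt_le_left (by norm_num), one_pow, div_le_one hn0]
        exact Real.log_le_self hn0.le
      have := mul_le_mul_of_nonneg_left h3 hR.le
      linarith
  obtain ⟨K, hK, h⟩ := ser_poly hS hB
  obtain ⟨N, hN⟩ := E2_eq Q hQ hne
  refine ⟨K, hK, ?_⟩
  filter_upwards [eventually_ge_atTop (N + 2)] with n hn w
  have h1 := h n w (by omega)
  refine le_trans (le_of_eq ?_) h1
  refine sum_congr rfl fun i _ => ?_
  rw [(hN (n + i) (by omega)).2, hell]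

end Q215.SAW.Knot
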