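import Pool.Agent.Q228.SAP.BV2
import Pool.Agent.Q215.SAW.GapF
import Pool.Agent.Q215.SAW.Avg

/-!
# Almost log-convex sequences: averages, joint sharp formulas
-/

set_option autoImplicit false

namespace Q215.SAW.PolZ

open Finset Filter Topology Q215.SAW.Cvx

theorem ac_of_conv {c : ℕ → ℝ} {K ν : ℝ} (hν : 0 < ν) (hp : ∀ n, 2 ≤ n → 0 < c n)
    (hK : 0 ≤ K) (h : ∀ m : ℕ, 2 ≤ m → c (m + 1) ^ 2 ≤ (1 + K / m) * (c m * c (m + 2))) :
    AC (fun k => (fun n => Real.log (c n / ν ^ n)) (1 * k + 0)) K 2 := by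
  intro k hk
  have p0 := hp k hk
  have p1 := hp (k + 1) (by omega)
  have p2 := hp (k + 2) (by omega)
  have hk0 : (0 : ℝ) < k := by exact_mod_cast (show 0 < k by omega)
  have hg : 0 < 1 + K / k := by positivity
  have h2 := Real.log_le_log (pow_pos p1 2) (h k hk)
  rw [Real.log_pow, Real.log_mul hg.ne' (mul_pos p0 p2).ne', Real.log_mul p0.ne' p2.ne'] at h2
  have h3 : Real.log (1 + K / k) ≤ K / k := by
    have := Real.log_le_sub_one_of_pos hg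
    linarith
  simp only [add_zero, one_mul]
  rw [Real.log_div p0.ne' (pow_pos hν _).ne', Real.log_div p1.ne' (pow_pos hν _).ne',
    Real.log_div p2.ne' (pow_pos hν _).ne', Real.log_pow, Real.log_pow, Real.log_pow]
  push_cast at h2 ⊢
  linarith

/-- averages over windows at `m`, of two functions which are eventually equal -/
theorem avg_congr' {F G : ℕ → ℝ} (h : ∀ᶠ k : ℕ in atTop, F k = G k) (δ : ℝ) :
    ∀ᶠ m : ℕ in atTop, (∑ i ∈ range (wd δ m), F (m + i)) / wd δ m =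
      (∑ i ∈ range (wd δ m), G (m + i)) / wd δ m := by
  obtain ⟨N, hN⟩ := eventually_atTop.1 h
  filter_upwards [eventually_ge_atTop N] with m hm
  congr 1
  exact sum_congr rfl fun i _ => hN _ (by omega)

variable {c : ℕ → ℝ} {K ν : ℝ}

/-- the quotient `c_n / (ν^n n^g)` -/
noncomputable def quo (c : ℕ → ℝ) (ν g : ℝ) (n : ℕ) : ℝ := c n / (ν ^ n * (n : ℝ) ^ g)

theorem quo_eq (hν : 0 < ν) (hp : ∀ n, 2 ≤ n → 0 < c n) (g : ℝ) {n : ℕ} (hn : 2 ≤ n) :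
    quo c ν g n = GapF.F (fun n => Real.log (c n / ν ^ n)) 1 0 g n := by
  unfold quo GapF.F
  simp only [one_mul, add_zero]
  rw [Real.exp_log (div_pos (hp n hn) (pow_pos hν _)), div_div]

theorem quo_ev (hν : 0 < ν) (hp : ∀ n, 2 ≤ n → 0 < c n) (g : ℝ) :
    ∀ᶠ n in atTop, quo c ν g n = GapF.F (fun n => Real.log (c n / ν ^ n)) 1 0 g n := by
  filter_upwards [eventually_ge_atTop 2] with n hn
  exact quo_eq hν hp g hn

/-- **averages** -/
theorem avg_quo (hν : 0 < ν) (hp : ∀ n, 2 ≤ n → 0 < c n)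
    (hK : 0 ≤ K) (h : ∀ m : ℕ, 2 ≤ m → c (m + 1) ^ 2 ≤ (1 + K / m) * (c m * c (m + 2)))
    (g : ℝ) {A : ℝ} (hA : 0 < A)
    (hav : ∀ δ : ℝ, 0 < δ → Tendsto (fun m => (∑ i ∈ range (wd δ m), quo c ν g (m + i)) / wd δ m)
      atTop (𝓝 A)) : Tendsto (quo c ν g) atTop (𝓝 A) := by
  obtain ⟨D, k0, hD, hx⟩ := GapF.xF_ac (ell := fun n => Real.log (c n / ν ^ n)) (g := g) (s := 1)
    (e := 0) le_rfl ⟨K, 2, hK, ac_of_conv hν hp hK h⟩
  have hG : ∀ k, 1 ≤ k → GapF.F (fun n => Real.log (c n / ν ^ n)) 1 0 g k =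
      Real.exp (GapF.xF (fun n => Real.log (c n / ν ^ n)) 1 0 g k) :=
    fun k hk => GapF.F_exp le_rfl hk
  have hG0 : ∀ k, 0 ≤ GapF.F (fun n => Real.log (c n / ν ^ n)) 1 0 g k := by
    intro k
    unfold GapF.F
    positivity
  have hlim := avg_lim hx hD hG hG0 hA (fun δ hδ =>
    (hav δ hδ).congr' (avg_congr' (quo_ev hν hp g) δ))
  exact hlim.congr' ((quo_ev hν hp g).mono fun k hk => hk.symm)

/-- **sharp formulas**, gaps `o(√n)` -/
theorem quo_lim (hν : 0 < ν) (hp : ∀ n, 2 ≤ n → 0 < c n)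
    (hK : 0 ≤ K) (h : ∀ m : ℕ, 2 ≤ m → c (m + 1) ^ 2 ≤ (1 + K / m) * (c m * c (m + 2)))
    (g : ℝ) {A : ℝ} (hA : 0 < A) {t : ℕ → ℕ} (ht : Tendsto t atTop atTop) (hst : RootSparse t)
    (h1 : Tendsto (fun j => quo c ν g (t j)) atTop (𝓝 A)) :
    Tendsto (quo c ν g) atTop (𝓝 A) := by
  have h2 := GapF.F_lim (ell := fun n => Real.log (c n / ν ^ n)) (s := 1) (e := 0) (g := g) le_rfl
    ⟨K, 2, hK, ac_of_conv hν hp hK h⟩ ht hst hA (h1.congr' (by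
      filter_upwards [ht.eventually_ge_atTop 2] with j hj
      exact quo_eq hν hp g hj))
  exact h2.congr' ((quo_ev hν hp g).mono fun k hk => hk.symm)

/-- **orders of magnitude**, gaps `O(√n)` -/
theorem quo_bd (hν : 0 < ν) (hp : ∀ n, 2 ≤ n → 0 < c n)
    (hK : 0 ≤ K) (h : ∀ m : ℕ, 2 ≤ m → c (m + 1) ^ 2 ≤ (1 + K / m) * (c m * c (m + 2)))
    (g : ℝ) {a b η : ℝ} (ha : 0 < a) {t : ℕ → ℕ} (ht : Tendsto t atTop atTop)
    (hst : ∀ᶠ j in atTop, (t (j + 1) : ℝ) - t j ≤ η * √(t j))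
    (h1 : ∀ᶠ j in atTop, a ≤ quo c ν g (t j) ∧ quo c ν g (t j) ≤ b) :
    ∃ a' b' : ℝ, 0 < a' ∧ ∀ᶠ n in atTop, a' ≤ quo c ν g n ∧ quo c ν g n ≤ b' := by
  obtain ⟨-, -, -, f1⟩ := GapF.all4 (ell := fun n => Real.log (c n / ν ^ n)) (s := 1) (e := 0)
    (g := g) le_rfl ⟨K, 2, hK, ac_of_conv hν hp hK h⟩
  obtain ⟨α₁, β₁, hα₁, k1⟩ := f1 t η a b ht hst ha (by
    filter_upwards [ht.eventually_ge_atTop 2, h1] with j hj h2
    rw [← quo_eq hν hp g hj]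
    exact h2)
  refine ⟨α₁, β₁, hα₁, ?_⟩
  filter_upwards [k1, quo_ev hν hp g] with n h2 h3
  rw [h3]
  exact h2

/-! ### polygons -/

open Pool.Agent.H739K Pool.Agent.H924P

theorem p_pos {n : ℕ} (hn : 2 ≤ n) : 0 < H981.PP n := Pool.Agent.H739K.PP_pos hn

theorem conv0 : ∃ K : ℝ, 0 ≤ K ∧ ∀ m : ℕ, 2 ≤ m →
    H981.PP (m + 1) ^ 2 ≤ (1 + K / m) * (H981.PP m * H981.PP (m + 2)) := by
  obtain ⟨K, hK, h⟩ := Pool.Agent.Q228.SAP.area_conv 0
  refine ⟨K, hK, fun m hm => ?_⟩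
  have h1 := h m hm
  have e : ∀ N, 2 ≤ N → me N (fun f => (area (2 * N) f : ℝ) ^ 0) = 1 := by
    intro N hN
    have : me N (fun f => (area (2 * N) f : ℝ) ^ 0) = Pool.Agent.H739K.MOM.MK 0 N := rfl
    rw [this]
    unfold Pool.Agent.H739K.MOM.MK me
    simp only [pow_zero]
    have hpos := p_pos hN
    unfold H981.PP at hpos
    have hcard : Nat.card {f : ZMod (2 * N) → ℤ × ℤ // H981.IsLoop (2 * N) f} =
        ({f : ZMod (2 * N) → ℤ × ℤ | IsLoop (2 * N) f}).ncard := rfl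
    rw [hcard] at hpos
    have hn : 0 < ({f : ZMod (2 * N) → ℤ × ℤ | IsLoop (2 * N) f}).ncard := by
      rcases Nat.eq_zero_or_pos ({f : ZMod (2 * N) → ℤ × ℤ | IsLoop (2 * N) f}).ncard with h0 | h0
      · rw [h0] at hpos
        simp at hpos
      · exact h0
    have hfin := Set.finite_of_ncard_pos hn
    rw [finsum_mem_eq_finite_toFinset_sum _ hfin, Finset.sum_const, nsmul_eq_mul, mul_one,
      ← Set.ncard_eq_toFinset_card _ hfin, div_self]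
    exact_mod_cast hn.ne'
  rw [e _ hm, e _ (by omega), e _ (by omega), one_mul, one_mul, one_mul] at h1
  exact h1

end Q215.SAW.PolZ
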