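import Pool.Agent.Q215.SAW.MeanSer
import Pool.Agent.Q215.SAW.Glob

/-!
# The total variation of the slopes
-/

set_option autoImplicit false

namespace Q215.SAW

open Finset Filter Topology TH966.AK Cvx

/-- second differences at distance `s` -/
def dd (ell : ℕ → ℝ) (s n : ℕ) : ℝ := ell (n + 2 * s) - 2 * ell (n + s) + ell n

theorem rate_anti {n m : ℕ} (hn : 8 ≤ n) (hm : n ≤ m) :
    Real.log m / √(m : ℝ) ≤ Real.log n / √(n : ℝ) := by
  have h8 : Real.exp 2 ≤ 8 := by
    have h1 := Real.exp_one_lt_d9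
    have h2 : Real.exp 2 = Real.exp 1 ^ 2 := by rw [← Real.exp_nat_mul]; norm_num
    rw [h2]
    have h3 := Real.exp_pos 1
    nlinarith
  have h1 : (8 : ℝ) ≤ n := by exact_mod_cast hn
  have h2 : (n : ℝ) ≤ m := by exact_mod_cast hm
  exact Real.log_div_sqrt_antitoneOn (Set.mem_Ici.2 (h8.trans h1))
    (Set.mem_Ici.2 ((h8.trans h1).trans h2)) h2

theorem tele (z : ℕ → ℝ) (s n w : ℕ) :
    ∑ k ∈ range w, (z (n + k + s) - z (n + k)) =
      ∑ j ∈ range s, (z (n + w + j) - z (n + j)) := by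
  induction w with
  | zero => simp
  | succ w ih =>
    rw [sum_range_succ, ih]
    have h1 : ∑ j ∈ range s, (z (n + (w + 1) + j) - z (n + j)) -
        ∑ j ∈ range s, (z (n + w + j) - z (n + j)) = z (n + w + s) - z (n + w) := by
      rw [← sum_sub_distrib]
      have h2 : ∀ j ∈ range s, (z (n + (w + 1) + j) - z (n + j) - (z (n + w + j) - z (n + j))) =
          z (n + w + (j + 1)) - z (n + w + j) := by
        intro j _
        rw [show n + (w + 1) + j = n + w + (j + 1) by ring]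
        ring
      rw [sum_congr rfl h2, sum_range_sub (fun j => z (n + w + j)) s]
      simp
    linarith

/-- the total variation -/
theorem tv_large {ell : ℕ → ℝ} {s : ℕ} {D C : ℝ} {N : ℕ} (hD : 0 ≤ D) (hC : 0 ≤ C) (hN : 8 ≤ N)
    (h1 : ∀ n, N ≤ n → -(D / n) ≤ dd ell s n)
    (h2 : ∀ n, N ≤ n → |ell (n + s) - ell n| ≤ C * (Real.log n / √(n : ℝ))) {n : ℕ} (hn : N ≤ n)
    (w : ℕ) : ∑ k ∈ range w, |dd ell s (n + k)| ≤
      2 * D * (w / n) + 2 * s * C * (Real.log n / √(n : ℝ)) := by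
  have hn0 : (0 : ℝ) < n := by exact_mod_cast (show 0 < n by omega)
  have e : ∀ k, dd ell s (n + k) = (ell (n + k + s + s) - ell (n + k + s)) -
      (ell (n + k + s) - ell (n + k)) := by
    intro k
    unfold dd
    rw [show n + k + 2 * s = n + k + s + s by ring]
    ring
  have h3 : ∀ k, |dd ell s (n + k)| ≤ dd ell s (n + k) + 2 * D / n := by
    intro k
    have h4 := h1 (n + k) (by omega)
    have h5 : D / ((n + k : ℕ) : ℝ) ≤ D / n :=
      div_le_div_of_nonneg_left hD hn0 (by exact_mod_cast (Nat.le_add_right n k))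
    have h6 : 0 ≤ D / n := by positivity
    rw [abs_le]
    have e2 : 2 * D / (n : ℝ) = 2 * (D / n) := by ring
    rw [e2]
    constructor <;> linarith
  have h4 : ∑ k ∈ range w, dd ell s (n + k) ≤ 2 * s * C * (Real.log n / √(n : ℝ)) := by
    have e2 : ∑ k ∈ range w, dd ell s (n + k) =
        ∑ j ∈ range s, ((ell (n + w + j + s) - ell (n + w + j)) -
          (ell (n + j + s) - ell (n + j))) := by
      rw [← tele (fun m => ell (m + s) - ell m) s n w]
      exact sum_congr rfl fun k _ => e k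
    rw [e2]
    have h5 : ∀ j ∈ range s, ((ell (n + w + j + s) - ell (n + w + j)) -
          (ell (n + j + s) - ell (n + j))) ≤ 2 * (C * (Real.log n / √(n : ℝ))) := by
      intro j _
      have h6 := (abs_le.1 (h2 (n + w + j) (by omega))).2
      have h7 := (abs_le.1 (h2 (n + j) (by omega))).1
      have h8 := mul_le_mul_of_nonneg_left (rate_anti (n := n) (m := n + w + j) (by omega)
        (by omega)) hC
      have h9 := mul_le_mul_of_nonneg_left (rate_anti (n := n) (m := n + j) (by omega)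
        (by omega)) hC
      linarith
    refine (sum_le_sum h5).trans (le_of_eq ?_)
    rw [sum_const, card_range, nsmul_eq_mul]
    ring
  calc ∑ k ∈ range w, |dd ell s (n + k)| ≤ ∑ k ∈ range w, (dd ell s (n + k) + 2 * D / n) :=
        sum_le_sum fun k _ => h3 k
    _ = ∑ k ∈ range w, dd ell s (n + k) + 2 * D * (w / n) := by
        rw [sum_add_distrib, sum_const, card_range, nsmul_eq_mul]
        ring
    _ ≤ _ := by linarith

/-- the total variation for all `n ≥ 2` -/
theorem tv_all {ell : ℕ → ℝ} {s : ℕ} {D C : ℝ} {N : ℕ} (hD : 0 ≤ D) (hC : 0 ≤ C)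
    (h1 : ∀ n, N ≤ n → -(D / n) ≤ dd ell s n)
    (h2 : ∀ n, N ≤ n → |ell (n + s) - ell n| ≤ C * (Real.log n / √(n : ℝ))) :
    ∃ K : ℝ, 0 < K ∧ ∀ n w : ℕ, 2 ≤ n → ∑ k ∈ range w, |dd ell s (n + k)| ≤
      K * (w / n + Real.log n / √(n : ℝ)) := by
  obtain ⟨M, hM, hM8⟩ : ∃ M : ℕ, N ≤ M ∧ 8 ≤ M := ⟨max N 8, le_max_left _ _, le_max_right _ _⟩
  have key : ∀ n, M ≤ n → ∀ w : ℕ, ∑ k ∈ range w, |dd ell s (n + k)| ≤
      2 * D * (w / n) + 2 * s * C * (Real.log n / √(n : ℝ)) := fun n hn w =>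
    tv_large hD hC hM8 (fun n hn => h1 n (hM.trans hn)) (fun n hn => h2 n (hM.trans hn)) hn w
  obtain ⟨S, hS⟩ : ∃ S : ℝ, S = ∑ k ∈ range M, |dd ell s k| := ⟨_, rfl⟩
  have hS0 : 0 ≤ S := by rw [hS]; exact sum_nonneg fun _ _ => abs_nonneg _
  obtain ⟨c, hc⟩ : ∃ c : ℝ, c = Real.log 2 / √(M : ℝ) := ⟨_, rfl⟩
  have hM0 : (0 : ℝ) < M := by exact_mod_cast (show 0 < M by omega)
  have hc0 : 0 < c := by
    rw [hc]
    have : 0 < Real.log 2 := Real.log_pos (by norm_num)
    have : 0 < √(M : ℝ) := Real.sqrt_pos.2 hM0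
    positivity
  obtain ⟨U, hU⟩ : ∃ U : ℝ, U = 2 * s * C * (Real.log M / √(M : ℝ)) := ⟨_, rfl⟩
  have hU0 : 0 ≤ U := by
    rw [hU]
    have := Real.log_natCast_nonneg M
    positivity
  refine ⟨2 * D + 2 * s * C + (S + U) / c + 1, by positivity, ?_⟩
  intro n w hn
  have hn0 : (0 : ℝ) < n := by exact_mod_cast (show 0 < n by omega)
  have hr0 : 0 ≤ Real.log n / √(n : ℝ) :=
    div_nonneg (Real.log_natCast_nonneg n) (Real.sqrt_nonneg _)
  have hw0 : (0 : ℝ) ≤ w / n := by positivity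
  have hq : 0 ≤ (S + U) / c := by positivity
  by_cases hcs : M ≤ n
  · refine (key n hcs w).trans ?_
    have h3 : 2 * D * (w / n) ≤ (2 * D + 2 * s * C + (S + U) / c + 1) * (w / n) :=
      mul_le_mul_of_nonneg_right (by
        have : 0 ≤ 2 * (s : ℝ) * C := by positivity
        linarith) hw0
    have h4 : 2 * s * C * (Real.log n / √(n : ℝ)) ≤
        (2 * D + 2 * s * C + (S + U) / c + 1) * (Real.log n / √(n : ℝ)) :=
      mul_le_mul_of_nonneg_right (by linarith) hr0
    linarith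
  · push Not at hcs
    have hrc : c ≤ Real.log n / √(n : ℝ) := by
      rw [hc]
      refine div_le_div₀ (Real.log_natCast_nonneg n) ?_ (Real.sqrt_pos.2 hn0) ?_
      · exact Real.log_le_log (by norm_num) (by exact_mod_cast hn)
      · exact Real.sqrt_le_sqrt (by exact_mod_cast hcs.le)
    -- split
    have hsplit : ∑ k ∈ range w, |dd ell s (n + k)| ≤
        S + ∑ k ∈ range w, |dd ell s (M + k)| := by
      have h5 : ∑ k ∈ range w, |dd ell s (n + k)| = ∑ k ∈ Ico n (n + w), |dd ell s k| := by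
        rw [sum_Ico_eq_sum_range]
        congr 2
        omega
      have h6 : ∑ k ∈ range w, |dd ell s (M + k)| = ∑ k ∈ Ico M (M + w), |dd ell s k| := by
        rw [sum_Ico_eq_sum_range]
        congr 2
        omega
      rw [h5, h6, hS]
      have h7 : Disjoint (range M) (Ico M (M + w)) := by
        rw [disjoint_left]
        intro a ha hb
        rw [mem_range] at ha
        rw [mem_Ico] at hb
        omega
      rw [← sum_union h7]
      refine sum_le_sum_of_subset_of_nonneg ?_ fun _ _ _ => abs_nonneg _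
      intro a ha
      rw [mem_Ico] at ha
      rw [mem_union, mem_range, mem_Ico]
      omega
    have h8 := key M le_rfl w
    rw [← hU] at h8
    have h9 : 2 * D * (w / M) ≤ 2 * D * (w / n) := by
      refine mul_le_mul_of_nonneg_left ?_ (by positivity)
      exact div_le_div_of_nonneg_left (Nat.cast_nonneg _) hn0 (by exact_mod_cast hcs.le)
    have h10 : S + U ≤ (S + U) / c * (Real.log n / √(n : ℝ)) := by
      rw [div_mul_eq_mul_div, le_div_iff₀ hc0]
      exact mul_le_mul_of_nonneg_left hrc (by positivity)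
    have h11 : 0 ≤ (2 * s * C + (S + U) / c + 1) * (w / n) := by positivity
    have h12 : 0 ≤ (2 * D + 2 * s * C + 1) * (Real.log n / √(n : ℝ)) := by positivity
    have h13 : (2 * D + 2 * s * C + (S + U) / c + 1) * (w / n + Real.log n / √(n : ℝ)) =
        2 * D * (w / n) + (2 * s * C + (S + U) / c + 1) * (w / n) +
        ((S + U) / c * (Real.log n / √(n : ℝ)) +
          (2 * D + 2 * s * C + 1) * (Real.log n / √(n : ℝ))) := by ring
    rw [h13]
    linarith

/-! ### weighted numbers of walks -/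

variable {A : P → P → Prop} {Z : Rule A} {μ K : ℝ}

/-- logarithm of the normalised weighted number -/
noncomputable def el (A : P → P → Prop) (μ : ℝ) (F : P → ℝ) (n : ℕ) : ℝ :=
  Real.log (WF A F n / μ ^ n)

theorem cvxF (G : Growth Z μ K) {m : ℕ} {F : P → ℝ} {b : ℝ} (hF : WOK A m F b) :
    ∃ (D : ℝ) (N : ℕ), 0 ≤ D ∧ ∀ n, N ≤ n → -(D / n) ≤ dd (el A μ F) Z.s n := by
  have hS := ser G hF
  have hs := G.hs
  choose! D k0 hD h using hS.ac
  obtain ⟨k1, hk1⟩ : ∃ k1 : ℕ, ∀ r, r < Z.s → k0 r ≤ k1 :=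
    ⟨∑ r ∈ range Z.s, k0 r, fun r hr => single_le_sum (fun _ _ => Nat.zero_le _)
      (mem_range.2 hr)⟩
  obtain ⟨E, hE⟩ : ∃ E : ℝ, ∀ r, r < Z.s → D r ≤ E :=
    ⟨∑ r ∈ range Z.s, |D r|, fun r hr => (le_abs_self _).trans
      (single_le_sum (f := fun r => |D r|) (fun _ _ => abs_nonneg _) (mem_range.2 hr))⟩
  have hE0 : 0 ≤ E := (hD 0 hs).trans (hE 0 hs)
  refine ⟨2 * Z.s * E, Z.s * (k1 + 1), by positivity, ?_⟩
  intro n hn
  have hr : n % Z.s < Z.s := Nat.mod_lt _ hs
  have hnk : Z.s * (n / Z.s) + n % Z.s = n := Nat.div_add_mod n Z.s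
  have hk : k1 + 1 ≤ n / Z.s := by
    rw [Nat.le_div_iff_mul_le hs, mul_comm]
    exact hn
  have h1 := h (n % Z.s) hr (n / Z.s) ((hk1 _ hr).trans (by omega))
  simp only at h1
  have e1 : Z.s * (n / Z.s + 1) + n % Z.s = n + Z.s := by
    rw [mul_add, mul_one]; omega
  have e2 : Z.s * (n / Z.s + 2) + n % Z.s = n + 2 * Z.s := by
    rw [mul_add]; omega
  rw [e1, e2, hnk] at h1
  obtain ⟨b1, b2, b3⟩ := div_bounds hs (show Z.s ≤ n by
    have : Z.s * 1 ≤ Z.s * (k1 + 1) := Nat.mul_le_mul_left _ (by omega)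
    omega)
  have hn0 : (0 : ℝ) < n := by
    have : (1 : ℝ) ≤ Z.s := by exact_mod_cast hs
    nlinarith
  have h2 : D (n % Z.s) / ((n / Z.s : ℕ) : ℝ) ≤ 2 * Z.s * E / n := by
    rw [div_le_div_iff₀ (by linarith) hn0]
    have h3 := hE _ hr
    calc D (n % Z.s) * n ≤ E * (2 * Z.s * ((n / Z.s : ℕ) : ℝ)) :=
          mul_le_mul h3 b3 hn0.le hE0
      _ = _ := by ring
  unfold dd el
  linarith

theorem card_slope (G : Growth Z μ K) : ∃ (C : ℝ) (N : ℕ), 0 ≤ C ∧ ∀ n, N ≤ n →
    |el A μ (fun _ => 1) (n + Z.s) - el A μ (fun _ => 1) n| ≤ C * (Real.log n / √(n : ℝ)) := by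
  have hμ := G.hμ
  have hμ0 : 0 < μ := by linarith
  obtain ⟨R, δ, hR, hδ, h⟩ := ratio_allG G
  have h1 : Tendsto (fun n : ℕ => R * (Real.log n / √(n : ℝ))) atTop (𝓝 0) := by
    have := log_sq_tendsto.const_mul R
    rwa [mul_zero] at this
  obtain ⟨N, hN⟩ := eventually_atTop.1 ((h1.eventually_lt_const
    (show (0 : ℝ) < 1 / 2 by norm_num)).and (eventually_ge_atTop 2))
  refine ⟨2 * R, N, by positivity, ?_⟩
  intro n hn
  obtain ⟨h2, h3⟩ := hN n hn
  have hc := card_pos G n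
  have hc' := card_pos G (n + Z.s)
  have e : ∀ n, cG A (fun _ => 1) n = ((Kw A n).card : ℝ) := by
    intro n
    unfold cG
    simp
  obtain ⟨h4, -⟩ := h (fun _ => 1) ⟨fun _ => zero_le_one, fun _ => le_rfl, fun _ _ _ _ _ _ => rfl⟩
    n h3 (by
      rw [e, div_self hc.ne']
      refine Real.exp_le_one_iff.2 ?_
      have : (0 : ℝ) ≤ n := Nat.cast_nonneg n
      nlinarith)
  rw [e, e, div_self hc.ne', div_one, Real.log_one, add_zero, Real.sqrt_div (sq_nonneg _),
    Real.sqrt_sq (Real.log_natCast_nonneg n)] at h4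
  unfold el
  rw [WF_one, WF_one, ← Real.log_div (by positivity) (by positivity)]
  have e2 : ((Kw A (n + Z.s)).card : ℝ) / μ ^ (n + Z.s) / (((Kw A n).card : ℝ) / μ ^ n) =
      ((Kw A (n + Z.s)).card : ℝ) / (Kw A n).card / μ ^ Z.s := by
    rw [pow_add]
    field_simp
  rw [e2]
  refine (abs_log_le (h4.trans h2.le)).trans ?_
  linarith

theorem mean_slope (G : Growth Z μ K) {m : ℕ} {F : P → ℝ} (hF : Fn A m F) :
    ∃ (C : ℝ) (N : ℕ), 0 ≤ C ∧ ∀ n, N ≤ n →
    |Real.log (MF A F (n + Z.s)) - Real.log (MF A F n)| ≤ C * (Real.log n / √(n : ℝ)) := by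
  obtain ⟨R, hR, h⟩ := G.meanF m
  have h1 : Tendsto (fun n : ℕ => R * (Real.log n / √(n : ℝ))) atTop (𝓝 0) := by
    have := log_sq_tendsto.const_mul R
    rwa [mul_zero] at this
  obtain ⟨N, hN⟩ := eventually_atTop.1 ((h1.eventually_lt_const
    (show (0 : ℝ) < 1 / 2 by norm_num)).and ((eventually_ge_atTop 2).and h))
  refine ⟨2 * R, N, by positivity, ?_⟩
  intro n hn
  obtain ⟨h2, h3, h4⟩ := hN n hn
  have h5 := h4 F hF
  have p1 := MF_pos G hF (show 1 ≤ n by omega)
  have p2 := MF_pos G hF (show 1 ≤ n + Z.s by omega)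
  rw [← Real.log_div p2.ne' p1.ne']
  refine (abs_log_le (h5.trans h2.le)).trans ?_
  linarith

/-- **second differences of the numbers of walks** -/
theorem dd_card (G : Growth Z μ K) : ∃ K' : ℝ, 0 < K' ∧ ∀ n w : ℕ, 2 ≤ n →
    ∑ k ∈ range w, |dd (el A μ (fun _ => 1)) Z.s (n + k)| ≤
      K' * (w / n + Real.log n / √(n : ℝ)) := by
  obtain ⟨D, N1, hD, h1⟩ := cvxF G (fn_oneM A 0)
  obtain ⟨C, N2, hC, h2⟩ := card_slope G
  exact tv_all (N := max N1 N2) hD hC (fun n hn => h1 n ((le_max_left _ _).trans hn))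
    (fun n hn => h2 n ((le_max_right _ _).trans hn))

/-- **second differences of the means** -/
theorem dd_mean (G : Growth Z μ K) {m : ℕ} {F : P → ℝ} {b : ℝ} (hF : WOK A m F b) :
    ∃ K' : ℝ, 0 < K' ∧ ∀ n w : ℕ, 2 ≤ n →
    ∑ k ∈ range w, |dd (fun n => Real.log (MF A F n)) Z.s (n + k)| ≤
      K' * (w / n + Real.log n / √(n : ℝ)) := by
  have hμ := G.hμ
  have hμ0 : 0 < μ := by linarith
  obtain ⟨D, N1, hD, h1⟩ := cvxF G hF
  obtain ⟨C, N2, hC, h2⟩ := card_slope G
  obtain ⟨C', N3, hC', h3⟩ := mean_slope G hF.fn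
  have e : ∀ n, 1 ≤ n → el A μ F n = el A μ (fun _ => 1) n + Real.log (MF A F n) := by
    intro n hn
    have p1 := MF_pos G hF.fn hn
    have p2 := card_pos G n
    unfold el
    rw [WF_one, ← Real.log_mul (by positivity) p1.ne']
    congr 1
    unfold MF
    field_simp
  obtain ⟨K1, hK1, g1⟩ := dd_card G
  obtain ⟨K2, hK2, g2⟩ := tv_all (ell := el A μ F) (s := Z.s) (D := D) (C := C + C')
    (N := max (max N1 N2) (max N3 1)) hD (by positivity)
    (fun n hn => h1 n ((le_max_left _ _).trans ((le_max_left _ _).trans hn))) (by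
    intro n hn
    have a1 : N2 ≤ n := (le_max_right _ _).trans ((le_max_left _ _).trans hn)
    have a2 : N3 ≤ n := (le_max_left _ _).trans ((le_max_right _ _).trans hn)
    have a3 : 1 ≤ n := (le_max_right _ _).trans ((le_max_right _ _).trans hn)
    rw [e n a3, e (n + Z.s) (by omega)]
    have b1 := h2 n a1
    have b2 := h3 n a2
    have e3 : el A μ (fun _ => 1) (n + Z.s) + Real.log (MF A F (n + Z.s)) -
        (el A μ (fun _ => 1) n + Real.log (MF A F n)) =
        (el A μ (fun _ => 1) (n + Z.s) - el A μ (fun _ => 1) n) +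
        (Real.log (MF A F (n + Z.s)) - Real.log (MF A F n)) := by ring
    rw [e3]
    refine (abs_add_le _ _).trans ?_
    linarith)
  refine ⟨K1 + K2, by positivity, ?_⟩
  intro n w hn
  have h4 : ∀ k, |dd (fun n => Real.log (MF A F n)) Z.s (n + k)| ≤
      |dd (el A μ F) Z.s (n + k)| + |dd (el A μ (fun _ => 1)) Z.s (n + k)| := by
    intro k
    have e4 : dd (fun n => Real.log (MF A F n)) Z.s (n + k) =
        dd (el A μ F) Z.s (n + k) - dd (el A μ (fun _ => 1)) Z.s (n + k) := by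
      unfold dd
      rw [e _ (by omega), e _ (by omega), e _ (by omega)]
      ring
    rw [e4]
    exact abs_sub _ _
  refine (sum_le_sum fun k _ => h4 k).trans ?_
  rw [sum_add_distrib]
  have a1 := g1 n w hn
  have a2 := g2 n w hn
  linarith

end Q215.SAW
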