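import Pool.Agent.Q219.SAW.WinF

/-!
# The window theorem for lattices with automorphisms which move the origin to every site
-/

set_option autoImplicit false

namespace Q215.SAW

open Finset Filter Topology TH966.AK Q219.SAW
open scoped Classical

variable {A : P → P → Prop} {Z : Rule A}

/-- automorphisms of the lattice which move the origin to every site -/
structure Vt (A : P → P → Prop) where
  φ : P → P ≃ P
  zero : ∀ x, φ x 0 = x
  adj : ∀ x p q, A (φ x p) (φ x q) ↔ A p q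

theorem mp_nodup (e : P ≃ P) {v : List P} : (v.map e).Nodup ↔ v.Nodup :=
  List.nodup_map_iff e.injective

theorem mp_chain (V : Vt A) {x : P} {v : List P} :
    (v.map (V.φ x)).IsChain A ↔ v.IsChain A := by
  rw [List.isChain_map]
  simp only [V.adj]

theorem mp_chain_symm (V : Vt A) {x : P} {v : List P} :
    (v.map (V.φ x).symm).IsChain A ↔ v.IsChain A := by
  rw [← mp_chain V (x := x), List.map_map]
  simp

theorem mp_symm (e : P ≃ P) (v : List P) : (v.map e.symm).map e = v := by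
  rw [List.map_map]
  simp

/-- the free sites of the domain, seen from `x` -/
def DomV (V : Vt A) (D : Set P) (g0 : List P) (x : P) (g1 : List P) : Set P :=
  {z | V.φ x z ∉ g0 ∧ V.φ x z ∉ g1 ∧ V.φ x z ∈ D}

/-- the fillings are the images of the walks in the free domain -/
theorem fill_eq (Z : Rule A) (V : Vt A) {a l m : ℕ}
    {D : Set P} {g0 g1 : List P} {x y : P} (h0 : g0.length = a) (h1 : g1.length = m)
    (hg : Good A g0 x y g1) (hD0 : In D (g0 ++ [x])) (hD1 : In D (y :: g1)) :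
    (((KD A D (a + (l + 1) + m)).filter (fun w => w.take (a + 1) = g0 ++ [x] ∧
      w.drop (a + (l + 1)) = y :: g1)).card : ℝ) =
      cD A (DomV V D g0 x g1) (ind {(V.φ x).symm y}) (l + 1) := by
  have h2 : cD A (DomV V D g0 x g1) (ind {(V.φ x).symm y}) (l + 1) =
      (((KD A (DomV V D g0 x g1) (l + 1)).filter (fun v => lst v = (V.φ x).symm y)).card : ℝ) := by
    unfold cD ind
    simp only [Set.mem_singleton_iff]
    rw [← sum_filter, sum_const, nsmul_one]
  rw [h2]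
  congr 1
  symm
  have hwalk := hg.hd
  refine Finset.card_bij (fun v _ => g0 ++ v.map (V.φ x) ++ g1) ?_ ?_ ?_
  · intro v hv
    rw [mem_filter, mem_KD (Z := Z)] at hv
    obtain ⟨⟨⟨v1, v2, v3, v4⟩, v5⟩, v6⟩ := hv
    obtain ⟨p, t, rfl⟩ := List.exists_cons_of_length_eq_add_one v1
    simp only [List.head?_cons, Option.some.injEq] at v2
    subst v2
    have ht : t ≠ [] := by
      rintro rfl
      simp at v1
    obtain ⟨mid, z, rfl⟩ : ∃ mid z, t = mid ++ [z] := by
      rcases t.eq_nil_or_concat with h | ⟨mid, z, h⟩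
      · exact absurd h ht
      · exact ⟨mid, z, by rw [h, List.concat_eq_append]⟩
    have hz : z = (V.φ x).symm y := by
      rw [← v6]
      unfold lst
      rw [← List.cons_append, List.getLast?_concat, Option.getD_some]
    subst hz
    have hml : mid.length = l := by simpa using v1
    have e1 : ((0 : P) :: (mid ++ [(V.φ x).symm y])).map (V.φ x) =
        x :: (mid.map (V.φ x) ++ [y]) := by
      simp [V.zero]
    have hnd : (((0 : P) :: (mid ++ [(V.φ x).symm y])).map (V.φ x)).Nodup := (mp_nodup _).2 v3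
    have hch : (((0 : P) :: (mid ++ [(V.φ x).symm y])).map (V.φ x)).IsChain A :=
      (mp_chain V).2 v4
    rw [e1] at hnd hch
    have hdis : ∀ z ∈ x :: (mid.map (V.φ x) ++ [y]), z ∉ g0 ∧ z ∉ g1 ∧ z ∈ D := by
      intro z hz
      rw [← e1] at hz
      rw [List.mem_map] at hz
      obtain ⟨u, hu, rfl⟩ := hz
      exact v5 u hu
    rw [mem_filter, mem_KD (Z := Z), e1]
    have e2 : g0 ++ (x :: (mid.map (V.φ x) ++ [y])) ++ g1 =
        (g0 ++ [x]) ++ (mid.map (V.φ x) ++ (y :: g1)) := by simp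
    refine ⟨⟨⟨?_, ?_, ?_, ?_⟩, ?_⟩, ?_, ?_⟩
    · simp only [List.length_append, List.length_cons, List.length_nil, List.length_map]
      rw [hml, h0, h1]
      omega
    · rw [e2, ← hwalk.1]
      cases g0 <;> simp
    · rw [List.nodup_append, List.nodup_append]
      have hg0 : g0.Nodup := (List.nodup_append.1 hwalk.2.1).1
      have hg1 : g1.Nodup := (List.nodup_cons.1 hg.nd).2
      refine ⟨⟨hg0, hnd, ?_⟩, hg1, ?_⟩
      · intro z hz z' hz' hzz
        subst hzz
        exact (hdis z hz').1 hz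
      · intro z hz z' hz' hzz
        subst hzz
        rw [List.mem_append] at hz
        rcases hz with hz | hz
        · exact hg.dj z (by simp [hz]) (by simp [hz'])
        · exact (hdis z hz).2.1 hz'
    · have c1 : (g0 ++ (x :: (mid.map (V.φ x) ++ [y])) ++ g1) =
          g0 ++ x :: (mid.map (V.φ x) ++ y :: g1) := by simp
      rw [c1, List.isChain_split]
      refine ⟨hwalk.2.2, ?_⟩
      have c2 : x :: (mid.map (V.φ x) ++ y :: g1) = (x :: mid.map (V.φ x)) ++ y :: g1 := by simp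
      rw [c2, List.isChain_split]
      refine ⟨?_, hg.ch⟩
      simpa using hch
    · intro z hz
      rw [List.mem_append, List.mem_append] at hz
      rcases hz with (hz | hz) | hz
      · exact hD0 z (by simp [hz])
      · exact (hdis z hz).2.2
      · exact hD1 z (by simp [hz])
    · rw [e2, List.take_append_of_le_length (by simp [h0])]
      rw [List.take_of_length_le (by simp [h0])]
    · have e3 : g0 ++ (x :: (mid.map (V.φ x) ++ [y])) ++ g1 =
          (g0 ++ (x :: mid.map (V.φ x))) ++ (y :: g1) := by simp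
      have hlen : (g0 ++ (x :: mid.map (V.φ x))).length = a + (l + 1) := by
        simp only [List.length_append, List.length_cons, List.length_map]
        rw [hml, h0]
      rw [e3, ← hlen, List.drop_left]
  · intro v hv v' hv' h
    have h3 := List.append_cancel_right h
    have h4 := List.append_cancel_left h3
    exact List.map_injective_iff.2 (V.φ x).injective h4
  · intro w hw
    rw [mem_filter, mem_KD (Z := Z)] at hw
    obtain ⟨⟨⟨w0, w1, w2, w3⟩, wD⟩, w4, w5⟩ := hw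
    obtain ⟨mid, hm, rfl⟩ := walk_split w0 w4 w5
    have e1 : ((0 : P) :: (mid.map (V.φ x).symm ++ [(V.φ x).symm y])).map (V.φ x) =
        x :: (mid ++ [y]) := by
      rw [List.map_cons, List.map_append, mp_symm, V.zero]
      simp
    refine ⟨0 :: (mid.map (V.φ x).symm ++ [(V.φ x).symm y]), ?_, by rw [e1]⟩
    rw [mem_filter, mem_KD (Z := Z)]
    have n1 := List.nodup_append.1 w2
    have n2 := List.nodup_append.1 n1.1
    refine ⟨⟨⟨?_, ?_, ?_, ?_⟩, ?_⟩, ?_⟩
    · simp only [List.length_append, List.length_cons, List.length_nil, List.length_map]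
      rw [hm]
    · simp
    · rw [← mp_nodup (V.φ x), e1]
      exact n2.2.1
    · rw [← mp_chain V (x := x), e1]
      exact (List.isChain_append.1 (List.isChain_append.1 w3).1).2.1
    · intro z hz
      have hz' : V.φ x z ∈ x :: (mid ++ [y]) := by
        rw [← e1]
        rw [List.mem_map]
        exact ⟨z, hz, rfl⟩
      refine ⟨fun hc => ?_, fun hc => ?_, ?_⟩
      · exact n2.2.2 _ hc _ hz' rfl
      · exact n1.2.2 _ (by rw [List.mem_append]; exact Or.inr hz') _ hc rfl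
      · exact wD _ (by rw [List.mem_append, List.mem_append]; exact Or.inl (Or.inr hz'))
    · unfold lst
      rw [← List.cons_append, List.getLast?_concat, Option.getD_some]

/-- coding of the outer parts -/
noncomputable def cod (V : Vt A) (o : List P × List P) : List P × P × List P :=
  (o.1, o.2.head?.getD 0, o.2.map (V.φ (o.2.head?.getD 0)).symm)

theorem cod_inj (V : Vt A) : Function.Injective (cod V) := by
  rintro ⟨u, v⟩ ⟨u', v'⟩ h
  unfold cod at h
  simp only [Prod.mk.injEq] at h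
  obtain ⟨h1, h2, h3⟩ := h
  rw [h2] at h3
  have h4 := List.map_injective_iff.2 (V.φ (v'.head?.getD 0)).symm.injective h3
  rw [h1, h4]

theorem card_out (Z : Rule A) (V : Vt A) (a l m : ℕ) :
    ((Kw A (a + (l + 1) + m)).image (out a (l + 1))).card ≤
      (Kw A a).card * ((2 * (a + (l + 1) + m) + 1) ^ 2 * (Kw A m).card) := by
  rw [← card_image_of_injective _ (cod_inj V), ← card_box 0, ← card_product, ← card_product]
  refine card_le_card ?_
  intro c hc
  rw [mem_image] at hc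
  obtain ⟨o, ho, rfl⟩ := hc
  rw [mem_image] at ho
  obtain ⟨w, hw, rfl⟩ := ho
  have hw' := Z.mem_K.1 hw
  obtain ⟨g0, x, y, g1, h0, h1, h2, h3⟩ := out_split w hw'.1
  have hg := good_of hw Z h2 h3
  unfold out cod
  rw [h2, h3]
  simp only [List.head?_cons, Option.getD_some]
  rw [mem_product, mem_product, Z.mem_K, Z.mem_K]
  refine ⟨⟨by simp [h0], hg.hd⟩, ?_, ⟨?_, ?_, ?_, ?_⟩⟩
  · unfold Kw at hw
    rw [mem_filter, mem_lists] at hw
    refine hw.1.2 y ?_
    have : y ∈ w.drop (a + (l + 1)) := by rw [h3]; simp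
    exact List.mem_of_mem_drop this
  · simp [h1]
  · have h4 : (V.φ y).symm y = 0 := by
      rw [Equiv.symm_apply_eq, V.zero]
    simp [h4]
  · exact (mp_nodup _).2 hg.nd
  · exact (mp_chain_symm V).2 hg.ch

/-- **the walk outside a window**: the ratio of the numbers of walks and the conditional law -/
theorem window {μ K : ℝ} (G : Growth Z μ K) (hsh : ∀ U U', Z.T U U' → ∀ x ∈ U, x ∈ U')
    (V : Vt A) :
    ∃ R δ : ℝ, 0 < R ∧ 0 < δ ∧ ∀ (a l m : ℕ) (D : Set P) (h : List P × List P → ℝ) (Λ : ℝ),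
      2 ≤ a + (l + 1) + m → (∀ o, 0 ≤ h o) → (∀ o, h o ≤ 1) →
      Real.log (a + (l + 1) + m : ℕ) ^ 2 ≤ Λ → Λ ≤ δ * (l + 1 : ℕ) →
      Real.exp (-Λ) * μ ^ (a + (l + 1) + m) ≤ WD A D a (l + 1) m h →
      |WD A D a (l + Z.s + 1) m h / WD A D a (l + 1) m h / μ ^ Z.s - 1| ≤
        R * √(Λ / (l + 1 : ℕ)) ∧
      0 < WD A D a (l + Z.s + 1) m h ∧
      ∀ g : List P × List P → ℝ, (∀ o, 0 ≤ g o) → (∀ o, g o ≤ 1) →
      |WD A D a (l + Z.s + 1) m (fun o => h o * g o) / WD A D a (l + Z.s + 1) m h -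
        WD A D a (l + 1) m (fun o => h o * g o) / WD A D a (l + 1) m h| ≤
        R * √(Λ / (l + 1 : ℕ)) *
          (WD A D a (l + 1) m (fun o => h o * g o) / WD A D a (l + 1) m h) +
        Real.exp (-Λ) := by
  have hμ := G.hμ
  have hμ0 : 0 < μ := by linarith
  have hs := G.hs
  have hl2 : 0 < Real.log 2 := Real.log_pos (by norm_num)
  have hl2' : 69 / 100 ≤ Real.log 2 := by
    have := Real.log_two_gt_d9
    linarith
  have hs1 : (1 : ℝ) ≤ Z.s := by exact_mod_cast hs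
  obtain ⟨K1, hK1, hup⟩ := growth_le G
  obtain ⟨R0, δ0, n0, hR0, hδ0, hrat⟩ := ratio_dom G hsh
  obtain ⟨Cd, δd, nd, hCd, hδd, hdown⟩ := down_dom G hsh
  -- the constants
  obtain ⟨s2, hs2⟩ : ∃ s2 : ℝ, s2 = Real.log (4 * Z.s) / Real.log 2 := ⟨_, rfl⟩
  have hs20 : 0 ≤ s2 := by
    rw [hs2]
    exact div_nonneg (Real.log_nonneg (by linarith)) hl2.le
  obtain ⟨κ, hκ⟩ : ∃ κ : ℝ, κ = 2 * K1 + 4 * (s2 + 2) + 12 := ⟨_, rfl⟩
  have hκ1 : 1 ≤ κ := by rw [hκ]; linarith
  have hκ0 : 0 < κ := by linarith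
  have hCd0 : 0 < Cd := by linarith
  obtain ⟨δ, hδ⟩ : ∃ δ : ℝ, δ = min (min (δ0 / (Cd * κ)) (δd / κ))
    (min (1 / (4 * R0 + 1) ^ 2 / (Cd * κ) / 16) (1 / (4 * ((n0 : ℝ) + nd + 1)))) := ⟨_, rfl⟩
  have hδpos : 0 < δ := by
    rw [hδ]
    refine lt_min (lt_min ?_ ?_) (lt_min ?_ ?_) <;> positivity
  have hδ1 : δ ≤ δ0 / (Cd * κ) := by
    rw [hδ]; exact (min_le_left _ _).trans (min_le_left _ _)
  have hδ2 : δ ≤ δd / κ := by
    rw [hδ]; exact (min_le_left _ _).trans (min_le_right _ _)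
  have hδ3 : δ ≤ 1 / (4 * R0 + 1) ^ 2 / (Cd * κ) / 16 := by
    rw [hδ]; exact (min_le_right _ _).trans (min_le_left _ _)
  have hδ4 : δ ≤ 1 / (4 * ((n0 : ℝ) + nd + 1)) := by
    rw [hδ]; exact (min_le_right _ _).trans (min_le_right _ _)
  refine ⟨4 * (R0 * √(Cd * κ)) + 2, δ, by positivity, hδpos, ?_⟩
  intro a l m D h Λ hN2 hh0 hh1 hΛ1 hΛ2 hW
  obtain ⟨N, hN⟩ : ∃ N, N = a + (l + 1) + m := ⟨_, rfl⟩
  obtain ⟨L, hL⟩ : ∃ L : ℕ, L = l + 1 := ⟨_, rfl⟩
  rw [← hN] at hΛ1 hN2 hW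
  rw [← hL] at hΛ2 hW ⊢
  have hLs : l + Z.s + 1 = L + Z.s := by omega
  have hNs : a + (L + Z.s) + m = N + Z.s := by omega
  have hNL : a + L + m = N := by omega
  rw [hLs]
  have hN2' : (2 : ℝ) ≤ (N : ℝ) := by exact_mod_cast hN2
  have hN0 : (0 : ℝ) < N := by linarith
  have hL0 : (0 : ℝ) < L := by rw [hL]; positivity
  have hL1 : (1 : ℝ) ≤ L := by
    have : 1 ≤ L := by omega
    exact_mod_cast this
  have hLN : (L : ℝ) ≤ N := by
    have : L ≤ N := by omega
    exact_mod_cast this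
  obtain ⟨x, hx⟩ : ∃ x : ℝ, x = Real.log N := ⟨_, rfl⟩
  have hlN : Real.log 2 ≤ x := by rw [hx]; exact Real.log_le_log (by norm_num) hN2'
  have hx0 : 0 < x := by linarith
  rw [← hx] at hΛ1
  have hx2 : 47 / 100 ≤ x ^ 2 := by
    have h1 : ((69 / 100 : ℝ)) ^ 2 ≤ x ^ 2 := pow_le_pow_left₀ (by norm_num) (by linarith) 2
    norm_num at h1 ⊢
    linarith
  have hΛx : 47 / 100 ≤ Λ := hx2.trans hΛ1
  have hΛ0 : 0 < Λ := by linarith
  have hcard : ∀ k, (0 : ℝ) < (Kw A k).card := fun k =>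
    lt_of_lt_of_le (pow_pos hμ0 k) (G.low k)
  -- `L` is large
  have hLbig : n0 ≤ L ∧ nd ≤ L := by
    have h1 : 47 / 100 ≤ 1 / (4 * ((n0 : ℝ) + nd + 1)) * L :=
      hΛx.trans (hΛ2.trans (mul_le_mul_of_nonneg_right hδ4 hL0.le))
    rw [div_mul_eq_mul_div, le_div_iff₀ (by positivity)] at h1
    have h2 : ((n0 + nd : ℕ) : ℝ) ≤ L := by
      push_cast
      have h3 : (0 : ℝ) ≤ n0 := Nat.cast_nonneg _
      have h4 : (0 : ℝ) ≤ nd := Nat.cast_nonneg _
      linarith
    have h5 : n0 + nd ≤ L := by exact_mod_cast h2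
    omega
  -- the two thresholds
  obtain ⟨Λ1, hΛ1d⟩ : ∃ Λ1 : ℝ, Λ1 = κ * Λ := ⟨_, rfl⟩
  obtain ⟨Λ2, hΛ2d⟩ : ∃ Λ2 : ℝ, Λ2 = Cd * Λ1 := ⟨_, rfl⟩
  have hΛΛ1 : Λ ≤ Λ1 := by rw [hΛ1d]; exact le_mul_of_one_le_left hΛ0.le hκ1
  have hΛ10 : 0 < Λ1 := by linarith
  have hΛ12 : Λ1 ≤ Λ2 := by rw [hΛ2d]; exact le_mul_of_one_le_left hΛ10.le hCd
  have hlogL0 : 0 ≤ Real.log L := Real.log_nonneg hL1
  have hlogL : Real.log L ^ 2 ≤ Λ := by
    have h1 : Real.log L ≤ x := by rw [hx]; exact Real.log_le_log hL0 hLN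
    exact (pow_le_pow_left₀ hlogL0 h1 2).trans hΛ1
  have hΛ1L : Λ1 ≤ δd * L := by
    rw [hΛ1d]
    have h1 : κ * Λ ≤ κ * (δd / κ * L) :=
      mul_le_mul_of_nonneg_left (hΛ2.trans (mul_le_mul_of_nonneg_right hδ2 hL0.le)) hκ0.le
    refine h1.trans (le_of_eq ?_)
    field_simp
  have hΛ2L : Λ2 ≤ δ0 * L := by
    rw [hΛ2d, hΛ1d]
    have h1 : Cd * (κ * Λ) ≤ Cd * (κ * (δ0 / (Cd * κ) * L)) := by
      refine mul_le_mul_of_nonneg_left (mul_le_mul_of_nonneg_left ?_ hκ0.le) hCd0.le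
      exact hΛ2.trans (mul_le_mul_of_nonneg_right hδ1 hL0.le)
    refine h1.trans (le_of_eq ?_)
    field_simp
  obtain ⟨ε, hε⟩ : ∃ ε : ℝ, ε = R0 * √(Λ2 / L) := ⟨_, rfl⟩
  have hε0 : 0 ≤ ε := by rw [hε]; positivity
  have hεq : ε = R0 * √(Cd * κ) * √(Λ / L) := by
    rw [hε, hΛ2d, hΛ1d, ← mul_assoc, mul_div_assoc, Real.sqrt_mul (by positivity)]
    ring
  have hε4 : ε ≤ 1 / 16 := by
    have h1 : Λ / L ≤ 1 / (4 * R0 + 1) ^ 2 / (Cd * κ) / 16 := by
      rw [div_le_iff₀ hL0]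
      exact hΛ2.trans (mul_le_mul_of_nonneg_right hδ3 hL0.le)
    have h2 : Λ2 / L ≤ (1 / (4 * (4 * R0 + 1))) ^ 2 := by
      have h3 : Λ2 / L = Cd * κ * (Λ / L) := by rw [hΛ2d, hΛ1d]; ring
      rw [h3]
      have h4 := mul_le_mul_of_nonneg_left h1 (show 0 ≤ Cd * κ by positivity)
      refine h4.trans (le_of_eq ?_)
      field_simp
      norm_num
    have h5 : √(Λ2 / L) ≤ 1 / (4 * (4 * R0 + 1)) := by
      rw [Real.sqrt_le_left (by positivity)]
      exact h2
    rw [hε]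
    calc R0 * √(Λ2 / L) ≤ R0 * (1 / (4 * (4 * R0 + 1))) :=
          mul_le_mul_of_nonneg_left h5 hR0.le
      _ ≤ 1 / 16 := by
          rw [mul_one_div, div_le_div_iff₀ (by positivity) (by norm_num)]
          linarith
  obtain ⟨η, hη⟩ : ∃ η : ℝ, η = Real.exp (-(9 * Λ)) := ⟨_, rfl⟩
  have hη0 : 0 < η := by rw [hη]; exact Real.exp_pos _
  -- the set of outer parts
  obtain ⟨S, hS⟩ : ∃ S : Finset (List P × List P),
    S = (KD A D (a + L + m)).image (out a L) ∪
      (KD A D (a + (L + Z.s) + m)).image (out a (L + Z.s)) := ⟨_, rfl⟩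
  have hS1 : (KD A D (a + L + m)).image (out a L) ⊆ S := by
    rw [hS]; exact subset_union_left
  have hS2 : (KD A D (a + (L + Z.s) + m)).image (out a (L + Z.s)) ⊆ S := by
    rw [hS]; exact subset_union_right
  have hF : ∀ L o, 0 ≤ FD A D a L m o := fun L o => Nat.cast_nonneg _
  obtain ⟨T, hT⟩ : ∃ T : Finset (List P × List P),
    T = S.filter (fun o => FD A D a L m o < Real.exp (-Λ2) * μ ^ L) := ⟨_, rfl⟩
  -- description of the fibers
  have hfib : ∀ o ∈ S, ∃ (D' : Set P) (E : Set P),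
      FD A D a L m o = cD A D' (ind E) L ∧
      FD A D a (L + Z.s) m o = cD A D' (ind E) (L + Z.s) := by
    intro o ho
    have hex : ∃ (k : ℕ) (w : List P), w ∈ KD A D (a + (k + 1) + m) ∧ out a (k + 1) w = o := by
      rw [hS, mem_union, mem_image, mem_image] at ho
      rcases ho with ⟨w, hw, hwo⟩ | ⟨w, hw, hwo⟩
      · exact ⟨l, w, by rw [← hL]; exact hw, by rw [← hL]; exact hwo⟩
      · exact ⟨l + Z.s, w, by rw [hLs]; exact hw, by rw [hLs]; exact hwo⟩
    obtain ⟨k, w, hw, hwo⟩ := hex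
    have hwK : w ∈ Kw A (a + (k + 1) + m) := (mem_filter.1 hw).1
    have hwD : In D w := (mem_filter.1 hw).2
    obtain ⟨g0, x, y, g1, h0, h1, h2, h3⟩ := out_split w (Z.mem_K.1 hwK).1
    have hgood := good_of hwK Z h2 h3
    have hD0 : In D (g0 ++ [x]) := by
      rw [← h2]
      exact fun z hz => hwD z (List.mem_of_mem_take hz)
    have hD1 : In D (y :: g1) := by
      rw [← h3]
      exact fun z hz => hwD z (List.mem_of_mem_drop hz)
    have hout : ∀ (j : ℕ) (v : List P), out a (j + 1) v = o ↔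
        (v.take (a + 1) = g0 ++ [x] ∧ v.drop (a + (j + 1)) = y :: g1) := by
      intro j v
      rw [← hwo]
      unfold out
      rw [h2, h3, Prod.mk.injEq]
    refine ⟨DomV V D g0 x g1, {(V.φ x).symm y}, ?_, ?_⟩
    · have e := fill_eq Z V (l := l) h0 h1 hgood hD0 hD1
      unfold FD
      rw [hL]
      simp only [hout]
      exact e
    · have e := fill_eq Z V (l := l + Z.s) h0 h1 hgood hD0 hD1
      unfold FD
      rw [← hLs]
      simp only [hout]
      exact e
  have hgoodr : ∀ o ∈ S, o ∉ T →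
      |FD A D a (L + Z.s) m o - μ ^ Z.s * FD A D a L m o| ≤
        ε * (μ ^ Z.s * FD A D a L m o) := by
    intro o ho hoT
    obtain ⟨D', E, e1, e2⟩ := hfib o ho
    have hlow : Real.exp (-Λ2) * μ ^ L ≤ FD A D a L m o := by
      by_contra hc
      exact hoT (by rw [hT, mem_filter]; exact ⟨ho, not_le.1 hc⟩)
    have h1 := hrat D' (ind E) (wtD_ind _ _) L hLbig.1 Λ2
      (hlogL.trans (hΛΛ1.trans hΛ12)) hΛ2L (by rw [← e1]; exact hlow)
    rw [← e1, ← e2, ← hε] at h1
    have hc0 : 0 < FD A D a L m o := lt_of_lt_of_le (by positivity) hlow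
    have h2 : FD A D a (L + Z.s) m o - μ ^ Z.s * FD A D a L m o =
        (FD A D a (L + Z.s) m o / FD A D a L m o / μ ^ Z.s - 1) *
          (μ ^ Z.s * FD A D a L m o) := by
      field_simp
    rw [h2, abs_mul, abs_of_pos (show 0 < μ ^ Z.s * FD A D a L m o by positivity)]
    exact mul_le_mul_of_nonneg_right h1 (by positivity)
  have hbad1 : ∀ o ∈ T, FD A D a L m o ≤ Real.exp (-Λ1) * μ ^ L := by
    intro o ho
    rw [hT, mem_filter] at ho
    refine ho.2.le.trans (mul_le_mul_of_nonneg_right ?_ (by positivity))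
    exact Real.exp_le_exp.2 (by linarith)
  have hbad2 : ∀ o ∈ T, FD A D a (L + Z.s) m o ≤ Real.exp (-Λ1) * μ ^ (L + Z.s) := by
    intro o ho
    rw [hT, mem_filter] at ho
    obtain ⟨D', E, e1, e2⟩ := hfib o ho.1
    by_contra hc
    push Not at hc
    rw [e2] at hc
    have h1 := hdown D' (ind E) (wtD_ind _ _) L hLbig.2 Λ1
      (hlogL.trans hΛΛ1) hΛ1L hc.le
    rw [← hΛ2d, ← e1] at h1
    exact absurd ho.2 (not_lt.2 h1)
  -- the number of outer parts
  have hSc : (S.card : ℝ) ≤ μ ^ a * μ ^ m * Real.exp ((κ - 12) * Λ) := by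
    have h1 : ((KD A D (a + L + m)).image (out a L)).card ≤
        (Kw A a).card * ((2 * (N + Z.s) + 1) ^ 2 * (Kw A m).card) := by
      refine (card_le_card (image_subset_image (filter_subset _ _))).trans ?_
      rw [hL]
      refine (card_out Z V a l m).trans ?_
      refine Nat.mul_le_mul_left _ (Nat.mul_le_mul_right _ (Nat.pow_le_pow_left ?_ 2))
      omega
    have h2 : ((KD A D (a + (L + Z.s) + m)).image (out a (L + Z.s))).card ≤
        (Kw A a).card * ((2 * (N + Z.s) + 1) ^ 2 * (Kw A m).card) := by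
      refine (card_le_card (image_subset_image (filter_subset _ _))).trans ?_
      rw [← hLs]
      refine (card_out Z V a (l + Z.s) m).trans ?_
      refine Nat.mul_le_mul_left _ (Nat.mul_le_mul_right _ (Nat.pow_le_pow_left ?_ 2))
      omega
    have h3 : S.card ≤ 2 * ((Kw A a).card * ((2 * (N + Z.s) + 1) ^ 2 * (Kw A m).card)) := by
      rw [hS]
      refine (card_union_le _ _).trans ?_
      omega
    have h3' : (S.card : ℝ) ≤
        2 * ((Kw A a).card * ((2 * (N + Z.s) + 1) ^ 2 * (Kw A m).card)) := by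
      exact_mod_cast h3
    have h4 := hup N hN2 a (by omega)
    have h5 := hup N hN2 m (by omega)
    rw [← hx] at h4 h5
    have h6 : 2 * (2 * ((N : ℝ) + Z.s) + 1) ^ 2 ≤ Real.exp (4 * (s2 + 2) * x ^ 2) := by
      have h8 : 2 * (2 * ((N : ℝ) + Z.s) + 1) ^ 2 ≤ (4 * Z.s * N * N) ^ 2 := aux2 hN2' hs1
      refine h8.trans ?_
      have h13 : (4 * Z.s * N * N : ℝ) = Real.exp (Real.log (4 * Z.s) + 2 * x) := by
        rw [Real.exp_add, Real.exp_log (by positivity),
          show (2 : ℝ) * x = x + x by ring, Real.exp_add, hx, Real.exp_log hN0]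
        ring
      rw [h13, ← Real.exp_nat_mul]
      refine Real.exp_le_exp.2 ?_
      have h14 : Real.log (4 * Z.s) ≤ s2 * x := by
        rw [hs2, div_mul_eq_mul_div, le_div_iff₀ hl2]
        exact mul_le_mul_of_nonneg_left hlN (Real.log_nonneg (by linarith))
      have h15 : Real.log (4 * Z.s) + 2 * x ≤ (s2 + 2) * x := by linarith
      have h16 : x ≤ 2 * x ^ 2 := by
        have : x * 1 ≤ x * (2 * x) := mul_le_mul_of_nonneg_left (by linarith) hx0.le
        linarith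
      push_cast
      have h17 : (s2 + 2) * x ≤ (s2 + 2) * (2 * x ^ 2) :=
        mul_le_mul_of_nonneg_left h16 (by linarith)
      linarith
    obtain ⟨E, hE⟩ : ∃ E : ℝ, E = Real.exp (K1 * x ^ 2) := ⟨_, rfl⟩
    rw [← hE] at h4 h5
    have hE0 : 0 < E := by rw [hE]; exact Real.exp_pos _
    calc (S.card : ℝ) ≤ 2 * ((Kw A a).card * ((2 * (N + Z.s) + 1) ^ 2 * (Kw A m).card)) := h3'
      _ = (2 * (2 * ((N : ℝ) + Z.s) + 1) ^ 2) * ((Kw A a).card * (Kw A m).card) := by ring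
      _ ≤ Real.exp (4 * (s2 + 2) * x ^ 2) * ((μ ^ a * E) * (μ ^ m * E)) := by
          refine mul_le_mul h6 ?_ (by positivity) (Real.exp_pos _).le
          exact mul_le_mul h4 h5 (by positivity) (by positivity)
      _ = μ ^ a * μ ^ m * (E * E * Real.exp (4 * (s2 + 2) * x ^ 2)) := by ring
      _ = μ ^ a * μ ^ m * Real.exp ((κ - 12) * x ^ 2) := by
          rw [hE, ← Real.exp_add, ← Real.exp_add, hκ]
          congr 2
          ring
      _ ≤ _ := by
          refine mul_le_mul_of_nonneg_left (Real.exp_le_exp.2 ?_) (by positivity)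
          refine mul_le_mul_of_nonneg_left hΛ1 ?_
          rw [hκ]
          linarith
  have hTS : T ⊆ S := by
    rw [hT]
    exact filter_subset _ _
  have hTc : (T.card : ℝ) ≤ μ ^ a * μ ^ m * Real.exp ((κ - 12) * Λ) := by
    refine le_trans ?_ hSc
    rw [hT]
    exact_mod_cast card_filter_le _ _
  have hexpW : Real.exp ((κ - 12) * Λ) * Real.exp (-Λ1) = Real.exp (-(12 * Λ)) := by
    rw [← Real.exp_add, hΛ1d]
    congr 1
    ring
  obtain ⟨W, hWd⟩ : ∃ W, W = WD A D a L m h := ⟨_, rfl⟩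
  obtain ⟨W', hWd'⟩ : ∃ W', W' = WD A D a (L + Z.s) m h := ⟨_, rfl⟩
  rw [← hWd] at hW ⊢
  rw [← hWd'] at ⊢
  have hW0 : 0 < W := lt_of_lt_of_le (by positivity) hW
  have hηW : μ ^ N * Real.exp (-(12 * Λ)) ≤ η * W := by
    have h1 : η * (Real.exp (-Λ) * μ ^ N) ≤ η * W := mul_le_mul_of_nonneg_left hW hη0.le
    refine le_trans ?_ h1
    have h2 : η * (Real.exp (-Λ) * μ ^ N) = μ ^ N * Real.exp (-(10 * Λ)) := by
      rw [hη, ← mul_assoc, ← Real.exp_add, mul_comm]
      congr 2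
      ring
    rw [h2]
    refine mul_le_mul_of_nonneg_left (Real.exp_le_exp.2 (by linarith)) (by positivity)
  have hpow : μ ^ N = μ ^ a * μ ^ m * μ ^ L := by
    rw [← pow_add, ← pow_add]
    congr 1
    omega
  have hb1 : ∑ o ∈ T, FD A D a L m o ≤ η * W := by
    refine (sum_le_sum hbad1).trans ?_
    rw [sum_const, nsmul_eq_mul]
    refine le_trans ?_ hηW
    calc (T.card : ℝ) * (Real.exp (-Λ1) * μ ^ L) ≤
          (μ ^ a * μ ^ m * Real.exp ((κ - 12) * Λ)) * (Real.exp (-Λ1) * μ ^ L) :=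
          mul_le_mul_of_nonneg_right hTc (by positivity)
      _ = μ ^ a * μ ^ m * μ ^ L * (Real.exp ((κ - 12) * Λ) * Real.exp (-Λ1)) := by ring
      _ = _ := by rw [hexpW, hpow]
  have hb2 : ∑ o ∈ T, FD A D a (L + Z.s) m o ≤ η * (μ ^ Z.s * W) := by
    refine (sum_le_sum hbad2).trans ?_
    rw [sum_const, nsmul_eq_mul]
    have h1 : η * (μ ^ Z.s * W) = μ ^ Z.s * (η * W) := by ring
    rw [h1]
    refine le_trans ?_ (mul_le_mul_of_nonneg_left hηW (by positivity))
    calc (T.card : ℝ) * (Real.exp (-Λ1) * μ ^ (L + Z.s)) ≤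
          (μ ^ a * μ ^ m * Real.exp ((κ - 12) * Λ)) * (Real.exp (-Λ1) * μ ^ (L + Z.s)) :=
          mul_le_mul_of_nonneg_right hTc (by positivity)
      _ = μ ^ Z.s * (μ ^ a * μ ^ m * μ ^ L * (Real.exp ((κ - 12) * Λ) * Real.exp (-Λ1))) := by
          rw [pow_add]
          ring
      _ = _ := by rw [hexpW, hpow]
  have hmain : ∀ k : List P × List P → ℝ, (∀ o, 0 ≤ k o) → (∀ o, k o ≤ 1) →
      |WD A D a (L + Z.s) m k - μ ^ Z.s * WD A D a L m k| ≤
        ε * (μ ^ Z.s * WD A D a L m k) + 2 * (η * (μ ^ Z.s * W)) := by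
    intro k hk0 hk1
    rw [WD_eq hS1, WD_eq hS2]
    exact alg S T hTS _ _ k _ ε η W (by positivity) (fun o _ => hk0 o) (fun o _ => hk1 o)
      (fun o _ => hF _ o) (fun o _ => hF _ o) hε0 hgoodr hb1 hb2
  have hη16 : 2 * η ≤ 1 / 16 ∧ 8 * η ≤ Real.exp (-Λ) := by
    have h1 : Real.exp (-(8 * Λ)) ≤ 1 / 32 := by
      have h2 : Real.exp (-(8 * Λ)) ≤ Real.exp (-(5 * Real.log 2)) := by
        refine Real.exp_le_exp.2 ?_
        have := Real.log_two_lt_d9
        linarith
      refine h2.trans (le_of_eq ?_)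
      rw [Real.exp_neg, show (5 : ℝ) * Real.log 2 = ((5 : ℕ) : ℝ) * Real.log 2 by norm_num,
        Real.exp_nat_mul, Real.exp_log (by norm_num)]
      norm_num
    have h3 : η = Real.exp (-(8 * Λ)) * Real.exp (-Λ) := by
      rw [hη, ← Real.exp_add]
      congr 1
      ring
    have h4 : Real.exp (-Λ) ≤ 1 := Real.exp_le_one_iff.2 (by linarith)
    have h5 := Real.exp_pos (-Λ)
    rw [h3]
    exact aux3 h1 h5 h4
  have hηs : 2 * η ≤ √(Λ / L) := by
    rw [Real.sqrt_div hΛ0.le, le_div_iff₀ (Real.sqrt_pos.2 hL0)]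
    have h13 : √(L : ℝ) ≤ Real.exp (x / 2) := by
      rw [Real.sqrt_le_left (Real.exp_pos _).le, ← Real.exp_nat_mul]
      have : ((2 : ℕ) : ℝ) * (x / 2) = x := by push_cast; ring
      rw [this, hx, Real.exp_log hN0]
      exact hLN
    have h14 : 1 / 2 ≤ √Λ := by
      refine Real.le_sqrt_of_sq_le ?_
      norm_num
      linarith
    refine le_trans ?_ h14
    calc 2 * η * √(L : ℝ) ≤ 2 * η * Real.exp (x / 2) :=
          mul_le_mul_of_nonneg_left h13 (by positivity)
      _ = 2 * Real.exp (-(9 * Λ) + x / 2) := by rw [hη, mul_assoc, ← Real.exp_add]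
      _ ≤ 2 * Real.exp (-(2 * Real.log 2)) := by
          refine mul_le_mul_of_nonneg_left (Real.exp_le_exp.2 ?_) (by norm_num)
          have h15 := Real.log_two_lt_d9
          have h16 : x / 2 ≤ x ^ 2 := by
            have : x * (1 / 2) ≤ x * x := mul_le_mul_of_nonneg_left (by linarith) hx0.le
            linarith
          linarith
      _ = 1 / 2 := by
          rw [Real.exp_neg, show (2 : ℝ) * Real.log 2 = ((2 : ℕ) : ℝ) * Real.log 2 by norm_num,
            Real.exp_nat_mul, Real.exp_log (by norm_num)]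
          norm_num
  have hmW := hmain h hh0 hh1
  rw [← hWd, ← hWd'] at hmW
  have hMW : 0 < μ ^ Z.s * W := by positivity
  have hsq0 : 0 ≤ √(Λ / L) := Real.sqrt_nonneg _
  obtain ⟨ω, hω⟩ : ∃ ω : ℝ, ω = W' / (μ ^ Z.s * W) := ⟨_, rfl⟩
  have hωe : W' = ω * (μ ^ Z.s * W) := by rw [hω, div_mul_cancel₀ _ hMW.ne']
  have hω1 : |ω - 1| ≤ ε + 2 * η := by
    have h1 : W' - μ ^ Z.s * W = (ω - 1) * (μ ^ Z.s * W) := by rw [hωe]; ring
    rw [h1, abs_mul, abs_of_pos hMW] at hmW
    have h2 : |ω - 1| * (μ ^ Z.s * W) ≤ (ε + 2 * η) * (μ ^ Z.s * W) := by linarith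
    exact le_of_mul_le_mul_right h2 hMW
  have hω2 : 7 / 8 ≤ ω := by
    have := (abs_le.1 hω1).1
    linarith [hη16.1]
  have hR : ε = R0 * √(Cd * κ) * √(Λ / L) := hεq
  refine ⟨?_, ?_, ?_⟩
  · have h1 : W' / W / μ ^ Z.s = ω := by rw [hω]; field_simp
    rw [h1]
    refine hω1.trans ?_
    rw [hR]
    have : 0 ≤ R0 * √(Cd * κ) * √(Λ / L) := by positivity
    linarith
  · rw [hωe]
    positivity
  · intro g hg0 hg1
    have hk0 : ∀ o, 0 ≤ h o * g o := fun o => mul_nonneg (hh0 o) (hg0 o)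
    have hk1 : ∀ o, h o * g o ≤ 1 := fun o => by
      have := mul_le_mul (hh1 o) (hg1 o) (hg0 o) zero_le_one
      linarith
    have hmT := hmain (fun o => h o * g o) hk0 hk1
    obtain ⟨V, hV⟩ : ∃ V, V = WD A D a L m (fun o => h o * g o) := ⟨_, rfl⟩
    obtain ⟨V', hV'⟩ : ∃ V', V' = WD A D a (L + Z.s) m (fun o => h o * g o) := ⟨_, rfl⟩
    rw [← hV, ← hV'] at hmT
    rw [← hV, ← hV']
    have hV0 : 0 ≤ V := by
      rw [hV]
      exact sum_nonneg fun _ _ => hk0 _
    have hVW : V ≤ W := by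
      rw [hV, hWd]
      refine sum_le_sum fun w _ => ?_
      exact mul_le_of_le_one_right (hh0 _) (hg1 _)
    obtain ⟨t, ht⟩ : ∃ t, t = V / W := ⟨_, rfl⟩
    have ht0 : 0 ≤ t := by rw [ht]; positivity
    have ht1 : t ≤ 1 := by rw [ht, div_le_one hW0]; exact hVW
    have hVt : V = t * W := by rw [ht, div_mul_cancel₀ _ hW0.ne']
    obtain ⟨τ, hτ⟩ : ∃ τ, τ = V' / (μ ^ Z.s * W) := ⟨_, rfl⟩
    have hV'τ : V' = τ * (μ ^ Z.s * W) := by rw [hτ, div_mul_cancel₀ _ hMW.ne']
    have hτt : |τ - t| ≤ ε * t + 2 * η := by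
      have h1 : V' - μ ^ Z.s * V = (τ - t) * (μ ^ Z.s * W) := by rw [hV'τ, hVt]; ring
      have h2 : ε * (μ ^ Z.s * V) = ε * t * (μ ^ Z.s * W) := by rw [hVt]; ring
      rw [h1, h2, abs_mul, abs_of_pos hMW] at hmT
      have h3 : |τ - t| * (μ ^ Z.s * W) ≤ (ε * t + 2 * η) * (μ ^ Z.s * W) := by linarith
      exact le_of_mul_le_mul_right h3 hMW
    have hω0 : 0 < ω := by linarith
    have e1 : V' / W' - t = (τ - t * ω) / ω := by
      rw [hωe, hV'τ]
      field_simp
    rw [← ht, e1, abs_div, abs_of_pos hω0, div_le_iff₀ hω0]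
    have h5 : |τ - t * ω| ≤ |τ - t| + t * |ω - 1| := by
      have h6 : τ - t * ω = (τ - t) - t * (ω - 1) := by ring
      rw [h6]
      refine (abs_sub _ _).trans ?_
      rw [abs_mul, abs_of_nonneg ht0]
    have h6 : t * |ω - 1| ≤ t * (ε + 2 * η) := mul_le_mul_of_nonneg_left hω1 ht0
    have h7 : t * η ≤ η := mul_le_of_le_one_left hη0.le ht1
    have h8 : |τ - t * ω| ≤ 2 * (ε * t) + 4 * η := by
      have e2 : t * (ε + 2 * η) = ε * t + 2 * (t * η) := by ring
      rw [e2] at h6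
      linarith
    have h9 : 2 * (ε * t) + 4 * η ≤ (4 * (ε * t) + 8 * η) * ω := by
      have h10 : 0 ≤ ε * t := mul_nonneg hε0 ht0
      have h11 : (4 * (ε * t) + 8 * η) * (1 / 2) ≤ (4 * (ε * t) + 8 * η) * ω :=
        mul_le_mul_of_nonneg_left (by linarith) (by linarith)
      linarith
    refine h8.trans (h9.trans (mul_le_mul_of_nonneg_right ?_ hω0.le))
    refine add_le_add ?_ hη16.2
    rw [hR]
    have h12 : 0 ≤ 2 * √(Λ / L) * t := mul_nonneg (by positivity) ht0
    have h13 : (4 * (R0 * √(Cd * κ)) + 2) * √(Λ / L) * t =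
        4 * (R0 * √(Cd * κ) * √(Λ / L) * t) + 2 * √(Λ / L) * t := by ring
    rw [h13]
    linarith

end Q215.SAW
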