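import Pool.Agent.Q215.SAW.SerB
import Pool.Agent.Q219.SAW.Z3

/-!
# Self-avoiding walks on `ℤ³`: the logarithms of the numbers as an almost convex sequence
-/

set_option autoImplicit false

namespace Q215.SAW.Z3

open Filter Topology TH966.KO Cvx Q219.SAW.Z3

/-- `log (c_n / μ^n)` -/
noncomputable def el (n : ℕ) : ℝ := Real.log ((C n : ℝ) / μ ^ n)

theorem q_pos (n : ℕ) : 0 < (C n : ℝ) / μ ^ n := div_pos (C_pos n) (pow_pos mu_pos n)

theorem el_nonneg (n : ℕ) : 0 ≤ el n := by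
  unfold el
  refine Real.log_nonneg ?_
  rw [one_le_div (pow_pos mu_pos n), C_eq]
  exact TH966.KO.mu_pow n

/-- **near-convexity** -/
theorem el_cvx : ∃ (D : ℝ) (N : ℕ), 0 ≤ D ∧ 1 ≤ N ∧ ∀ n, N ≤ n →
    2 * el (n + 2) ≤ el n + el (n + 4) + D / n := by
  obtain ⟨D, hD, h⟩ := kesten
  obtain ⟨N, hN⟩ := eventually_atTop.1 h
  refine ⟨D, N + 1, hD, by omega, fun n hn => ?_⟩
  have h1 := hN n (by omega)
  rw [← C_eq, ← C_eq, ← C_eq] at h1
  have hn0 : (0 : ℝ) < n := by exact_mod_cast (show 0 < n by omega)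
  have hμ := mu_pos
  have c0 := C_pos n
  have c2 := C_pos (n + 2)
  have c4 := C_pos (n + 4)
  have hq : 0 < 1 + D / n := by positivity
  have h2 := Real.log_le_log (by positivity) h1
  rw [Real.log_pow, Real.log_mul (by positivity) hq.ne', Real.log_mul c0.ne' c4.ne'] at h2
  have h3 : Real.log (1 + D / n) ≤ D / n := by
    have := Real.log_le_sub_one_of_pos hq
    linarith
  unfold el
  rw [Real.log_div c2.ne' (pow_pos hμ _).ne', Real.log_div c0.ne' (pow_pos hμ _).ne',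
    Real.log_div c4.ne' (pow_pos hμ _).ne', Real.log_pow, Real.log_pow, Real.log_pow]
  push_cast at h2 ⊢
  linarith

theorem el_ac (r : ℕ) : ∃ (D : ℝ) (k0 : ℕ), 0 ≤ D ∧ AC (fun k => el (2 * k + r)) D k0 := by
  obtain ⟨D, N, hD, hN, h⟩ := el_cvx
  refine ⟨D, N, hD, fun k hk => ?_⟩
  have h1 := h (2 * k + r) (by omega)
  have e1 : 2 * (k + 1) + r = 2 * k + r + 2 := by ring
  have e2 : 2 * (k + 2) + r = 2 * k + r + 4 := by ring
  simp only [e1, e2]
  have hk0 : (0 : ℝ) < k := by exact_mod_cast (show 0 < k by omega)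
  have h2 : D / ((2 * k + r : ℕ) : ℝ) ≤ D / k := by
    refine div_le_div_of_nonneg_left hD hk0 ?_
    exact_mod_cast (show k ≤ 2 * k + r by omega)
  linarith

/-- the steps are bounded -/
theorem el_step : ∃ (B : ℝ) (N : ℕ), ∀ n, N ≤ n → |el (n + 1) - el n| ≤ B := by
  obtain ⟨K, hK⟩ := rates_all (1 / 6) (by norm_num)
  have hμ := mu_pos
  have hc1 := C_pos 1
  have t0 : Tendsto (fun n : ℕ => |K| * (n : ℝ) ^ (-(1 / 6 : ℝ))) atTop (𝓝 0) := by
    have h1 := (tendsto_rpow_neg_atTop (show (0 : ℝ) < 1 / 6 by norm_num)).comp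
      tendsto_natCast_atTop_atTop
    have h2 := h1.const_mul |K|
    rw [mul_zero] at h2
    exact h2
  obtain ⟨N, hN⟩ := eventually_atTop.1 ((t0.eventually_le_const
    (show (0 : ℝ) < μ ^ 2 / 2 by positivity)).and (eventually_ge_atTop 1))
  obtain ⟨U, hU⟩ : ∃ U : ℝ, U = Real.log (C 1 : ℝ) := ⟨_, rfl⟩
  -- upper bound for one step
  have hup : ∀ n, Real.log (C (n + 1) : ℝ) - Real.log (C n : ℝ) ≤ U := by
    intro n
    have h1 := Real.log_le_log (C_pos (n + 1)) (C_add n 1)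
    rw [Real.log_mul (C_pos n).ne' hc1.ne'] at h1
    rw [hU]
    linarith
  have hlo : ∀ n, N ≤ n → Real.log (μ ^ 2 / 2) ≤
      Real.log (C (n + 2) : ℝ) - Real.log (C n : ℝ) := by
    intro n hn
    obtain ⟨h1, h2⟩ := hN n hn
    obtain ⟨h3, -⟩ := hK n h2
    have e : (-(1 / 3 : ℝ) + 1 / 6) = -(1 / 6 : ℝ) := by norm_num
    rw [e] at h3
    have h4 : K * (n : ℝ) ^ (-(1 / 6 : ℝ)) ≤ |K| * (n : ℝ) ^ (-(1 / 6 : ℝ)) :=
      mul_le_mul_of_nonneg_right (le_abs_self K) (by positivity)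
    have h5 : μ ^ 2 / 2 ≤ (C (n + 2) : ℝ) / C n := by linarith
    rw [← Real.log_div (C_pos _).ne' (C_pos _).ne']
    exact Real.log_le_log (by positivity) h5
  refine ⟨|U| + |Real.log (μ ^ 2 / 2)| + |U| + |Real.log μ|, N, fun n hn => ?_⟩
  have h1 := hup n
  have h2 := hup (n + 1)
  have h3 := hlo n hn
  have e : el (n + 1) - el n =
      (Real.log (C (n + 1) : ℝ) - Real.log (C n : ℝ)) - Real.log μ := by
    unfold el
    rw [Real.log_div (C_pos _).ne' (pow_pos hμ _).ne',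
      Real.log_div (C_pos _).ne' (pow_pos hμ _).ne', Real.log_pow, Real.log_pow]
    push_cast
    ring
  rw [e]
  have g1 := le_abs_self U
  have g2 := neg_abs_le (Real.log (μ ^ 2 / 2))
  have g3 := neg_abs_le (Real.log μ)
  have g4 := le_abs_self (Real.log μ)
  have g5 := abs_nonneg U
  have g6 := abs_nonneg (Real.log (μ ^ 2 / 2))
  rw [abs_le]
  have e2 : n + 1 + 1 = n + 2 := rfl
  rw [e2] at h2
  constructor <;> linarith

/-- **the series of the logarithms** -/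
theorem ser3 : Ser el 2 := ⟨by norm_num, fun r _ => el_ac r, el_step⟩

/-- the ratio theorem under a polynomial bound -/
theorem ratio3 {B : ℝ} (hB : ∀ᶠ n : ℕ in atTop, el n ≤ B * Real.log n) : ∃ K : ℝ, 0 < K ∧
    ∀ᶠ n : ℕ in atTop, |(C (n + 2) : ℝ) / C n - μ ^ 2| ≤ K * √(Real.log n / n) := by
  have hμ := mu_pos
  obtain ⟨R, hR, h⟩ := ser3.slopes (B := B) (by
    filter_upwards [hB] with n hn
    rwa [abs_of_nonneg (el_nonneg n)])
  have t0 : Tendsto (fun n : ℕ => R * √(Real.log n / n)) atTop (𝓝 0) := by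
    have h1 : Tendsto (fun n : ℕ => Real.log n / n) atTop (𝓝 0) :=
      Real.isLittleO_log_id_atTop.tendsto_div_nhds_zero.comp tendsto_natCast_atTop_atTop
    have h2 := (Real.continuous_sqrt.tendsto _).comp h1
    rw [Real.sqrt_zero] at h2
    have h3 := h2.const_mul R
    rw [mul_zero] at h3
    exact h3
  refine ⟨μ ^ 2 * (2 * R), by positivity, ?_⟩
  filter_upwards [h, t0.eventually_le_const one_pos] with n h1 h2
  have h3 := exp_slope (q_pos n) (q_pos (n + 2)) h1 h2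
  have e : (C (n + 2) : ℝ) / C n - μ ^ 2 =
      μ ^ 2 * ((C (n + 2) : ℝ) / μ ^ (n + 2) / ((C n : ℝ) / μ ^ n) - 1) := by
    have := (C_pos n).ne'
    have := (C_pos (n + 2)).ne'
    rw [pow_add]
    field_simp
  rw [e, abs_mul, abs_of_pos (show 0 < μ ^ 2 by positivity), mul_assoc]
  refine mul_le_mul_of_nonneg_left ?_ (by positivity)
  linarith

end Q215.SAW.Z3
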