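import Pool.Agent.Q215.SAW.Z3

/-!
# Self-avoiding walks on `ℤ³`: the asymptotic formula along sparse sequences
-/

set_option autoImplicit false

namespace Q215.SAW.Z3

open Filter Topology TH966.KO Cvx Q219.SAW.Z3

/-- `c_n / (μⁿ n^(γ-1))` at `n = 2 k + e` -/
noncomputable def F (e : ℕ) (γ : ℝ) (k : ℕ) : ℝ :=
  (C (2 * k + e) : ℝ) / (μ ^ (2 * k + e) * ((2 * k + e : ℕ) : ℝ) ^ (γ - 1))

/-- its logarithm -/
noncomputable def xF (e : ℕ) (γ : ℝ) (k : ℕ) : ℝ :=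
  el (2 * k + e) - (γ - 1) * Real.log ((2 * k + e : ℕ) : ℝ)

theorem F_exp (e : ℕ) (γ : ℝ) {k : ℕ} (hk : 1 ≤ k) : F e γ k = Real.exp (xF e γ k) := by
  have hn : (0 : ℝ) < ((2 * k + e : ℕ) : ℝ) := by exact_mod_cast (show 0 < 2 * k + e by omega)
  unfold F xF el
  rw [Real.exp_sub, Real.exp_log (q_pos _), ← div_div]
  congr 1
  rw [Real.rpow_def_of_pos hn, mul_comm]

theorem F_pos (e : ℕ) (γ : ℝ) {k : ℕ} (hk : 1 ≤ k) : 0 < F e γ k := by
  rw [F_exp e γ hk]; exact Real.exp_pos _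

theorem log_F (e : ℕ) (γ : ℝ) {k : ℕ} (hk : 1 ≤ k) : Real.log (F e γ k) = xF e γ k := by
  rw [F_exp e γ hk, Real.log_exp]

/-- **near-convexity** -/
theorem xF_ac (e : ℕ) (γ : ℝ) : ∃ (D : ℝ) (k0 : ℕ), 0 ≤ D ∧ AC (xF e γ) D k0 := by
  obtain ⟨D, k0, hD, h⟩ := el_ac e
  refine ⟨D + 2 * |γ - 1|, k0 + 1, by positivity, fun k hk => ?_⟩
  have h1 := h k (by omega)
  simp only at h1
  have hk1 : 1 ≤ k := by omega
  have hk0 : (0 : ℝ) < k := by exact_mod_cast hk1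
  obtain ⟨L, hL⟩ : ∃ L : ℕ → ℝ, L = fun m => Real.log ((2 * m + e : ℕ) : ℝ) := ⟨_, rfl⟩
  have a1 : |L (k + 1) - L k| ≤ 1 / k := by
    rw [hL]; exact log_inc hk1
  have a2 : |L (k + 2) - L (k + 1)| ≤ 1 / k := by
    have h2 := log_inc (m := k + 1) (e := e) (by omega)
    have h3 : (1 : ℝ) / ((k + 1 : ℕ) : ℝ) ≤ 1 / k := by
      refine div_le_div_of_nonneg_left zero_le_one hk0 ?_
      push_cast
      linarith
    rw [hL]
    exact h2.trans h3
  have a3 : |(γ - 1) * (L (k + 2) - 2 * L (k + 1) + L k)| ≤ |γ - 1| * (2 / k) := by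
    rw [abs_mul]
    refine mul_le_mul_of_nonneg_left ?_ (abs_nonneg _)
    have e1 : L (k + 2) - 2 * L (k + 1) + L k = (L (k + 2) - L (k + 1)) - (L (k + 1) - L k) := by
      ring
    rw [e1]
    refine (abs_sub _ _).trans ?_
    have e2 : (2 : ℝ) / k = 1 / k + 1 / k := by ring
    rw [e2]
    linarith
  have a4 := neg_abs_le ((γ - 1) * (L (k + 2) - 2 * L (k + 1) + L k))
  have a5 := le_abs_self ((γ - 1) * (L (k + 2) - 2 * L (k + 1) + L k))
  have e3 : (D + 2 * |γ - 1|) / (k : ℝ) = D / k + |γ - 1| * (2 / k) := by ring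
  have e4 : ∀ m, xF e γ m = el (2 * m + e) - (γ - 1) * L m := fun m => by rw [hL]; rfl
  rw [e3, e4, e4, e4]
  linarith

/-- upper bounds -/
theorem F_up {e : ℕ} {γ : ℝ} {t : ℕ → ℕ} (ht : Tendsto t atTop atTop) (hs : RootSparse t)
    {b : ℝ} (hb : ∀ᶠ j in atTop, F e γ (t j) ≤ b) {ε : ℝ} (hε : 0 < ε) :
    ∀ᶠ k in atTop, F e γ k ≤ b + ε := by
  obtain ⟨D, k0, hD, h⟩ := xF_ac e γ
  have hb0 : 0 < b := by
    obtain ⟨j, h1, h2⟩ := (hb.and (ht.eventually_ge_atTop 1)).exists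
    exact (F_pos e γ h2).trans_le h1
  have h1 := up0 h hD ht hs (b := Real.log b) (fun δ hδ => by
    filter_upwards [hb, ht.eventually_ge_atTop 1] with j h1 h2
    rw [← log_F e γ h2]
    have := Real.log_le_log (F_pos e γ h2) h1
    linarith) (ε := Real.log (1 + ε / b)) (Real.log_pos (by
      have : 0 < ε / b := by positivity
      linarith))
  filter_upwards [h1, eventually_ge_atTop 1] with k h2 h3
  rw [F_exp e γ h3]
  have h4 := Real.exp_le_exp.2 h2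
  rw [Real.exp_add, Real.exp_log hb0, Real.exp_log (by positivity)] at h4
  refine h4.trans (le_of_eq ?_)
  field_simp

/-- boundedness -/
theorem F_bdd {e : ℕ} {γ : ℝ} {t : ℕ → ℕ} (ht : Tendsto t atTop atTop) {η : ℝ} (hη : 0 ≤ η)
    (hg : ∀ᶠ j in atTop, (t (j + 1) : ℝ) - t j ≤ η * √(t j))
    {b : ℝ} (hb : ∀ᶠ j in atTop, F e γ (t j) ≤ b) : ∃ b' : ℝ, ∀ᶠ k in atTop, F e γ k ≤ b' := by
  obtain ⟨D, k0, hD, h⟩ := xF_ac e γ
  have h1 := upK h hD ht hg (b := Real.log b) (by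
    filter_upwards [hb, ht.eventually_ge_atTop 1] with j h1 h2
    rw [← log_F e γ h2]
    exact Real.log_le_log (F_pos e γ h2) h1)
  refine ⟨Real.exp (Real.log b + D * η ^ 2), ?_⟩
  filter_upwards [h1, eventually_ge_atTop 1] with k h2 h3
  rw [F_exp e γ h3]
  exact Real.exp_le_exp.2 h2

/-- two-sided bounds -/
theorem F_two {e : ℕ} {γ : ℝ} {t : ℕ → ℕ} (ht : Tendsto t atTop atTop) {η : ℝ} (hη : 0 ≤ η)
    (hg : ∀ᶠ j in atTop, (t (j + 1) : ℝ) - t j ≤ η * √(t j)) {B : ℝ}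
    (hB : ∀ᶠ k in atTop, F e γ k ≤ B) {a : ℝ} (ha0 : 0 < a)
    (ha : ∀ᶠ j in atTop, a ≤ F e γ (t j)) : ∃ a' : ℝ, 0 < a' ∧ ∀ᶠ k in atTop, a' ≤ F e γ k := by
  obtain ⟨D, k0, hD, h⟩ := xF_ac e γ
  have h1 := loK h hD ht hη hg (B := Real.log B) (by
    filter_upwards [hB, eventually_ge_atTop 1] with k h1 h2
    rw [← log_F e γ h2]
    exact Real.log_le_log (F_pos e γ h2) h1) (a := Real.log a) (by
    filter_upwards [ha, ht.eventually_ge_atTop 1] with j h1 h2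
    rw [← log_F e γ h2]
    exact Real.log_le_log ha0 h1)
  refine ⟨Real.exp (Real.log a - η * (|Real.log B - Real.log a| + D * (η + 2))),
    Real.exp_pos _, ?_⟩
  filter_upwards [h1, eventually_ge_atTop 1] with k h2 h3
  rw [F_exp e γ h3]
  exact Real.exp_le_exp.2 h2

/-- lower bounds, small gaps -/
theorem F_low {e : ℕ} {γ : ℝ} {t : ℕ → ℕ} (ht : Tendsto t atTop atTop) (hs : RootSparse t)
    {B : ℝ} (hB : ∀ᶠ k in atTop, F e γ k ≤ B) {a : ℝ} (ha0 : 0 < a)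
    (ha : ∀ᶠ j in atTop, a ≤ F e γ (t j)) {ε : ℝ} (hε : 0 < ε) :
    ∀ᶠ k in atTop, a - ε ≤ F e γ k := by
  obtain ⟨D, k0, hD, h⟩ := xF_ac e γ
  rcases le_or_gt a ε with hae | hae
  · filter_upwards [eventually_ge_atTop 1] with k h3
    have := F_pos e γ h3
    linarith
  have h1 := lo0 h hD ht hs (B := Real.log B) (by
    filter_upwards [hB, eventually_ge_atTop 1] with k h1 h2
    rw [← log_F e γ h2]
    exact Real.log_le_log (F_pos e γ h2) h1) (a := Real.log a) (fun δ hδ => by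
    filter_upwards [ha, ht.eventually_ge_atTop 1] with j h1 h2
    rw [← log_F e γ h2]
    have := Real.log_le_log ha0 h1
    linarith) (ε := Real.log a - Real.log (a - ε)) (by
      have := Real.log_lt_log (show 0 < a - ε by linarith) (show a - ε < a by linarith)
      linarith)
  filter_upwards [h1, eventually_ge_atTop 1] with k h2 h3
  rw [F_exp e γ h3]
  have h4 := Real.exp_le_exp.2 h2
  rw [show Real.log a - (Real.log a - Real.log (a - ε)) = Real.log (a - ε) by ring,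
    Real.exp_log (by linarith)] at h4
  exact h4

end Q215.SAW.Z3
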